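import Pool.Agent.SPK.Bas

/-!
# [SPK-Aff] automorphisms of the lattice

`pull`: `n' i = d3 n (φ.symm (Pi.single i 1))`; `d3 n' y = d3 n (φ.symm y)` because `y = ∑ y i • Pi.single i 1`. `pullR` the same.
`affine map` `tr φ a x = φ (x - a)`, inverse `y ↦ φ.symm y + a`.
`tr_smo`: a vertex `y = tr φ a x` of the image (functional `n`) comes from the vertex `x` (functional `pull` of `n` for `φ.symm`); the basis is `φ ∘ b`. `tr_lat`: `mem_hull` (SPB/TriA), apply `φ.symm` (real coefficients: `lin` of the functionals `Pi.single i 1` and `pullR`).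
-/

open Finset Pool.Agent.SPB

set_option autoImplicit false

namespace Pool.Agent.SPK

/-- affine automorphism of the lattice -/
def tr (φ : W ≃+ W) (a : W) (x : W) : W := φ (x - a)

/-- its inverse -/
def rt (φ : W ≃+ W) (a : W) (y : W) : W := φ.symm y + a

/-- image -/
def trA (φ : W ≃+ W) (a : W) (A : Finset W) : Finset W := A.image (tr φ a)

private theorem aff_eq_sum (y : W) : y = ∑ i, y i • (Pi.single i (1 : ℤ) : W) := by
  funext j
  simp [Finset.sum_apply, Pi.single_apply]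

/-- additive functionals are given by integer vectors -/
theorem aff_rep (f : W →+ ℤ) : ∃ n' : W, ∀ x, d3 n' x = f x := by
  refine ⟨fun i => f (Pi.single i 1), fun x => ?_⟩
  conv_rhs => rw [aff_eq_sum x]
  rw [map_sum]
  unfold d3
  exact Finset.sum_congr rfl fun i _ => by rw [map_zsmul, smul_eq_mul, mul_comm]

/-- real additive functionals are given by real vectors -/
theorem aff_repR (f : W →+ ℝ) : ∃ L : Fin 3 → ℝ, ∀ x, lin L x = f x := by
  refine ⟨fun i => f (Pi.single i 1), fun x => ?_⟩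
  conv_rhs => rw [aff_eq_sum x]
  rw [map_sum]
  unfold lin
  exact Finset.sum_congr rfl fun i _ => by rw [map_zsmul, zsmul_eq_mul, mul_comm]

theorem pull (φ : W ≃+ W) (n : W) : ∃ n' : W, ∀ x, d3 n' (φ x) = d3 n x := by
  obtain ⟨n', h⟩ := aff_rep ((AddMonoidHom.mk' (d3 n) (d3_add n)).comp φ.symm.toAddMonoidHom)
  refine ⟨n', fun x => ?_⟩
  rw [h]
  simp

theorem pullR (φ : W ≃+ W) (L : Fin 3 → ℝ) : ∃ L' : Fin 3 → ℝ, ∀ x, lin L' (φ x) = lin L x := by
  obtain ⟨L', h⟩ := aff_repR ((AddMonoidHom.mk' (lin L) (lin_add L)).comp φ.symm.toAddMonoidHom)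
  refine ⟨L', fun x => ?_⟩
  rw [h]
  simp

theorem aff_rt_tr (φ : W ≃+ W) (a x : W) : rt φ a (tr φ a x) = x := by
  simp [rt, tr]

theorem aff_tr_rt (φ : W ≃+ W) (a y : W) : tr φ a (rt φ a y) = y := by
  simp [rt, tr]

theorem aff_tr_inj (φ : W ≃+ W) (a : W) : Function.Injective (tr φ a) := by
  intro x y h
  have := congrArg (rt φ a) h
  rwa [aff_rt_tr, aff_rt_tr] at this

theorem mem_trA {φ : W ≃+ W} {a : W} {A : Finset W} {y : W} : y ∈ trA φ a A ↔ rt φ a y ∈ A := by
  unfold trA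
  rw [Finset.mem_image]
  constructor
  · rintro ⟨x, hx, rfl⟩
    rwa [aff_rt_tr]
  · intro h
    exact ⟨_, h, aff_tr_rt φ a y⟩

theorem aff_tr_mem {φ : W ≃+ W} {a : W} {A : Finset W} {x : W} : tr φ a x ∈ trA φ a A ↔ x ∈ A := by
  rw [mem_trA, aff_rt_tr]

theorem aff_tr_sub (φ : W ≃+ W) (a x y : W) : tr φ a y - tr φ a x = φ (y - x) := by
  unfold tr
  rw [← map_sub]
  congr 1
  abel

theorem aff_tr_add (φ : W ≃+ W) (a x y : W) : tr φ a (x + y) = tr φ a x + φ y := by
  unfold tr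
  rw [← map_add]
  congr 1
  abel

theorem tr_nonCol {φ : W ≃+ W} {a : W} {A : Finset W} : NonCol (trA φ a A) ↔ NonCol A := by
  have key : ∀ (x y z : W) (s t : ℤ), s • (tr φ a y - tr φ a x) + t • (tr φ a z - tr φ a x) = 0 ↔
      s • (y - x) + t • (z - x) = 0 := by
    intro x y z s t
    rw [aff_tr_sub, aff_tr_sub, ← map_zsmul, ← map_zsmul, ← map_add]
    exact map_eq_zero_iff φ φ.injective
  constructor
  · rintro ⟨x, hx, y, hy, z, hz, h⟩
    refine ⟨rt φ a x, mem_trA.1 hx, rt φ a y, mem_trA.1 hy, rt φ a z, mem_trA.1 hz, fun s t hst => ?_⟩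
    apply h s t
    rw [← key, aff_tr_rt, aff_tr_rt, aff_tr_rt] at hst
    exact hst
  · rintro ⟨x, hx, y, hy, z, hz, h⟩
    refine ⟨tr φ a x, aff_tr_mem.2 hx, tr φ a y, aff_tr_mem.2 hy, tr φ a z, aff_tr_mem.2 hz, fun s t hst => ?_⟩
    exact h s t ((key x y z s t).1 hst)

theorem tr_smo {φ : W ≃+ W} {a : W} {A : Finset W} (h : Smo A) : Smo (trA φ a A) := by
  intro y hy
  obtain ⟨hy1, n, hn⟩ := hy
  obtain ⟨n', hn'⟩ := pull φ.symm n
  have hval : ∀ x, d3 n (tr φ a x) = d3 n' (x - a) := by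
    intro x
    have := hn' (φ (x - a))
    rw [AddEquiv.symm_apply_apply] at this
    exact this.symm
  have hx : IsV A (rt φ a y) := by
    refine ⟨mem_trA.1 hy1, n', fun z hz hne => ?_⟩
    have h1 := hn (tr φ a z) (aff_tr_mem.2 hz) (fun e => hne (by rw [← e, aff_rt_tr]))
    have h2 := hval (rt φ a y)
    rw [aff_tr_rt] at h2
    rw [hval, h2, d3_sub, d3_sub] at h1
    linarith
  obtain ⟨b, hb⟩ := h _ hx
  refine ⟨fun i => φ (b i), hy1, ?_, ?_, ?_⟩
  · intro z
    obtain ⟨c, hc⟩ := hb.gen (φ.symm z)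
    refine ⟨c, ?_⟩
    have := congrArg φ hc
    rw [map_sum, AddEquiv.apply_symm_apply] at this
    rw [← this]
    exact Finset.sum_congr rfl fun i _ => (map_zsmul φ _ _).symm
  · intro i
    have := (aff_tr_mem (φ := φ) (a := a)).2 (hb.step i)
    rwa [aff_tr_add, aff_tr_rt] at this
  · intro z hz
    obtain ⟨t, ht, he⟩ := hb.cone _ (mem_trA.1 hz)
    refine ⟨t, ht, ?_⟩
    have := congrArg (tr φ a) he
    rw [aff_tr_add, aff_tr_rt, aff_tr_rt, map_sum] at this
    rw [← this]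
    congr 1
    exact Finset.sum_congr rfl fun i _ => (map_zsmul φ _ _).symm

theorem aff_sum_lin {A : Finset W} {l : W → ℝ} {x : W}
    (h2 : ∀ i, ∑ y ∈ A, l y * (y i : ℝ) = x i) (L : Fin 3 → ℝ) : ∑ y ∈ A, l y * lin L y = lin L x := by
  unfold lin
  simp only [Finset.mul_sum]
  rw [Finset.sum_comm]
  refine Finset.sum_congr rfl fun i _ => ?_
  rw [← h2 i, Finset.mul_sum]
  exact Finset.sum_congr rfl fun y _ => by ring

theorem aff_coord (i : Fin 3) (x : W) : lin (Pi.single i 1) x = x i := by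
  unfold lin
  simp [Pi.single_apply]

theorem tr_lat {φ : W ≃+ W} {a : W} {A : Finset W} (h : LatA A) : LatA (trA φ a A) := by
  intro y hy
  rw [mem_hull] at hy
  obtain ⟨l, hl0, hl1, hl2⟩ := hy
  rw [mem_trA]
  apply h
  rw [mem_hull]
  have hs : ∀ f : W → ℝ, ∑ z ∈ trA φ a A, f z = ∑ x ∈ A, f (tr φ a x) := by
    intro f
    unfold trA
    exact Finset.sum_image fun _ _ _ _ e => aff_tr_inj φ a e
  refine ⟨fun x => l (tr φ a x), fun x hx => hl0 _ (aff_tr_mem.2 hx), ?_, fun i => ?_⟩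
  · rw [← hl1, hs]
  · obtain ⟨L, hL⟩ := pullR φ (Pi.single i 1)
    have hL' : ∀ x : W, (x i : ℝ) = lin L (tr φ a x) + a i := by
      intro x
      unfold tr
      rw [hL, aff_coord]
      simp
    have e1 := aff_sum_lin hl2 L
    rw [hs] at e1
    have e2 : lin L y = (rt φ a y i : ℝ) - a i := by
      have := hL' (rt φ a y)
      rw [aff_tr_rt] at this
      linarith
    rw [hs] at hl1
    calc ∑ x ∈ A, l (tr φ a x) * (x i : ℝ)
        = ∑ x ∈ A, (l (tr φ a x) * lin L (tr φ a x) + l (tr φ a x) * a i) :=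
          Finset.sum_congr rfl fun x _ => by rw [← mul_add, ← hL' x]
      _ = lin L y + a i := by rw [Finset.sum_add_distrib, e1, ← Finset.sum_mul, hl1, one_mul]
      _ = (rt φ a y i : ℝ) := by rw [e2]; ring

end Pool.Agent.SPK
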