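import Pool.Agent.SPK.Aff

/-!
# [SPK-AffB] automorphisms of the lattice: the invariant

`tr_ru`: a lower affine function `a · x + b` on the image composed with `tr φ a` is a lower affine function on `A`; `Uni` is preserved: the sums of `c x * x i` are integral combinations of the sums for the image and of `∑ c x`. `tr_ok`: `Tri`: `s, e, f ↦ tr s, φ e, φ f`, duals by `pull`. `Rul`: `u, v` by `pull`, `p, q ↦ tr p, tr q`, `e ↦ φ e`; the values of `u` are shifted by a constant. `PP`: `amin (image) (w ∘ inverse) L = (amin A w L').image`, `lin L (φ x) = lin L' x` (`pullR` for `φ.symm`), `UniE` as for `Uni`. `tr_gp`: a facet `(n, h)` of the image is the image of the facet `(n', h + const)`.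
-/

open Finset Pool.Agent.SPB

set_option autoImplicit false

namespace Pool.Agent.SPK

private theorem affb_isInt_add {r s : ℝ} (hr : IsInt r) (hs : IsInt s) : IsInt (r + s) := by
  obtain ⟨m, rfl⟩ := hr
  obtain ⟨n, rfl⟩ := hs
  exact ⟨m + n, by push_cast; ring⟩

private theorem affb_isInt_mul (k : ℤ) {s : ℝ} (hs : IsInt s) : IsInt (k * s) := by
  obtain ⟨n, rfl⟩ := hs
  exact ⟨k * n, by push_cast; ring⟩

private theorem affb_isInt_sum {s : Finset (Fin 3)} {f : Fin 3 → ℝ} (h : ∀ i ∈ s, IsInt (f i)) :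
    IsInt (∑ i ∈ s, f i) := by
  classical
  induction s using Finset.induction_on with
  | empty => exact ⟨0, by simp⟩
  | insert i s hi ih =>
    rw [Finset.sum_insert hi]
    exact affb_isInt_add (h i (Finset.mem_insert_self _ _)) (ih fun j hj => h j (Finset.mem_insert_of_mem hj))

private theorem affb_key {φ : W ≃+ W} {a : W} {C : Finset W} (c : W → ℝ) (r : ℝ) (e : W)
    (h1 : IsInt (∑ x ∈ C, c (tr φ a x)))
    (h2 : ∀ i, IsInt (∑ x ∈ C, c (tr φ a x) * (tr φ a x i : ℝ) + r * (φ e i : ℝ))) (i : Fin 3) :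
    IsInt (∑ x ∈ C, c (tr φ a x) * (x i : ℝ) + r * (e i : ℝ)) := by
  obtain ⟨n, hn⟩ := pull φ (Pi.single i 1)
  have hc : ∀ x : W, d3 (Pi.single i 1) x = x i := by
    intro x
    unfold d3
    simp [Pi.single_apply]
  have hx : ∀ x : W, (x i : ℝ) = ∑ j, (n j : ℝ) * (φ x j : ℝ) := by
    intro x
    rw [← hc x, ← hn x]
    unfold d3
    push_cast
    rfl
  have hx' : ∀ x : W, (x i : ℝ) = ∑ j, (n j : ℝ) * (tr φ a x j : ℝ) + a i := by
    intro x
    have := hx (x - a)
    unfold tr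
    rw [← this]
    simp
  have e1 : ∑ x ∈ C, c (tr φ a x) * (x i : ℝ) + r * (e i : ℝ) =
      ∑ j, (n j : ℝ) * (∑ x ∈ C, c (tr φ a x) * (tr φ a x j : ℝ) + r * (φ e j : ℝ)) +
        (a i : ℝ) * ∑ x ∈ C, c (tr φ a x) := by
    rw [hx e]
    have e2 : ∑ x ∈ C, c (tr φ a x) * (x i : ℝ) =
        ∑ j, (n j : ℝ) * (∑ x ∈ C, c (tr φ a x) * (tr φ a x j : ℝ)) + (a i : ℝ) * ∑ x ∈ C, c (tr φ a x) := by
      simp only [Finset.mul_sum]
      rw [Finset.sum_comm, ← Finset.sum_add_distrib]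
      refine Finset.sum_congr rfl fun x _ => ?_
      rw [hx' x, mul_add, Finset.mul_sum, mul_comm (a i : ℝ)]
      congr 1
      exact Finset.sum_congr rfl fun j _ => by ring
    rw [e2]
    have e3 : ∑ j, (n j : ℝ) * (∑ x ∈ C, c (tr φ a x) * (tr φ a x j : ℝ) + r * (φ e j : ℝ)) =
        ∑ j, (n j : ℝ) * (∑ x ∈ C, c (tr φ a x) * (tr φ a x j : ℝ)) + r * ∑ j, (n j : ℝ) * (φ e j : ℝ) := by
      rw [Finset.mul_sum, ← Finset.sum_add_distrib]
      exact Finset.sum_congr rfl fun j _ => by ring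
    rw [e3]
    ring
  rw [e1]
  exact affb_isInt_add (affb_isInt_sum fun j _ => affb_isInt_mul _ (h2 j)) (affb_isInt_mul _ h1)

private theorem affb_uni {φ : W ≃+ W} {a : W} {C : Finset W} (h : Uni C) : Uni (C.image (tr φ a)) := by
  intro c h1 h2 y hy
  have hs : ∀ f : W → ℝ, ∑ z ∈ C.image (tr φ a), f z = ∑ x ∈ C, f (tr φ a x) := fun f =>
    Finset.sum_image fun _ _ _ _ e => aff_tr_inj φ a e
  rw [hs] at h1
  obtain ⟨x, hx, rfl⟩ := Finset.mem_image.1 hy
  refine h (fun x => c (tr φ a x)) h1 (fun i => ?_) x hx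
  have := affb_key (φ := φ) (a := a) (C := C) c 0 0 h1 (fun i => by
    have := h2 i
    rw [hs] at this
    rwa [zero_mul, add_zero]) i
  rwa [zero_mul, add_zero] at this

private theorem affb_uniE {φ : W ≃+ W} {a : W} {C : Finset W} {e : W} (h : UniE C e) :
    UniE (C.image (tr φ a)) (φ e) := by
  intro c r h1 h2
  have hs : ∀ f : W → ℝ, ∑ z ∈ C.image (tr φ a), f z = ∑ x ∈ C, f (tr φ a x) := fun f =>
    Finset.sum_image fun _ _ _ _ e => aff_tr_inj φ a e
  rw [hs] at h1
  obtain ⟨h3, h4⟩ := h (fun x => c (tr φ a x)) r h1 (affb_key (φ := φ) (a := a) (C := C) c r e h1 (fun i => by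
    have := h2 i
    rwa [hs] at this))
  refine ⟨fun y hy => ?_, h4⟩
  obtain ⟨x, hx, rfl⟩ := Finset.mem_image.1 hy
  exact h3 x hx

private theorem affb_back (φ : W ≃+ W) (n : W) : ∃ n' : W, ∀ x, d3 n (φ x) = d3 n' x := by
  obtain ⟨n', h⟩ := pull φ.symm n
  refine ⟨n', fun x => ?_⟩
  have := h (φ x)
  rw [AddEquiv.symm_apply_apply] at this
  exact this.symm

private theorem affb_backR (φ : W ≃+ W) (L : Fin 3 → ℝ) : ∃ L' : Fin 3 → ℝ, ∀ x, lin L (φ x) = lin L' x := by
  obtain ⟨n', h⟩ := pullR φ.symm L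
  refine ⟨n', fun x => ?_⟩
  have := h (φ x)
  rw [AddEquiv.symm_apply_apply] at this
  exact this.symm

private theorem affb_lin_sub (L : Fin 3 → ℝ) (x y : W) : lin L (x - y) = lin L x - lin L y := by
  have := lin_add L (x - y) y
  rw [sub_add_cancel] at this
  linarith

theorem tr_ru {φ : W ≃+ W} {a : W} {A : Finset W} {w : W → ℝ} (h : RU A w) : RU (trA φ a A) (w ∘ rt φ a) := by
  intro α b hα
  obtain ⟨L, hL⟩ := affb_backR φ α
  have hv : ∀ x, ∑ i, α i * (tr φ a x i : ℝ) = ∑ i, L i * (x i : ℝ) - lin L a := by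
    intro x
    have h1 := hL (x - a)
    rw [affb_lin_sub] at h1
    exact h1
  have hc : contact (trA φ a A) (w ∘ rt φ a) α b = (contact A w L (b - lin L a)).image (tr φ a) := by
    ext y
    simp only [contact, Finset.mem_filter, Finset.mem_image, Function.comp_apply]
    constructor
    · rintro ⟨h1, h2⟩
      refine ⟨rt φ a y, ⟨mem_trA.1 h1, ?_⟩, aff_tr_rt φ a y⟩
      have := hv (rt φ a y)
      rw [aff_tr_rt] at this
      linarith
    · rintro ⟨x, ⟨h1, h2⟩, rfl⟩
      refine ⟨aff_tr_mem.2 h1, ?_⟩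
      rw [aff_rt_tr, hv]
      linarith
  rw [hc]
  apply affb_uni
  apply h
  intro x hx
  have := hα _ (aff_tr_mem.2 hx)
  rw [Function.comp_apply, aff_rt_tr, hv] at this
  linarith

theorem tr_ok {φ : W ≃+ W} {a : W} {D : Finset W} {w : W → ℝ} (h : OK D w) : OK (trA φ a D) (w ∘ rt φ a) := by
  rcases h with ⟨s, e, f, k, h⟩ | ⟨e, ⟨u, v, p, q, h1, h2, h3, h4, h5, h6, h7, h8, h9⟩, α, β, hαβ, hP⟩
  · left
    refine ⟨tr φ a s, φ e, φ f, k, h.k1, ?_, ?_⟩
    · obtain ⟨u, v, h1, h2, h3, h4⟩ := h.dual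
      obtain ⟨u', hu⟩ := pull φ u
      obtain ⟨v', hv⟩ := pull φ v
      exact ⟨u', v', by rw [hu, h1], by rw [hu, h2], by rw [hv, h3], by rw [hv, h4]⟩
    · intro x
      rw [mem_trA, h.mem]
      constructor
      · rintro ⟨i, j, hij, he⟩
        refine ⟨i, j, hij, ?_⟩
        have := congrArg (tr φ a) he
        rw [aff_tr_rt, aff_tr_add, aff_tr_add, map_zsmul, map_zsmul] at this
        exact this
      · rintro ⟨i, j, hij, he⟩
        refine ⟨i, j, hij, ?_⟩
        apply aff_tr_inj φ a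
        rw [aff_tr_rt, aff_tr_add, aff_tr_add, map_zsmul, map_zsmul]
        exact he
  · right
    refine ⟨φ e, ?_, α, β, hαβ, ?_⟩
    · obtain ⟨u', hu⟩ := pull φ u
      obtain ⟨v', hv⟩ := pull φ v
      have hu' : ∀ x, d3 u' (tr φ a x) = d3 u x - d3 u a := by
        intro x
        unfold tr
        rw [hu, d3_sub]
      refine ⟨u', v', tr φ a p, tr φ a q, by rw [hv, h1], by rw [hu, h2], aff_tr_mem.2 h3, ?_, aff_tr_mem.2 h5, ?_,
        ?_, ?_, ?_⟩
      · rw [← aff_tr_add]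
        exact aff_tr_mem.2 h4
      · rw [← aff_tr_add]
        exact aff_tr_mem.2 h6
      · rw [hu', hu']
        linarith
      · intro y hy
        have h10 := h8 _ (mem_trA.1 hy)
        have h11 := hu' (rt φ a y)
        rw [aff_tr_rt] at h11
        rw [hu', hu', h11]
        constructor <;> linarith [h10.1, h10.2]
      · intro k hk1 hk2
        rw [hu'] at hk1 hk2
        obtain ⟨x, hx, hxk⟩ := h9 (k + d3 u a) (by linarith) (by linarith)
        exact ⟨tr φ a x, aff_tr_mem.2 hx, by rw [hu', hxk]; ring⟩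
    · intro L hL1 hL2
      obtain ⟨L', hL'⟩ := affb_backR φ L
      rw [hL'] at hL1 hL2
      have hv : ∀ x, lin L (tr φ a x) = lin L' x - lin L' a := by
        intro x
        have h1 := hL' (x - a)
        rw [affb_lin_sub] at h1
        exact h1
      have hm : amin (trA φ a D) (w ∘ rt φ a) L = (amin D w L').image (tr φ a) := by
        ext y
        simp only [amin, Finset.mem_filter, Finset.mem_image, Function.comp_apply]
        constructor
        · rintro ⟨h1, h2⟩
          refine ⟨rt φ a y, ⟨mem_trA.1 h1, fun z hz => ?_⟩, aff_tr_rt φ a y⟩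
          have h3 := h2 _ ((aff_tr_mem (φ := φ) (a := a)).2 hz)
          have h4 := hv (rt φ a y)
          rw [aff_tr_rt] at h4
          rw [aff_rt_tr, hv, h4] at h3
          linarith
        · rintro ⟨x, ⟨h1, h2⟩, rfl⟩
          refine ⟨aff_tr_mem.2 h1, fun z hz => ?_⟩
          have h3 := h2 _ (mem_trA.1 hz)
          have h4 := hv (rt φ a z)
          rw [aff_tr_rt] at h4
          rw [aff_rt_tr, hv, h4]
          linarith
      rw [hm]
      exact affb_uniE (hP L' hL1 hL2)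

theorem tr_gp {φ : W ≃+ W} {a : W} {A : Finset W} {w : W → ℝ} (h : GP A w) : GP (trA φ a A) (w ∘ rt φ a) := by
  refine ⟨tr_ru h.ru, fun n k hf => ?_⟩
  obtain ⟨n', hn⟩ := affb_back φ n
  have hv : ∀ x, d3 n (tr φ a x) = d3 n' x - d3 n' a := by
    intro x
    unfold tr
    rw [hn, d3_sub]
  have hF : Face (trA φ a A) n k = trA φ a (Face A n' (k + d3 n' a)) := by
    ext y
    rw [mem_trA]
    simp only [Face, Finset.mem_filter]
    rw [mem_trA]
    have h4 := hv (rt φ a y)
    rw [aff_tr_rt] at h4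
    rw [h4]
    constructor
    · rintro ⟨h1, h2⟩
      exact ⟨h1, by linarith⟩
    · rintro ⟨h1, h2⟩
      exact ⟨h1, by linarith⟩
  rw [hF]
  apply tr_ok
  apply h.ok
  refine ⟨fun x hx => ?_, ?_, ?_⟩
  · have := hf.le _ (aff_tr_mem.2 hx)
    rw [hv] at this
    linarith
  · obtain ⟨y, hy, hlt⟩ := hf.lt
    refine ⟨rt φ a y, mem_trA.1 hy, ?_⟩
    have h4 := hv (rt φ a y)
    rw [aff_tr_rt] at h4
    linarith
  · have := hf.nc
    rw [hF, tr_nonCol] at this
    exact this

/-- the inverse direction -/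
theorem tr_gp' {φ : W ≃+ W} {a : W} {A : Finset W} {w : W → ℝ} (h : GP (trA φ a A) w) : GP A (w ∘ tr φ a) := by
  have h1 := tr_gp (φ := φ.symm) (a := -φ a) h
  have h2 : ∀ y, tr φ.symm (-φ a) y = rt φ a y := by
    intro y
    simp [tr, rt]
  have h3 : ∀ x, rt φ.symm (-φ a) x = tr φ a x := by
    intro x
    simp [tr, rt, sub_eq_add_neg]
  have h4 : trA φ.symm (-φ a) (trA φ a A) = A := by
    ext x
    rw [mem_trA, h3, mem_trA, aff_rt_tr]
  have h5 : rt φ.symm (-φ a) = tr φ a := funext h3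
  rw [h4, h5] at h1
  exact h1

end Pool.Agent.SPK
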