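import Pool.Agent.SPK.Defs

/-!
# [SPK-Bas] bases of `ℤ³`

`gen_dual`: from `hb` choose integers `m j i` with `∑ i, m j i • b i = Pi.single j 1`; so the matrices satisfy `m * b = 1` (rows), hence `b * m = 1` (`Matrix.mul_eq_one_comm`); `d i` = column: `d3 (d i) (b j) = ∑_k m k i * b j k = (b * m) j i`.
`expand`: `∑ (d3 (d i) y) • b i = y` (write `y = ∑ c i • b i` by `hb`, apply `d i`). `expandR` the same for real coefficients: if `∑ c i * b i k = y k` for all `k` then `c i = d3 (d i) y`.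
`Vtx.perm`: reindex sums by `σ` (`Equiv.sum_comp`). `gen_prim`, `gen_diff`, `gen_sum`: apply `d i`: `1 = m * d3 (d i) g`.
-/

open Finset Pool.Agent.SPB

set_option autoImplicit false

namespace Pool.Agent.SPK

theorem d3_add (n x y : W) : d3 n (x + y) = d3 n x + d3 n y := by
  simp only [d3, Pi.add_apply, mul_add, Finset.sum_add_distrib]

theorem d3_smul (n x : W) (k : ℤ) : d3 n (k • x) = k * d3 n x := by
  simp only [d3, Pi.smul_apply, smul_eq_mul, Finset.mul_sum]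
  exact Finset.sum_congr rfl fun i _ => by ring

theorem d3_sub (n x y : W) : d3 n (x - y) = d3 n x - d3 n y := by
  simp only [d3, Pi.sub_apply, mul_sub, Finset.sum_sub_distrib]

theorem d3_neg (n x : W) : d3 n (-x) = - d3 n x := by
  simp only [d3, Pi.neg_apply, mul_neg, Finset.sum_neg_distrib]

theorem lin_add (L : Fin 3 → ℝ) (x y : W) : lin L (x + y) = lin L x + lin L y := by
  simp only [lin, Pi.add_apply, Int.cast_add, mul_add, Finset.sum_add_distrib]

theorem lin_smul (L : Fin 3 → ℝ) (x : W) (k : ℤ) : lin L (k • x) = k * lin L x := by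
  simp only [lin, Pi.smul_apply, smul_eq_mul, Int.cast_mul, Finset.mul_sum]
  exact Finset.sum_congr rfl fun i _ => by ring

private lemma bas_d3_sum (n : W) (c : Fin 3 → ℤ) (b : Fin 3 → W) :
    d3 n (∑ i, c i • b i) = ∑ i, c i * d3 n (b i) := by
  simp only [Fin.sum_univ_three, d3_add, d3_smul]

theorem gen_dual {b : Fin 3 → W} (hb : ∀ y : W, ∃ c : Fin 3 → ℤ, ∑ i, c i • b i = y) :
    ∃ d : Fin 3 → W, ∀ i j, d3 (d i) (b j) = if i = j then 1 else 0 := by
  choose c hc using fun j : Fin 3 => hb (Pi.single j 1)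
  let Mm : Matrix (Fin 3) (Fin 3) ℤ := Matrix.of fun j i => c j i
  let Bm : Matrix (Fin 3) (Fin 3) ℤ := Matrix.of fun i k => b i k
  have h1 : Mm * Bm = 1 := by
    ext j k
    have h := congrFun (hc j) k
    rw [Matrix.mul_apply, Matrix.one_apply]
    simp only [Finset.sum_apply, Pi.smul_apply, smul_eq_mul, Pi.single_apply] at h
    simp only [Mm, Bm, Matrix.of_apply]
    rw [h]
    by_cases hjk : j = k
    · rw [if_pos hjk, if_pos hjk.symm]
    · rw [if_neg hjk, if_neg (Ne.symm hjk)]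
  have h2 : Bm * Mm = 1 := mul_eq_one_comm.1 h1
  refine ⟨fun i k => c k i, fun i j => ?_⟩
  have h3 := congrFun (congrFun h2 j) i
  rw [Matrix.mul_apply, Matrix.one_apply] at h3
  simp only [Mm, Bm, Matrix.of_apply] at h3
  have h4 : d3 (fun k => c k i) (b j) = ∑ k, b j k * c k i := by
    unfold d3
    exact Finset.sum_congr rfl fun k _ => mul_comm _ _
  rw [h4, h3]
  by_cases hij : i = j
  · rw [if_pos hij, if_pos hij.symm]
  · rw [if_neg hij, if_neg (Ne.symm hij)]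

theorem expand {b d : Fin 3 → W} (hb : ∀ y : W, ∃ c : Fin 3 → ℤ, ∑ i, c i • b i = y)
    (hd : ∀ i j, d3 (d i) (b j) = if i = j then 1 else 0) (y : W) : ∑ i, d3 (d i) y • b i = y := by
  obtain ⟨c, hc⟩ := hb y
  have h1 : ∀ i, d3 (d i) y = c i := by
    intro i
    rw [← hc, bas_d3_sum]
    simp only [hd, mul_ite, mul_one, mul_zero, Finset.sum_ite_eq, Finset.mem_univ, if_true]
  simp only [h1, hc]

theorem expandR {b d : Fin 3 → W} (hd : ∀ i j, d3 (d i) (b j) = if i = j then 1 else 0) {y : W}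
    {c : Fin 3 → ℝ} (hc : ∀ k, ∑ i, c i * (b i k : ℝ) = y k) (i : Fin 3) : c i = d3 (d i) y := by
  have h1 : ((d3 (d i) y : ℤ) : ℝ) = ∑ k, (d i k : ℝ) * (y k : ℝ) := by
    unfold d3
    push_cast
    rfl
  have h2 : ∀ j, ∑ k, (d i k : ℝ) * (b j k : ℝ) = if i = j then 1 else 0 := by
    intro j
    have h := hd i j
    unfold d3 at h
    have h' := congrArg (fun z : ℤ => (z : ℝ)) h
    push_cast at h'
    exact h'
  rw [h1]
  have h3 : ∑ k, (d i k : ℝ) * (y k : ℝ) = ∑ j, c j * ∑ k, (d i k : ℝ) * (b j k : ℝ) := by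
    simp only [← hc, Finset.mul_sum]
    rw [Finset.sum_comm]
    exact Finset.sum_congr rfl fun j _ => Finset.sum_congr rfl fun k _ => by ring
  rw [h3]
  simp only [h2, mul_ite, mul_one, mul_zero, Finset.sum_ite_eq, Finset.mem_univ, if_true]

theorem gen_prim {b : Fin 3 → W} (hb : ∀ y : W, ∃ c : Fin 3 → ℤ, ∑ i, c i • b i = y) {i : Fin 3} {m : ℤ} {g : W}
    (h : b i = m • g) : m = 1 ∨ m = -1 := by
  obtain ⟨d, hd⟩ := gen_dual hb
  have h1 := hd i i
  rw [if_pos rfl, h, d3_smul] at h1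
  exact Int.eq_one_or_neg_one_of_mul_eq_one h1

theorem gen_diff {b : Fin 3 → W} (hb : ∀ y : W, ∃ c : Fin 3 → ℤ, ∑ i, c i • b i = y) {i j : Fin 3} (hij : i ≠ j)
    {m : ℤ} {g : W} (h : b i - b j = m • g) : m = 1 ∨ m = -1 := by
  obtain ⟨d, hd⟩ := gen_dual hb
  have h1 : d3 (d i) (b i - b j) = 1 := by
    rw [d3_sub, hd, hd, if_pos rfl, if_neg hij]
    norm_num
  rw [h, d3_smul] at h1
  exact Int.eq_one_or_neg_one_of_mul_eq_one h1

theorem gen_sum {b : Fin 3 → W} (hb : ∀ y : W, ∃ c : Fin 3 → ℤ, ∑ i, c i • b i = y) {i j : Fin 3} (hij : i ≠ j)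
    {m : ℤ} {g : W} (h : b i + b j = m • g) : m = 1 ∨ m = -1 := by
  obtain ⟨d, hd⟩ := gen_dual hb
  have h1 : d3 (d i) (b i + b j) = 1 := by
    rw [d3_add, hd, hd, if_pos rfl, if_neg hij]
    norm_num
  rw [h, d3_smul] at h1
  exact Int.eq_one_or_neg_one_of_mul_eq_one h1

theorem Vtx.perm {A : Finset W} {x : W} {b : Fin 3 → W} (h : Vtx A x b) (σ : Equiv.Perm (Fin 3)) :
    Vtx A x (b ∘ σ) := by
  refine ⟨h.mem, fun y => ?_, fun i => h.step (σ i), fun y hy => ?_⟩
  · obtain ⟨c, hc⟩ := h.gen y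
    refine ⟨c ∘ σ, ?_⟩
    rw [← hc, ← Equiv.sum_comp σ (fun i => c i • b i)]
    rfl
  · obtain ⟨t, ht, hc⟩ := h.cone y hy
    refine ⟨t ∘ σ, fun i => ht (σ i), ?_⟩
    rw [← hc, ← Equiv.sum_comp σ (fun i => t i • b i)]
    rfl

end Pool.Agent.SPK
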