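import Pool.Agent.SPK.Bas

/-!
# [SPK-UE] unimodularity with a direction, path property

`ue1`: `c x ∈ ℤ`, `c x • x + r • e ∈ ℤ³`, apply `v`: `r ∈ ℤ`. `ue2`: `c x + c y ∈ ℤ`; apply `u` to `c x • x + c y • y + r • e`: `c x (d3 u x) + c y (d3 u y) = (c x + c y) d3 u x ± c y`, so `c y ∈ ℤ`, then `v` gives `r`.
`ue_unique`: otherwise take `c x = 1/2`, `c (x + t e) = -1/2`, `0` elsewhere, `r = t / 2`.
`avoid`: induction on the finite set (or take the smallest element of the set above the left end).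
`tworow`: for `x ≠ y` in the same row, `y = x + t e`, `t ≠ 0`: a tie `w x - lin L x = w y - lin L y` means `lin L e = (w y - w x) / t`. Avoid these finitely many values (`avoid`). Then `amin D w L` (nonempty) has at most one point in each of the two rows: `ue1` or `ue2`.
`PPi.congr`: `amin` depends only on `w` on `D`, and not on adding a constant.
-/

open Finset Pool.Agent.SPB

set_option autoImplicit false

namespace Pool.Agent.SPK

theorem mem_amin {D : Finset W} {w : W → ℝ} {L : Fin 3 → ℝ} {x : W} :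
    x ∈ amin D w L ↔ x ∈ D ∧ ∀ y ∈ D, w x - lin L x ≤ w y - lin L y := by
  classical
  simp only [amin, Finset.mem_filter]

theorem amin_nonempty {D : Finset W} (hD : D.Nonempty) (w : W → ℝ) (L : Fin 3 → ℝ) : (amin D w L).Nonempty := by
  obtain ⟨x, hx, h⟩ := D.exists_min_image (fun x => w x - lin L x) hD
  exact ⟨x, mem_amin.2 ⟨hx, h⟩⟩

private theorem pI_int (n : ℤ) : IsInt (n : ℝ) := ⟨n, rfl⟩

private theorem pI_add {x y : ℝ} (hx : IsInt x) (hy : IsInt y) : IsInt (x + y) := by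
  obtain ⟨a, rfl⟩ := hx
  obtain ⟨b, rfl⟩ := hy
  exact ⟨a + b, by push_cast; ring⟩

private theorem pI_sub {x y : ℝ} (hx : IsInt x) (hy : IsInt y) : IsInt (x - y) := by
  obtain ⟨a, rfl⟩ := hx
  obtain ⟨b, rfl⟩ := hy
  exact ⟨a - b, by push_cast; ring⟩

private theorem pI_mul {x y : ℝ} (hx : IsInt x) (hy : IsInt y) : IsInt (x * y) := by
  obtain ⟨a, rfl⟩ := hx
  obtain ⟨b, rfl⟩ := hy
  exact ⟨a * b, by push_cast; ring⟩

private theorem pI_app {C : Finset W} {e : W} {c : W → ℝ} {r : ℝ} (u : W)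
    (h : ∀ i, IsInt (∑ x ∈ C, c x * (x i : ℝ) + r * (e i : ℝ))) :
    IsInt (∑ x ∈ C, c x * (d3 u x : ℝ) + r * (d3 u e : ℝ)) := by
  have key : ∑ x ∈ C, c x * (d3 u x : ℝ) + r * (d3 u e : ℝ) =
      ∑ i, (u i : ℝ) * (∑ x ∈ C, c x * (x i : ℝ) + r * (e i : ℝ)) := by
    simp only [d3, Int.cast_sum, Int.cast_mul, mul_add, Finset.sum_add_distrib, Finset.mul_sum]
    congr 1
    · rw [Finset.sum_comm]
      exact Finset.sum_congr rfl fun i _ => Finset.sum_congr rfl fun x _ => by ring
    · exact Finset.sum_congr rfl fun i _ => by ring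
  rw [key, Fin.sum_univ_three]
  exact pI_add (pI_add (pI_mul (pI_int _) (h 0)) (pI_mul (pI_int _) (h 1))) (pI_mul (pI_int _) (h 2))

theorem ue1 {x e v : W} (hv : d3 v e = 1) : UniE {x} e := by
  intro c r h1 h2
  rw [Finset.sum_singleton] at h1
  have h3 := pI_app v h2
  rw [Finset.sum_singleton, hv] at h3
  refine ⟨fun z hz => by rw [Finset.mem_singleton.1 hz]; exact h1, ?_⟩
  have h4 := pI_sub h3 (pI_mul h1 (pI_int (d3 v x)))
  have h5 : c x * (d3 v x : ℝ) + r * ((1 : ℤ) : ℝ) - c x * (d3 v x : ℝ) = r := by push_cast; ring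
  rwa [h5] at h4

theorem ue2 {x y e u v : W} (hv : d3 v e = 1) (hu : d3 u e = 0) (h : d3 u y - d3 u x = 1 ∨ d3 u y - d3 u x = -1) :
    UniE {x, y} e := by
  intro c r h1 h2
  have hxy : x ≠ y := by
    rintro rfl
    omega
  rw [Finset.sum_pair hxy] at h1
  have h3 := pI_app v h2
  have h4 := pI_app u h2
  rw [Finset.sum_pair hxy, hv] at h3
  rw [Finset.sum_pair hxy, hu] at h4
  have hy : IsInt (c y) := by
    have h5 := pI_sub h4 (pI_mul h1 (pI_int (d3 u x)))
    rcases h with h | h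
    · have h6 : c x * (d3 u x : ℝ) + c y * (d3 u y : ℝ) + r * ((0 : ℤ) : ℝ) - (c x + c y) * (d3 u x : ℝ) = c y := by
        have h7 : (d3 u y : ℝ) = d3 u x + 1 := by
          have : d3 u y = d3 u x + 1 := by omega
          rw [this]; push_cast; ring
        rw [h7]; push_cast; ring
      rwa [h6] at h5
    · have h6 : c x * (d3 u x : ℝ) + c y * (d3 u y : ℝ) + r * ((0 : ℤ) : ℝ) - (c x + c y) * (d3 u x : ℝ) = - c y := by
        have h7 : (d3 u y : ℝ) = d3 u x - 1 := by
          have : d3 u y = d3 u x - 1 := by omega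
          rw [this]; push_cast; ring
        rw [h7]; push_cast; ring
      rw [h6] at h5
      have h8 := pI_mul h5 (pI_int (-1))
      have h9 : - c y * ((-1 : ℤ) : ℝ) = c y := by push_cast; ring
      rwa [h9] at h8
  have hx : IsInt (c x) := by
    have h5 := pI_sub h1 hy
    have h6 : c x + c y - c y = c x := by ring
    rwa [h6] at h5
  refine ⟨fun z hz => ?_, ?_⟩
  · rcases Finset.mem_insert.1 hz with rfl | hz
    · exact hx
    · rw [Finset.mem_singleton.1 hz]
      exact hy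
  · have h5 := pI_sub h3 (pI_add (pI_mul hx (pI_int (d3 v x))) (pI_mul hy (pI_int (d3 v y))))
    have h6 : c x * (d3 v x : ℝ) + c y * (d3 v y : ℝ) + r * ((1 : ℤ) : ℝ) -
        (c x * (d3 v x : ℝ) + c y * (d3 v y : ℝ)) = r := by push_cast; ring
    rwa [h6] at h5

theorem ue_unique {C : Finset W} {e : W} (h : UniE C e) (he : e ≠ 0) {x : W} {t : ℤ} (hx : x ∈ C)
    (hy : x + t • e ∈ C) : t = 0 := by
  classical
  by_contra ht
  have hxy : x ≠ x + t • e := by
    intro h0
    have h1 : t • e = 0 := by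
      have h2 : x + t • e = x + 0 := by rw [← h0, add_zero]
      exact add_left_cancel h2
    rcases smul_eq_zero.1 h1 with h2 | h2
    · exact ht h2
    · exact he h2
  have g1 : IsInt (∑ z ∈ C, ((if z = x then (1 / 2 : ℝ) else 0) - (if z = x + t • e then (1 / 2 : ℝ) else 0))) := by
    refine ⟨0, ?_⟩
    rw [Finset.sum_sub_distrib, Finset.sum_ite_eq', Finset.sum_ite_eq', if_pos hx, if_pos hy]
    simp
  have g2 : ∀ i, IsInt (∑ z ∈ C, ((if z = x then (1 / 2 : ℝ) else 0) -
      (if z = x + t • e then (1 / 2 : ℝ) else 0)) * (z i : ℝ) + ((t : ℝ) / 2) * (e i : ℝ)) := by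
    intro i
    refine ⟨0, ?_⟩
    simp only [sub_mul, Finset.sum_sub_distrib, ite_mul, zero_mul, Finset.sum_ite_eq', if_pos hx, if_pos hy,
      Pi.add_apply, Pi.smul_apply, smul_eq_mul, Int.cast_add, Int.cast_mul, Int.cast_zero]
    ring
  obtain ⟨h1, -⟩ := h _ _ g1 g2
  obtain ⟨n, hn⟩ := h1 x hx
  simp only [if_true, if_neg hxy] at hn
  have h2 : (2 * n : ℝ) = 1 := by linarith
  have h3 : (2 * n : ℤ) = 1 := by exact_mod_cast h2
  omega

theorem avoid (S : Finset ℝ) {α β : ℝ} (h : α < β) :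
    ∃ α' β', α ≤ α' ∧ α' < β' ∧ β' ≤ β ∧ ∀ x ∈ S, x ≤ α' ∨ β' ≤ x := by
  classical
  induction S using Finset.induction_on with
  | empty => exact ⟨α, β, le_rfl, h, le_rfl, fun x hx => absurd hx (Finset.notMem_empty x)⟩
  | insert a s ha ih =>
    obtain ⟨α', β', h1, h2, h3, h4⟩ := ih
    by_cases h5 : a ≤ α' ∨ β' ≤ a
    · refine ⟨α', β', h1, h2, h3, fun x hx => ?_⟩
      rcases Finset.mem_insert.1 hx with rfl | hx
      · exact h5
      · exact h4 x hx
    · push Not at h5
      refine ⟨α', a, h1, h5.1, h5.2.le.trans h3, fun x hx => ?_⟩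
      rcases Finset.mem_insert.1 hx with rfl | hx
      · exact Or.inr le_rfl
      · rcases h4 x hx with h6 | h6
        · exact Or.inl h6
        · exact Or.inr (h5.2.le.trans h6)

theorem tworow {D : Finset W} (hD : D.Nonempty) (w : W → ℝ) {e u v : W} (hv : d3 v e = 1) (hu : d3 u e = 0) {k₀ : ℤ}
    (hrow : ∀ x ∈ D, d3 u x = k₀ ∨ d3 u x = k₀ + 1)
    (hline : ∀ x ∈ D, ∀ y ∈ D, d3 u x = d3 u y → ∃ t : ℤ, y = x + t • e) {α β : ℝ} (h : α < β) :
    ∃ α' β', α ≤ α' ∧ α' < β' ∧ β' ≤ β ∧ PPi D w e α' β' := by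
  classical
  obtain ⟨α', β', h1, h2, h3, h4⟩ :=
    avoid ((D ×ˢ D).image (fun p => (w p.2 - w p.1) / ((d3 v p.2 : ℝ) - (d3 v p.1 : ℝ)))) h
  refine ⟨α', β', h1, h2, h3, ?_⟩
  intro L hL1 hL2
  have key : ∀ x ∈ amin D w L, ∀ y ∈ amin D w L, d3 u x = d3 u y → y = x := by
    intro x hx y hy hxy
    obtain ⟨hxD, hx'⟩ := mem_amin.1 hx
    obtain ⟨hyD, hy'⟩ := mem_amin.1 hy
    obtain ⟨t, ht⟩ := hline x hxD y hyD hxy
    by_cases ht0 : t = 0
    · rw [ht, ht0, zero_smul, add_zero]
    · exfalso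
      have e1 : w x - lin L x = w y - lin L y := le_antisymm (hx' y hyD) (hy' x hxD)
      have e2 : lin L y = lin L x + t * lin L e := by rw [ht, lin_add, lin_smul]
      have e3 : d3 v y = d3 v x + t := by rw [ht, d3_add, d3_smul, hv, mul_one]
      have e4 : (t : ℝ) ≠ 0 := by exact_mod_cast ht0
      have e5 : (d3 v y : ℝ) - (d3 v x : ℝ) = t := by rw [e3]; push_cast; ring
      have e6 : (w y - w x) / ((d3 v y : ℝ) - (d3 v x : ℝ)) = lin L e := by
        rw [e5, div_eq_iff e4]
        linarith [mul_comm (t : ℝ) (lin L e)]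
      have e7 : lin L e ∈ (D ×ˢ D).image (fun p => (w p.2 - w p.1) / ((d3 v p.2 : ℝ) - (d3 v p.1 : ℝ))) :=
        Finset.mem_image.2 ⟨(x, y), Finset.mem_product.2 ⟨hxD, hyD⟩, e6⟩
      rcases h4 _ e7 with h5 | h5
      · exact absurd hL1 (not_lt.2 h5)
      · exact absurd hL2 (not_lt.2 h5)
  obtain ⟨x, hx⟩ := amin_nonempty hD w L
  have hxD := (mem_amin.1 hx).1
  by_cases hall : ∀ y ∈ amin D w L, d3 u x = d3 u y
  · have : amin D w L = {x} := by
      ext y
      rw [Finset.mem_singleton]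
      exact ⟨fun hy => key x hx y hy (hall y hy), fun hy => by rw [hy]; exact hx⟩
    rw [this]
    exact ue1 hv
  · push Not at hall
    obtain ⟨y, hy, hxy⟩ := hall
    have hyD := (mem_amin.1 hy).1
    have : amin D w L = {x, y} := by
      ext z
      rw [Finset.mem_insert, Finset.mem_singleton]
      constructor
      · intro hz
        have hzD := (mem_amin.1 hz).1
        by_cases hzx : d3 u x = d3 u z
        · exact Or.inl (key x hx z hz hzx)
        · refine Or.inr (key y hy z hz ?_)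
          rcases hrow x hxD with a | a <;> rcases hrow y hyD with b | b <;> rcases hrow z hzD with c | c <;> omega
      · rintro (rfl | rfl)
        · exact hx
        · exact hy
    rw [this]
    refine ue2 hv hu ?_
    rcases hrow x hxD with a | a <;> rcases hrow y hyD with b | b <;> omega

theorem PPi.congr {D : Finset W} {w w' : W → ℝ} {N : ℝ} (hw : ∀ x ∈ D, w' x = w x + N) {e : W} {α β : ℝ}
    (h : PPi D w e α β) : PPi D w' e α β := by
  intro L h1 h2
  have : amin D w' L = amin D w L := by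
    ext x
    rw [mem_amin, mem_amin]
    refine and_congr_right fun hx => forall₂_congr fun y hy => ?_
    rw [hw x hx, hw y hy]
    constructor
    · intro h3
      linarith
    · intro h3
      linarith
  rw [this]
  exact h L h1 h2

theorem PPi.neg {D : Finset W} {w : W → ℝ} {e : W} {α β : ℝ} (h : PPi D w e α β) : PPi D w (-e) (-β) (-α) := by
  intro L h1 h2
  have h3 : lin L (-e) = - lin L e := by
    have := lin_smul L e (-1)
    rw [neg_one_smul] at this
    rw [this]
    push_cast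
    ring
  rw [h3] at h1 h2
  have h4 := h L (by linarith) (by linarith)
  intro c r h5 h6
  obtain ⟨h7, h8⟩ := h4 c (-r) h5 (fun i => by
    have h9 := h6 i
    have h10 : ∑ x ∈ amin D w L, c x * (x i : ℝ) + r * (((-e) i : ℤ) : ℝ) =
        ∑ x ∈ amin D w L, c x * (x i : ℝ) + -r * (e i : ℝ) := by
      rw [Pi.neg_apply]
      push_cast
      ring
    rwa [h10] at h9)
  refine ⟨h7, ?_⟩
  obtain ⟨n, hn⟩ := h8
  exact ⟨-n, by push_cast; linarith⟩

end Pool.Agent.SPK
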