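import Pool.Agent.SPK.Fs
import Pool.Agent.SPK.UE

/-!
# [SPK-Bet1] facets with a ruling of the upper part which is not horizontal

`D = Face A n c`, the height of `x + i E + j G` is `j`.
`up_bound`: first for `y = x`: `r = x + i E + j G` (`mem`), `j = r 2 ≥ 2`, `0 ≤ i ≤ ℓ + κ j ≤ j (ℓ + κ)`. By `hU` for `x + G` and `x + (ℓ + κ) E + G` (`row1`): `(ℓ + κ) (j u(x + G) + i u(E)) = (j (ℓ + κ) - i) u(x + G) + i (u(x + G) + (ℓ + κ) u(E)) ≤ j (ℓ + κ) U`, so `j u(x + G) + i u(E) ≤ j U`; the left side is `(j - 1) u(x) + u(r) = (j - 1) u(x) + U`; so `u(x) ≤ U`. By `FS.mirror` also `u(x + ℓ E) ≤ U`, and for `x + i E`, `0 ≤ i ≤ ℓ`, by linearity. Points of positive height: `hU`.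
`rul_ext1`: `Rul (up D) e` with `u, v, p, q`. One of `p, p + e` has height `≥ 2` (both have height `≥ 1` and `e 2 ≠ 0`), also one of `q, q + e`. `up_bound` for `u`, `U = u p` and for `-u`, `U = - u q`. So `Rul D e` with the same data. Second claim: `u y` is in the range of `u` on `up D`, so there is `y' ∈ up D` with `u y' = u y`; `y' - y = i E + j G`, `e = (p + e) - p = a E + b G` (`mem`). `u(E), u(G)` are not both `0` (`u q < u p`), `i u(E) + j u(G) = 0 = a u(E) + b u(G)`, so `i b = j a`; with `t = i v(E) + j v(G)` and `a v(E) + b v(G) = 1`: `t a = i`, `t b = j`, `y' = y + t e`.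
`pp_ext1`: let `K` bound `|w'|` on `up D`, `|ω|` on the planar parts of the points of `D`, `|t|` for a choice of `t = t(y)` for every `y ∈ D` of height `0`, and `|α|, |β|`; `N₀ = 2 K + K² + 1`. Let `α < lin L e < β`. If `y ∈ amin D (glue N ω w') L` had height `0` then `N + ω(y) - lin L y ≤ w'(y + t e) - lin L y - t lin L e`, contradiction. So `amin D (glue N ω w') L = amin (up D) w' L` (it is not empty, if `D` is not empty; if `D = ∅` then both are empty).
-/

open Finset Pool.Agent.SPB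

set_option autoImplicit false

namespace Pool.Agent.SPK

variable {A : Finset W} {n : W} {c : ℤ} {x E E' E'' G : W} {ℓ κ : ℤ}

private theorem bet1_negl (n x : W) : d3 (-n) x = - d3 n x := by
  simp only [d3, Pi.neg_apply, neg_mul, Finset.sum_neg_distrib]

private theorem bet1_face {A : Finset W} {n : W} {c : ℤ} {y : W} :
    y ∈ Face A n c ↔ y ∈ A ∧ d3 n y = c := by
  unfold Face
  rw [Finset.mem_filter]

private theorem bet1_up {A : Finset W} {y : W} : y ∈ up A ↔ y ∈ A ∧ 1 ≤ y 2 := by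
  unfold up
  rw [Finset.mem_filter]

private theorem bet1_bound (h : FS A n c x E E' E'' G ℓ κ) (hk : 1 ≤ ℓ + κ) {u : W} {U : ℤ}
    (hU : ∀ y ∈ up (Face A n c), d3 u y ≤ U) {r : W} (hr : r ∈ Face A n c) (hr2 : 2 ≤ r 2)
    (hrU : d3 u r = U) : d3 u x ≤ U := by
  obtain ⟨hrA, hrn⟩ := bet1_face.1 hr
  obtain ⟨i, j, hi, hj, hij, hrij⟩ := h.mem r hrA hrn
  have hj2 : r 2 = j := by
    rw [hrij]
    simp [Pi.add_apply, Pi.smul_apply, h.hx, h.hE, h.hG]
  have hu : U = d3 u x + i * d3 u E + j * d3 u G := by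
    rw [← hrU, hrij, d3_add, d3_add, d3_smul, d3_smul]
  have hn : ∀ k : ℤ, d3 n (x + k • E + G) = c := by
    intro k
    rw [d3_add, d3_add, d3_smul, h.nx, h.nE, h.nG]
    ring
  have hh : ∀ k : ℤ, (x + k • E + G) 2 = 1 := by
    intro k
    simp [Pi.add_apply, Pi.smul_apply, h.hx, h.hE, h.hG]
  have h1 : d3 u x + d3 u G ≤ U := by
    have h0 := hU (x + (0 : ℤ) • E + G)
      (bet1_up.2 ⟨bet1_face.2 ⟨h.row1 0 le_rfl (by omega), hn 0⟩, (hh 0).ge⟩)
    rw [d3_add, d3_add, d3_smul] at h0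
    linarith
  have h2 : d3 u x + (ℓ + κ) * d3 u E + d3 u G ≤ U := by
    have h0 := hU (x + (ℓ + κ) • E + G)
      (bet1_up.2 ⟨bet1_face.2 ⟨h.row1 _ (by omega) le_rfl, hn _⟩, (hh _).ge⟩)
    rwa [d3_add, d3_add, d3_smul] at h0
  have hl := h.l1
  have hj2' : 2 ≤ j := by omega
  have hjK : 0 ≤ j * (ℓ + κ) - i := by nlinarith
  have h3 : (ℓ + κ) * (j * (d3 u x + d3 u G) + i * d3 u E) ≤ (ℓ + κ) * (j * U) := by
    have e1 : (j * (ℓ + κ) - i) * (d3 u x + d3 u G) ≤ (j * (ℓ + κ) - i) * U :=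
      mul_le_mul_of_nonneg_left h1 hjK
    have e2 : i * (d3 u x + (ℓ + κ) * d3 u E + d3 u G) ≤ i * U :=
      mul_le_mul_of_nonneg_left h2 hi
    linarith
  have h4 : j * (d3 u x + d3 u G) + i * d3 u E ≤ j * U :=
    le_of_mul_le_mul_left h3 (by omega)
  have h5 : (j - 1) * d3 u x ≤ (j - 1) * U := by linarith
  exact le_of_mul_le_mul_left h5 (by omega)

theorem up_bound (h : FS A n c x E E' E'' G ℓ κ) (hk : 1 ≤ ℓ + κ) {u : W} {U : ℤ}
    (hU : ∀ y ∈ up (Face A n c), d3 u y ≤ U) {r : W} (hr : r ∈ Face A n c) (hr2 : 2 ≤ r 2) (hrU : d3 u r = U) :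
    ∀ y ∈ Face A n c, d3 u y ≤ U := by
  have ha := bet1_bound h hk hU hr hr2 hrU
  have hb := bet1_bound h.mirror hk hU hr hr2 hrU
  rw [d3_add, d3_smul] at hb
  intro y hy
  obtain ⟨hyA, hyn⟩ := bet1_face.1 hy
  obtain ⟨i, j, hi, hj, hij, hyij⟩ := h.mem y hyA hyn
  have hj2 : y 2 = j := by
    rw [hyij]
    simp [Pi.add_apply, Pi.smul_apply, h.hx, h.hE, h.hG]
  rcases le_or_gt 1 j with h1 | h1
  · exact hU y (bet1_up.2 ⟨hy, by omega⟩)
  · have hj0 : j = 0 := by omega
    subst hj0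
    rw [hyij, zero_smul, add_zero, d3_add, d3_smul]
    have hl := h.l1
    rw [mul_zero, add_zero] at hij
    have e1 : (ℓ - i) * d3 u x ≤ (ℓ - i) * U := mul_le_mul_of_nonneg_left ha (by omega)
    have e2 : i * (d3 u x + ℓ * d3 u E) ≤ i * U := mul_le_mul_of_nonneg_left hb hi
    have e3 : ℓ * (d3 u x + i * d3 u E) ≤ ℓ * U := by linarith
    exact le_of_mul_le_mul_left e3 (by omega)

theorem rul_ext1 (h : FS A n c x E E' E'' G ℓ κ) (hk : 1 ≤ ℓ + κ) {e : W} (he : e 2 ≠ 0)
    (hR : Rul (up (Face A n c)) e) : Rul (Face A n c) e ∧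
      ∀ y ∈ Face A n c, y 2 = 0 → ∃ t : ℤ, y + t • e ∈ up (Face A n c) := by
  obtain ⟨u, v, p, q, hve, hue, hp, hpe, hq, hqe, hpq, hr, hk'⟩ := hR
  have hhigh : ∀ s : W, s ∈ up (Face A n c) → s + e ∈ up (Face A n c) →
      ∃ r ∈ Face A n c, 2 ≤ r 2 ∧ d3 u r = d3 u s := by
    intro s hs hse
    have h1 := (bet1_up.1 hs).2
    have h2 := (bet1_up.1 hse).2
    have h3 : (s + e) 2 = s 2 + e 2 := rfl
    rcases le_or_gt 2 (s 2) with h4 | h4
    · exact ⟨s, (bet1_up.1 hs).1, h4, rfl⟩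
    · exact ⟨s + e, (bet1_up.1 hse).1, by omega, by rw [d3_add, hue, add_zero]⟩
  have hup : ∀ y ∈ Face A n c, d3 u y ≤ d3 u p := by
    obtain ⟨r, hr1, hr2, hr3⟩ := hhigh p hp hpe
    exact up_bound h hk (fun y hy => (hr y hy).2) hr1 hr2 hr3
  have hlo : ∀ y ∈ Face A n c, d3 u q ≤ d3 u y := by
    obtain ⟨r, hr1, hr2, hr3⟩ := hhigh q hq hqe
    have h1 := up_bound h hk (u := -u) (U := - d3 u q)
      (fun y hy => by rw [bet1_negl]; linarith [(hr y hy).1]) hr1 hr2 (by rw [bet1_negl, hr3])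
    intro y hy
    have h2 := h1 y hy
    rw [bet1_negl] at h2
    linarith
  refine ⟨⟨u, v, p, q, hve, hue, (bet1_up.1 hp).1, (bet1_up.1 hpe).1, (bet1_up.1 hq).1,
    (bet1_up.1 hqe).1, hpq, fun y hy => ⟨hlo y hy, hup y hy⟩, ?_⟩, ?_⟩
  · intro k h1 h2
    obtain ⟨y, hy, hyk⟩ := hk' k h1 h2
    exact ⟨y, (bet1_up.1 hy).1, hyk⟩
  · intro y hy _
    obtain ⟨y', hy', hyy⟩ := hk' (d3 u y) (hlo y hy) (hup y hy)
    have hmem : ∀ s ∈ Face A n c, ∃ i j : ℤ, s = x + i • E + j • G := by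
      intro s hs
      obtain ⟨hsA, hsn⟩ := bet1_face.1 hs
      obtain ⟨i, j, _, _, _, hs'⟩ := h.mem s hsA hsn
      exact ⟨i, j, hs'⟩
    obtain ⟨i1, j1, e1⟩ := hmem y hy
    obtain ⟨i2, j2, e2⟩ := hmem y' (bet1_up.1 hy').1
    obtain ⟨a1, b1, e3⟩ := hmem p (bet1_up.1 hp).1
    obtain ⟨a2, b2, e4⟩ := hmem (p + e) (bet1_up.1 hpe).1
    obtain ⟨a3, b3, e5⟩ := hmem q (bet1_up.1 hq).1
    have he' : e = (a2 - a1) • E + (b2 - b1) • G := by
      have : e = (p + e) - p := by abel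
      rw [this, e4, e3, sub_smul, sub_smul]
      abel
    have hyd : y' = y + ((i2 - i1) • E + (j2 - j1) • G) := by
      rw [e1, e2, sub_smul, sub_smul]
      abel
    have hu0 : (a2 - a1) * d3 u E + (b2 - b1) * d3 u G = 0 := by
      rw [he', d3_add, d3_smul, d3_smul] at hue
      exact hue
    have hv1 : (a2 - a1) * d3 v E + (b2 - b1) * d3 v G = 1 := by
      rw [he', d3_add, d3_smul, d3_smul] at hve
      exact hve
    have hud : (i2 - i1) * d3 u E + (j2 - j1) * d3 u G = 0 := by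
      rw [hyd, d3_add, d3_add, d3_smul, d3_smul] at hyy
      linarith
    have hne : d3 u E ≠ 0 ∨ d3 u G ≠ 0 := by
      by_contra hcon
      push Not at hcon
      rw [e5, e3, d3_add, d3_add, d3_smul, d3_smul, d3_add, d3_add, d3_smul, d3_smul,
        hcon.1, hcon.2] at hpq
      linarith
    generalize (a2 - a1) = a at *
    generalize (b2 - b1) = b at *
    generalize (i2 - i1) = i at *
    generalize (j2 - j1) = j at *
    have hdet : i * b = j * a := by
      rcases hne with hne | hne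
      · have : (i * b - j * a) * d3 u E = 0 := by
          linear_combination b * hud - j * hu0
        rcases mul_eq_zero.1 this with h0 | h0
        · linarith
        · exact absurd h0 hne
      · have : (i * b - j * a) * d3 u G = 0 := by
          linear_combination i * hu0 - a * hud
        rcases mul_eq_zero.1 this with h0 | h0
        · linarith
        · exact absurd h0 hne
    refine ⟨i * d3 v E + j * d3 v G, ?_⟩
    have ta : (i * d3 v E + j * d3 v G) * a = i := by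
      linear_combination i * hv1 - d3 v G * hdet
    have tb : (i * d3 v E + j * d3 v G) * b = j := by
      linear_combination j * hv1 + d3 v E * hdet
    have : y + (i * d3 v E + j * d3 v G) • e = y' := by
      rw [hyd, he', smul_add, smul_smul, smul_smul, ta, tb]
    rw [this]
    exact hy'

theorem pp_ext1 {D : Finset W} {w' : W → ℝ} {e : W} {α β : ℝ} (hD : ∀ y ∈ D, 0 ≤ y 2)
    (hrow : ∀ y ∈ D, y 2 = 0 → ∃ t : ℤ, y + t • e ∈ up D) (hP : PPi (up D) w' e α β) (ω : V → ℝ) :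
    ∃ N₀ : ℝ, ∀ N, N₀ ≤ N → PPi D (glue N ω w') e α β := by
  classical
  choose! t ht using hrow
  refine ⟨1 + ∑ y ∈ D, (|w' (y + t y • e)| + |ω (y 0, y 1)| + |(t y : ℝ)| * (|α| + |β|)), ?_⟩
  intro N hN L hα hβ
  have key : ∀ y ∈ D, y 2 = 0 →
      w' (y + t y • e) - lin L (y + t y • e) < N + ω (y 0, y 1) - lin L y := by
    intro y hy _
    have h1 : |w' (y + t y • e)| + |ω (y 0, y 1)| + |(t y : ℝ)| * (|α| + |β|) ≤
        ∑ y ∈ D, (|w' (y + t y • e)| + |ω (y 0, y 1)| + |(t y : ℝ)| * (|α| + |β|)) :=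
      Finset.single_le_sum
        (f := fun y => |w' (y + t y • e)| + |ω (y 0, y 1)| + |(t y : ℝ)| * (|α| + |β|))
        (fun z _ => by positivity) hy
    have h2 : |lin L e| ≤ |α| + |β| := by
      rw [abs_le]
      constructor
      · have := neg_abs_le α
        have := abs_nonneg β
        linarith
      · have := le_abs_self β
        have := abs_nonneg α
        linarith
    have h3 : |(t y : ℝ) * lin L e| ≤ |(t y : ℝ)| * (|α| + |β|) := by
      rw [abs_mul]
      exact mul_le_mul_of_nonneg_left h2 (abs_nonneg _)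
    have h4 := neg_abs_le ((t y : ℝ) * lin L e)
    have h5 := le_abs_self (w' (y + t y • e))
    have h6 := neg_abs_le (ω (y 0, y 1))
    rw [lin_add, lin_smul]
    linarith
  have heq : amin D (glue N ω w') L = amin (up D) w' L := by
    ext y
    rw [mem_amin, mem_amin]
    constructor
    · rintro ⟨hy, hmin⟩
      have hy1 : 1 ≤ y 2 := by
        by_contra hcon
        have hy0 : y 2 = 0 := by
          have := hD y hy
          omega
        have h1 := hmin _ (bet1_up.1 (ht y hy hy0)).1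
        have h2 : (y + t y • e) 2 ≠ 0 := by
          have := (bet1_up.1 (ht y hy hy0)).2
          omega
        have h3 := key y hy hy0
        unfold glue at h1
        rw [if_pos hy0, if_neg h2] at h1
        linarith
      refine ⟨bet1_up.2 ⟨hy, hy1⟩, ?_⟩
      intro z hz
      have h1 := hmin z (bet1_up.1 hz).1
      have h2 := (bet1_up.1 hz).2
      unfold glue at h1
      rwa [if_neg (by omega), if_neg (by omega)] at h1
    · rintro ⟨hy, hmin⟩
      refine ⟨(bet1_up.1 hy).1, ?_⟩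
      intro z hz
      have h1 := (bet1_up.1 hy).2
      unfold glue
      rw [if_neg (by omega)]
      by_cases hz0 : z 2 = 0
      · rw [if_pos hz0]
        exact (hmin _ (ht z hz hz0)).trans (key z hz hz0).le
      · rw [if_neg hz0]
        have := hD z hz
        exact hmin z (bet1_up.2 ⟨hz, by omega⟩)
  rw [heq]
  exact hP L hα hβ

end Pool.Agent.SPK
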