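import Pool.Agent.SPK.Fs
import Pool.Agent.SPK.UE

/-!
# [SPK-Bet2] facets with a horizontal ruling of the upper part

`D = Face A n c`, the height of `x + i E + j G` is `j`.
`rul_ext2`: `e = (p + e) - p` is a combination `a E + b G` (`mem`), `b = e 2 = 0`, `e = a E`, `v(e) = 1` so `a = ± 1`. `Rul D E`: functional `![0, 0, 1]`. In `up D`: `u(E) = 0`, so `u(x + i E + j G) = u(x) + j u(G)`, all values between `u q < u p` are attained (`u(G) ≠ 0`, and consecutive values differ by multiples of `u(G)`), so `u(G) = ± 1`. So the heights of the points of `up D` range from `1` to some `H`, all are attained, and the pair `p, p + e` or `q, q + e` has the largest height `H`; so a pair `p', p' + E` of height `H` (`e = ± E`). At height `0`: `x, x + E`. `H ≥ 1 > 0`. Functional with value `1` at `E`: `FS.dual`.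
-/

open Finset Pool.Agent.SPB

set_option autoImplicit false

namespace Pool.Agent.SPK

variable {A : Finset W} {n : W} {c : ℤ} {x E E' E'' G : W} {ℓ κ : ℤ}

private theorem bet2_face {A : Finset W} {n : W} {c : ℤ} {y : W} :
    y ∈ Face A n c ↔ y ∈ A ∧ d3 n y = c := by
  classical
  simp only [Face, Finset.mem_filter]

private theorem bet2_up {A : Finset W} {y : W} : y ∈ up A ↔ y ∈ A ∧ 1 ≤ y 2 := by
  classical
  simp only [up, Finset.mem_filter]

private theorem bet2_z (y : W) : d3 ![0, 0, 1] y = y 2 := by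
  simp [d3, Fin.sum_univ_three]

theorem rul_ext2 (h : FS A n c x E E' E'' G ℓ κ) (hk : 1 ≤ ℓ + κ) {e : W} (he : e 2 = 0)
    (hR : Rul (up (Face A n c)) e) : (e = E ∨ e = -E) ∧ Rul (Face A n c) E := by
  obtain ⟨u, v, p, q, hve, hue, hp, hpe, hq, hqe, hpq, hr, hk'⟩ := hR
  -- coordinates
  have hmem : ∀ s ∈ Face A n c, ∃ i j : ℤ, 0 ≤ j ∧ s = x + i • E + j • G ∧ s 2 = j := by
    intro s hs
    obtain ⟨hsA, hsn⟩ := bet2_face.1 hs
    obtain ⟨i, j, -, hj, -, hsij⟩ := h.mem s hsA hsn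
    refine ⟨i, j, hj, hsij, ?_⟩
    rw [hsij]
    simp only [Pi.add_apply, Pi.smul_apply, smul_eq_mul, h.hx, h.hE, h.hG]
    ring
  obtain ⟨i, j, -, hpij, hp2⟩ := hmem p (bet2_up.1 hp).1
  obtain ⟨i', j', -, hpij', hp2'⟩ := hmem (p + e) (bet2_up.1 hpe).1
  have hjj : j' = j := by
    have h1 : (p + e) 2 = p 2 + e 2 := rfl
    omega
  have hea : e = (i' - i) • E := by
    have h1 : e = (p + e) - p := by abel
    rw [h1, hpij', hpij, hjj, sub_smul]
    abel
  have hva : (i' - i) * d3 v E = 1 := by rw [← d3_smul, ← hea, hve]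
  have haE : e = E ∨ e = -E := by
    rcases Int.isUnit_iff.1 (IsUnit.of_mul_eq_one _ hva) with h1 | h1
    · left; rw [hea, h1, one_smul]
    · right; rw [hea, h1, neg_smul, one_smul]
  have hua : d3 u E = 0 := by
    rcases haE with h1 | h1
    · rw [← h1, hue]
    · rw [h1, d3_neg] at hue
      omega
  have hval : ∀ s ∈ Face A n c, d3 u s = d3 u x + s 2 * d3 u G := by
    intro s hs
    obtain ⟨i, j, -, hs1, hs2⟩ := hmem s hs
    rw [hs2, hs1, d3_add, d3_add, d3_smul, d3_smul, hua]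
    ring
  -- the point x + G
  have hxG : x + G ∈ up (Face A n c) := by
    have h1 := h.row1 0 le_rfl (by omega)
    rw [zero_smul, add_zero] at h1
    refine bet2_up.2 ⟨bet2_face.2 ⟨h1, ?_⟩, ?_⟩
    · rw [d3_add, h.nx, h.nG, add_zero]
    · have : (x + G) 2 = x 2 + G 2 := rfl
      rw [this, h.hx, h.hG]
      norm_num
  have hxGv : d3 u (x + G) = d3 u x + d3 u G := d3_add _ _ _
  -- d3 u G = ± 1
  have hg : d3 u G = 1 ∨ d3 u G = -1 := by
    obtain ⟨z, hz, hz1⟩ := hk' (d3 u q + 1) (by omega) (by omega)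
    rw [hval z (bet2_up.1 hz).1, hval q (bet2_up.1 hq).1] at hz1
    have h1 : d3 u G * (z 2 - q 2) = 1 := by linear_combination hz1
    exact Int.isUnit_iff.1 (IsUnit.of_mul_eq_one _ h1)
  -- the top pair
  have htop : ∃ P, P ∈ up (Face A n c) ∧ P + e ∈ up (Face A n c) ∧ (∀ z ∈ up (Face A n c), z 2 ≤ P 2) ∧
      ∀ k, 1 ≤ k → k ≤ P 2 → ∃ z ∈ Face A n c, z 2 = k := by
    rcases hg with hg | hg
    · refine ⟨p, hp, hpe, fun z hz => ?_, fun k h1 h2 => ?_⟩
      · have h3 := (hr z hz).2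
        rw [hval z (bet2_up.1 hz).1, hval p (bet2_up.1 hp).1, hg] at h3
        omega
      · have h3 := (hr _ hxG).1
        obtain ⟨z, hz, hzk⟩ := hk' (d3 u x + k) (by omega) (by
          rw [hval p (bet2_up.1 hp).1, hg]; omega)
        refine ⟨z, (bet2_up.1 hz).1, ?_⟩
        rw [hval z (bet2_up.1 hz).1, hg] at hzk
        omega
    · refine ⟨q, hq, hqe, fun z hz => ?_, fun k h1 h2 => ?_⟩
      · have h3 := (hr z hz).1
        rw [hval z (bet2_up.1 hz).1, hval q (bet2_up.1 hq).1, hg] at h3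
        omega
      · have h3 := (hr _ hxG).2
        obtain ⟨z, hz, hzk⟩ := hk' (d3 u x - k) (by
          rw [hval q (bet2_up.1 hq).1, hg]; omega) (by omega)
        refine ⟨z, (bet2_up.1 hz).1, ?_⟩
        rw [hval z (bet2_up.1 hz).1, hg] at hzk
        omega
  obtain ⟨P, hP, hPe, hPm, hPa⟩ := htop
  -- a pair p', p' + E
  have hpair : ∃ P', P' ∈ Face A n c ∧ P' + E ∈ Face A n c ∧ P' 2 = P 2 := by
    rcases haE with h1 | h1
    · exact ⟨P, (bet2_up.1 hP).1, h1 ▸ (bet2_up.1 hPe).1, rfl⟩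
    · refine ⟨P + e, (bet2_up.1 hPe).1, ?_, ?_⟩
      · have h2 : P + e + E = P := by rw [h1]; abel
        rw [h2]
        exact (bet2_up.1 hP).1
      · have h2 : (P + e) 2 = P 2 + e 2 := rfl
        rw [h2, he, add_zero]
  obtain ⟨P', hP', hPE', hPz⟩ := hpair
  obtain ⟨u₀, v₀, hu₀, -, -, -⟩ := h.dual
  have hPpos : 1 ≤ P 2 := (bet2_up.1 hP).2
  have hx0 := h.row0 0 le_rfl (by have := h.l1; omega)
  have hx1 := h.row0 1 (by norm_num) h.l1
  rw [zero_smul, add_zero] at hx0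
  rw [one_smul] at hx1
  have hxF : x ∈ Face A n c := bet2_face.2 ⟨hx0, h.nx⟩
  have hxEF : x + E ∈ Face A n c := bet2_face.2 ⟨hx1, by rw [d3_add, h.nx, h.nE, add_zero]⟩
  refine ⟨haE, ![0, 0, 1], u₀, P', x, hu₀, by rw [bet2_z, h.hE], hP', hPE', hxF, hxEF, ?_, ?_, ?_⟩
  · rw [bet2_z, bet2_z, h.hx, hPz]
    omega
  · intro z hz
    rw [bet2_z, bet2_z, bet2_z, h.hx, hPz]
    obtain ⟨_, j, hj, -, hz2⟩ := hmem z hz
    refine ⟨by omega, ?_⟩
    rcases le_or_gt 1 (z 2) with h1 | h1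
    · exact hPm z (bet2_up.2 ⟨hz, h1⟩)
    · omega
  · intro k h1 h2
    rw [bet2_z, h.hx] at h1
    rw [bet2_z, hPz] at h2
    rcases eq_or_lt_of_le h1 with h3 | h3
    · exact ⟨x, hxF, by rw [bet2_z, h.hx, h3]⟩
    · obtain ⟨z, hz, hz2⟩ := hPa k (by omega) h2
      exact ⟨z, hz, by rw [bet2_z, hz2]⟩

end Pool.Agent.SPK
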