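import Pool.Agent.SPK.Cnv

/-!
# [SPK-RuF] heights on faces, triangles

`ru_face`: let `m = min` of `w - lin L` on `D = Face A n c` (if `D` is empty, `Uni ∅`). For `T` large the affine function `x ↦ lin L x + m + T (d3 n x - c)` is `≤ w` on `A`, with equality exactly on `amin D w L` (points outside of `D` have `d3 n x ≤ c - 1`; `A` is finite). `RU A w`, `Uni` of the contact set.
`uniV_level`: `up A` and the face `n = (0, 0, -1)`, `c = -1`; the contact set is `lift (arg B ..) 1` (`amin_lift`).
`TriD.swap`, `TriD.rot`: reparametrize (`s + k e - i e + j (f - e) = s + (k - i - j) e + j f`), duals `(v, u)` and `(-u - v, v)`: `(-u-v)(-e) = 1`, `(-u-v)(f-e) = -1+1 = 0`, `v(-e) = 0`, `v(f-e) = 1`.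
`auto_pp`: direction `f`. Let `|w| ≤ M` on `D`, interval `(-2M-3, -2M-2)` for `σ = lin L f`. If `x = s + i e + j f ∈ amin` with `j ≥ 1` then `x - f ∈ D` and `w (x - f) - lin L (x - f) = w (x - f) - lin L x + σ < w x - lin L x`. So `amin ⊆ {s + i e}`. If `s + a e` and `s + b e`, `a + 2 ≤ b`, are both in `amin` then `Uni` fails with coefficients `± 1 / (b - a)`. So `amin` is `{x}` or `{x, x + e}`: `ue1`, `ue2` with the functional `u`.
-/

open Finset Pool.Agent.SPB

set_option autoImplicit false

namespace Pool.Agent.SPK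

theorem ru_face {A : Finset W} {w : W → ℝ} (h : RU A w) {n : W} {c : ℤ} (hle : ∀ x ∈ A, d3 n x ≤ c)
    (L : Fin 3 → ℝ) : Uni (amin (Face A n c) w L) := by
  classical
  rcases (Face A n c).eq_empty_or_nonempty with hD | hD
  · have : amin (Face A n c) w L = ∅ := by
      rw [hD]; rfl
    rw [this]
    intro c' _ _ x hx
    simp at hx
  · obtain ⟨x0, hx0, hmin⟩ := (Face A n c).exists_min_image (fun x => w x - lin L x) hD
    set m : ℝ := w x0 - lin L x0 with hm
    set T : ℝ := (∑ y ∈ A, |w y - lin L y - m|) + 1 with hT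
    have hTy : ∀ y ∈ A, |w y - lin L y - m| < T := by
      intro y hy
      have := Finset.single_le_sum (f := fun y => |w y - lin L y - m|) (fun i _ => abs_nonneg _) hy
      linarith
    have hval : ∀ x : W, ∑ i, (L i + T * (n i : ℝ)) * (x i : ℝ) + (m - T * c)
        = lin L x + m + T * ((d3 n x : ℝ) - c) := by
      intro x
      simp only [lin, d3, Fin.sum_univ_three]
      push_cast
      ring
    have hmemF : ∀ x, x ∈ Face A n c ↔ x ∈ A ∧ d3 n x = c := by
      intro x
      simp only [Face, Finset.mem_filter]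
    have hout : ∀ x ∈ A, d3 n x ≠ c → lin L x + m + T * ((d3 n x : ℝ) - c) < w x := by
      intro x hx hne
      have h1 : d3 n x ≤ c - 1 := by
        have := hle x hx
        omega
      have h2 : (d3 n x : ℝ) ≤ c - 1 := by exact_mod_cast h1
      have h3 := hTy x hx
      have h4 := neg_abs_le (w x - lin L x - m)
      have h5 := abs_nonneg (w x - lin L x - m)
      have hTpos : 0 < T := lt_of_le_of_lt h5 h3
      have h6 : T * ((d3 n x : ℝ) - c) ≤ T * (-1) := by
        apply mul_le_mul_of_nonneg_left _ hTpos.le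
        linarith
      linarith
    have hkey : contact A w (fun i => L i + T * (n i : ℝ)) (m - T * c) = amin (Face A n c) w L := by
      ext x
      simp only [contact, Finset.mem_filter, mem_amin, hval, hmemF]
      constructor
      · rintro ⟨hxA, heq⟩
        by_cases hxc : d3 n x = c
        · refine ⟨⟨hxA, hxc⟩, ?_⟩
          intro y hy
          have := hmin y ((hmemF y).2 hy)
          rw [hxc] at heq
          simp only [sub_self, mul_zero, add_zero] at heq
          linarith
        · exact absurd heq (ne_of_lt (hout x hxA hxc))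
      · rintro ⟨⟨hxA, hxc⟩, hx⟩
        refine ⟨hxA, ?_⟩
        rw [hxc]
        have h1 := hx x0 ((hmemF x0).1 hx0)
        have h2 := hmin x ((hmemF x).2 ⟨hxA, hxc⟩)
        simp only [sub_self, mul_zero, add_zero]
        linarith
    rw [← hkey]
    apply h
    intro x hx
    rw [hval]
    by_cases hxc : d3 n x = c
    · rw [hxc]
      have h2 := hmin x ((hmemF x).2 ⟨hx, hxc⟩)
      simp only [sub_self, mul_zero, add_zero]
      linarith
    · exact (hout x hx hxc).le

theorem uniV_level {A : Finset W} {w' : W → ℝ} (h : RU (up A) w') {B : Finset V} (hB : ∀ x, x ∈ B ↔ pt x 1 ∈ A)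
    (a : ℝ × ℝ) : UniV (arg B (fun x => w' (pt x 1)) a) := by
  classical
  have hface : Face (up A) (![0, 0, -1] : W) (-1) = lift B 1 := by
    ext x
    simp only [Face, up, Finset.mem_filter, mem_lift, hB]
    have hd : d3 (![0, 0, -1] : W) x = - x 2 := by
      simp [d3, Fin.sum_univ_three]
    rw [hd]
    constructor
    · rintro ⟨⟨hx, h1⟩, h2⟩
      have h3 : x 2 = 1 := by omega
      refine ⟨h3, ?_⟩
      rw [← h3, pt_eta]
      exact hx
    · rintro ⟨h1, h2⟩
      rw [← h1, pt_eta] at h2
      exact ⟨⟨h2, by omega⟩, by omega⟩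
  have h1 := ru_face h (n := ![0, 0, -1]) (c := -1) (by
    intro x hx
    simp only [up, Finset.mem_filter] at hx
    have hd : d3 (![0, 0, -1] : W) x = - x 2 := by
      simp [d3, Fin.sum_univ_three]
    rw [hd]
    omega) ![a.1, a.2, 0]
  rw [hface, amin_lift] at h1
  have ha : ((![a.1, a.2, 0] : Fin 3 → ℝ) 0, (![a.1, a.2, 0] : Fin 3 → ℝ) 1) = a := by
    simp
  rw [ha] at h1
  intro c hc0 hc1 hc2 x hx
  have hsum : ∀ g : W → ℝ, ∑ x ∈ lift (arg B (fun x => w' (pt x 1)) a) 1, g x
      = ∑ x ∈ arg B (fun x => w' (pt x 1)) a, g (pt x 1) := by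
    intro g
    rw [lift, Finset.sum_image]
    intro x _ y _ hxy
    exact (pt_inj.1 hxy).1
  have h2 := h1 (fun x => c (x 0, x 1)) (by
    rw [hsum]
    simpa using hc0) (by
    intro i
    rw [hsum]
    fin_cases i
    · simpa using hc1
    · simpa using hc2
    · simpa using hc0) (pt x 1) (mem_lift.2 ⟨rfl, by simpa using hx⟩)
  simpa using h2

theorem ruf_d3_sub_left (u v x : W) : d3 (u - v) x = d3 u x - d3 v x := by
  simp only [d3, Pi.sub_apply, sub_mul, Finset.sum_sub_distrib]

theorem ruf_d3_neg_left (u x : W) : d3 (-u) x = - d3 u x := by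
  simp only [d3, Pi.neg_apply, neg_mul, Finset.sum_neg_distrib]

theorem TriD.swap {D : Finset W} {s e f : W} {k : ℕ} (h : TriD D s e f k) : TriD D s f e k := by
  obtain ⟨hk, ⟨u, v, h1, h2, h3, h4⟩, hm⟩ := h
  refine ⟨hk, ⟨v, u, h4, h3, h2, h1⟩, ?_⟩
  intro x
  rw [hm]
  constructor
  · rintro ⟨i, j, hij, rfl⟩
    exact ⟨j, i, by omega, by abel⟩
  · rintro ⟨i, j, hij, rfl⟩
    exact ⟨j, i, by omega, by abel⟩

theorem TriD.rot {D : Finset W} {s e f : W} {k : ℕ} (h : TriD D s e f k) :
    TriD D (s + (k : ℤ) • e) (-e) (f - e) k := by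
  obtain ⟨hk, ⟨u, v, h1, h2, h3, h4⟩, hm⟩ := h
  refine ⟨hk, ⟨-u - v, v, ?_, ?_, ?_, ?_⟩, ?_⟩
  · rw [ruf_d3_sub_left, ruf_d3_neg_left, d3_neg, d3_neg, h1, h3]; norm_num
  · rw [ruf_d3_sub_left, ruf_d3_neg_left, d3_sub, d3_sub, h1, h2, h3, h4]; norm_num
  · rw [d3_neg, h3]; norm_num
  · rw [d3_sub, h3, h4]; norm_num
  intro x
  rw [hm]
  constructor
  · rintro ⟨i, j, hij, rfl⟩
    refine ⟨k - i - j, j, by omega, ?_⟩
    have hc : ((k - i - j : ℕ) : ℤ) = (k : ℤ) - i - j := by omega
    rw [hc]
    funext t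
    simp only [Pi.add_apply, Pi.smul_apply, Pi.neg_apply, Pi.sub_apply, smul_eq_mul]
    ring
  · rintro ⟨i, j, hij, rfl⟩
    refine ⟨k - i - j, j, by omega, ?_⟩
    have hc : ((k - i - j : ℕ) : ℤ) = (k : ℤ) - i - j := by omega
    funext t
    simp only [Pi.add_apply, Pi.smul_apply, Pi.neg_apply, Pi.sub_apply, smul_eq_mul]
    rw [hc]
    ring

theorem auto_pp {D : Finset W} {w : W → ℝ} {s e f : W} {k : ℕ} (h : TriD D s e f k)
    (hU : ∀ L, Uni (amin D w L)) : PP D w f := by
  classical
  obtain ⟨hk, ⟨u, v, h1, h2, h3, h4⟩, hm⟩ := h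
  set M : ℝ := ∑ y ∈ D, |w y| with hM
  have hMy : ∀ y ∈ D, |w y| ≤ M := fun y hy =>
    Finset.single_le_sum (f := fun y => |w y|) (fun i _ => abs_nonneg _) hy
  refine ⟨-2 * M - 3, -2 * M - 2, by linarith, ?_⟩
  intro L hL1 hL2
  have hDne : D.Nonempty := ⟨s, (hm s).2 ⟨0, 0, by omega, by simp⟩⟩
  have hrow : ∀ x ∈ amin D w L, ∃ i : ℕ, x = s + (i : ℤ) • e := by
    intro x hx
    obtain ⟨hxD, hxm⟩ := mem_amin.1 hx
    obtain ⟨i, j, hij, hxe⟩ := (hm x).1 hxD
    rcases Nat.eq_zero_or_pos j with hj | hj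
    · refine ⟨i, ?_⟩
      rw [hxe, hj]
      simp
    · exfalso
      obtain ⟨j', rfl⟩ : ∃ j', j = j' + 1 := ⟨j - 1, by omega⟩
      set y : W := s + (i : ℤ) • e + (j' : ℤ) • f with hy
      have hyD : y ∈ D := (hm y).2 ⟨i, j', by omega, rfl⟩
      have hxy : x = y + (1 : ℤ) • f := by
        rw [hxe, hy]
        push_cast
        rw [add_smul]
        abel
      have h5 := hxm y hyD
      have h6 : lin L x = lin L y + lin L f := by
        rw [hxy, lin_add, one_smul]
      have h7 := abs_le.1 (hMy x hxD)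
      have h8 := abs_le.1 (hMy y hyD)
      linarith
  obtain ⟨x, hx, hxmin⟩ := (amin D w L).exists_min_image (fun x => d3 u x) (amin_nonempty hDne w L)
  obtain ⟨a, ha⟩ := hrow x hx
  have hval : ∀ i : ℕ, d3 u (s + (i : ℤ) • e) = d3 u s + i := by
    intro i
    rw [d3_add, d3_smul, h1, mul_one]
  have hsub : ∀ y ∈ amin D w L, y = x ∨ y = x + e := by
    intro y hy
    obtain ⟨b, hb⟩ := hrow y hy
    have h5 := hxmin y hy
    rw [ha, hb, hval, hval] at h5
    have hab : a ≤ b := by omega
    by_cases hba : b = a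
    · left; rw [ha, hb, hba]
    by_cases hba1 : b = a + 1
    · right
      rw [ha, hb, hba1]
      push_cast
      rw [add_smul, one_smul]
      abel
    exfalso
    have hab2 : a + 2 ≤ b := by omega
    have hxy : x ≠ y := by
      intro hxy
      have := congrArg (d3 u) hxy
      rw [ha, hb, hval, hval] at this
      omega
    have hpos : (0 : ℝ) < (b : ℝ) - a := by
      have : (a : ℝ) + 2 ≤ b := by exact_mod_cast hab2
      linarith
    have hsumg : ∀ g : W → ℝ, ∑ z ∈ amin D w L, (if z = x then 1 / ((b : ℝ) - a) else if z = y then -(1 / ((b : ℝ) - a)) else 0) * g z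
        = 1 / ((b : ℝ) - a) * g x - 1 / ((b : ℝ) - a) * g y := by
      intro g
      have : ∀ z ∈ amin D w L, (if z = x then 1 / ((b : ℝ) - a) else if z = y then -(1 / ((b : ℝ) - a)) else 0) * g z
          = (if z = x then 1 / ((b : ℝ) - a) * g x else 0) + (if z = y then -(1 / ((b : ℝ) - a)) * g y else 0) := by
        intro z _
        by_cases hzx : z = x
        · subst hzx
          simp [hxy]
        · by_cases hzy : z = y
          · subst hzy
            simp [hzx]
          · simp [hzx, hzy]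
      rw [Finset.sum_congr rfl this, Finset.sum_add_distrib, Finset.sum_ite_eq' , Finset.sum_ite_eq', if_pos hx, if_pos hy]
      ring
    have h6 := hU L (fun z => if z = x then 1 / ((b : ℝ) - a) else if z = y then -(1 / ((b : ℝ) - a)) else 0)
      (by
        have := hsumg (fun _ => 1)
        simp only [mul_one, sub_self] at this
        rw [this]
        exact ⟨0, by simp⟩)
      (by
        intro i
        rw [hsumg (fun z => (z i : ℝ))]
        refine ⟨-(e i), ?_⟩
        rw [ha, hb]
        simp only [Pi.add_apply, Pi.smul_apply, smul_eq_mul]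
        push_cast
        field_simp
        ring) x hx
    simp at h6
    obtain ⟨N, hN⟩ := h6
    have h7 : (N : ℝ) * ((b : ℝ) - a) = 1 := by
      rw [← hN]
      field_simp
    have h8 : N * ((b : ℤ) - a) = 1 := by exact_mod_cast h7
    have h9 : (2 : ℤ) ≤ (b : ℤ) - a := by omega
    have h10 : N ≤ 0 ∨ 1 ≤ N := by omega
    rcases h10 with h10 | h10
    · nlinarith
    · nlinarith
  by_cases hxe : x + e ∈ amin D w L
  · have hC : amin D w L = {x, x + e} := by
      ext z
      simp only [Finset.mem_insert, Finset.mem_singleton]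
      exact ⟨hsub z, by rintro (rfl | rfl) <;> assumption⟩
    rw [hC]
    exact ue2 h4 h2 (Or.inl (by rw [d3_add, h1]; ring))
  · have hC : amin D w L = {x} := by
      ext z
      simp only [Finset.mem_singleton]
      constructor
      · intro hz
        rcases hsub z hz with h5 | h5
        · exact h5
        · rw [h5] at hz
          exact absurd hz hxe
      · rintro rfl
        exact hx
    rw [hC]
    exact ue1 h4

end Pool.Agent.SPK
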