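import Pool.Agent.SPK.Fs
import Pool.Agent.SPK.RuF

/-!
# [SPK-Bet3] facets whose upper part is a triangle: normal form

`D = Face A n c`, the height of `x + i E + j G` is `j`; `up D` has minimal height `1`, attained exactly at `x + i E + G`, `0 ≤ i ≤ ℓ + κ` (`mem`, `row1`), at least two points. Let `TriD (up D) s e f k'`. The height of `s + i e + j f` is `s 2 + i (e 2) + j (f 2)`. Corners `s, s + k' e, s + k' f`, heights `≥ 1`. At least two points of height `1`: so at least two of the corners have height `1` (a lattice point with positive coefficients at all three corners has height `1` only if all corners have), not all three (`e`, `f` would be multiples of `E`, but they are part of a basis). By `TriD.rot`, `TriD.swap`: the corners `s, s + k' e` have height `1`: `s 2 = 1`, `e 2 = 0`, `f 2 > 0`. So `{s + i e | 0 ≤ i ≤ k'} = {x + G + i E | 0 ≤ i ≤ ℓ + κ}` and `e = ± E` (`e` is a multiple of `E` by `mem` and primitive), `k' = ℓ + κ`, and `s = x + G`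 if `e = E`; if `e = -E` then `s = x + G + k' E`: apply `TriD.rot`. Now `f = a E + b G` (`mem`), `b = f 2 > 0`; dual functional `v`, `v(E) = 0`, `v(f) = 1 = b v(G)`, so `b = 1`, `p' = a`. `mem` for the corner `x + G + k' f = x + k' p' E + (k' + 1) G`: `0 ≤ k' p' ≤ ℓ + κ (k' + 1) = k' + κ k'`.
`tri_mirror`: `TriD.rot`.
-/

open Finset Pool.Agent.SPB

set_option autoImplicit false

namespace Pool.Agent.SPK

variable {A : Finset W} {n : W} {c : ℤ} {x E E' E'' G : W} {ℓ κ : ℤ}

private theorem b3_up (h : FS A n c x E E' E'' G ℓ κ) {y : W} (hy : y ∈ up (Face A n c)) :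
    ∃ i j : ℤ, 0 ≤ i ∧ 1 ≤ j ∧ i ≤ ℓ + κ * j ∧ y = x + i • E + j • G ∧ y 2 = j := by
  have h1 := Finset.mem_filter.1 hy
  have h2 := Finset.mem_filter.1 h1.1
  obtain ⟨i, j, hi, hj, hb, e⟩ := h.mem y h2.1 h2.2
  have e2 : y 2 = j := by
    rw [e]
    simp [h.hx, h.hE, h.hG]
  exact ⟨i, j, hi, e2 ▸ h1.2, hb, e, e2⟩

private theorem b3_row (h : FS A n c x E E' E'' G ℓ κ) {i : ℤ} (h0 : 0 ≤ i) (h1 : i ≤ ℓ + κ) :
    x + i • E + G ∈ up (Face A n c) := by
  refine Finset.mem_filter.2 ⟨Finset.mem_filter.2 ⟨h.row1 i h0 h1, ?_⟩, ?_⟩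
  · rw [d3_add, d3_add, d3_smul, h.nx, h.nE, h.nG]
    ring
  · simp [h.hx, h.hE, h.hG]

private theorem b3_two (s e f : W) (i j : ℤ) : (s + i • e + j • f) 2 = s 2 + i * e 2 + j * f 2 := by
  simp [Pi.add_apply, Pi.smul_apply, smul_eq_mul]

private theorem b3_d3 (u s e f : W) (i j : ℤ) : d3 u (s + i • e + j • f) = d3 u s + i * d3 u e + j * d3 u f := by
  rw [d3_add, d3_add, d3_smul, d3_smul]

private theorem b3_core (h : FS A n c x E E' E'' G ℓ κ) (hk : 1 ≤ ℓ + κ) {s f : W} {k : ℕ}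
    (T : TriD (up (Face A n c)) s E f k) (hs : s 2 = 1) (hf : 0 < f 2) :
    ∃ (p' : ℤ) (k : ℕ), 0 ≤ p' ∧ p' ≤ 1 + κ ∧ (k : ℤ) = ℓ + κ ∧
      TriD (up (Face A n c)) (x + G) E (p' • E + G) k := by
  obtain ⟨u, v, hu1, hu2, hv1, hv2⟩ := h.dual
  have k1 := T.k1
  have sm : s ∈ up (Face A n c) := (T.mem s).2 ⟨0, 0, by omega, by simp⟩
  obtain ⟨i0, j0, hi0, hj0, hb0, hs0, hsj⟩ := b3_up h sm
  have hj01 : j0 = 1 := by rw [← hsj, hs]
  subst hj01
  have hus : d3 u s = d3 u x + i0 := by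
    rw [hs0, b3_d3, hu1, hu2]; ring
  -- general statement for the points of the bottom row
  have key : ∀ i : ℤ, 0 ≤ i → i ≤ ℓ + κ → ∃ i' : ℕ, i' ≤ k ∧ i = i0 + i' := by
    intro i hi0' hi1
    obtain ⟨i', j', hij, hx⟩ := (T.mem _).1 (b3_row h hi0' hi1)
    have h2 := congrFun hx 2
    have h3 : (x + i • E + G) 2 = 1 := by simp [h.hx, h.hE, h.hG]
    rw [h3, b3_two, hs, h.hE] at h2
    have hj' : (j' : ℤ) * f 2 = 0 := by linarith
    have hj0 : (j' : ℤ) = 0 := by
      rcases mul_eq_zero.1 hj' with h4 | h4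
      · exact h4
      · omega
    have h5 := congrArg (d3 u) hx
    rw [b3_d3, hus, hj0, hu1, d3_add, d3_add, d3_smul, hu1, hu2] at h5
    refine ⟨i', by omega, by linarith⟩
  obtain ⟨i', hi', hi0e⟩ := key 0 le_rfl (by omega)
  have hi00 : i0 = 0 := by omega
  subst hi00
  have hsx : s = x + G := by rw [hs0]; simp
  obtain ⟨i'', hi'', hi0e''⟩ := key (ℓ + κ) (by omega) le_rfl
  have hvx : d3 v s = d3 v x + 1 := by
    rw [hs0, b3_d3, hv1, hv2]; ring
  have hkl : (k : ℤ) ≤ ℓ + κ := by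
    have hm : s + (k : ℤ) • E + ((0 : ℕ) : ℤ) • f ∈ up (Face A n c) := (T.mem _).2 ⟨k, 0, by omega, rfl⟩
    obtain ⟨i, j, hi, hj, hb, he, -⟩ := b3_up h hm
    have h5 := congrArg (d3 u) he
    have h6 := congrArg (d3 v) he
    rw [b3_d3, b3_d3, hus, hu1, hu2] at h5
    rw [b3_d3, b3_d3, hvx, hv1, hv2] at h6
    push_cast at h5 h6
    have hi2 : i = k := by linarith
    have hj2 : j = 1 := by linarith
    rw [hi2, hj2] at hb
    linarith
  have hke : (k : ℤ) = ℓ + κ := by omega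
  -- the vector `f`
  have hfm : s + ((0 : ℕ) : ℤ) • E + ((1 : ℕ) : ℤ) • f ∈ up (Face A n c) := (T.mem _).2 ⟨0, 1, by omega, rfl⟩
  obtain ⟨i, j, hi, hj, hb, he, -⟩ := b3_up h hfm
  have hfe : f = i • E + (j - 1) • G := by
    have h7 : s + f = x + i • E + j • G := by rw [← he]; simp
    rw [hsx] at h7
    have h8 : f = x + i • E + j • G - (x + G) := by rw [← h7]; abel
    rw [h8, sub_smul, one_smul]; abel
  have hf2 : f 2 = j - 1 := by
    rw [hfe]; simp [h.hE, h.hG]
  obtain ⟨u', v', hue, huf, hve, hvf⟩ := T.dual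
  have hj1 : j - 1 = 1 := by
    rw [hfe, d3_add, d3_smul, d3_smul, hve] at hvf
    have h9 : (j - 1) * d3 v' G = 1 := by linarith
    rcases Int.eq_one_or_neg_one_of_mul_eq_one h9 with h10 | h10
    · exact h10
    · omega
  rw [hj1, one_smul] at hfe
  have huf' : d3 u f = i := by rw [hfe, d3_add, d3_smul, hu1, hu2]; ring
  have hvf' : d3 v f = 1 := by rw [hfe, d3_add, d3_smul, hv1, hv2]; ring
  have hcm : s + ((0 : ℕ) : ℤ) • E + (k : ℤ) • f ∈ up (Face A n c) := (T.mem _).2 ⟨0, k, by omega, rfl⟩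
  obtain ⟨i2, j2, hi2, hj2, hb2, he2, -⟩ := b3_up h hcm
  have h5 := congrArg (d3 u) he2
  have h6 := congrArg (d3 v) he2
  rw [b3_d3, b3_d3, hus, hu1, hu2, huf'] at h5
  rw [b3_d3, b3_d3, hvx, hv1, hv2, hvf'] at h6
  push_cast at h5 h6
  have e5 : i2 = k * i := by linarith
  have e6 : j2 = 1 + k := by linarith
  rw [e5] at hi2
  rw [e5, e6] at hb2
  have kpos : (0 : ℤ) < k := by exact_mod_cast k1
  refine ⟨i, k, ?_, ?_, hke, ?_⟩
  · exact hi
  · have : (k : ℤ) * i ≤ k * (1 + κ) := by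
      calc (k : ℤ) * i ≤ ℓ + κ * (1 + k) := hb2
        _ = k * (1 + κ) := by rw [show ℓ = (k : ℤ) - κ by omega]; ring
    exact le_of_mul_le_mul_left this kpos
  · rw [← hsx, ← hfe]
    exact T

private theorem b3_core2 (h : FS A n c x E E' E'' G ℓ κ) (hk : 1 ≤ ℓ + κ) {s e f : W} {k : ℕ}
    (T : TriD (up (Face A n c)) s e f k) (hs : s 2 = 1) (he : e 2 = 0) (hf : 0 < f 2) :
    ∃ (p' : ℤ) (k : ℕ), 0 ≤ p' ∧ p' ≤ 1 + κ ∧ (k : ℤ) = ℓ + κ ∧
      TriD (up (Face A n c)) (x + G) E (p' • E + G) k := by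
  have k1 := T.k1
  have sm : s ∈ up (Face A n c) := (T.mem s).2 ⟨0, 0, by omega, by simp⟩
  obtain ⟨i0, j0, hi0, hj0, hb0, hs0, hsj⟩ := b3_up h sm
  have sem : s + ((1 : ℕ) : ℤ) • e + ((0 : ℕ) : ℤ) • f ∈ up (Face A n c) := (T.mem _).2 ⟨1, 0, by omega, rfl⟩
  obtain ⟨i1, j1, hi1, hj1, hb1, hs1, hsj1⟩ := b3_up h sem
  have hj01 : j0 = 1 := by rw [← hsj, hs]
  have hj11 : j1 = 1 := by
    rw [b3_two, hs, he] at hsj1
    push_cast at hsj1
    linarith
  subst hj01
  subst hj11
  have hee : e = (i1 - i0) • E := by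
    have h7 : s + e = x + i1 • E + (1 : ℤ) • G := by rw [← hs1]; simp
    rw [hs0] at h7
    have h8 : e = x + i1 • E + (1 : ℤ) • G - (x + i0 • E + (1 : ℤ) • G) := by rw [← h7]; abel
    rw [h8, sub_smul]; abel
  obtain ⟨u', v', hue, huf, hve, hvf⟩ := T.dual
  rw [hee, d3_smul] at hue
  rcases Int.eq_one_or_neg_one_of_mul_eq_one hue with h1 | h1
  · rw [h1, one_smul] at hee
    subst hee
    exact b3_core h hk T hs hf
  · rw [h1] at hee
    have hee' : e = -E := by rw [hee]; simp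
    have T' := T.rot
    have h3 : -e = E := by rw [hee']; simp
    rw [h3] at T'
    refine b3_core h hk T' ?_ ?_
    · simp [hs, he]
    · simpa [he] using hf

theorem tri_form (h : FS A n c x E E' E'' G ℓ κ) (hk : 1 ≤ ℓ + κ) (hT : Tri (up (Face A n c))) :
    ∃ (p' : ℤ) (k : ℕ), 0 ≤ p' ∧ p' ≤ 1 + κ ∧ (k : ℤ) = ℓ + κ ∧
      TriD (up (Face A n c)) (x + G) E (p' • E + G) k := by
  obtain ⟨s, e, f, k, T⟩ := hT
  obtain ⟨u, v, hu1, hu2, hv1, hv2⟩ := h.dual
  have k1 := T.k1
  have kpos : (0 : ℤ) < k := by exact_mod_cast k1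
  have m0 : s + ((0 : ℕ) : ℤ) • e + ((0 : ℕ) : ℤ) • f ∈ up (Face A n c) := (T.mem _).2 ⟨0, 0, by omega, rfl⟩
  have m1 : s + (k : ℤ) • e + ((0 : ℕ) : ℤ) • f ∈ up (Face A n c) := (T.mem _).2 ⟨k, 0, by omega, rfl⟩
  have m2 : s + ((0 : ℕ) : ℤ) • e + (k : ℤ) • f ∈ up (Face A n c) := (T.mem _).2 ⟨0, k, by omega, rfl⟩
  have g0 := (Finset.mem_filter.1 m0).2
  have g1 := (Finset.mem_filter.1 m1).2
  have g2 := (Finset.mem_filter.1 m2).2
  rw [b3_two] at g0 g1 g2
  push_cast at g0 g1 g2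
  obtain ⟨i1, j1, hij1, hp1⟩ := (T.mem _).1 (b3_row h (i := 0) le_rfl (by omega))
  obtain ⟨i2, j2, hij2, hp2⟩ := (T.mem _).1 (b3_row h (i := 1) (by omega) hk)
  have q1 := congrFun hp1 2
  have q2 := congrFun hp2 2
  have r1 : (x + (0 : ℤ) • E + G) 2 = 1 := by simp [h.hx, h.hG]
  have r2 : (x + (1 : ℤ) • E + G) 2 = 1 := by simp [h.hx, h.hE, h.hG]
  rw [r1, b3_two] at q1
  rw [r2, b3_two] at q2
  have hne : ¬ (i1 = i2 ∧ j1 = j2) := by
    rintro ⟨rfl, rfl⟩
    have h5 := congrArg (d3 u) (hp1.trans hp2.symm)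
    rw [d3_add, d3_add, d3_add, d3_add, d3_smul, d3_smul, hu1] at h5
    omega
  have cast1 : (i1 : ℤ) + j1 ≤ k := by exact_mod_cast hij1
  have cast2 : (i2 : ℤ) + j2 ≤ k := by exact_mod_cast hij2
  have z1 : ((k : ℤ) - i1 - j1) * (s 2 - 1) + i1 * (s 2 + k * e 2 - 1) + j1 * (s 2 + k * f 2 - 1) = 0 := by
    linear_combination (-(k : ℤ)) * q1
  have z2 : ((k : ℤ) - i2 - j2) * (s 2 - 1) + i2 * (s 2 + k * e 2 - 1) + j2 * (s 2 + k * f 2 - 1) = 0 := by
    linear_combination (-(k : ℤ)) * q2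
  have ha : 0 ≤ s 2 - 1 := by linarith
  have hb : 0 ≤ s 2 + k * e 2 - 1 := by linarith
  have hc : 0 ≤ s 2 + k * f 2 - 1 := by linarith
  have a1 : 0 ≤ ((k : ℤ) - i1 - j1) * (s 2 - 1) := mul_nonneg (by linarith) ha
  have a2 : 0 ≤ (i1 : ℤ) * (s 2 + k * e 2 - 1) := mul_nonneg (by positivity) hb
  have a3 : 0 ≤ (j1 : ℤ) * (s 2 + k * f 2 - 1) := mul_nonneg (by positivity) hc
  have b1 : 0 ≤ ((k : ℤ) - i2 - j2) * (s 2 - 1) := mul_nonneg (by linarith) ha
  have b2 : 0 ≤ (i2 : ℤ) * (s 2 + k * e 2 - 1) := mul_nonneg (by positivity) hb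
  have b3 : 0 ≤ (j2 : ℤ) * (s 2 + k * f 2 - 1) := mul_nonneg (by positivity) hc
  have c1 : ((k : ℤ) - i1 - j1) * (s 2 - 1) = 0 := by linarith
  have c2 : (i1 : ℤ) * (s 2 + k * e 2 - 1) = 0 := by linarith
  have c3 : (j1 : ℤ) * (s 2 + k * f 2 - 1) = 0 := by linarith
  have d1 : ((k : ℤ) - i2 - j2) * (s 2 - 1) = 0 := by linarith
  have d2 : (i2 : ℤ) * (s 2 + k * e 2 - 1) = 0 := by linarith
  have d3' : (j2 : ℤ) * (s 2 + k * f 2 - 1) = 0 := by linarith
  by_cases hA : s 2 - 1 = 0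
  · by_cases hB : s 2 + k * e 2 - 1 = 0
    · by_cases hC : s 2 + k * f 2 - 1 = 0
      · exfalso
        have he2 : e 2 = 0 := by
          have : (k : ℤ) * e 2 = 0 := by linarith
          rcases mul_eq_zero.1 this with h4 | h4
          · omega
          · exact h4
        have hf2 : f 2 = 0 := by
          have : (k : ℤ) * f 2 = 0 := by linarith
          rcases mul_eq_zero.1 this with h4 | h4
          · omega
          · exact h4
        have hs2 : s 2 = 1 := by linarith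
        have n1 : s + ((1 : ℕ) : ℤ) • e + ((0 : ℕ) : ℤ) • f ∈ up (Face A n c) :=
          (T.mem _).2 ⟨1, 0, by omega, rfl⟩
        have n2 : s + ((0 : ℕ) : ℤ) • e + ((1 : ℕ) : ℤ) • f ∈ up (Face A n c) :=
          (T.mem _).2 ⟨0, 1, by omega, rfl⟩
        obtain ⟨p0, q0, -, -, -, w0, y0⟩ := b3_up h m0
        obtain ⟨p1, q1', -, -, -, w1, y1⟩ := b3_up h n1
        obtain ⟨p2, q2', -, -, -, w2, y2⟩ := b3_up h n2
        rw [b3_two, hs2, he2, hf2] at y0 y1 y2
        have t0 : q0 = 1 := by rw [← y0]; ring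
        have t1 : q1' = 1 := by rw [← y1]; ring
        have t2 : q2' = 1 := by rw [← y2]; ring
        subst t0 t1 t2
        obtain ⟨u', v', hue, huf, hve, hvf⟩ := T.dual
        have ee : e = (p1 - p0) • E := by
          have h7 : e = (s + ((1 : ℕ) : ℤ) • e + ((0 : ℕ) : ℤ) • f) - (s + ((0 : ℕ) : ℤ) • e + ((0 : ℕ) : ℤ) • f) := by
            simp
          rw [w0, w1] at h7
          rw [h7, sub_smul]; abel
        have ff : f = (p2 - p0) • E := by
          have h7 : f = (s + ((0 : ℕ) : ℤ) • e + ((1 : ℕ) : ℤ) • f) - (s + ((0 : ℕ) : ℤ) • e + ((0 : ℕ) : ℤ) • f) := by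
            simp
          rw [w0, w2] at h7
          rw [h7, sub_smul]; abel
        have k3 : (p1 - p0) * d3 u' E = 1 := by rw [← d3_smul, ← ee]; exact hue
        have k4 : (p2 - p0) * d3 u' E = 0 := by rw [← d3_smul, ← ff]; exact huf
        have k5 : (p2 - p0) * d3 v' E = 1 := by rw [← d3_smul, ← ff]; exact hvf
        rcases mul_eq_zero.1 k4 with h4 | h4
        · rw [h4] at k5; omega
        · rw [h4] at k3; omega
      · have hs2 : s 2 = 1 := by linarith
        have he2 : e 2 = 0 := by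
          have : (k : ℤ) * e 2 = 0 := by linarith
          rcases mul_eq_zero.1 this with h4 | h4
          · omega
          · exact h4
        have hf2 : 0 < f 2 := by
          have : 0 < (k : ℤ) * f 2 := by
            rcases lt_or_eq_of_le hc with h4 | h4
            · linarith
            · exact absurd h4.symm hC
          exact (mul_pos_iff_of_pos_left kpos).1 this
        exact b3_core2 h hk T hs2 he2 hf2
    · -- the corner `s + k e` is higher
      have hi1 : (i1 : ℤ) = 0 := by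
        rcases mul_eq_zero.1 c2 with h4 | h4
        · exact h4
        · exact absurd h4 hB
      have hi2 : (i2 : ℤ) = 0 := by
        rcases mul_eq_zero.1 d2 with h4 | h4
        · exact h4
        · exact absurd h4 hB
      have hC : s 2 + k * f 2 - 1 = 0 := by
        by_contra hC
        have hj1 : (j1 : ℤ) = 0 := by
          rcases mul_eq_zero.1 c3 with h4 | h4
          · exact h4
          · exact absurd h4 hC
        have hj2 : (j2 : ℤ) = 0 := by
          rcases mul_eq_zero.1 d3' with h4 | h4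
          · exact h4
          · exact absurd h4 hC
        exact hne ⟨by omega, by omega⟩
      have hs2 : s 2 = 1 := by linarith
      have hf2 : f 2 = 0 := by
        have : (k : ℤ) * f 2 = 0 := by linarith
        rcases mul_eq_zero.1 this with h4 | h4
        · omega
        · exact h4
      have he2 : 0 < e 2 := by
        have : 0 < (k : ℤ) * e 2 := by
          rcases lt_or_eq_of_le hb with h4 | h4
          · linarith
          · exact absurd h4.symm hB
        exact (mul_pos_iff_of_pos_left kpos).1 this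
      exact b3_core2 h hk T.swap hs2 hf2 he2
  · have e1 : (k : ℤ) - i1 - j1 = 0 := by
      rcases mul_eq_zero.1 c1 with h4 | h4
      · exact h4
      · exact absurd h4 hA
    have e2 : (k : ℤ) - i2 - j2 = 0 := by
      rcases mul_eq_zero.1 d1 with h4 | h4
      · exact h4
      · exact absurd h4 hA
    have hB : s 2 + k * e 2 - 1 = 0 := by
      by_contra hB
      have hi1 : (i1 : ℤ) = 0 := by
        rcases mul_eq_zero.1 c2 with h4 | h4
        · exact h4
        · exact absurd h4 hB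
      have hi2 : (i2 : ℤ) = 0 := by
        rcases mul_eq_zero.1 d2 with h4 | h4
        · exact h4
        · exact absurd h4 hB
      exact hne ⟨by omega, by omega⟩
    have hC : s 2 + k * f 2 - 1 = 0 := by
      by_contra hC
      have hj1 : (j1 : ℤ) = 0 := by
        rcases mul_eq_zero.1 c3 with h4 | h4
        · exact h4
        · exact absurd h4 hC
      have hj2 : (j2 : ℤ) = 0 := by
        rcases mul_eq_zero.1 d3' with h4 | h4
        · exact h4
        · exact absurd h4 hC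
      exact hne ⟨by omega, by omega⟩
    have hef : f 2 - e 2 = 0 := by
      have : (k : ℤ) * (f 2 - e 2) = 0 := by linarith
      rcases mul_eq_zero.1 this with h4 | h4
      · omega
      · exact h4
    have he2 : 0 < - e 2 := by
      have : 0 < (k : ℤ) * (- e 2) := by
        rcases lt_or_eq_of_le ha with h4 | h4
        · linarith
        · exact absurd h4.symm hA
      exact (mul_pos_iff_of_pos_left kpos).1 this
    have T' := T.rot.swap
    refine b3_core2 h hk T' ?_ ?_ ?_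
    · simp only [Pi.add_apply, Pi.smul_apply, smul_eq_mul]; linarith
    · simpa using hef
    · simpa using he2

theorem tri_mirror {D : Finset W} {p' : ℤ} {k : ℕ} (hk : (k : ℤ) = ℓ + κ) (hT : TriD D (x + G) E (p' • E + G) k) :
    TriD D ((x + ℓ • E) + (G + κ • E)) (-E) ((κ + 1 - p') • (-E) + (G + κ • E)) k := by
  have T := hT.rot
  have e1 : x + G + (k : ℤ) • E = (x + ℓ • E) + (G + κ • E) := by
    rw [hk, add_smul]; abel
  have e2 : p' • E + G - E = (κ + 1 - p') • (-E) + (G + κ • E) := by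
    rw [smul_neg, sub_smul, add_smul, one_smul]; abel
  rw [e1, e2] at T
  exact T

end Pool.Agent.SPK
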