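import Pool.Agent.SPK.Fs
import Pool.Agent.SPK.RuF

/-!
# [SPK-Bet4] facets whose upper part is a triangle: smoothness

`D = Face A n c`, `f = p' E + G`. Suppose `p' ≥ 2` (or `≥ 1`). `y = x + G` is a vertex of `A`: `isV_of_face` with `g = u'` such that `u'(E) = -2`, `u'(G) = 1` (from `FS.dual`): the points of height `0` are `y + i E - G`, `i ≥ 0`, value `-2 i - 1 < 0`; the points of `up D` are `y + i E + j f`, value `-2 i + j (1 - 2 p') < 0` unless `i = j = 0`. Basis `b` at `y`; `edge`: `-G` is some `b i`. `facet_vertex` at `y`: two of the `b i` have `d3 n = 0`, and the points of `D` are `y + s b i + t b j`, `s, t ≥ 0`; `-G` is one of these two (`d3 n G = 0` and the third has `d3 n < 0`), let `g` be the other one. `y + g ∈ D`: `g = a E + m G` with `a ≥ 0` (`mem`: `x + G + g = x + a E + (1 + m) G`). `E` is a combination `s (-G) + t g` (as `y + E ∈ D`, which is `x + E + G`): coefficient of `E`: `1 = t a`, so `a = 1` (`t = 1`). `f = s (-G) + t g` with `s, t ≥ 0`: `p' =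 t`, `1 = - s + p' m`, so `m ≥ 1`. So `y + g` has height `≥ 2`, it is in `up D`: `g = i E + j f`, `i, j ≥ 0`: `m = j`, `1 = i + m p'`, so `p' ≤ 1`.
(Here `x + E + G ∈ A` as `1 ≤ k` and `TriD`: `(x + G) + 1 • E ∈ up D`.)
-/

open Finset Pool.Agent.SPB

set_option autoImplicit false

namespace Pool.Agent.SPK

variable {A : Finset W} {n : W} {c : ℤ} {x E E' E'' G : W} {ℓ κ : ℤ}

private theorem bet4_lin (p q : ℤ) (u v z : W) :
    d3 (p • u + q • v) z = p * d3 u z + q * d3 v z := by
  simp only [d3, Pi.add_apply, Pi.smul_apply, smul_eq_mul, Finset.mul_sum, add_mul,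
    Finset.sum_add_distrib]
  congr 1
  · exact Finset.sum_congr rfl fun i _ => by ring
  · exact Finset.sum_congr rfl fun i _ => by ring

theorem tri_le_one (hA : Smo A) (hf : Fac A n c) (h : FS A n c x E E' E'' G ℓ κ) {p' : ℤ} {k : ℕ}
    (hT : TriD (up (Face A n c)) (x + G) E (p' • E + G) k) : p' ≤ 1 := by
  by_contra hcon
  have hp : 2 ≤ p' := by omega
  obtain ⟨u, v, huE, huG, hvE, hvG⟩ := h.dual
  have hk := hT.k1
  have hny : d3 n (x + G) = c := by rw [d3_add, h.nx, h.nG, add_zero]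
  have hyA : x + G ∈ A := by
    have := h.row1 0 (le_refl _) h.lk
    rwa [zero_smul, add_zero] at this
  have hyF : x + G ∈ Face A n c := by
    rw [Face, mem_filter]
    exact ⟨hyA, hny⟩
  -- points of the facet
  have hup : ∀ z ∈ A, d3 n z = c → 1 ≤ z 2 →
      ∃ i j : ℕ, z = x + G + (i : ℤ) • E + (j : ℤ) • (p' • E + G) := by
    intro z hz hzc hz2
    have : z ∈ up (Face A n c) := by
      rw [up, mem_filter, Face, mem_filter]
      exact ⟨⟨hz, hzc⟩, hz2⟩
    obtain ⟨i, j, -, h3⟩ := (hT.mem z).1 this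
    exact ⟨i, j, h3⟩
  have hdn : ∀ i j : ℕ, i + j ≤ k → x + G + (i : ℤ) • E + (j : ℤ) • (p' • E + G) ∈ A ∧
      d3 n (x + G + (i : ℤ) • E + (j : ℤ) • (p' • E + G)) = c := by
    intro i j hij
    have := (hT.mem (x + G + (i : ℤ) • E + (j : ℤ) • (p' • E + G))).2 ⟨i, j, hij, rfl⟩
    rw [up, mem_filter, Face, mem_filter] at this
    exact this.1
  have hht : ∀ i j : ℤ, (x + i • E + j • G) 2 = j := by
    intro i j
    simp only [Pi.add_apply, Pi.smul_apply, smul_eq_mul, h.hx, h.hE, h.hG]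
    ring
  have hV : IsV A (x + G) := by
    refine isV_of_face (n := n) (g := (-2 : ℤ) • u + (1 : ℤ) • v) (c := c) hf.le hyF ?_
    intro z hz hne
    rw [Face, mem_filter] at hz
    obtain ⟨hzA, hzc⟩ := hz
    obtain ⟨i, j, hi, hj, -, hzz⟩ := h.mem z hzA hzc
    have hz2 : z 2 = j := by rw [hzz]; exact hht i j
    rw [bet4_lin, bet4_lin, d3_add u, d3_add v, huG, hvG]
    by_cases hj0 : j = 0
    · rw [hzz, hj0]
      simp only [d3_add, d3_smul, huE, huG, hvE, hvG]
      linarith
    · obtain ⟨a, b, hab⟩ := hup z hzA hzc (by omega)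
      have hab' : 0 < (a : ℤ) ∨ 0 < (b : ℤ) := by
        by_contra hc
        have ha : (a : ℤ) = 0 := by omega
        have hb : (b : ℤ) = 0 := by omega
        apply hne
        rw [hab, ha, hb, zero_smul, zero_smul, add_zero, add_zero]
      have ha0 : (0 : ℤ) ≤ a := by positivity
      have hb0 : (0 : ℤ) ≤ b := by positivity
      rw [hab]
      simp only [d3_add, d3_smul, huE, huG, hvE, hvG]
      have h5 : 2 * (b : ℤ) ≤ b * p' := by nlinarith
      rcases hab' with h6 | h6
      · nlinarith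
      · nlinarith
  obtain ⟨b, hb⟩ := hA _ hV
  obtain ⟨i0, hi0⟩ := edge (k := 2) h.vx hb rfl
  have hi0' : b i0 = -G := hi0
  obtain ⟨σ, hs0, hs1, hs2, hall⟩ := facet_vertex hf hb hny
  -- the other edge
  obtain ⟨g, hgA, hgn, hg⟩ : ∃ g : W, x + G + g ∈ A ∧ d3 n g = 0 ∧
      ∀ z ∈ A, d3 n z = c → ∃ s t : ℤ, 0 ≤ s ∧ 0 ≤ t ∧ z = x + G + s • (-G) + t • g := by
    have hex : ∃ j, σ j = i0 := ⟨σ.symm i0, σ.apply_symm_apply i0⟩
    obtain ⟨j, hj⟩ := hex
    have hj2 : j ≠ 2 := by
      rintro rfl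
      rw [hj, hi0', d3_neg, h.nG] at hs2
      omega
    have hj01 : j = 0 ∨ j = 1 := by
      fin_cases j
      · exact Or.inl rfl
      · exact Or.inr rfl
      · exact absurd rfl hj2
    rcases hj01 with rfl | rfl
    · refine ⟨b (σ 1), hb.step _, hs1, ?_⟩
      intro z hz hzc
      obtain ⟨s, t, h1, h2, h3⟩ := hall z hz hzc
      rw [hj, hi0'] at h3
      exact ⟨s, t, h1, h2, h3⟩
    · refine ⟨b (σ 0), hb.step _, hs0, ?_⟩
      intro z hz hzc
      obtain ⟨s, t, h1, h2, h3⟩ := hall z hz hzc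
      rw [hj, hi0'] at h3
      exact ⟨t, s, h2, h1, by rw [h3]; abel⟩
  have hgc : d3 n (x + G + g) = c := by rw [d3_add, hny, hgn, add_zero]
  obtain ⟨a, m, ha, hm, -, hgg⟩ := h.mem _ hgA hgc
  have eu : d3 u g = a := by
    have := congrArg (d3 u) hgg
    simp only [d3_add, d3_smul, huE, huG] at this
    linarith
  have ev : d3 v g = m - 1 := by
    have := congrArg (d3 v) hgg
    simp only [d3_add, d3_smul, hvE, hvG] at this
    linarith
  -- the point `y + E`
  obtain ⟨q1, q2⟩ := hdn 1 0 (by omega)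
  obtain ⟨s, t, hs, ht, hst⟩ := hg _ q1 q2
  have r1 : 1 = t * a := by
    have := congrArg (d3 u) hst
    simp only [d3_add, d3_smul, d3_neg, huE, huG, eu] at this
    push_cast at this
    linarith
  have ht1 : t = 1 := by
    have := Int.eq_one_or_neg_one_of_mul_eq_one r1.symm
    omega
  rw [ht1, one_mul] at r1
  -- the point `y + f`
  obtain ⟨q3, q4⟩ := hdn 0 1 (by omega)
  obtain ⟨s', t', hs', ht', hst'⟩ := hg _ q3 q4
  have r2 : p' = t' := by
    have := congrArg (d3 u) hst'
    simp only [d3_add, d3_smul, d3_neg, huE, huG, eu, ← r1] at this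
    push_cast at this
    linarith
  have r3 : 1 = -s' + t' * (m - 1) := by
    have := congrArg (d3 v) hst'
    simp only [d3_add, d3_smul, d3_neg, hvE, hvG, ev] at this
    push_cast at this
    linarith
  have hm2 : 2 ≤ m := by
    by_contra hc
    have : m - 1 ≤ 0 := by omega
    nlinarith
  have hh2 : (x + G + g) 2 = m := by rw [hgg]; exact hht a m
  obtain ⟨i, j, hij⟩ := hup _ hgA hgc (by omega)
  have r4 : (j : ℤ) = m - 1 := by
    have := congrArg (d3 v) hij
    simp only [d3_add, d3_smul, hvE, hvG, ev] at this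
    linarith
  have r5 : (1 : ℤ) = i + j * p' := by
    have := congrArg (d3 u) hij
    simp only [d3_add, d3_smul, huE, huG, eu, ← r1] at this
    linarith
  have hi : (0 : ℤ) ≤ i := by positivity
  have hj : (1 : ℤ) ≤ j := by omega
  nlinarith

end Pool.Agent.SPK
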