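import Pool.Agent.SPK.Bet1
import Pool.Agent.SPK.Bet3
import Pool.Agent.SPK.Bet4

/-!
# [SPK-Bet5] facets whose upper part is a triangle: conclusion

`D = Face A n c`, `f = p' E + G`.
`tri_rul` (`κ = p'`, so `k = ℓ + p'`): from `FS.dual`: `u(E) = 1`, `u(G) = -p'` (so `u(f) = 0`), `v(f) = 1` (`v(E) = 0`, `v(G) = 1`). `p = x + ℓ E`, `p + f = x + (ℓ + κ) E + G` (`row1`), `q = x + G`, `q + f ∈ up D`. `u(q) = u(x) - p' < u(x) + ℓ = u(p)`. Bounds: points `x + i E + j G` of `D` have `i ≤ ℓ + p' j`; a point of height `0` has `u ≥ u(x)`; the points of `up D` are `x + G + i E + j f`: `u = u(x) - p' + i`. Rows: `u(x) - p' ≤ k₁ ≤ u(x) + ℓ`: `x + G + i E`, `0 ≤ i ≤ ℓ + κ` (`row1`). Second claim: `t = 1`: `x + i E + f = x + (i + p') E + G`, `0 ≤ i + p' ≤ ℓ + κ`.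
`tri_tri` (`p' = 0`, `κ = -1`): `D` = points of height `0` (`x + i E`, `0 ≤ i ≤ ℓ = k + 1`) and `up D` = `x + G + i E + j G`, `i + j ≤ k`.
`beta2`: `tri_form`, `tri_le_one` for `FS` and (with `tri_mirror`) for `FS.mirror`: `p' ≤ 1`, `κ + 1 - p' ≤ 1`, and `p' ≤ 1 + κ`. If `κ = p'`: `tri_rul`; `auto_pp` for `up D` (`hU`: `ru_face` for `up A`, `up (Face A n c) = Face (up A) n c`) gives `PPi (up D) w' f α β`; `pp_ext1`. If `κ = p' - 1`, `p' = 1`: mirror: `p'' = κ + 1 - p' = 0 = κ`, the same argument for `FS.mirror`. If `κ = p' - 1`, `p' = 0`: `tri_tri`.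
-/

open Finset Pool.Agent.SPB

set_option autoImplicit false

namespace Pool.Agent.SPK

variable {A : Finset W} {n : W} {c : ℤ} {x E E' E'' G : W} {ℓ κ : ℤ}

private theorem bet5_lin (p : ℤ) (u v z : W) : d3 (u - p • v) z = d3 u z - p * d3 v z := by
  simp only [d3, Pi.sub_apply, Pi.smul_apply, smul_eq_mul, Finset.mul_sum, sub_mul,
    Finset.sum_sub_distrib]
  congr 1
  exact Finset.sum_congr rfl fun i _ => by ring

private theorem bet5_face {A : Finset W} {n : W} {c : ℤ} {y : W} :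
    y ∈ Face A n c ↔ y ∈ A ∧ d3 n y = c := by
  unfold Face
  rw [Finset.mem_filter]

private theorem bet5_up {A : Finset W} {y : W} : y ∈ up A ↔ y ∈ A ∧ 1 ≤ y 2 := by
  unfold up
  rw [Finset.mem_filter]

private theorem bet5_upface (A : Finset W) (n : W) (c : ℤ) : Face (up A) n c = up (Face A n c) := by
  ext y
  rw [bet5_face, bet5_up, bet5_up, bet5_face]
  tauto

private theorem bet5_hn (h : FS A n c x E E' E'' G ℓ κ) (i j : ℤ) : d3 n (x + i • E + j • G) = c := by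
  rw [d3_add, d3_add, d3_smul, d3_smul, h.nx, h.nE, h.nG]
  ring

private theorem bet5_ht (h : FS A n c x E E' E'' G ℓ κ) (i j : ℤ) : (x + i • E + j • G) 2 = j := by
  simp only [Pi.add_apply, Pi.smul_apply, smul_eq_mul, h.hx, h.hE, h.hG]
  ring

private theorem bet5_row1 (h : FS A n c x E E' E'' G ℓ κ) {i : ℤ} (h0 : 0 ≤ i) (h1 : i ≤ ℓ + κ) :
    x + i • E + G ∈ Face A n c := by
  have h2 := bet5_hn h i 1
  rw [one_smul] at h2
  exact bet5_face.2 ⟨h.row1 i h0 h1, h2⟩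

theorem tri_rul (h : FS A n c x E E' E'' G ℓ κ) {p' : ℤ} (hκ : κ = p') (h0 : 0 ≤ p') {k : ℕ}
    (hk : (k : ℤ) = ℓ + κ) (hT : TriD (up (Face A n c)) (x + G) E (p' • E + G) k) :
    Rul (Face A n c) (p' • E + G) ∧
      ∀ y ∈ Face A n c, y 2 = 0 → ∃ t : ℤ, y + t • (p' • E + G) ∈ up (Face A n c) := by
  obtain ⟨u, v, huE, huG, hvE, hvG⟩ := h.dual
  have hl := h.l1
  have hlk := h.lk
  have hk1 := hT.k1
  have hG1 : ∀ z : W, x + z + G = x + z + (1 : ℤ) • G := fun z => by rw [one_smul]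
  have hup1 : ∀ i : ℤ, 0 ≤ i → i ≤ ℓ + κ → x + i • E + G ∈ up (Face A n c) := by
    intro i hi hi2
    refine bet5_up.2 ⟨bet5_row1 h hi hi2, ?_⟩
    rw [hG1, bet5_ht h]
  constructor
  · refine ⟨u - p' • v, v, x + ℓ • E, x + G, ?_, ?_, ?_, ?_, ?_, ?_, ?_, ?_, ?_⟩
    · rw [d3_add, d3_smul, hvE, hvG]; ring
    · rw [bet5_lin, d3_add, d3_add, d3_smul, d3_smul, huE, huG, hvE, hvG]; ring
    · refine bet5_face.2 ⟨h.row0 ℓ (by omega) le_rfl, ?_⟩
      rw [d3_add, d3_smul, h.nx, h.nE]; ring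
    · have e1 : x + ℓ • E + (p' • E + G) = x + (ℓ + κ) • E + G := by
        rw [hκ, add_smul]; abel
      rw [e1]
      exact bet5_row1 h hlk le_rfl
    · have h1 := bet5_row1 h (i := 0) le_rfl hlk
      rwa [zero_smul, add_zero] at h1
    · have h1 : x + G + (p' • E + G) ∈ up (Face A n c) := by
        refine (hT.mem _).2 ⟨0, 1, by omega, ?_⟩
        simp only [Nat.cast_zero, Nat.cast_one, zero_smul, one_smul, add_zero]
      exact (bet5_up.1 h1).1
    · rw [bet5_lin, bet5_lin, d3_add, d3_add, d3_add, d3_add, d3_smul, d3_smul, huE, huG, hvE, hvG]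
      nlinarith
    · intro y hy
      obtain ⟨hyA, hyn⟩ := bet5_face.1 hy
      obtain ⟨i, j, hi, hj, hij, hyij⟩ := h.mem y hyA hyn
      have hy2 : y 2 = j := by rw [hyij, bet5_ht h]
      have huy : d3 (u - p' • v) y = d3 u x - p' * d3 v x + i - p' * j := by
        rw [hyij, bet5_lin, d3_add, d3_add, d3_add, d3_add, d3_smul, d3_smul, d3_smul, d3_smul,
          huE, huG, hvE, hvG]
        ring
      have huq : d3 (u - p' • v) (x + G) = d3 u x - p' * d3 v x - p' := by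
        rw [bet5_lin, d3_add, d3_add, huG, hvG]
        ring
      have hup : d3 (u - p' • v) (x + ℓ • E) = d3 u x - p' * d3 v x + ℓ := by
        rw [bet5_lin, d3_add, d3_add, d3_smul, d3_smul, huE, hvE]
        ring
      rw [huq, hup]
      constructor
      · rcases eq_or_lt_of_le hj with hj0 | hj0
        · rw [huy, ← hj0]
          linarith
        · have hyU : y ∈ up (Face A n c) := bet5_up.2 ⟨hy, by omega⟩
          obtain ⟨i', j', -, hy'⟩ := (hT.mem y).1 hyU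
          have h3 : d3 (u - p' • v) y = d3 u x - p' * d3 v x - p' + i' := by
            rw [hy', bet5_lin]
            simp only [d3_add, d3_smul, huE, huG, hvE, hvG]
            ring
          rw [h3]
          have h4 : (0 : ℤ) ≤ i' := Int.natCast_nonneg _
          linarith
      · rw [huy, hκ] at *
        linarith
    · intro k₁ hk1 hk2
      have huq : d3 (u - p' • v) (x + G) = d3 u x - p' * d3 v x - p' := by
        rw [bet5_lin, d3_add, d3_add, huG, hvG]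
        ring
      have hup : d3 (u - p' • v) (x + ℓ • E) = d3 u x - p' * d3 v x + ℓ := by
        rw [bet5_lin, d3_add, d3_add, d3_smul, d3_smul, huE, hvE]
        ring
      rw [huq] at hk1
      rw [hup] at hk2
      refine ⟨x + (k₁ - (d3 u x - p' * d3 v x) + p') • E + G, bet5_row1 h (by linarith) (by linarith), ?_⟩
      rw [bet5_lin]
      simp only [d3_add, d3_smul, huE, huG, hvE, hvG]
      ring
  · intro y hy hy0
    obtain ⟨hyA, hyn⟩ := bet5_face.1 hy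
    obtain ⟨i, j, hi, hj, hij, hyij⟩ := h.mem y hyA hyn
    have hy2 : y 2 = j := by rw [hyij, bet5_ht h]
    have hj0 : j = 0 := by rw [← hy2, hy0]
    subst hj0
    refine ⟨1, ?_⟩
    have e1 : y + (1 : ℤ) • (p' • E + G) = x + (i + p') • E + G := by
      rw [hyij, one_smul, zero_smul, add_smul]; abel
    rw [e1]
    exact hup1 _ (by linarith) (by linarith)

theorem tri_tri (h : FS A n c x E E' E'' G ℓ κ) (hκ : κ = -1) {k : ℕ} (hk : (k : ℤ) = ℓ + κ)
    (hT : TriD (up (Face A n c)) (x + G) E ((0 : ℤ) • E + G) k) : TriD (Face A n c) x E G (k + 1) := by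
  refine ⟨by omega, h.dual, ?_⟩
  intro y
  constructor
  · intro hy
    obtain ⟨hyA, hyn⟩ := bet5_face.1 hy
    obtain ⟨i, j, hi, hj, hij, hyij⟩ := h.mem y hyA hyn
    lift i to ℕ using hi
    lift j to ℕ using hj
    refine ⟨i, j, ?_, hyij⟩
    rw [hκ] at hij hk
    have : (i : ℤ) + j ≤ k + 1 := by linarith
    exact_mod_cast this
  · rintro ⟨i, j, hij, rfl⟩
    rcases Nat.eq_zero_or_pos j with hj | hj
    · subst hj
      have h1 : x + (i : ℤ) • E ∈ A := h.row0 i (Int.natCast_nonneg _) (by omega)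
      have h2 := bet5_hn h (i : ℤ) 0
      rw [Nat.cast_zero]
      refine bet5_face.2 ⟨?_, h2⟩
      rw [zero_smul, add_zero]
      exact h1
    · obtain ⟨j', rfl⟩ : ∃ j', j = j' + 1 := ⟨j - 1, by omega⟩
      have h1 : x + G + (i : ℤ) • E + (j' : ℤ) • ((0 : ℤ) • E + G) ∈ up (Face A n c) :=
        (hT.mem _).2 ⟨i, j', by omega, rfl⟩
      have e1 : x + (i : ℤ) • E + ((j' + 1 : ℕ) : ℤ) • G =
          x + G + (i : ℤ) • E + (j' : ℤ) • ((0 : ℤ) • E + G) := by
        rw [zero_smul, zero_add, Nat.cast_add, Nat.cast_one, add_smul, one_smul]; abel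
      rw [e1]
      exact (bet5_up.1 h1).1

private theorem bet5_fin (hA : Bt A) (hf : Fac A n c) (h : FS A n c x E E' E'' G ℓ κ) {p' : ℤ}
    (hκ : κ = p') (h0 : 0 ≤ p') {k : ℕ} (hk : (k : ℤ) = ℓ + κ)
    (hT : TriD (up (Face A n c)) (x + G) E (p' • E + G) k) {w' : W → ℝ}
    (hw : RU (up A) w') (ω : V → ℝ) :
    ∃ N₀ : ℝ, ∀ N, N₀ ≤ N → OK (Face A n c) (glue N ω w') := by
  obtain ⟨hR, hrow⟩ := tri_rul h hκ h0 hk hT
  have hU : ∀ L, Uni (amin (up (Face A n c)) w' L) := by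
    intro L
    rw [← bet5_upface]
    exact ru_face hw (fun y hy => hf.le y (bet5_up.1 hy).1) L
  obtain ⟨α, β, hαβ, hP⟩ := auto_pp hT hU
  obtain ⟨N₀, hN₀⟩ := pp_ext1 (fun y hy => hA.nn y (bet5_face.1 hy).1) hrow hP ω
  exact ⟨N₀, fun N hN => Or.inr ⟨_, hR, α, β, hαβ, hN₀ N hN⟩⟩

theorem beta2 (hA : Bt A) (hf : Fac A n c) (h : FS A n c x E E' E'' G ℓ κ) (hk : 1 ≤ ℓ + κ) {w' : W → ℝ}
    (hw : RU (up A) w') (hT : Tri (up (Face A n c))) (ω : V → ℝ) :
    ∃ N₀ : ℝ, ∀ N, N₀ ≤ N → OK (Face A n c) (glue N ω w') := by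
  obtain ⟨p', k, h0, h1, hkk, T⟩ := tri_form h hk hT
  have h2 : p' ≤ 1 := tri_le_one hA.smo hf h T
  have T' := tri_mirror (κ := κ) (ℓ := ℓ) hkk T
  have h3 : κ + 1 - p' ≤ 1 := tri_le_one hA.smo hf h.mirror T'
  have h4 : κ = p' ∨ (κ = 0 ∧ p' = 1) ∨ (κ = -1 ∧ p' = 0) := by omega
  rcases h4 with h4 | ⟨h4, h5⟩ | ⟨h4, h5⟩
  · exact bet5_fin hA hf h h4 h0 hkk T hw ω
  · exact bet5_fin hA hf h.mirror (p' := κ + 1 - p') (by omega) (by omega) hkk T' hw ω
  · subst h5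
    exact ⟨0, fun N _ => Or.inl ⟨_, _, _, _, tri_tri h h4 hkk T⟩⟩

end Pool.Agent.SPK
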