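import Pool.Agent.SPK.Fs
import Pool.Agent.SPK.UE

/-!
# [SPK-Bet6] facets with a horizontal ruling of the upper part: path property

`D = Face A n c`, the height of `x + i E + j G` is `j`.
`pp_ext2`: the ties of two different points `y, y + t E` of height `0` in `D` (for `ω`): `lin L E = (ω (y + t E) - ω y) / t` (planar parts), finitely many values; `avoid` gives `(α', β')`. Let `α' < lin L E < β'`, `C = amin D (glue N ω w') L`. If `C` has no point of height `0` then `C = amin (up D) w' L`. Let `y ∈ C`, `y 2 = 0`: it is the only point of height `0` in `C` (no ties). If `C = {y}`: `ue1`. Let `z ∈ C`, `z 2 = j ≥ 1`, `z - y = i E + j G`. Let `q = y + i' E + G` be a point of height `1` (`row1`; `|i|, |i'| ≤` const). `N + ω(y) - w'(z) = lin L y - lin L z = - i lin L E - j lin L G`; `w'(z) - lin L z ≤ w'(q) - lin L q` gives `(j - 1) (- lin L G) ≤ const`; for `N` large `- lin L G ≥ (N - const) / j` is large, so `j = 1`. So the points of positive height of `C` have height `1`, and `C ∩ up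 D = amin (up D) w' L`, so by `ue_unique` there is only one. `C = {y, z}`: `ue2` with the functional `![0, 0, 1]`.
-/

open Finset Pool.Agent.SPB

set_option autoImplicit false

namespace Pool.Agent.SPK

variable {A : Finset W} {n : W} {c : ℤ} {x E E' E'' G : W} {ℓ κ : ℤ}

private theorem bet6_bound (D : Finset W) (f : W → ℝ) : ∃ B : ℝ, 0 ≤ B ∧ ∀ y ∈ D, |f y| ≤ B :=
  ⟨∑ y ∈ D, |f y|, Finset.sum_nonneg fun _ _ => abs_nonneg _, fun _ hy =>
    Finset.single_le_sum (f := fun y => |f y|) (fun _ _ => abs_nonneg _) hy⟩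

private theorem bet6_arith {j g N wz oy iy iz wq la Bw Bo Bi Bl : ℝ} (hj : 2 ≤ j)
    (hwz : |wz| ≤ Bw) (hwq : |wq| ≤ Bw) (hoy : |oy| ≤ Bo) (hiy : |iy| ≤ Bi) (hiz : |iz| ≤ Bi)
    (hla : |la| ≤ Bl) (hN : (Bw + Bo + 2 * (Bi * Bl)) + 2 * (2 * Bw + Bi * Bl) + 1 ≤ N)
    (h1 : j * g = wz - N - oy + iy * la - iz * la) (h2 : wz - wq - iz * la ≤ (j - 1) * g) :
    False := by
  have a1 := abs_le.1 hwz
  have a2 := abs_le.1 hwq
  have a3 := abs_le.1 hoy
  have a4 : |iy * la| ≤ Bi * Bl := by
    rw [abs_mul]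
    exact mul_le_mul hiy hla (abs_nonneg _) ((abs_nonneg _).trans hiy)
  have a5 : |iz * la| ≤ Bi * Bl := by
    rw [abs_mul]
    exact mul_le_mul hiz hla (abs_nonneg _) ((abs_nonneg _).trans hiz)
  have a6 := abs_le.1 a4
  have a7 := abs_le.1 a5
  have h3 : j * g ≤ -(2 * (2 * Bw + Bi * Bl) + 1) := by linarith [a1.2, a3.1, a6.2, a7.1]
  have h4 : 0 ≤ 2 * Bw + Bi * Bl := by
    have b1 := (abs_nonneg _).trans hwz
    have b2 := (abs_nonneg _).trans a4
    linarith
  have h5 : j * g < 0 := by linarith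
  have h6 : g < 0 := by
    by_contra hg
    push Not at hg
    nlinarith
  have h7 : (j - 1) * g ≤ j * g / 2 := by nlinarith
  linarith [a1.1, a2.2, a7.2]

theorem pp_ext2 (h : FS A n c x E E' E'' G ℓ κ) (hk : 1 ≤ ℓ + κ) {w' : W → ℝ} {α β : ℝ} (hαβ : α < β)
    (hP : PPi (up (Face A n c)) w' E α β) (ω : V → ℝ) : ∃ α' β' N₀ : ℝ, α' < β' ∧
      ∀ N, N₀ ≤ N → PPi (Face A n c) (glue N ω w') E α' β' := by
  classical
  obtain ⟨u, v, huE, huG, hvE, hvG⟩ := h.dual
  have hDm : ∀ y, y ∈ Face A n c ↔ y ∈ A ∧ d3 n y = c := by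
    intro y
    simp only [Face, Finset.mem_filter]
  generalize Face A n c = D at hDm hP ⊢
  have hUm : ∀ y, y ∈ up D ↔ y ∈ D ∧ 1 ≤ y 2 := by
    intro y
    simp only [up, Finset.mem_filter]
  have hE0 : E ≠ 0 := by
    rintro rfl
    simp [d3] at huE
  have rep : ∀ y ∈ D, ∃ i j : ℤ, 0 ≤ j ∧ y = x + i • E + j • G ∧ y 2 = j ∧
      d3 u y = d3 u x + i ∧ d3 v y = d3 v x + j := by
    intro y hy
    obtain ⟨i, j, hi, hj, hij, hy'⟩ := h.mem y ((hDm y).1 hy).1 ((hDm y).1 hy).2
    refine ⟨i, j, hj, hy', ?_, ?_, ?_⟩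
    · rw [hy']
      simp only [Pi.add_apply, Pi.smul_apply, smul_eq_mul, h.hx, h.hE, h.hG]
      ring
    · rw [hy', d3_add, d3_add, d3_smul, d3_smul, huE, huG]
      ring
    · rw [hy', d3_add, d3_add, d3_smul, d3_smul, hvE, hvG]
      ring
  have hq : x + G ∈ D := by
    rw [hDm]
    refine ⟨?_, ?_⟩
    · have := h.row1 0 le_rfl (by omega)
      rwa [zero_smul, add_zero] at this
    · rw [d3_add, h.nx, h.nG, add_zero]
  have hq2 : (x + G) 2 = 1 := by
    simp only [Pi.add_apply, h.hx, h.hG]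
    norm_num
  obtain ⟨α', β', h1, h2, h3, h4⟩ := avoid
    ((D ×ˢ D).image (fun p : W × W => (ω (p.2 0, p.2 1) - ω (p.1 0, p.1 1)) /
      ((d3 u p.2 - d3 u p.1 : ℤ) : ℝ))) hαβ
  obtain ⟨Bw, hBw0, hBw⟩ := bet6_bound D w'
  obtain ⟨Bo, hBo0, hBo⟩ := bet6_bound D (fun y => ω (y 0, y 1))
  obtain ⟨Bi, hBi0, hBi⟩ := bet6_bound D (fun y => ((d3 u y - d3 u x : ℤ) : ℝ))
  refine ⟨α', β', (Bw + Bo + 2 * (Bi * max |α| |β|)) + 2 * (2 * Bw + Bi * max |α| |β|) + 1, h2,
    fun N hN L hL1 hL2 => ?_⟩
  have hla : |lin L E| ≤ max |α| |β| := by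
    rw [abs_le]
    constructor
    · have := neg_abs_le α
      have := le_max_left |α| |β|
      linarith
    · have := le_abs_self β
      have := le_max_right |α| |β|
      linarith
  have hUP : UniE (amin (up D) w' L) E := hP L (by linarith) (by linarith)
  have g0 : ∀ y : W, y 2 = 0 → glue N ω w' y = N + ω (y 0, y 1) := fun y hy => by
    rw [glue, if_pos hy]
  have g1 : ∀ y : W, 1 ≤ y 2 → glue N ω w' y = w' y := fun y hy => by
    rw [glue, if_neg (by omega)]
  -- points of height zero are unique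
  have uniq : ∀ y ∈ amin D (glue N ω w') L, ∀ y' ∈ amin D (glue N ω w') L, y 2 = 0 → y' 2 = 0 →
      y = y' := by
    intro y hy y' hy' hy2 hy2'
    rw [mem_amin] at hy hy'
    have e1 := le_antisymm (hy.2 y' hy'.1) (hy'.2 y hy.1)
    obtain ⟨i, j, hj, hyr, hyj, hyu, -⟩ := rep y hy.1
    obtain ⟨i', j', hj', hyr', hyj', hyu', -⟩ := rep y' hy'.1
    have hj0 : j = 0 := by omega
    have hj0' : j' = 0 := by omega
    subst hj0 hj0'
    by_contra hne
    have hii : i' - i ≠ 0 := by
      intro h0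
      apply hne
      rw [hyr, hyr', show i' = i by omega]
    have hii' : ((i' - i : ℤ) : ℝ) ≠ 0 := by exact_mod_cast hii
    rw [g0 y hy2, g0 y' hy2'] at e1
    have e2 : lin L y' - lin L y = ((i' - i : ℤ) : ℝ) * lin L E := by
      rw [hyr, hyr', lin_add, lin_add, lin_add, lin_add, lin_smul, lin_smul, lin_smul]
      push_cast
      ring
    have e3 : lin L E = (ω (y' 0, y' 1) - ω (y 0, y 1)) / ((d3 u y' - d3 u y : ℤ) : ℝ) := by
      have e4 : (d3 u y' - d3 u y : ℤ) = i' - i := by omega
      rw [e4, eq_div_iff hii']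
      linarith
    have e5 := h4 _ (Finset.mem_image.2 ⟨(y, y'), Finset.mem_product.2 ⟨hy.1, hy'.1⟩, rfl⟩)
    simp only at e5
    rw [← e3] at e5
    rcases e5 with e5 | e5 <;> linarith
  by_cases h0 : ∃ y ∈ amin D (glue N ω w') L, y 2 = 0
  · obtain ⟨y, hyC, hy2⟩ := h0
    have hy := mem_amin.1 hyC
    obtain ⟨iy, jy, hjy, hyr, hyj, hyu, hyv⟩ := rep y hy.1
    have hjy0 : jy = 0 := by omega
    -- heights are at most one
    have ht : ∀ z ∈ amin D (glue N ω w') L, z ≠ y → z 2 = 1 := by
      intro z hzC hzy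
      have hz := mem_amin.1 hzC
      obtain ⟨i, j, hj, hzr, hzj, hzu, hzv⟩ := rep z hz.1
      have hj1 : 1 ≤ j := by
        by_contra hlt
        exact hzy (uniq z hzC y hyC (by omega) hy2)
      by_contra hj2
      have hj2' : 2 ≤ j := by omega
      have e1 := le_antisymm (hz.2 y hy.1) (hy.2 z hz.1)
      have e2 := hz.2 _ hq
      rw [g1 z (by omega), g0 y hy2] at e1
      rw [g1 z (by omega), g1 (x + G) (by omega)] at e2
      have l1 : lin L z = lin L x + (i : ℝ) * lin L E + (j : ℝ) * lin L G := by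
        rw [hzr, lin_add, lin_add, lin_smul, lin_smul]
      have l2 : lin L y = lin L x + (iy : ℝ) * lin L E := by
        rw [hyr, hjy0, zero_smul, add_zero, lin_add, lin_smul]
      rw [l1, l2] at e1
      rw [l1, lin_add] at e2
      have b1 : |(iy : ℝ)| ≤ Bi := by
        have := hBi y hy.1
        rwa [hyu, add_sub_cancel_left] at this
      have b2 : |(i : ℝ)| ≤ Bi := by
        have := hBi z hz.1
        rwa [hzu, add_sub_cancel_left] at this
      refine bet6_arith (j := (j : ℝ)) (g := lin L G) (by exact_mod_cast hj2') (hBw z hz.1)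
        (hBw _ hq) (hBo y hy.1) b1 b2 hla hN ?_ ?_
      · linarith
      · linarith
    by_cases h5 : ∃ z ∈ amin D (glue N ω w') L, z ≠ y
    · obtain ⟨z, hzC, hzy⟩ := h5
      have hz := mem_amin.1 hzC
      have hz2 := ht z hzC hzy
      have hC : amin D (glue N ω w') L = {y, z} := by
        ext t
        rw [Finset.mem_insert, Finset.mem_singleton]
        constructor
        · intro htC
          by_contra hcon
          push Not at hcon
          have ht2 := ht t htC hcon.1
          have htm := mem_amin.1 htC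
          have mz : ∀ s ∈ amin D (glue N ω w') L, s 2 = 1 → s ∈ amin (up D) w' L := by
            intro s hs hs2
            rw [mem_amin] at hs ⊢
            refine ⟨(hUm s).2 ⟨hs.1, by omega⟩, fun r hr => ?_⟩
            rw [hUm] at hr
            have := hs.2 r hr.1
            rwa [g1 s (by omega), g1 r hr.2] at this
          have m1 := mz z hzC hz2
          have m2 := mz t htC ht2
          obtain ⟨i, j, hj, hzr, hzj, hzu, hzv⟩ := rep z hz.1
          obtain ⟨i', j', hj', htr, htj, htu, htv⟩ := rep t htm.1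
          have hjj : j' = j := by omega
          have e6 : t = z + (i' - i) • E := by
            rw [htr, hzr, hjj, sub_smul]
            abel
          rw [e6] at m2
          have e7 := ue_unique hUP hE0 m1 m2
          rw [e7, zero_smul, add_zero] at e6
          exact hcon.2 e6
        · rintro (rfl | rfl)
          · exact hyC
          · exact hzC
      rw [hC]
      obtain ⟨i, j, hj, hzr, hzj, hzu, hzv⟩ := rep z hz.1
      exact ue2 huE hvE (Or.inl (by omega))
    · push Not at h5
      have hC : amin D (glue N ω w') L = {y} := by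
        ext t
        rw [Finset.mem_singleton]
        exact ⟨fun ht' => h5 t ht', fun ht' => ht' ▸ hyC⟩
      rw [hC]
      exact ue1 huE
  · push Not at h0
    have hpos : ∀ y ∈ amin D (glue N ω w') L, 1 ≤ y 2 := by
      intro y hy
      obtain ⟨i, j, hj, -, hyj, -, -⟩ := rep y (mem_amin.1 hy).1
      have := h0 y hy
      omega
    have hC : amin D (glue N ω w') L = amin (up D) w' L := by
      obtain ⟨z, hz⟩ := amin_nonempty ⟨x + G, hq⟩ (glue N ω w') L
      have hz1 := hpos z hz
      rw [mem_amin] at hz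
      ext y
      constructor
      · intro hy
        have hy1 := hpos y hy
        rw [mem_amin] at hy ⊢
        refine ⟨(hUm y).2 ⟨hy.1, hy1⟩, fun r hr => ?_⟩
        rw [hUm] at hr
        have := hy.2 r hr.1
        rwa [g1 y hy1, g1 r hr.2] at this
      · intro hy
        rw [mem_amin] at hy ⊢
        have hyU := (hUm y).1 hy.1
        refine ⟨hyU.1, fun r hr => ?_⟩
        have e1 := hy.2 z ((hUm z).2 ⟨hz.1, hz1⟩)
        have e2 := hz.2 r hr
        rw [g1 z hz1] at e2
        rw [g1 y hyU.2]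
        linarith
    rw [hC]
    exact hUP

end Pool.Agent.SPK
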