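import Pool.Agent.SPK.UE

/-!
# [SPK-Cnv] planar sets and horizontal sets in space

`dual2`: `Prim e`.  `rul_edge`: `Rul (lift B z) e₃` with `u, v, p, q`. `e₃ = (p + e₃) - p` has last coordinate `0`, so `e₃ = pt e 0`; `v` gives `Prim e`. Let `u' = (u 0, u 1)`: `dot u' e = 0`, so `u' = m • (e.2, -e.1)` (`e` is primitive). For points of height `z`, `d3 u (pt x z) = dot u' x + const`. All values between `d3 u q < d3 u p` are attained and they are congruent modulo `m`, so `m = ± 1`. So `(e.2, -e.1)` and its negative attain their maxima over `B` at (the planar parts of) `p, p + e` and `q, q + e` (or the other way round): `EdgeNorm`.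
`tri_of_lift`: the planar parts of `s, e, f` (`e`, `f` are differences of points of `lift B z` as `1 ≤ k`, so they are horizontal); `dual` gives `det e f = ± 1`; if it is `-1` swap `e` and `f`. `lift_tri`: dual functionals `pt (f.2, -f.1) 0`, `pt (-e.2, e.1) 0`.
-/

open Finset Pool.Agent.SPB

set_option autoImplicit false

namespace Pool.Agent.SPK

@[simp] theorem pt_two (x : V) (z : ℤ) : pt x z 2 = z := rfl

@[simp] theorem pt_zero (x : V) (z : ℤ) : pt x z 0 = x.1 := rfl

@[simp] theorem pt_one (x : V) (z : ℤ) : pt x z 1 = x.2 := rfl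

theorem pt_eta (x : W) : pt (x 0, x 1) (x 2) = x := by
  funext i
  fin_cases i <;> rfl

theorem pt_inj {x y : V} {z z' : ℤ} : pt x z = pt y z' ↔ x = y ∧ z = z' := by
  constructor
  · intro h
    have h0 := congrFun h 0
    have h1 := congrFun h 1
    have h2 := congrFun h 2
    simp only [pt_zero, pt_one, pt_two] at h0 h1 h2
    exact ⟨Prod.ext h0 h1, h2⟩
  · rintro ⟨rfl, rfl⟩
    rfl

theorem mem_lift {B : Finset V} {z : ℤ} {x : W} : x ∈ lift B z ↔ x 2 = z ∧ (x 0, x 1) ∈ B := by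
  simp only [lift, Finset.mem_image]
  constructor
  · rintro ⟨y, hy, rfl⟩
    exact ⟨rfl, hy⟩
  · rintro ⟨h1, h2⟩
    exact ⟨(x 0, x 1), h2, by rw [← h1, pt_eta]⟩

private theorem lift_eq_image (B : Finset V) (z : ℤ) : lift B z = B.image (fun x => pt x z) := rfl

private theorem pt_injective (z : ℤ) : Function.Injective (fun x : V => pt x z) := by
  intro x y h
  exact (pt_inj.1 h).1

private theorem lin_pt (L : Fin 3 → ℝ) (x : V) (z : ℤ) : lin L (pt x z) = dotR (L 0, L 1) x + L 2 * (z : ℝ) := by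
  simp only [lin, Fin.sum_univ_three, pt_zero, pt_one, pt_two, dotR]

private theorem d3_three (u x : W) : d3 u x = u 0 * x 0 + u 1 * x 1 + u 2 * x 2 := by
  simp only [d3, Fin.sum_univ_three]

private theorem mem_arg' {A : Finset V} {ω : V → ℝ} {a : ℝ × ℝ} {x : V} :
    x ∈ arg A ω a ↔ x ∈ A ∧ ∀ y ∈ A, ω x - dotR a x ≤ ω y - dotR a y := by
  classical
  simp only [arg, Finset.mem_filter]

private theorem pt_mem_lift {B : Finset V} {z : ℤ} {x : V} : pt x z ∈ lift B z ↔ x ∈ B := by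
  rw [mem_lift]
  simp

theorem amin_lift (B : Finset V) (z : ℤ) (w : W → ℝ) (L : Fin 3 → ℝ) :
    amin (lift B z) w L = lift (arg B (fun x => w (pt x z)) (L 0, L 1)) z := by
  ext x
  rw [mem_amin, mem_lift, mem_lift, mem_arg']
  constructor
  · rintro ⟨⟨h2, hB⟩, h⟩
    refine ⟨h2, hB, fun y hy => ?_⟩
    have h1 := h (pt y z) (pt_mem_lift.2 hy)
    have h3 : x = pt (x 0, x 1) z := by rw [← h2, pt_eta]
    have h4 : lin L x = dotR (L 0, L 1) (x 0, x 1) + L 2 * (z : ℝ) := by
      conv_lhs => rw [h3]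
      exact lin_pt L _ z
    rw [h4, lin_pt] at h1
    have h5 : w (pt (x 0, x 1) z) = w x := by rw [← h3]
    show w (pt (x 0, x 1) z) - dotR (L 0, L 1) (x 0, x 1) ≤ w (pt y z) - dotR (L 0, L 1) y
    rw [h5]
    linarith
  · rintro ⟨h2, hB, h⟩
    refine ⟨⟨h2, hB⟩, fun y hy => ?_⟩
    obtain ⟨hy2, hyB⟩ := mem_lift.1 hy
    have h1 := h _ hyB
    have h3 : x = pt (x 0, x 1) z := by rw [← h2, pt_eta]
    have h3' : y = pt (y 0, y 1) z := by rw [← hy2, pt_eta]
    have h4 : lin L x = dotR (L 0, L 1) (x 0, x 1) + L 2 * (z : ℝ) := by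
      conv_lhs => rw [h3]
      exact lin_pt L _ z
    have h4' : lin L y = dotR (L 0, L 1) (y 0, y 1) + L 2 * (z : ℝ) := by
      conv_lhs => rw [h3']
      exact lin_pt L _ z
    have h5 : w (pt (x 0, x 1) z) = w x := by rw [← h3]
    have h5' : w (pt (y 0, y 1) z) = w y := by rw [← h3']
    have h1' : w (pt (x 0, x 1) z) - dotR (L 0, L 1) (x 0, x 1) ≤
      w (pt (y 0, y 1) z) - dotR (L 0, L 1) (y 0, y 1) := h1
    rw [h5, h5'] at h1'
    rw [h4, h4']
    linarith

private theorem sum_lift (C : Finset V) (z : ℤ) (g : W → ℝ) :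
    ∑ x ∈ lift C z, g x = ∑ x ∈ C, g (pt x z) := by
  rw [lift_eq_image, Finset.sum_image]
  intro x _ y _ h
  exact pt_injective z h

theorem uniE_lift {C : Finset V} {z : ℤ} {e : V} : UniE (lift C z) (pt e 0) ↔ UniEv C e := by
  constructor
  · intro h c r h0 h1 h2
    have key := h (fun x => c (x 0, x 1)) r (by rw [sum_lift]; simpa using h0) (by
      intro i
      rw [sum_lift]
      fin_cases i
      · simpa using h1
      · simpa using h2
      · show IsInt (∑ x ∈ C, c ((pt x z) 0, (pt x z) 1) * (((pt x z) 2 : ℤ) : ℝ) + r * (((pt e 0) 2 : ℤ) : ℝ))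
        obtain ⟨n, hn⟩ := h0
        refine ⟨n * z, ?_⟩
        simp only [pt_zero, pt_one, pt_two, Prod.mk.eta, Int.cast_zero, mul_zero, add_zero]
        rw [← Finset.sum_mul, hn]
        push_cast
        ring)
    refine ⟨fun x hx => ?_, key.2⟩
    have := key.1 (pt x z) (pt_mem_lift.2 hx)
    simpa using this
  · intro h c r h0 h1
    rw [sum_lift] at h0
    have key := h (fun x => c (pt x z)) r h0 (by
      have := h1 0
      rw [sum_lift] at this
      simpa using this) (by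
      have := h1 1
      rw [sum_lift] at this
      simpa using this)
    refine ⟨fun x hx => ?_, key.2⟩
    obtain ⟨hx2, hxC⟩ := mem_lift.1 hx
    have := key.1 _ hxC
    have h3 : x = pt (x 0, x 1) z := by rw [← hx2, pt_eta]
    rw [h3]
    exact this

theorem PPi_lift {B : Finset V} {z : ℤ} {w : W → ℝ} {e : V} {α β : ℝ} :
    PPi (lift B z) w (pt e 0) α β ↔ PPv B (fun x => w (pt x z)) e α β := by
  constructor
  · intro h a h1 h2
    have h3 : lin ![a.1, a.2, 0] (pt e 0) = dotR a e := by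
      rw [lin_pt]
      simp [dotR]
    have h4 := h ![a.1, a.2, 0] (by rw [h3]; exact h1) (by rw [h3]; exact h2)
    rw [amin_lift, uniE_lift] at h4
    simpa using h4
  · intro h L h1 h2
    rw [amin_lift, uniE_lift]
    have h3 : lin L (pt e 0) = dotR (L 0, L 1) e := by
      rw [lin_pt]
      simp
    rw [h3] at h1 h2
    exact h (L 0, L 1) h1 h2

theorem rul_edge {F B : Finset V} (hE : EdgeNorm F B) {z : ℤ} {e₃ : W} (h : Rul (lift B z) e₃) :
    ∃ e : V, e₃ = pt e 0 ∧ (e.2, -e.1) ∈ F ∧ -((e.2, -e.1) : V) ∈ F := by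
  obtain ⟨u, v, p, q, hv, hu, hp, hpe, hq, hqe, hlt, hbd, hat⟩ := h
  obtain ⟨hp2, hpB⟩ := mem_lift.1 hp
  obtain ⟨hpe2, hpeB⟩ := mem_lift.1 hpe
  obtain ⟨hq2, hqB⟩ := mem_lift.1 hq
  obtain ⟨hqe2, hqeB⟩ := mem_lift.1 hqe
  have he2 : e₃ 2 = 0 := by
    have h1 : (p + e₃) 2 = p 2 + e₃ 2 := rfl
    rw [h1, hp2] at hpe2
    linarith
  rw [d3_three, he2, mul_zero, add_zero] at hv hu
  refine ⟨(e₃ 0, e₃ 1), by rw [← he2, pt_eta], ?_⟩
  simp only
  set a := e₃ 0 with ha
  set b := e₃ 1 with hb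
  obtain ⟨m, hm0, hm1⟩ : ∃ m : ℤ, u 0 = m * b ∧ u 1 = -(m * a) := by
    refine ⟨u 0 * v 1 - u 1 * v 0, ?_, ?_⟩
    · linear_combination (-(u 0)) * hv + v 0 * hu
    · linear_combination (-(u 1)) * hv + v 1 * hu
  have hval : ∀ x ∈ lift B z, d3 u x = m * (b * x 0 - a * x 1) + u 2 * z := by
    intro x hx
    rw [d3_three, (mem_lift.1 hx).1, hm0, hm1]
    ring
  have hprim : Prim (b, -a) := by
    refine ⟨v 1, -(v 0), ?_⟩
    show v 1 * b + -(v 0) * -a = 1
    linarith
  have hprim' : Prim (-((b, -a) : V)) := by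
    refine ⟨-(v 1), v 0, ?_⟩
    show -(v 1) * (-b) + v 0 * (-(-a)) = 1
    linarith
  have hm : m = 1 ∨ m = -1 := by
    obtain ⟨x, hx, hx1⟩ := hat (d3 u q) le_rfl hlt.le
    obtain ⟨y, hy, hy1⟩ := hat (d3 u q + 1) (by linarith) (by linarith)
    rw [hval x hx] at hx1
    rw [hval y hy] at hy1
    have hd : m * ((b * y 0 - a * y 1) - (b * x 0 - a * x 1)) = 1 := by
      rw [mul_sub]
      linarith
    exact Int.isUnit_iff.1 (IsUnit.of_mul_eq_one _ hd)
  have hne : ∀ x : V, x ≠ x + (a, b) := by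
    intro x hx
    have h0 : (a, b) = (0 : V) := by
      have := hx.symm
      simpa using this
    have ha0 : a = 0 := congrArg Prod.fst h0
    have hb0 : b = 0 := congrArg Prod.snd h0
    rw [ha0, hb0] at hv
    simp at hv
  have hpe' : ((p + e₃) 0, (p + e₃) 1) = ((p 0, p 1) : V) + (a, b) := rfl
  have hqe' : ((q + e₃) 0, (q + e₃) 1) = ((q 0, q 1) : V) + (a, b) := rfl
  rw [hpe'] at hpeB
  rw [hqe'] at hqeB
  have hpt : ∀ x ∈ B, d3 u (pt x z) = m * (b * x.1 - a * x.2) + u 2 * z := by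
    intro x hx
    have := hval (pt x z) (pt_mem_lift.2 hx)
    simpa using this
  have hdp : d3 u p = m * (b * p 0 - a * p 1) + u 2 * z := hval p hp
  have hdq : d3 u q = m * (b * q 0 - a * q 1) + u 2 * z := hval q hq
  have hup : ∀ x ∈ B, m * (b * x.1 - a * x.2) ≤ m * (b * p 0 - a * p 1) := by
    intro x hx
    have h1 := (hbd (pt x z) (pt_mem_lift.2 hx)).2
    rw [hpt x hx, hdp] at h1
    linarith
  have hlo : ∀ x ∈ B, m * (b * q 0 - a * q 1) ≤ m * (b * x.1 - a * x.2) := by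
    intro x hx
    have h1 := (hbd (pt x z) (pt_mem_lift.2 hx)).1
    rw [hpt x hx, hdq] at h1
    linarith
  rcases hm with hm | hm
  · rw [hm] at hup hlo
    constructor
    · refine hE _ hpB _ hpeB (hne _) _ hprim ?_ ?_
      · show b * p 0 + -a * p 1 = b * (p 0 + a) + -a * (p 1 + b)
        ring
      · intro w hw
        have := hup w hw
        show b * w.1 + -a * w.2 ≤ b * p 0 + -a * p 1
        linarith
    · refine hE _ hqB _ hqeB (hne _) _ hprim' ?_ ?_
      · show -b * q 0 + -(-a) * q 1 = -b * (q 0 + a) + -(-a) * (q 1 + b)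
        ring
      · intro w hw
        have := hlo w hw
        show -b * w.1 + -(-a) * w.2 ≤ -b * q 0 + -(-a) * q 1
        linarith
  · rw [hm] at hup hlo
    constructor
    · refine hE _ hqB _ hqeB (hne _) _ hprim ?_ ?_
      · show b * q 0 + -a * q 1 = b * (q 0 + a) + -a * (q 1 + b)
        ring
      · intro w hw
        have := hlo w hw
        show b * w.1 + -a * w.2 ≤ b * q 0 + -a * q 1
        linarith
    · refine hE _ hpB _ hpeB (hne _) _ hprim' ?_ ?_
      · show -b * p 0 + -(-a) * p 1 = -b * (p 0 + a) + -(-a) * (p 1 + b)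
        ring
      · intro w hw
        have := hup w hw
        show -b * w.1 + -(-a) * w.2 ≤ -b * p 0 + -(-a) * p 1
        linarith

theorem tri_of_lift {B : Finset V} {z : ℤ} (h : Tri (lift B z)) : ∃ (s e f : V) (k : ℕ), 1 ≤ k ∧ det e f = 1 ∧
    ∀ x, x ∈ B ↔ ∃ i j : ℕ, i + j ≤ k ∧ x = s + (i : ℤ) • e + (j : ℤ) • f := by
  obtain ⟨s, e, f, k, hT⟩ := h
  obtain ⟨u, v, hue, huf, hve, hvf⟩ := hT.dual
  have hs2 : s 2 = z := by
    have : s ∈ lift B z := (hT.mem s).2 ⟨0, 0, by omega, by simp⟩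
    exact (mem_lift.1 this).1
  have he2 : e 2 = 0 := by
    have : s + e ∈ lift B z := (hT.mem (s + e)).2 ⟨1, 0, by have := hT.k1; omega, by simp⟩
    have h1 := (mem_lift.1 this).1
    have h2 : (s + e) 2 = s 2 + e 2 := rfl
    rw [h2, hs2] at h1
    linarith
  have hf2 : f 2 = 0 := by
    have : s + f ∈ lift B z := (hT.mem (s + f)).2 ⟨0, 1, by have := hT.k1; omega, by simp⟩
    have h1 := (mem_lift.1 this).1
    have h2 : (s + f) 2 = s 2 + f 2 := rfl
    rw [h2, hs2] at h1
    linarith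
  rw [d3_three, he2, mul_zero, add_zero] at hue hve
  rw [d3_three, hf2, mul_zero, add_zero] at huf hvf
  have hdet : (u 0 * v 1 - u 1 * v 0) * (e 0 * f 1 - e 1 * f 0) = 1 := by
    linear_combination (v 0 * f 0 + v 1 * f 1) * hue + hvf - (v 0 * e 0 + v 1 * e 1) * huf
  have hunit : e 0 * f 1 - e 1 * f 0 = 1 ∨ e 0 * f 1 - e 1 * f 0 = -1 := by
    rw [mul_comm] at hdet
    exact Int.isUnit_iff.1 (IsUnit.of_mul_eq_one _ hdet)
  have hmem : ∀ x : V, x ∈ B ↔ ∃ i j : ℕ, i + j ≤ k ∧ x = ((s 0, s 1) : V) + (i : ℤ) • ((e 0, e 1) : V)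
      + (j : ℤ) • ((f 0, f 1) : V) := by
    intro x
    rw [← pt_mem_lift (z := z), hT.mem]
    constructor
    · rintro ⟨i, j, hij, hx⟩
      refine ⟨i, j, hij, ?_⟩
      have h0 := congrFun hx 0
      have h1 := congrFun hx 1
      simp only [pt_zero, pt_one, Pi.add_apply, Pi.smul_apply, smul_eq_mul] at h0 h1
      refine Prod.ext ?_ ?_
      · simpa using h0
      · simpa using h1
    · rintro ⟨i, j, hij, hx⟩
      refine ⟨i, j, hij, ?_⟩
      have h0 : x.1 = s 0 + (i : ℤ) * e 0 + (j : ℤ) * f 0 := by rw [hx]; simp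
      have h1 : x.2 = s 1 + (i : ℤ) * e 1 + (j : ℤ) * f 1 := by rw [hx]; simp
      funext t
      fin_cases t
      · simpa using h0
      · simpa using h1
      · show z = s 2 + (i : ℤ) * e 2 + (j : ℤ) * f 2
        rw [hs2, he2, hf2]
        ring
  rcases hunit with hd | hd
  · exact ⟨(s 0, s 1), (e 0, e 1), (f 0, f 1), k, hT.k1, hd, hmem⟩
  · refine ⟨(s 0, s 1), (f 0, f 1), (e 0, e 1), k, hT.k1, ?_, ?_⟩
    · show f 0 * e 1 - f 1 * e 0 = 1
      linarith
    · intro x
      rw [hmem]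
      constructor
      · rintro ⟨i, j, hij, hx⟩
        refine ⟨j, i, by omega, ?_⟩
        rw [hx]
        abel
      · rintro ⟨i, j, hij, hx⟩
        refine ⟨j, i, by omega, ?_⟩
        rw [hx]
        abel

theorem lift_tri {B : Finset V} (z : ℤ) {s e f : V} {k : ℕ} (hk : 1 ≤ k) (hd : det e f = 1)
    (h : ∀ x, x ∈ B ↔ ∃ i j : ℕ, i + j ≤ k ∧ x = s + (i : ℤ) • e + (j : ℤ) • f) :
    TriD (lift B z) (pt s z) (pt e 0) (pt f 0) k := by
  refine ⟨hk, ⟨pt (f.2, -f.1) 0, pt (-e.2, e.1) 0, ?_, ?_, ?_, ?_⟩, ?_⟩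
  · rw [d3_three]
    simp only [pt_zero, pt_one, pt_two]
    have : e.1 * f.2 - e.2 * f.1 = 1 := hd
    linarith
  · rw [d3_three]
    simp only [pt_zero, pt_one, pt_two]
    ring
  · rw [d3_three]
    simp only [pt_zero, pt_one, pt_two]
    ring
  · rw [d3_three]
    simp only [pt_zero, pt_one, pt_two]
    have : e.1 * f.2 - e.2 * f.1 = 1 := hd
    linarith
  · intro x
    rw [mem_lift]
    constructor
    · rintro ⟨hx2, hxB⟩
      obtain ⟨i, j, hij, hx⟩ := (h _).1 hxB
      refine ⟨i, j, hij, ?_⟩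
      have h0 : x 0 = s.1 + (i : ℤ) * e.1 + (j : ℤ) * f.1 := by
        have := congrArg Prod.fst hx
        simpa using this
      have h1 : x 1 = s.2 + (i : ℤ) * e.2 + (j : ℤ) * f.2 := by
        have := congrArg Prod.snd hx
        simpa using this
      funext t
      fin_cases t
      · simpa using h0
      · simpa using h1
      · simpa using hx2
    · rintro ⟨i, j, hij, hx⟩
      refine ⟨?_, (h _).2 ⟨i, j, hij, ?_⟩⟩
      · rw [hx]
        simp
      · rw [hx]
        refine Prod.ext ?_ ?_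
        · simp
        · simp

theorem nonCol_lift {B : Finset V} {z : ℤ} : NonCol (lift B z) ↔
    ∃ x ∈ B, ∃ y ∈ B, ∃ y' ∈ B, det (y - x) (y' - x) ≠ 0 := by
  constructor
  · rintro ⟨x, hx, y, hy, y', hy', h⟩
    obtain ⟨hx2, hxB⟩ := mem_lift.1 hx
    obtain ⟨hy2, hyB⟩ := mem_lift.1 hy
    obtain ⟨hy2', hyB'⟩ := mem_lift.1 hy'
    refine ⟨_, hxB, _, hyB, _, hyB', ?_⟩
    intro hdet
    have hdet' : (y 0 - x 0) * (y' 1 - x 1) - (y 1 - x 1) * (y' 0 - x 0) = 0 := hdet
    have key : ∀ s t : ℤ, s * (y 0 - x 0) + t * (y' 0 - x 0) = 0 → s * (y 1 - x 1) + t * (y' 1 - x 1) = 0 →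
        s = 0 ∧ t = 0 := by
      intro s t h0 h1
      apply h s t
      funext i
      fin_cases i
      · simpa using h0
      · simpa using h1
      · show s * (y 2 - x 2) + t * (y' 2 - x 2) = 0
        rw [hx2, hy2, hy2']
        ring
    have k1 := key (y' 0 - x 0) (-(y 0 - x 0)) (by ring) (by linear_combination -hdet')
    have k2 := key (y' 1 - x 1) (-(y 1 - x 1)) (by linear_combination hdet') (by ring)
    have e1 := k1.1
    have e2 := neg_eq_zero.1 k1.2
    have e3 := k2.1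
    have e4 := neg_eq_zero.1 k2.2
    have k3 := key 1 1 (by rw [e1, e2]; ring) (by rw [e3, e4]; ring)
    exact one_ne_zero k3.1
  · rintro ⟨x, hx, y, hy, y', hy', h⟩
    refine ⟨pt x z, pt_mem_lift.2 hx, pt y z, pt_mem_lift.2 hy, pt y' z, pt_mem_lift.2 hy', ?_⟩
    intro s t hst
    have h0 : s * (y.1 - x.1) + t * (y'.1 - x.1) = 0 := by
      have := congrFun hst 0
      simpa using this
    have h1 : s * (y.2 - x.2) + t * (y'.2 - x.2) = 0 := by
      have := congrFun hst 1
      simpa using this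
    have hdet : (y.1 - x.1) * (y'.2 - x.2) - (y.2 - x.2) * (y'.1 - x.1) ≠ 0 := h
    constructor
    · have : s * ((y.1 - x.1) * (y'.2 - x.2) - (y.2 - x.2) * (y'.1 - x.1)) = 0 := by
        linear_combination (y'.2 - x.2) * h0 - (y'.1 - x.1) * h1
      rcases mul_eq_zero.1 this with h2 | h2
      · exact h2
      · exact absurd h2 hdet
    · have : t * ((y.1 - x.1) * (y'.2 - x.2) - (y.2 - x.2) * (y'.1 - x.1)) = 0 := by
        linear_combination (y.1 - x.1) * h1 - (y.2 - x.2) * h0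
      rcases mul_eq_zero.1 this with h2 | h2
      · exact h2
      · exact absurd h2 hdet

end Pool.Agent.SPK
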