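import Pool.Agent.SPK.Defs

/-!
# [SPK-Fan2] the normal fan of a smooth polygon

At a planar vertex `x` with basis `(e, e')`, `det e e' = 1`: let `ν = (e.2, -e.1)`, `ν' = (-e'.2, e'.1)`. `dot ν e = 0`, `dot ν e' = -1`, `dot ν' e' = 0`, `dot ν' e = -1`, `det ν' ν = 1`. `n` attains its maximum over `A` at `x` iff `dot n e ≤ 0` and `dot n e' ≤ 0` iff `n = α ν' + β ν` with `α = -dot n e`, `β = -dot n e' ≥ 0` (`≥ 0`); if `α, β > 0` the maximum is attained only at `x`.
`F` = set of the primitive `n` whose maximum over `A` is attained at two different points; each such `n` is `ν` or `ν'` of a vertex (maximize `n` and then `(-n.2, n.1)`), so `F` is finite (`A` is finite; choose the basis for each vertex). `h v` = maximum of `dot v` over `A`.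
`next`: `v ∈ F`; let `x` be the point of `A` which maximizes `dot v` and then `dot (-v.2, v.1)` (a vertex: unique maximum of `K v + (-v.2, v.1)` for large `K`); there is another `y ∈ A` with `dot v y = dot v x`, `y = x + s e + t e'`; so `v` is `ν` or `ν'` and the direction tells `v = ν'`; take `w = ν`. If `n ∈ F` is in the cone `(ν', ν)` then `n` is `ν'` or `ν`.
`Ample`: by `Adj.unique` (SPB/FanA) the pair `(v, w)` is `(ν', ν)` of this vertex, `x` is the point with `dot v x = h v`, `dot w x = h w`; if `dot u x = h u`, `u ∈ F`, then `u` is `ν'` or `ν`.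
`IsPts`: if `dot v y ≤ h v` for all `v ∈ F` and `y ∉ A` then `toR y ∉ convexHull` (`LatConv`); separate by `a : ℝ × ℝ`, `dotR a y > dotR a x` for all `x ∈ A`; `complete` (SPB/Fan): `a = α v + β w`, contradiction at the vertex of `(v, w)`.
-/

open Finset Pool.Agent.SPB

set_option autoImplicit false

namespace Pool.Agent.SPK

/-- the normal of the edge `e` -/
private def f2n (e : V) : V := (e.2, -e.1)

/-- the normal of the edge `e'` -/
private def f2n' (e : V) : V := (-e.2, e.1)

/-- `(e, e')` is a basis at `x` -/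
private def F2B (A : Finset V) (x e e' : V) : Prop :=
  x ∈ A ∧ det e e' = 1 ∧ x + e ∈ A ∧ x + e' ∈ A ∧ ∀ y ∈ A, ∃ s t : ℤ, 0 ≤ s ∧ 0 ≤ t ∧ y = x + s • e + t • e'

/-- `n` is an edge normal of `A` -/
private def F2E (A : Finset V) (n : V) : Prop :=
  Prim n ∧ ∃ x ∈ A, ∃ y ∈ A, x ≠ y ∧ dot n x = dot n y ∧ ∀ z ∈ A, dot n z ≤ dot n x

private theorem f2_dot_add (n x y : V) : dot n (x + y) = dot n x + dot n y := by
  simp only [dot, Prod.fst_add, Prod.snd_add]
  ring

private theorem f2_dot_smul (n x : V) (s : ℤ) : dot n (s • x) = s * dot n x := by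
  simp only [dot, Prod.smul_fst, Prod.smul_snd, smul_eq_mul]
  ring

private theorem f2_dot_y (n x e e' : V) (s t : ℤ) :
    dot n (x + s • e + t • e') = dot n x + s * dot n e + t * dot n e' := by
  rw [f2_dot_add, f2_dot_add, f2_dot_smul, f2_dot_smul]

private theorem f2_det {e e' : V} (h : det e e' = 1) : det (f2n' e') (f2n e) = 1 := by
  simp only [det, f2n, f2n'] at h ⊢
  linarith

private theorem f2_ne (e : V) : dot (f2n e) e = 0 := by
  simp only [dot, f2n]
  ring

private theorem f2_ne' {e e' : V} (h : det e e' = 1) : dot (f2n e) e' = -1 := by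
  simp only [det] at h
  simp only [dot, f2n]
  linarith

private theorem f2_n'e {e e' : V} (h : det e e' = 1) : dot (f2n' e') e = -1 := by
  simp only [det] at h
  simp only [dot, f2n']
  linarith

private theorem f2_n'e' (e' : V) : dot (f2n' e') e' = 0 := by
  simp only [dot, f2n']
  ring

private theorem f2_prim {v w : V} (h : det v w = 1) : Prim v ∧ Prim w := by
  simp only [det] at h
  constructor
  · exact ⟨w.2, -w.1, by linarith⟩
  · exact ⟨-v.2, v.1, by linarith⟩

private theorem f2_fan_dot {v w : V} (h : det v w = 1) (n x : V) :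
    dot n x = det n w * dot v x + det v n * dot w x := by
  unfold det at h
  unfold dot det
  linear_combination (-(n.1 * x.1) - n.2 * x.2) * h

private theorem f2_unit {c : ℤ} {n w : V} (hn : Prim n) (hc : 0 ≤ c) (h : n = c • w) : n = w := by
  have h1 : n.1 = c * w.1 := by rw [h]; rfl
  have h2 : n.2 = c * w.2 := by rw [h]; rfl
  have h3 : IsUnit c := by
    unfold Prim at hn
    exact hn.isUnit_of_dvd' ⟨w.1, h1⟩ ⟨w.2, h2⟩
  have h4 : c = 1 := by
    rcases Int.isUnit_iff.1 h3 with h5 | h5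
    · exact h5
    · omega
  rw [h, h4, one_smul]

private theorem f2_max_n {A : Finset V} {x e e' : V} (hb : F2B A x e e') {y : V} (hy : y ∈ A) :
    dot (f2n e) y ≤ dot (f2n e) x := by
  obtain ⟨_, hd, _, _, hc⟩ := hb
  obtain ⟨s, t, hs, ht, rfl⟩ := hc y hy
  rw [f2_dot_y, f2_ne, f2_ne' hd]
  linarith

private theorem f2_max_n' {A : Finset V} {x e e' : V} (hb : F2B A x e e') {y : V} (hy : y ∈ A) :
    dot (f2n' e') y ≤ dot (f2n' e') x := by
  obtain ⟨_, hd, _, _, hc⟩ := hb
  obtain ⟨s, t, hs, ht, rfl⟩ := hc y hy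
  rw [f2_dot_y, f2_n'e hd, f2_n'e']
  linarith

private theorem f2_edge_n {A : Finset V} {x e e' : V} (hb : F2B A x e e') : F2E A (f2n e) := by
  refine ⟨(f2_prim (f2_det hb.2.1)).2, x, hb.1, x + e, hb.2.2.1, ?_, ?_, fun z hz => f2_max_n hb hz⟩
  · intro h
    have h1 : e = 0 := by
      have h2 : x + 0 = x + e := by rw [add_zero]; exact h
      exact (add_left_cancel h2).symm
    have h3 := hb.2.1
    rw [h1] at h3
    simp [det] at h3
  · rw [f2_dot_add, f2_ne, add_zero]

private theorem f2_edge_n' {A : Finset V} {x e e' : V} (hb : F2B A x e e') : F2E A (f2n' e') := by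
  refine ⟨(f2_prim (f2_det hb.2.1)).1, x, hb.1, x + e', hb.2.2.2.1, ?_, ?_, fun z hz => f2_max_n' hb hz⟩
  · intro h
    have h1 : e' = 0 := by
      have h2 : x + 0 = x + e' := by rw [add_zero]; exact h
      exact (add_left_cancel h2).symm
    have h3 := hb.2.1
    rw [h1] at h3
    simp [det] at h3
  · rw [f2_dot_add, f2_n'e', add_zero]

/-- an edge normal whose maximum is attained at the vertex is one of the two normals -/
private theorem f2_two {A : Finset V} {x e e' : V} (hb : F2B A x e e') {n : V} (hn : F2E A n)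
    (hmax : ∀ y ∈ A, dot n y ≤ dot n x) : n = f2n' e' ∨ n = f2n e := by
  obtain ⟨hp, y, hy, z, hz, hyz, heq, hm⟩ := hn
  obtain ⟨hx, hd, he, he', hc⟩ := hb
  have h1 : dot n e ≤ 0 := by
    have h := hmax _ he
    rw [f2_dot_add] at h
    linarith
  have h2 : dot n e' ≤ 0 := by
    have h := hmax _ he'
    rw [f2_dot_add] at h
    linarith
  have hbas : n = (-dot n e) • f2n' e' + (-dot n e') • f2n e := by
    simp only [det] at hd
    refine Prod.ext ?_ ?_
    · simp only [dot, f2n, f2n', Prod.fst_add, Prod.smul_fst, smul_eq_mul]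
      linear_combination (-n.1) * hd
    · simp only [dot, f2n, f2n', Prod.snd_add, Prod.smul_snd, smul_eq_mul]
      linear_combination (-n.2) * hd
  -- a point different from `x` where the maximum is attained
  obtain ⟨p, hp1, hp2, hp3⟩ : ∃ p ∈ A, p ≠ x ∧ dot n p = dot n x := by
    have hxy : dot n y = dot n x := le_antisymm (hmax y hy) (hm x hx)
    by_cases h : y = x
    · refine ⟨z, hz, ?_, by rw [← heq, hxy]⟩
      intro h3
      exact hyz (by rw [h, h3])
    · exact ⟨y, hy, h, hxy⟩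
  obtain ⟨s, t, hs, ht, hpe⟩ := hc p hp1
  rw [hpe, f2_dot_y] at hp3
  have h3 : s * dot n e ≤ 0 := mul_nonpos_of_nonneg_of_nonpos hs h1
  have h4 : t * dot n e' ≤ 0 := mul_nonpos_of_nonneg_of_nonpos ht h2
  have h5 : s * dot n e = 0 := by linarith
  have h6 : t * dot n e' = 0 := by linarith
  rcases mul_eq_zero.1 h5 with h7 | h7
  · rcases mul_eq_zero.1 h6 with h8 | h8
    · exfalso
      apply hp2
      rw [hpe, h7, h8, zero_smul, zero_smul, add_zero, add_zero]
    · left
      rw [h8, neg_zero, zero_smul, add_zero] at hbas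
      exact f2_unit hp (by linarith) hbas
  · right
    rw [h7, neg_zero, zero_smul, zero_add] at hbas
    exact f2_unit hp (by linarith) hbas

/-- lexicographic maximum -/
private theorem f2_lex {A : Finset V} (hne : A.Nonempty) (v m : V)
    (hvm : ∀ d : V, dot v d = 0 → dot m d = 0 → d = 0) :
    ∃ x, IsV2 A x ∧ (∀ y ∈ A, dot v y ≤ dot v x) ∧ ∀ y ∈ A, dot v y = dot v x → dot m y ≤ dot m x := by
  classical
  obtain ⟨x0, hx0, hmax0⟩ := Finset.exists_max_image A (dot v) hne
  have hB : (A.filter (fun y => dot v y = dot v x0)).Nonempty := ⟨x0, Finset.mem_filter.2 ⟨hx0, rfl⟩⟩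
  obtain ⟨x, hx, hmax⟩ := Finset.exists_max_image _ (dot m) hB
  rw [Finset.mem_filter] at hx
  obtain ⟨hxA, hxv⟩ := hx
  obtain ⟨z, hz, hmz⟩ := Finset.exists_max_image A (dot m) hne
  have h1 : ∀ y ∈ A, dot v y ≤ dot v x := fun y hy => by rw [hxv]; exact hmax0 y hy
  have h2 : ∀ y ∈ A, dot v y = dot v x → dot m y ≤ dot m x := fun y hy h =>
    hmax y (Finset.mem_filter.2 ⟨hy, by rw [h, hxv]⟩)
  refine ⟨x, ⟨hxA, (dot m z - dot m x + 1) • v + m, fun y hy hyx => ?_⟩, h1, h2⟩
  have h3 : ∀ p : V, dot ((dot m z - dot m x + 1) • v + m) p = (dot m z - dot m x + 1) * dot v p + dot m p := by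
    intro p
    simp only [dot, Prod.fst_add, Prod.snd_add, Prod.smul_fst, Prod.smul_snd, smul_eq_mul]
    ring
  rw [h3, h3]
  have h4 := hmz x hxA
  have h5 := hmz y hy
  rcases (h1 y hy).eq_or_lt with h6 | h6
  · have h7 := h2 y hy h6
    have h8 : dot m y ≠ dot m x := by
      intro h9
      apply hyx
      have h10 : y - x = 0 := by
        apply hvm
        · have : dot v (y - x) = dot v y - dot v x := by
            simp only [dot, Prod.fst_sub, Prod.snd_sub]
            ring
          rw [this, h6, sub_self]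
        · have : dot m (y - x) = dot m y - dot m x := by
            simp only [dot, Prod.fst_sub, Prod.snd_sub]
            ring
          rw [this, h9, sub_self]
      exact sub_eq_zero.1 h10
    have h9 : dot m y < dot m x := lt_of_le_of_ne h7 h8
    rw [h6]
    linarith
  · have h7 : dot v y ≤ dot v x - 1 := by linarith
    have h8 : 0 ≤ dot m z - dot m x + 1 := by linarith
    have h9 := mul_le_mul_of_nonneg_left h7 h8
    have h10 : (dot m z - dot m x + 1) * (dot v x - 1)
        = (dot m z - dot m x + 1) * dot v x - (dot m z - dot m x + 1) := by ring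
    rw [h10] at h9
    linarith

private theorem f2_perp {v : V} (hv : v ≠ 0) : ∀ d : V, dot v d = 0 → dot (f2n' v) d = 0 → d = 0 := by
  intro d h1 h2
  simp only [dot, f2n'] at h1 h2
  have hpos : v.1 * v.1 + v.2 * v.2 ≠ 0 := by
    intro h
    apply hv
    have h3 : v.1 = 0 := by nlinarith [mul_self_nonneg v.1, mul_self_nonneg v.2]
    have h4 : v.2 = 0 := by nlinarith [mul_self_nonneg v.1, mul_self_nonneg v.2]
    exact Prod.ext h3 h4
  have h3 : (v.1 * v.1 + v.2 * v.2) * d.1 = 0 := by linear_combination v.1 * h1 - v.2 * h2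
  have h4 : (v.1 * v.1 + v.2 * v.2) * d.2 = 0 := by linear_combination v.2 * h1 + v.1 * h2
  exact Prod.ext ((mul_eq_zero.1 h3).resolve_left hpos) ((mul_eq_zero.1 h4).resolve_left hpos)

/-- every edge normal is the first normal of a vertex -/
private theorem f2_vertex {A : Finset V} (hne : A.Nonempty)
    (hs : ∀ x, IsV2 A x → ∃ e e' : V, F2B A x e e') {v : V} (hv : F2E A v) :
    ∃ x e e' : V, F2B A x e e' ∧ IsV2 A x ∧ v = f2n' e' := by
  have hv0 : v ≠ 0 := by
    rintro rfl
    have h1 : IsCoprime (0 : ℤ) (0 : ℤ) := hv.1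
    rw [isCoprime_zero_left] at h1
    exact not_isUnit_zero h1
  obtain ⟨x, hx, h1, h2⟩ := f2_lex hne v (f2n' v) (f2_perp hv0)
  obtain ⟨e, e', hb⟩ := hs x hx
  refine ⟨x, e, e', hb, hx, ?_⟩
  rcases f2_two hb hv h1 with h3 | h3
  · exact h3
  · exfalso
    have h4 := h2 (x + e) hb.2.2.1 (by rw [f2_dot_add, h3, f2_ne, add_zero])
    rw [f2_dot_add, h3] at h4
    have h5 : dot (f2n' (f2n e)) e = e.1 * e.1 + e.2 * e.2 := by
      simp only [dot, f2n', f2n]
      ring
    rw [h5] at h4
    have h6 : e.1 = 0 := by nlinarith [mul_self_nonneg e.1, mul_self_nonneg e.2]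
    have h7 : e.2 = 0 := by nlinarith [mul_self_nonneg e.1, mul_self_nonneg e.2]
    have h8 := hb.2.1
    simp only [det] at h8
    rw [h6, h7] at h8
    simp at h8

private theorem f2_adj {A F : Finset V} (hF : ∀ n, n ∈ F ↔ F2E A n) {x e e' : V} (hb : F2B A x e e') :
    Adj F (f2n' e') (f2n e) := by
  refine ⟨(hF _).2 (f2_edge_n' hb), (hF _).2 (f2_edge_n hb), f2_det hb.2.1, fun n hn h1 h2 => ?_⟩
  refine f2_two hb ((hF n).1 hn) fun y hy => ?_
  rw [f2_fan_dot (f2_det hb.2.1) n y, f2_fan_dot (f2_det hb.2.1) n x]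
  have h3 := mul_le_mul_of_nonneg_left (f2_max_n' hb hy) h2
  have h4 := mul_le_mul_of_nonneg_left (f2_max_n hb hy) h1
  linarith

private theorem f2_finite {A : Finset V} (hne : A.Nonempty)
    (hs : ∀ x, IsV2 A x → ∃ e e' : V, F2B A x e e') : ∃ F : Finset V, ∀ n, n ∈ F ↔ F2E A n := by
  classical
  have hs' : ∀ x : V, ∃ e e' : V, IsV2 A x → F2B A x e e' := by
    intro x
    by_cases h : IsV2 A x
    · obtain ⟨e, e', h1⟩ := hs x h
      exact ⟨e, e', fun _ => h1⟩
    · exact ⟨0, 0, fun h' => absurd h' h⟩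
  choose E E' hE using hs'
  have hfin : {n : V | F2E A n}.Finite := by
    refine Set.Finite.subset ((A.image (fun x => f2n' (E' x)) ∪ A.image (fun x => f2n (E x)) : Finset V).finite_toSet) ?_
    intro n hn
    obtain ⟨x, e, e', hb, hx, hv⟩ := f2_vertex hne hs hn
    have hb' := hE x hx
    have hmax : ∀ y ∈ A, dot n y ≤ dot n x := fun y hy => by rw [hv]; exact f2_max_n' hb hy
    rw [Finset.mem_coe, Finset.mem_union, Finset.mem_image, Finset.mem_image]
    rcases f2_two hb' hn hmax with h | h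
    · exact Or.inl ⟨x, hb.1, h.symm⟩
    · exact Or.inr ⟨x, hb.1, h.symm⟩
  exact ⟨hfin.toFinset, fun n => by rw [Set.Finite.mem_toFinset]; rfl⟩

theorem exists_fan {A : Finset V} (hL : LatConv A) (hne : A.Nonempty)
    (hs : ∀ x, IsV2 A x → ∃ e e' : V, det e e' = 1 ∧ x + e ∈ A ∧ x + e' ∈ A ∧
      ∀ y ∈ A, ∃ s t : ℤ, 0 ≤ s ∧ 0 ≤ t ∧ y = x + s • e + t • e') :
    ∃ (F : Finset V) (h : V → ℤ), SmoothFan F ∧ Ample F h ∧ IsPts F h A := by
  classical
  have hs' : ∀ x, IsV2 A x → ∃ e e' : V, F2B A x e e' := by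
    intro x hx
    obtain ⟨e, e', h1, h2, h3, h4⟩ := hs x hx
    exact ⟨e, e', hx.1, h1, h2, h3, h4⟩
  obtain ⟨F, hF⟩ := f2_finite hne hs'
  set h : V → ℤ := fun v => A.sup' hne (dot v) with hh
  have hle : ∀ v, ∀ y ∈ A, dot v y ≤ h v := fun v y hy => Finset.le_sup' (dot v) hy
  have heq : ∀ v, ∀ x ∈ A, (∀ y ∈ A, dot v y ≤ dot v x) → h v = dot v x := fun v x hx hm =>
    le_antisymm (Finset.sup'_le hne _ hm) (hle v x hx)
  -- the vertex of a pair
  have hkey : ∀ v w, Adj F v w → ∃ x e e' : V, F2B A x e e' ∧ v = f2n' e' ∧ w = f2n e ∧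
      dot v x = h v ∧ dot w x = h w := by
    intro v w hvw
    obtain ⟨x, e, e', hb, hx, hv⟩ := f2_vertex hne hs' ((hF v).1 hvw.1)
    have h1 := f2_adj hF hb
    rw [← hv] at h1
    have h2 := hvw.unique h1
    refine ⟨x, e, e', hb, hv, h2, ?_, ?_⟩
    · exact (heq v x hb.1 fun y hy => by rw [hv]; exact f2_max_n' hb hy).symm
    · exact (heq w x hb.1 fun y hy => by rw [h2]; exact f2_max_n hb hy).symm
  have hsm : SmoothFan F := by
    refine ⟨?_, fun v hv => ?_⟩
    · obtain ⟨x, hx, _, _⟩ := f2_lex hne (1, 0) (f2n' (1, 0)) (f2_perp (by simp))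
      obtain ⟨e, e', hb⟩ := hs' x hx
      exact ⟨f2n e, (hF _).2 (f2_edge_n hb)⟩
    · obtain ⟨x, e, e', hb, hx, rfl⟩ := f2_vertex hne hs' ((hF v).1 hv)
      exact ⟨f2n e, f2_adj hF hb⟩
  refine ⟨F, h, hsm, ?_, ?_⟩
  · intro v w hvw x hx1 hx2 u hu huv huw
    obtain ⟨x0, e, e', hb, hv, hw, hx3, hx4⟩ := hkey v w hvw
    have hxx : x = x0 := by
      rw [eq_vert hvw.2.2.1 hx1 hx2, eq_vert hvw.2.2.1 hx3 hx4]
    rw [hxx]
    refine lt_of_le_of_ne (hle u x0 hb.1) fun hcon => ?_
    rcases f2_two hb ((hF u).1 hu) (fun y hy => by rw [hcon]; exact hle u y hy) with h1 | h1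
    · exact huv (by rw [h1, hv])
    · exact huw (by rw [h1, hw])
  · intro y
    refine ⟨fun hy v _ => hle v y hy, fun hy => ?_⟩
    by_contra hyA
    have hyc : toR y ∉ convexHull ℝ (toR '' (A : Set V)) := fun h1 => hyA (hL y h1)
    have hcl : IsClosed (convexHull ℝ (toR '' (A : Set V))) := by
      have h1 : IsCompact (convexHull ℝ (toR '' (A : Set V))) :=
        (A.finite_toSet.image toR).isCompact_convexHull ℝ
      exact h1.isClosed
    obtain ⟨f, u, hfu, huy⟩ := geometric_hahn_banach_closed_point (convex_convexHull ℝ _) hcl hyc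
    set a : ℝ × ℝ := (f (1, 0), f (0, 1)) with ha
    have hf : ∀ z : V, f (toR z) = a.1 * z.1 + a.2 * z.2 := by
      intro z
      have h1 : toR z = (z.1 : ℝ) • ((1 : ℝ), (0 : ℝ)) + (z.2 : ℝ) • ((0 : ℝ), (1 : ℝ)) := by
        simp [toR]
      rw [h1, map_add, map_smul, map_smul, smul_eq_mul, smul_eq_mul, ha]
      ring
    obtain ⟨v, w, hvw, hα, hβ⟩ := complete hsm a
    obtain ⟨x0, e, e', hb, hv, hw, hx3, hx4⟩ := hkey v w hvw
    have hdet : (v.1 : ℝ) * w.2 - v.2 * w.1 = 1 := by
      have h1 := hvw.2.2.1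
      unfold det at h1
      exact_mod_cast h1
    have hid : ∀ z : V, a.1 * z.1 + a.2 * z.2 =
        (a.1 * w.2 - a.2 * w.1) * (dot v z : ℝ) + ((v.1 : ℝ) * a.2 - v.2 * a.1) * (dot w z : ℝ) := by
      intro z
      simp only [dot]
      push_cast
      linear_combination (-(a.1 * z.1) - a.2 * z.2) * hdet
    have h1 := hfu (toR x0) (subset_convexHull ℝ _ ⟨x0, hb.1, rfl⟩)
    have h2 : (dot v y : ℝ) ≤ dot v x0 := by
      rw [hx3]
      exact_mod_cast hy v hvw.1
    have h3 : (dot w y : ℝ) ≤ dot w x0 := by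
      rw [hx4]
      exact_mod_cast hy w hvw.2.1
    have h4 := mul_le_mul_of_nonneg_left h2 hα
    have h5 := mul_le_mul_of_nonneg_left h3 hβ
    rw [hf, hid] at h1 huy
    linarith

end Pool.Agent.SPK
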