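import Pool.Agent.SPK.BotV
import Pool.Agent.SPK.Cnv
import Pool.Agent.SPK.Fan2

/-!
# [SPK-Bot] the bottom facet and the next level

`exists_BD`: `A₀`, `B` the planar parts of the levels `0`, `1`. `LatConv A₀` from `LatA A` (`x ↦ pt x 0` is affine). A planar vertex `x` of `A₀` (functional `n`) gives a vertex `pt x 0` of `A` (functional `pt n (-K)`, `K` large), `bot_vertex`; for `y ∈ A₀`, the coefficient of `pt f 1` in `cone` is `0`. So `exists_fan` applies. For `Adj F v w` the point `vert v w (h v) (h w)` is in `A₀` (`vert_mem`) and is the unique maximum of `v + w` on `A₀`, so `pt _ 0` is a vertex of `A`: `bot_vertex`.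
-/

open Finset Pool.Agent.SPB

set_option autoImplicit false

namespace Pool.Agent.SPK

variable {A : Finset W} {F : Finset V} {h : V → ℤ} {A₀ B : Finset V}

private theorem bot_d3 (n : V) (K : ℤ) (y : W) :
    d3 (pt n K) y = dot n (y 0, y 1) + K * y 2 := by
  unfold d3 dot
  rw [Fin.sum_univ_three]
  simp only [pt_zero, pt_one, pt_two]

private theorem bot_level (A : Finset W) (z : ℤ) : ∃ C : Finset V, ∀ x, x ∈ C ↔ pt x z ∈ A := by
  refine ⟨(A.filter (fun y => y 2 = z)).image (fun y => (y 0, y 1)), fun x => ?_⟩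
  simp only [Finset.mem_image, Finset.mem_filter]
  constructor
  · rintro ⟨y, ⟨hy, h2⟩, rfl⟩
    rw [← h2, pt_eta]; exact hy
  · intro hx
    exact ⟨pt x z, ⟨hx, rfl⟩, rfl⟩

private theorem bot_isV (hA : Bt A) (hm : ∀ x, x ∈ A₀ ↔ pt x 0 ∈ A) {x : V} (hx : x ∈ A₀) {n : V}
    (hn : ∀ y ∈ A₀, y ≠ x → dot n y < dot n x) : IsV A (pt x 0) := by
  refine ⟨(hm x).1 hx, pt n (-(1 + ∑ y ∈ A, |dot n (y 0, y 1) - dot n x|)), ?_⟩
  intro y hy hne
  rw [bot_d3, bot_d3]
  simp only [pt_zero, pt_one, pt_two, mul_zero, add_zero]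
  have hS : |dot n (y 0, y 1) - dot n x| ≤ ∑ y ∈ A, |dot n (y 0, y 1) - dot n x| :=
    Finset.single_le_sum (f := fun y : W => |dot n (y 0, y 1) - dot n x|)
      (fun i _ => abs_nonneg _) hy
  have hS2 := le_abs_self (dot n (y 0, y 1) - dot n x)
  have hxx : dot n (x.1, x.2) = dot n x := rfl
  rw [hxx]
  rcases (hA.nn y hy).lt_or_eq with h0 | h0
  · have h1 : 1 ≤ y 2 := h0
    have h2 : 0 ≤ ∑ y ∈ A, |dot n (y 0, y 1) - dot n x| :=
      Finset.sum_nonneg fun i _ => abs_nonneg _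
    nlinarith
  · have h1 : (y 0, y 1) ∈ A₀ := by
      rw [hm, show (0 : ℤ) = y 2 from h0, pt_eta]; exact hy
    have h2 : ((y 0, y 1) : V) ≠ x := by
      intro h3
      apply hne
      rw [← h3, show (0 : ℤ) = y 2 from h0, pt_eta]
    have := hn _ h1 h2
    rw [← h0]
    linarith

private theorem bot_lat (hA : Bt A) (hm : ∀ x, x ∈ A₀ ↔ pt x 0 ∈ A) : LatConv A₀ := by
  intro x hx
  rw [hm]
  apply hA.lat
  obtain ⟨φ, hφ⟩ : ∃ φ : ℝ × ℝ →ₗ[ℝ] (Fin 3 → ℝ), ∀ a, φ a = ![a.1, a.2, 0] := by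
    refine ⟨{ toFun := fun a => ![a.1, a.2, 0], map_add' := ?_, map_smul' := ?_ }, fun a => rfl⟩
    · intro a b
      funext i
      fin_cases i <;> simp
    · intro r a
      funext i
      fin_cases i <;> simp
  have hφe : ∀ y : V, φ (toR y) = emb (pt y 0) := by
    intro y
    rw [hφ]
    funext i
    fin_cases i <;> simp [toR, emb, pt]
  rw [← hφe]
  have h1 : φ (toR x) ∈ φ '' (convexHull ℝ (toR '' (A₀ : Set V))) := ⟨_, hx, rfl⟩
  rw [LinearMap.image_convexHull] at h1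
  refine convexHull_mono ?_ h1
  rintro _ ⟨_, ⟨y, hy, rfl⟩, rfl⟩
  exact ⟨pt y 0, (hm y).1 hy, (hφe y).symm⟩

theorem exists_BD (hA : Bt A) : ∃ (F : Finset V) (h : V → ℤ) (A₀ B : Finset V), BD A F h A₀ B := by
  obtain ⟨A₀, hm⟩ := bot_level A 0
  obtain ⟨B, hB⟩ := bot_level A 1
  have hne : A₀.Nonempty := by
    obtain ⟨x, hx, -⟩ := hA.nc
    rw [Finset.mem_filter] at hx
    refine ⟨(x 0, x 1), ?_⟩
    rw [hm, show (0 : ℤ) = x 2 from hx.2.symm, pt_eta]
    exact hx.1
  obtain ⟨F, h, hF, ha, hP⟩ := exists_fan (bot_lat hA hm) hne (by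
    rintro x ⟨hx, n, hn⟩
    obtain ⟨e, e', f, hd, hv⟩ := bot_vertex hA (bot_isV hA hm hx hn) rfl
    refine ⟨e, e', hd, ?_, ?_, ?_⟩
    · have h1 := hv.step 0
      rw [hm]
      convert h1 using 1
      funext i
      fin_cases i <;> simp [pt]
    · have h1 := hv.step 1
      rw [hm]
      convert h1 using 1
      funext i
      fin_cases i <;> simp [pt]
    · intro y hy
      obtain ⟨t, ht, he⟩ := hv.cone _ ((hm y).1 hy)
      have h2 := congrFun he 2
      have h0 := congrFun he 0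
      have h1 := congrFun he 1
      simp [Fin.sum_univ_three, pt] at h0 h1 h2
      refine ⟨t 0, t 1, ht 0, ht 1, ?_⟩
      rw [h2] at h0 h1
      refine Prod.ext ?_ ?_
      · simp only [Prod.fst_add, Prod.smul_fst, smul_eq_mul]; linarith
      · simp only [Prod.snd_add, Prod.smul_snd, smul_eq_mul]; linarith)
  refine ⟨F, h, A₀, B, hF, ha, hP, hm, hB, ?_⟩
  intro v w hvw
  have hd := hvw.2.2.1
  have hmem := vert_mem hF ha hP hvw
  refine bot_vertex hA (bot_isV hA hm hmem (n := v + w) ?_) rfl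
  intro y hy hne'
  have e1 : ∀ u : V, dot (v + w) u = dot v u + dot w u := by
    intro u; unfold dot; simp only [Prod.fst_add, Prod.snd_add]; ring
  rw [e1, e1, dot_vert_left hd, dot_vert_right hd]
  have h1 := (hP y).1 hy v hvw.1
  have h2 := (hP y).1 hy w hvw.2.1
  rcases lt_or_eq_of_le (add_le_add h1 h2) with h3 | h3
  · exact h3
  · exact absurd (eq_vert hd (by linarith) (by linarith)) hne'

end Pool.Agent.SPK
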