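import Pool.Agent.SPK.Cnv

/-!
# [SPK-BotF] smooth polygons: ruling

`smooth_rul`: let `Adj F p u`, `Adj F u w`, `e = (u.2, -u.1)`. The vertices `x = vert u w (h u) (h w)` and `x' = vert p u (h p) (h u)` of the edge `u` are different (`Ample`: `dot p x < h p` as `p ≠ u`, `p ≠ w`: `det u w = 1`, `det p u = 1`), both have `dot u = h u`, so `x' = x + m e` with `m ≠ 0`; between them are lattice points `x, x + e` or `x, x - e`, in `A₀` by convexity of the inequalities. The same for `-u`. The functional: `u₃ = pt u 0`, `u₃` ranges over `[-h (-u), h u]` on `A₀`. Rows: for `-h (-u) ≤ k ≤ h u` the real segment of the row `k` contains a convex combination of the two unit edges, so has length at least `1`; a lattice point on the line `dot u = k` in it is in `A₀`. (Concretely: let `q, q + e` at the bottom, `p, p + e` at the top, `H = h u + h (-u) > 0`, `j = k + h (-u)`: choose a lattice point `y` with `dot u y = k`, `y = ` (real point `((H - j) q + j p) / H`) `+ τ e`, `0 ≤ τ ≤ 1`, by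 adding a multiple of `e`; then `H y = (H - j) q + j p + τ H e` is a nonnegative combination of `q, q + e, p, p + e`, check the inequalities of `IsPts`.)
`H > 0`: `Ample` at `x`: `-u ≠ u, w`: `dot (-u) x < h (-u)`.
-/

open Finset Pool.Agent.SPB

set_option autoImplicit false

namespace Pool.Agent.SPK

private theorem bf_dot_add (a x y : V) : dot a (x + y) = dot a x + dot a y := by
  simp only [dot, Prod.fst_add, Prod.snd_add]
  ring

private theorem bf_edge {F : Finset V} (hF : SmoothFan F) {u w : V} (huw : Adj F u w) {h : V → ℤ}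
    (ha : Ample F h) {A₀ : Finset V} (hA : IsPts F h A₀) :
    ∃ x : V, x ∈ A₀ ∧ x + (u.2, -u.1) ∈ A₀ ∧ dot u x = h u ∧ dot w x = h w := by
  obtain ⟨p, hp⟩ := hF.pred huw.1
  have h1 : det u w = 1 := huw.2.2.1
  have h2 : det p u = 1 := hp.2.2.1
  have hXm : vert u w (h u) (h w) ∈ A₀ := vert_mem hF ha hA huw
  have hYm : vert p u (h p) (h u) ∈ A₀ := vert_mem hF ha hA hp
  have hXu := dot_vert_left h1 (h u) (h w)
  have hXw := dot_vert_right h1 (h u) (h w)
  have hYp := dot_vert_left h2 (h p) (h u)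
  have hYu := dot_vert_right h2 (h p) (h u)
  set X := vert u w (h u) (h w) with hX
  set Y := vert p u (h p) (h u) with hY
  clear_value X Y
  have hwp : w ≠ p := by
    rintro rfl
    simp only [det] at h1 h2
    linarith
  have hwu : w ≠ u := by
    rintro rfl
    simp only [det] at h1
    linarith
  have hlt : dot w Y < h w := ha p u hp Y hYp hYu w huw.2.1 hwp hwu
  refine ⟨X, hXm, ?_, hXu, hXw⟩
  have hXA := (hA X).1 hXm
  have hYA := (hA Y).1 hYm
  rw [hA]
  intro v hv
  have hXv := hXA v hv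
  have hYv := hYA v hv
  rw [bf_dot_add]
  have hm : 0 < h w - dot w Y := by linarith
  have hde : dot v Y - dot v X = (h w - dot w Y) * dot v (u.2, -u.1) := by
    rw [← hXw]
    simp only [dot, det] at *
    have e1 : Y.1 - X.1 = (w.1 * X.1 + w.2 * X.2 - (w.1 * Y.1 + w.2 * Y.2)) * u.2 := by
      linear_combination (-(Y.1 - X.1)) * h1 + w.2 * (hYu - hXu)
    have e2 : Y.2 - X.2 = (w.1 * X.1 + w.2 * X.2 - (w.1 * Y.1 + w.2 * Y.2)) * (-u.1) := by
      linear_combination (-(Y.2 - X.2)) * h1 - w.1 * (hYu - hXu)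
    linear_combination v.1 * e1 + v.2 * e2
  by_contra hcon
  push Not at hcon
  have hd : 0 < dot v (u.2, -u.1) := by linarith
  nlinarith

private theorem bf_d3 (a x : V) (z : ℤ) : d3 (pt a 0) (pt x z) = dot a x := by
  simp only [d3, Fin.sum_univ_three, pt_zero, pt_one, pt_two, dot]
  ring

private theorem bf_pt_add (x e : V) (z : ℤ) : pt x z + pt e 0 = pt (x + e) z := by
  funext i
  fin_cases i
  · rfl
  · rfl
  · show z + 0 = z
    ring

private theorem bf_mem {B : Finset V} {z : ℤ} {x : V} : pt x z ∈ lift B z ↔ x ∈ B := by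
  rw [mem_lift]
  simp

theorem smooth_rul {F : Finset V} (hF : SmoothFan F) {u : V} (hu : u ∈ F) (hu' : -u ∈ F) {h : V → ℤ}
    (ha : Ample F h) {A₀ : Finset V} (hA : IsPts F h A₀) (z : ℤ) : Rul (lift A₀ z) (pt (u.2, -u.1) 0) := by
  obtain ⟨w, huw⟩ := hF.next u hu
  obtain ⟨w', huw'⟩ := hF.next (-u) hu'
  have h1 : det u w = 1 := huw.2.2.1
  obtain ⟨p, hpA, hpeA, hpu, hpw⟩ := bf_edge hF huw ha hA
  obtain ⟨q', hqA', hqeA', hqu', -⟩ := bf_edge hF huw' ha hA
  obtain ⟨q, hq⟩ : ∃ q : V, q = q' + ((-u).2, -(-u).1) := ⟨_, rfl⟩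
  have hqA : q ∈ A₀ := by rw [hq]; exact hqeA'
  have hqe : q + (u.2, -u.1) = q' := by
    rw [hq]
    refine Prod.ext ?_ ?_
    · simp
    · simp
  have hqeA : q + (u.2, -u.1) ∈ A₀ := by rw [hqe]; exact hqA'
  have hqu : dot u q = -h (-u) := by
    rw [← hqu', hq]
    simp only [dot, Prod.fst_add, Prod.snd_add, Prod.fst_neg, Prod.snd_neg]
    ring
  have hne1 : -u ≠ u := by
    intro h0
    have e1 := congrArg Prod.fst h0
    have e2 := congrArg Prod.snd h0
    simp only [Prod.fst_neg, Prod.snd_neg] at e1 e2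
    have e3 : u.1 = 0 := by linarith
    have e4 : u.2 = 0 := by linarith
    simp only [det, e3, e4] at h1
    linarith
  have hne2 : -u ≠ w := by
    rintro rfl
    simp only [det, Prod.fst_neg, Prod.snd_neg] at h1
    linarith
  have hH : 0 < h u + h (-u) := by
    have := ha u w huw p hpu hpw (-u) hu' hne1 hne2
    have h3 : dot (-u) p = -dot u p := by
      simp only [dot, Prod.fst_neg, Prod.snd_neg]
      ring
    rw [h3, hpu] at this
    linarith
  have hpI := (hA p).1 hpA
  have hpeI := (hA _).1 hpeA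
  have hqI := (hA q).1 hqA
  have hqeI := (hA _).1 hqeA
  refine ⟨pt u 0, pt (-w) 0, pt p z, pt q z, ?_, ?_, bf_mem.2 hpA, ?_, bf_mem.2 hqA, ?_, ?_, ?_, ?_⟩
  · rw [bf_d3]
    simp only [dot, det, Prod.fst_neg, Prod.snd_neg] at *
    linarith
  · rw [bf_d3]
    simp only [dot]
    ring
  · rw [bf_pt_add]
    exact bf_mem.2 hpeA
  · rw [bf_pt_add]
    exact bf_mem.2 hqeA
  · rw [bf_d3, bf_d3, hpu, hqu]
    linarith
  · intro x hx
    obtain ⟨hx2, hxA⟩ := mem_lift.1 hx
    have hx3 : x = pt (x 0, x 1) z := by rw [← hx2, pt_eta]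
    rw [hx3, bf_d3, bf_d3, bf_d3, hpu, hqu]
    have hxI := (hA _).1 hxA
    have k1 := hxI u hu
    have k2 := hxI (-u) hu'
    have h3 : dot (-u) (x 0, x 1) = -dot u (x 0, x 1) := by
      simp only [dot, Prod.fst_neg, Prod.snd_neg]
      ring
    rw [h3] at k2
    constructor
    · linarith
    · linarith
  · intro k hk1 hk2
    rw [bf_d3, hqu] at hk1
    rw [bf_d3, hpu] at hk2
    -- the lattice point
    obtain ⟨H, hHd⟩ : ∃ H : ℤ, H = h u + h (-u) := ⟨_, rfl⟩
    obtain ⟨j, hj⟩ : ∃ j : ℤ, j = k + h (-u) := ⟨_, rfl⟩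
    have hH0 : 0 < H := by rw [hHd]; exact hH
    have hj0 : 0 ≤ j := by rw [hj]; linarith
    have hj1 : j ≤ H := by rw [hj, hHd]; linarith
    obtain ⟨y₀, hy₀⟩ : ∃ y₀ : V, dot u y₀ = k := by
      refine ⟨(k * w.2, -(k * w.1)), ?_⟩
      simp only [dot, det] at *
      linear_combination k * h1
    obtain ⟨s, hs⟩ : ∃ s : ℤ, s = -(H * dot w y₀ - (H - j) * dot w q - j * dot w p) := ⟨_, rfl⟩
    have hs1 : H * y₀.1 = (H - j) * q.1 + j * p.1 + s * u.2 := by
      rw [hs]
      have hz : H * dot u y₀ - (H - j) * dot u q - j * dot u p = 0 := by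
        rw [hy₀, hpu, hqu, hj, hHd]
        ring
      simp only [dot, det] at *
      linear_combination (-(H * y₀.1 - (H - j) * q.1 - j * p.1)) * h1 + w.2 * hz
    have hs2 : H * y₀.2 = (H - j) * q.2 + j * p.2 + s * (-u.1) := by
      rw [hs]
      have hz : H * dot u y₀ - (H - j) * dot u q - j * dot u p = 0 := by
        rw [hy₀, hpu, hqu, hj, hHd]
        ring
      simp only [dot, det] at *
      linear_combination (-(H * y₀.2 - (H - j) * q.2 - j * p.2)) * h1 - w.1 * hz
    have hτ0 : 0 ≤ s % H := Int.emod_nonneg s hH0.ne'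
    have hτ1 : s % H < H := Int.emod_lt_of_pos s hH0
    have hτ : s % H + H * (s / H) = s := Int.emod_add_mul_ediv s H
    obtain ⟨τ, hτd⟩ : ∃ τ : ℤ, τ = s % H := ⟨_, rfl⟩
    obtain ⟨t, ht⟩ : ∃ t : ℤ, t = s / H := ⟨_, rfl⟩
    rw [← hτd] at hτ0 hτ1 hτ
    rw [← ht] at hτ
    refine ⟨pt (y₀.1 - t * u.2, y₀.2 + t * u.1) z, bf_mem.2 ?_, ?_⟩
    · rw [hA]
      intro v hv
      have kp := hpI v hv
      have kpe := hpeI v hv
      have kq := hqI v hv
      have kqe := hqeI v hv
      rw [bf_dot_add] at kpe kqe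
      have hmain : H * dot v (y₀.1 - t * u.2, y₀.2 + t * u.1) = (H - j) * dot v q + j * dot v p
          + τ * dot v (u.2, -u.1) := by
        simp only [dot] at *
        linear_combination v.1 * hs1 + v.2 * hs2 - (v.1 * u.2 - v.2 * u.1) * hτ
      obtain ⟨D, hD⟩ : ∃ D : ℤ, D = dot v (u.2, -u.1) := ⟨_, rfl⟩
      rw [← hD] at hmain kpe kqe
      have hle : H * dot v (y₀.1 - t * u.2, y₀.2 + t * u.1) ≤ H * h v := by
        rw [hmain]
        have hHj : 0 ≤ H - j := by linarith
        rcases le_total 0 D with hD0 | hD0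
        · have a1 : (H - j) * (dot v q + D) ≤ (H - j) * h v := mul_le_mul_of_nonneg_left kqe hHj
          have a2 : j * (dot v p + D) ≤ j * h v := mul_le_mul_of_nonneg_left kpe hj0
          have a3 : τ * D ≤ H * D := mul_le_mul_of_nonneg_right hτ1.le hD0
          nlinarith
        · have a1 : (H - j) * dot v q ≤ (H - j) * h v := mul_le_mul_of_nonneg_left kq hHj
          have a2 : j * dot v p ≤ j * h v := mul_le_mul_of_nonneg_left kp hj0
          have a3 : τ * D ≤ 0 := mul_nonpos_of_nonneg_of_nonpos hτ0 hD0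
          nlinarith
      exact le_of_mul_le_mul_left hle hH0
    · rw [bf_d3, ← hy₀]
      simp only [dot]
      ring

end Pool.Agent.SPK
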