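import Pool.Agent.SPK.Cnv

/-!
# [SPK-BotG] smooth polygons: triangle

`smooth_tri`: `F = {v, w, x}`, `v + w + x = 0`, `det v w = 1`: `Adj F v w`, `s = vert v w (h v) (h w)`, `e = vert v w (-1) 0`, `f = vert v w 0 (-1)`, `k = h v + h w + h x ≥ 1`; `y = s + i e + j f` iff `i = h v - dot v y`, `j = h w - dot w y`; `dot x y = - dot v y - dot w y ≤ h x` iff `i + j ≤ k`. `det e f = 1`.
-/

open Finset Pool.Agent.SPB

set_option autoImplicit false

namespace Pool.Agent.SPK

theorem smooth_tri {F : Finset V} (hF : SmoothFan F) {v w x : V} (hF3 : F = {v, w, x}) (hsum : v + w + x = 0)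
    (hd : det v w = 1) {h : V → ℤ} (ha : Ample F h) {A₀ : Finset V} (hA : IsPts F h A₀) (z : ℤ) :
    Tri (lift A₀ z) := by
  have _ := hF
  have hx1 : x.1 = - v.1 - w.1 := by
    have h1 := congrArg Prod.fst hsum
    simp only [Prod.fst_add, Prod.fst_zero] at h1
    linarith
  have hx2 : x.2 = - v.2 - w.2 := by
    have h1 := congrArg Prod.snd hsum
    simp only [Prod.snd_add, Prod.snd_zero] at h1
    linarith
  have hd' : v.1 * w.2 - v.2 * w.1 = 1 := hd
  have hvx : det v x = -1 := by
    unfold det
    rw [hx1, hx2]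
    linear_combination - hd'
  have hxw : det x w = -1 := by
    unfold det
    rw [hx1, hx2]
    linear_combination - hd'
  have hvF : v ∈ F := by rw [hF3]; simp
  have hwF : w ∈ F := by rw [hF3]; simp
  have hxF : x ∈ F := by rw [hF3]; simp
  have hAdj : Adj F v w := by
    refine ⟨hvF, hwF, hd, fun u hu h1 _ => ?_⟩
    rw [hF3] at hu
    simp only [Finset.mem_insert, Finset.mem_singleton] at hu
    rcases hu with rfl | rfl | rfl
    · exact Or.inl rfl
    · exact Or.inr rfl
    · rw [hvx] at h1
      omega
  have hxv : x ≠ v := by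
    intro e
    rw [e] at hvx
    unfold det at hvx
    have : v.1 * v.2 - v.2 * v.1 = 0 := by ring
    omega
  have hxw' : x ≠ w := by
    intro e
    rw [e] at hxw
    unfold det at hxw
    have : w.1 * w.2 - w.2 * w.1 = 0 := by ring
    omega
  have hdot : ∀ y : V, dot x y = - dot v y - dot w y := by
    intro y
    unfold dot
    rw [hx1, hx2]
    ring
  have hk : 1 ≤ h v + h w + h x := by
    have h1 := ha v w hAdj (vert v w (h v) (h w)) (dot_vert_left hd _ _) (dot_vert_right hd _ _) x hxF hxv hxw'
    rw [hdot, dot_vert_left hd, dot_vert_right hd] at h1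
    omega
  have hmem : ∀ y, y ∈ A₀ ↔ dot v y ≤ h v ∧ dot w y ≤ h w ∧ dot x y ≤ h x := by
    intro y
    rw [hA y, hF3]
    simp only [Finset.mem_insert, Finset.mem_singleton, forall_eq_or_imp, forall_eq]
  refine ⟨pt (vert v w (h v) (h w)) z, pt (vert v w (-1) 0) 0, pt (vert v w 0 (-1)) 0, (h v + h w + h x).toNat,
    lift_tri z ?_ ?_ ?_⟩
  · omega
  · unfold det vert
    simp only
    linear_combination hd'
  · intro y
    rw [hmem y, hdot y]
    constructor
    · rintro ⟨h1, h2, h3⟩
      refine ⟨(h v - dot v y).toNat, (h w - dot w y).toNat, by omega, ?_⟩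
      rw [Int.toNat_of_nonneg (by omega), Int.toNat_of_nonneg (by omega)]
      refine Prod.ext ?_ ?_
      · unfold vert dot
        simp only [Prod.fst_add, Prod.smul_fst, smul_eq_mul]
        linear_combination (- y.1) * hd'
      · unfold vert dot
        simp only [Prod.snd_add, Prod.smul_snd, smul_eq_mul]
        linear_combination (- y.2) * hd'
    · rintro ⟨i, j, hij, rfl⟩
      have e1 : dot v (vert v w (h v) (h w) + (i : ℤ) • vert v w (-1) 0 + (j : ℤ) • vert v w 0 (-1)) = h v - i := by
        unfold dot vert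
        simp only [Prod.fst_add, Prod.snd_add, Prod.smul_fst, Prod.smul_snd, smul_eq_mul]
        linear_combination (h v - (i : ℤ)) * hd'
      have e2 : dot w (vert v w (h v) (h w) + (i : ℤ) • vert v w (-1) 0 + (j : ℤ) • vert v w 0 (-1)) = h w - j := by
        unfold dot vert
        simp only [Prod.fst_add, Prod.snd_add, Prod.smul_fst, Prod.smul_snd, smul_eq_mul]
        linear_combination (h w - (j : ℤ)) * hd'
      rw [e1, e2]
      omega

end Pool.Agent.SPK
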