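import Pool.Agent.SPK.Edg

/-!
# [SPK-BotV] the vertices of the bottom facet

Let `x` be a vertex, `x 2 = 0`, `b` the basis at `x`. `(b i) 2 ≥ 0` as `x + b i ∈ A`. For a point `y` of height `0`, `y - x = ∑ t i • b i`: `t i = 0` if `(b i) 2 > 0`. As the bottom is not collinear, at least two of the `b i` have height `0`. All three: impossible, as they generate `ℤ³`. So exactly two; the third has height `± 1`, so `1` (generation). Reorder with `Vtx.perm`.
`facet_vertex` (the same for an arbitrary facet `(n, c)` and a vertex `x` of `A` in it): reorder such that `d3 n (b 0) = d3 n (b 1) = 0`, `d3 n (b 2) < 0` (not all three `0` because of `Fac.lt` and `cone`).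
-/

open Finset Pool.Agent.SPB

set_option autoImplicit false

namespace Pool.Agent.SPK

private theorem botV_sum3 (n : W) (t : Fin 3 → ℤ) (b : Fin 3 → W) :
    d3 n (∑ i, t i • b i) = t 0 * d3 n (b 0) + t 1 * d3 n (b 1) + t 2 * d3 n (b 2) := by
  rw [Fin.sum_univ_three, d3_add, d3_add, d3_smul, d3_smul, d3_smul]

/-- points on a line are collinear -/
private theorem botV_line {D : Finset W} {x g : W} (h : ∀ y ∈ D, ∃ t : ℤ, y = x + t • g) (hD : NonCol D) : False := by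
  obtain ⟨p, hp, q, hq, r, hr, hs⟩ := hD
  obtain ⟨a, ha⟩ := h p hp
  obtain ⟨a', ha'⟩ := h q hq
  obtain ⟨a'', ha''⟩ := h r hr
  have e1 : q - p = (a' - a) • g := by rw [ha, ha', sub_smul]; abel
  have e2 : r - p = (a'' - a) • g := by rw [ha, ha'', sub_smul]; abel
  have h1 := hs (a'' - a) (-(a' - a)) (by
    rw [e1, e2, smul_smul, smul_smul, ← add_smul]
    have : (a'' - a) * (a' - a) + -(a' - a) * (a'' - a) = 0 := by ring
    rw [this, zero_smul])
  have h2 : a' - a = 0 := by have := h1.2; omega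
  have h3 := hs 1 0 (by rw [e1, h2]; simp)
  exact one_ne_zero h3.1

theorem facet_vertex {A : Finset W} {n : W} {c : ℤ} (hf : Fac A n c) {x : W} {b : Fin 3 → W} (hx : Vtx A x b)
    (hxc : d3 n x = c) : ∃ σ : Equiv.Perm (Fin 3), d3 n (b (σ 0)) = 0 ∧ d3 n (b (σ 1)) = 0 ∧ d3 n (b (σ 2)) < 0 ∧
      ∀ y ∈ A, d3 n y = c → ∃ s t : ℤ, 0 ≤ s ∧ 0 ≤ t ∧ y = x + s • b (σ 0) + t • b (σ 1) := by
  have hle : ∀ i, d3 n (b i) ≤ 0 := by
    intro i
    have h1 := hf.le _ (hx.step i)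
    rw [d3_add, hxc] at h1
    linarith
  obtain ⟨k, hk⟩ : ∃ k, d3 n (b k) < 0 := by
    by_contra hcon
    push Not at hcon
    have h0 : ∀ i, d3 n (b i) = 0 := fun i => le_antisymm (hle i) (hcon i)
    obtain ⟨y, hy, hlt⟩ := hf.lt
    obtain ⟨t, _, ht⟩ := hx.cone y hy
    have : d3 n y = c := by
      rw [← ht, d3_add, hxc, botV_sum3, h0 0, h0 1, h0 2]
      ring
    omega
  -- coefficients of a point of the facet
  have hcf : ∀ y ∈ A, d3 n y = c → ∃ t : Fin 3 → ℤ, (∀ i, 0 ≤ t i) ∧ x + ∑ i, t i • b i = y ∧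
      ∀ i, d3 n (b i) < 0 → t i = 0 := by
    intro y hy hyc
    obtain ⟨t, ht0, ht⟩ := hx.cone y hy
    refine ⟨t, ht0, ht, ?_⟩
    have h1 : t 0 * d3 n (b 0) + t 1 * d3 n (b 1) + t 2 * d3 n (b 2) = 0 := by
      have := congrArg (d3 n) ht
      rw [d3_add, hxc, botV_sum3, hyc] at this
      linarith
    have h2 : ∀ i, t i * d3 n (b i) ≤ 0 := fun i => mul_nonpos_of_nonneg_of_nonpos (ht0 i) (hle i)
    have h3 : ∀ i, t i * d3 n (b i) = 0 := by
      intro i
      have a0 := h2 0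
      have a1 := h2 1
      have a2 := h2 2
      fin_cases i
      · show t 0 * d3 n (b 0) = 0
        linarith
      · show t 1 * d3 n (b 1) = 0
        linarith
      · show t 2 * d3 n (b 2) = 0
        linarith
    intro i hi
    rcases mul_eq_zero.1 (h3 i) with h | h
    · exact h
    · omega
  have hz : ∀ i, i ≠ k → d3 n (b i) = 0 := by
    intro i hik
    by_contra hne
    have hi : d3 n (b i) < 0 := lt_of_le_of_ne (hle i) hne
    obtain ⟨m, hm⟩ : ∃ m : Fin 3, ∀ j, j ≠ m → j = i ∨ j = k := by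
      revert hik
      generalize hii : i = i'
      generalize hkk : k = k'
      clear * -
      revert i' k'
      decide
    refine botV_line (x := x) (g := b m) ?_ hf.nc
    intro y hy
    rw [Face, Finset.mem_filter] at hy
    obtain ⟨t, _, ht, ht0⟩ := hcf y hy.1 hy.2
    refine ⟨t m, ?_⟩
    rw [← ht, Finset.sum_eq_single m]
    · intro j _ hj
      rcases hm j hj with h | h
      · rw [h, ht0 i hi, zero_smul]
      · rw [h, ht0 k hk, zero_smul]
    · intro h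
      exact absurd (Finset.mem_univ m) h
  obtain ⟨σ, hσ⟩ : ∃ σ : Equiv.Perm (Fin 3), σ 2 = k := ⟨Equiv.swap 2 k, Equiv.swap_apply_left 2 k⟩
  have h0k : σ 0 ≠ k := by
    intro h
    have := σ.injective (h.trans hσ.symm)
    exact absurd this (by decide)
  have h1k : σ 1 ≠ k := by
    intro h
    have := σ.injective (h.trans hσ.symm)
    exact absurd this (by decide)
  refine ⟨σ, hz _ h0k, hz _ h1k, hσ ▸ hk, ?_⟩
  intro y hy hyc
  obtain ⟨t, ht0, ht, htz⟩ := hcf y hy hyc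
  refine ⟨t (σ 0), t (σ 1), ht0 _, ht0 _, ?_⟩
  have e1 : ∑ i, t i • b i = ∑ i, t (σ i) • b (σ i) := (Equiv.sum_comp σ (fun i => t i • b i)).symm
  rw [← ht, e1, Fin.sum_univ_three, hσ, htz k hk, zero_smul, add_zero, add_assoc]

private theorem botV_mk (v : W) (z : ℤ) (h : v 2 = z) : pt (v 0, v 1) z = v := by
  funext i
  fin_cases i
  · rfl
  · rfl
  · exact h.symm

theorem bot_vertex {A : Finset W} (hA : Bt A) {x : W} (hx : IsV A x) (hx0 : x 2 = 0) :
    ∃ e e' f : V, det e e' = 1 ∧ Vtx A x ![pt e 0, pt e' 0, pt f 1] := by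
  obtain ⟨b₀, hb₀⟩ := hA.smo x hx
  have hd : ∀ y : W, d3 ![0, 0, -1] y = - y 2 := by
    intro y
    rw [d3, Fin.sum_univ_three]
    simp
  have hface : Face A ![0, 0, -1] 0 = A.filter (fun x => x 2 = 0) := by
    rw [Face]
    apply Finset.filter_congr
    intro y _
    rw [hd]
    omega
  have hf : Fac A ![0, 0, -1] 0 := by
    refine ⟨?_, ?_, ?_⟩
    · intro y hy
      rw [hd]
      have := hA.nn y hy
      omega
    · obtain ⟨y, hy⟩ := hA.hi
      rw [up, Finset.mem_filter] at hy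
      refine ⟨y, hy.1, ?_⟩
      rw [hd]
      omega
    · rw [hface]
      exact hA.nc
  obtain ⟨σ, h0, h1, h2, _⟩ := facet_vertex hf hb₀ (by rw [hd, hx0, neg_zero])
  rw [hd] at h0 h1 h2
  -- reordered basis
  have hb := hb₀.perm σ
  set b : Fin 3 → W := b₀ ∘ σ with hbdef
  have z0 : b 0 2 = 0 := by
    have : b 0 2 = b₀ (σ 0) 2 := rfl
    omega
  have z1 : b 1 2 = 0 := by
    have : b 1 2 = b₀ (σ 1) 2 := rfl
    omega
  have z2 : 0 < b 2 2 := by
    have : b 2 2 = b₀ (σ 2) 2 := rfl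
    omega
  have hco : ∀ (c : Fin 3 → ℤ) (y : W), ∑ i, c i • b i = y → ∀ j, c 0 * b 0 j + c 1 * b 1 j + c 2 * b 2 j = y j := by
    intro c y h j
    rw [← h, Fin.sum_univ_three]
    rfl
  have z3 : b 2 2 = 1 := by
    obtain ⟨c, hc⟩ := hb.gen ![0, 0, 1]
    have h := hco c _ hc 2
    rw [z0, z1, mul_zero, mul_zero, zero_add, zero_add] at h
    have h' : c 2 * b 2 2 = 1 := h
    have hdvd : b 2 2 ∣ 1 := ⟨c 2, by rw [mul_comm]; exact h'.symm⟩
    exact Int.eq_one_of_dvd_one z2.le hdvd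
  -- determinant
  have hdet : det (b 0 0, b 0 1) (b 1 0, b 1 1) = 1 ∨ det (b 0 0, b 0 1) (b 1 0, b 1 1) = -1 := by
    obtain ⟨c, hc⟩ := hb.gen ![1, 0, 0]
    obtain ⟨c', hc'⟩ := hb.gen ![0, 1, 0]
    have p2 : c 0 * b 0 2 + c 1 * b 1 2 + c 2 * b 2 2 = 0 := hco c _ hc 2
    have q2 : c' 0 * b 0 2 + c' 1 * b 1 2 + c' 2 * b 2 2 = 0 := hco c' _ hc' 2
    rw [z0, z1, z3] at p2 q2
    have p2' : c 2 = 0 := by linarith
    have q2' : c' 2 = 0 := by linarith
    have p0 : c 0 * b 0 0 + c 1 * b 1 0 + c 2 * b 2 0 = 1 := hco c _ hc 0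
    have p1 : c 0 * b 0 1 + c 1 * b 1 1 + c 2 * b 2 1 = 0 := hco c _ hc 1
    have q0 : c' 0 * b 0 0 + c' 1 * b 1 0 + c' 2 * b 2 0 = 0 := hco c' _ hc' 0
    have q1 : c' 0 * b 0 1 + c' 1 * b 1 1 + c' 2 * b 2 1 = 1 := hco c' _ hc' 1
    rw [p2', zero_mul, add_zero] at p0 p1
    rw [q2', zero_mul, add_zero] at q0 q1
    apply Int.isUnit_iff.1
    apply IsUnit.of_mul_eq_one (c 0 * c' 1 - c 1 * c' 0)
    have e : det (b 0 0, b 0 1) (b 1 0, b 1 1) * (c 0 * c' 1 - c 1 * c' 0) =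
        (c 0 * b 0 0 + c 1 * b 1 0) * (c' 0 * b 0 1 + c' 1 * b 1 1) -
        (c 0 * b 0 1 + c 1 * b 1 1) * (c' 0 * b 0 0 + c' 1 * b 1 0) := by
      simp only [det]
      ring
    rw [e, p0, p1, q0, q1]
    norm_num
  rcases hdet with hdet | hdet
  · refine ⟨(b 0 0, b 0 1), (b 1 0, b 1 1), (b 2 0, b 2 1), hdet, ?_⟩
    have : ![pt (b 0 0, b 0 1) 0, pt (b 1 0, b 1 1) 0, pt (b 2 0, b 2 1) 1] = b := by
      funext i
      fin_cases i
      · exact botV_mk _ _ z0
      · exact botV_mk _ _ z1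
      · exact botV_mk _ _ z3
    rw [this]
    exact hb
  · refine ⟨(b 1 0, b 1 1), (b 0 0, b 0 1), (b 2 0, b 2 1), ?_, ?_⟩
    · simp only [det] at hdet ⊢
      linarith
    have hp := hb.perm (Equiv.swap 0 1)
    have : ![pt (b 1 0, b 1 1) 0, pt (b 0 0, b 0 1) 0, pt (b 2 0, b 2 1) 1] = b ∘ (Equiv.swap 0 1 : Equiv.Perm (Fin 3)) := by
      funext i
      fin_cases i
      · exact botV_mk _ _ z1
      · exact botV_mk _ _ z0
      · exact botV_mk _ _ z3
    rw [this]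
    exact hp

end Pool.Agent.SPK
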