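import Pool.Agent.SPK.Bot
import Pool.Agent.SPK.BotC

/-!
# [SPK-ChoB] the level above the bottom is a triangle

`B = {s + i e + j f | i, j ≥ 0, i + j ≤ k}`, `det e f = 1`. Edge normals (outer): `a = (-f.2, f.1)` (`dot a e = -det e f .. `: check the signs: choose `a, b, c` with `dot a e = -1, dot a f = 0`; `dot b e = 0, dot b f = -1`; `c = -a-b`, `dot c e = dot c f = 1`), so `a + b + c = 0`; they are in `F` (`BD.edgeB`), pairwise determinants `± 1`. `F` has an opposite pair `± u₀` (`hu₀`), so `F ≠ {a, b, c}` (no opposite pair there); let `j ∈ F \ {a, b, c}`; it lies in the open cone of two of `a, b, c` (these span a complete fan), say of `p, q`, `{p, q, r} = {a, b, c}`, `p` before `q` counterclockwise; let `y ∈ B` be the corner where `p` and `q` are both maximal (the only point of `B` maximizing `p + q`).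
Let `Adj F p v₁`, `Adj F v₁ v₂`. `v₁` and then `v₂` lie in the closed cone `(p, q)` (`j` is in the open cone, so `v₁ ≠ q`, `v₁` in the open cone; `v₂` is in the closed cone since `q ∈ F`). Let `x₀ = vert p v₁ ..`, `x₁ = vert v₁ v₂ ..` the vertices of `A₀` and `f₀, f₁` their upward vectors (`BD.up`). `x₀ + f₀ ∈ B` maximizes `p` and `v₁` over `B`, so it maximizes `p + v₁`, which is in the open cone `(p, q)`, so it is `y`; similarly `x₁ + f₁ = y`. If `v₂ ≠ q` take also `Adj F v₂ v₃`, `x₂`, `f₂`: `x₂ + f₂ = y`. `pt y 1` is a vertex of `A` (`meet`), with basis `b` (`Smo`); by `edge` the three different vectors `-pt f₀ 1, -pt f₁ 1, -pt f₂ 1` are among the `b i`, `three`: `B = {y}`, contradiction to `k ≥ 1`. So `v₂ = q`, `det p v₁ = det v₁ q = det p q = 1`, `v₁ = p + q = -r`. Thus `u := r`, `-r ∈ F`.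
-/

open Finset Pool.Agent.SPB

set_option autoImplicit false

namespace Pool.Agent.SPK

variable {A : Finset W} {F : Finset V} {h : V → ℤ} {A₀ B : Finset V}

private theorem choB_add (n x y : V) : dot n (x + y) = dot n x + dot n y := by
  simp only [dot, Prod.fst_add, Prod.snd_add]; ring

private theorem choB_smul (n x : V) (m : ℤ) : dot n (m • x) = m * dot n x := by
  simp only [dot, Prod.smul_fst, Prod.smul_snd, smul_eq_mul]; ring

/-- the upward vector at a vertex of the bottom leads to a point of `B` which maximizes both normals -/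
private theorem choB_up (hD : BD A F h A₀ B) {v w : V} (hvw : Adj F v w) :
    ∃ (b : Fin 3 → W) (f₁ : V), Vtx A (pt (vert v w (h v) (h w)) 0) b ∧ b 2 = pt f₁ 1 ∧
      vert v w (h v) (h w) + f₁ ∈ B ∧
      ∀ z ∈ B, dot v z ≤ dot v (vert v w (h v) (h w) + f₁) ∧ dot w z ≤ dot w (vert v w (h v) (h w) + f₁) := by
  obtain ⟨e₁, e₂, f₁, -, hV⟩ := hD.up v w hvw
  have hd := hvw.2.2.1
  refine ⟨_, f₁, hV, rfl, ?_, ?_⟩
  · rw [hD.mem1]
    have h2 := hV.step 2
    have e : pt (vert v w (h v) (h w)) 0 + (![pt e₁ 0, pt e₂ 0, pt f₁ 1] : Fin 3 → W) 2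
        = pt (vert v w (h v) (h w) + f₁) 1 := by
      funext i
      fin_cases i <;> simp [pt]
    rwa [e] at h2
  · intro z hz
    have hz' := (hD.mem1 z).1 hz
    obtain ⟨t, ht, hy⟩ := hV.cone _ hz'
    have h0 := hV.step 0
    have h1 := hV.step 1
    have e0 : pt (vert v w (h v) (h w)) 0 + (![pt e₁ 0, pt e₂ 0, pt f₁ 1] : Fin 3 → W) 0
        = pt (vert v w (h v) (h w) + e₁) 0 := by
      funext i
      fin_cases i <;> simp [pt]
    have e1 : pt (vert v w (h v) (h w)) 0 + (![pt e₁ 0, pt e₂ 0, pt f₁ 1] : Fin 3 → W) 1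
        = pt (vert v w (h v) (h w) + e₂) 0 := by
      funext i
      fin_cases i <;> simp [pt]
    rw [e0, ← hD.mem0, hD.pts] at h0
    rw [e1, ← hD.mem0, hD.pts] at h1
    have c2 := congrFun hy 2
    have c0 := congrFun hy 0
    have c1 := congrFun hy 1
    simp only [Fin.sum_univ_three, Pi.add_apply, Pi.smul_apply, smul_eq_mul, Matrix.cons_val_zero,
      Matrix.cons_val_one, Matrix.cons_val_two, Matrix.head_cons, Matrix.tail_cons, pt_zero, pt_one,
      pt_two, mul_zero, mul_one, zero_add] at c0 c1 c2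
    have hz2 : z = vert v w (h v) (h w) + f₁ + (t 0 • e₁ + t 1 • e₂) := by
      refine Prod.ext ?_ ?_
      · simp only [Prod.fst_add, Prod.smul_fst, smul_eq_mul]
        rw [← c0, c2]; ring
      · simp only [Prod.snd_add, Prod.smul_snd, smul_eq_mul]
        rw [← c1, c2]; ring
    have key : ∀ u ∈ F, dot u (vert v w (h v) (h w)) = h u →
        dot u z ≤ dot u (vert v w (h v) (h w) + f₁) := by
      intro u hu hux
      have g0 := h0 u hu
      have g1 := h1 u hu
      rw [choB_add, hux] at g0 g1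
      rw [hz2, choB_add u _ (t 0 • e₁ + t 1 • e₂), choB_add u (t 0 • e₁), choB_smul, choB_smul]
      have p0 := mul_nonneg (ht 0) (show (0 : ℤ) ≤ - dot u e₁ by linarith)
      have p1 := mul_nonneg (ht 1) (show (0 : ℤ) ≤ - dot u e₂ by linarith)
      nlinarith
    exact ⟨key v hvw.1 (dot_vert_left hd _ _), key w hvw.2.1 (dot_vert_right hd _ _)⟩

/-- three vertices of the bottom below the same point of `B` -/
private theorem choB_three (hA : Bt A) {x₀ x₁ x₂ f₀ f₁ f₂ y z : V} {b₀ b₁ b₂ : Fin 3 → W}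
    (h₀ : Vtx A (pt x₀ 0) b₀) (h₁ : Vtx A (pt x₁ 0) b₁) (h₂ : Vtx A (pt x₂ 0) b₂)
    (e₀ : b₀ 2 = pt f₀ 1) (e₁ : b₁ 2 = pt f₁ 1) (e₂ : b₂ 2 = pt f₂ 1)
    (y₀ : x₀ + f₀ = y) (y₁ : x₁ + f₁ = y) (y₂ : x₂ + f₂ = y)
    (n01 : x₀ ≠ x₁) (n02 : x₀ ≠ x₂) (n12 : x₁ ≠ x₂) (hz : pt z 1 ∈ A) : z = y := by
  have key : ∀ {x f : V} {b : Fin 3 → W}, b 2 = pt f 1 → x + f = y → pt y 1 = pt x 0 + b 2 := by
    intro x f b hb hy
    rw [hb, ← hy]
    funext i
    fin_cases i <;> simp [pt]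
  have k₀ := key e₀ y₀
  have k₁ := key e₁ y₁
  have k₂ := key e₂ y₂
  have hV : IsV A (pt y 1) := by
    refine meet h₀ h₁ k₀ k₁ ?_
    intro s t hs hst
    rw [e₀] at hst
    have c2 := congrFun hst 2
    have c0 := congrFun hst 0
    have c1 := congrFun hst 1
    simp only [Pi.smul_apply, Pi.sub_apply, smul_eq_mul, pt_zero, pt_one, pt_two, sub_self, mul_zero,
      mul_one] at c0 c1 c2
    rw [← c2] at c0 c1
    simp only [zero_mul, mul_eq_zero, hs, false_or] at c0 c1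
    exact n01 (Prod.ext (by linarith) (by linarith))
  obtain ⟨b, hb⟩ := hA.smo _ hV
  obtain ⟨i₀, hi₀⟩ := edge h₀ hb k₀
  obtain ⟨i₁, hi₁⟩ := edge h₁ hb k₁
  obtain ⟨i₂, hi₂⟩ := edge h₂ hb k₂
  rw [e₀] at hi₀
  rw [e₁] at hi₁
  rw [e₂] at hi₂
  have ne : ∀ {x x' f f' : V}, x + f = y → x' + f' = y → x ≠ x' → -pt f 1 ≠ -pt f' 1 := by
    intro x x' f f' h1 h2 h3 h4
    have := (pt_inj.1 (neg_injective h4)).1
    apply h3
    rw [this, ← h2] at h1
    exact add_right_cancel h1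
  have neg : ∀ f : V, (-pt f 1 : W) 2 < 0 := by
    intro f
    simp only [Pi.neg_apply, pt_two]
    norm_num
  have h3 := three hb (i₁ := i₀) (i₂ := i₁) (i₃ := i₂)
    (by rw [hi₀, hi₁]; exact ne y₀ y₁ n01) (by rw [hi₀, hi₂]; exact ne y₀ y₂ n02)
    (by rw [hi₁, hi₂]; exact ne y₁ y₂ n12) (by rw [hi₀]; exact neg _) (by rw [hi₁]; exact neg _)
    (by rw [hi₂]; exact neg _) _ hz
  rcases h3 with h3 | h3
  · simp only [pt_two] at h3
    omega
  · exact (pt_inj.1 h3).1

/-- the corner `s` is the only maximum of a functional in the open cone -/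
private theorem choB_max {s e f g z : V} {k : ℕ}
    (hB : ∀ x, x ∈ B ↔ ∃ i j : ℕ, i + j ≤ k ∧ x = s + (i : ℤ) • e + (j : ℤ) • f)
    (h1 : 0 < det g (e.2, -e.1)) (h2 : 0 < det (-f.2, f.1) g) (hz : z ∈ B)
    (hm : ∀ z' ∈ B, dot g z' ≤ dot g z) : z = s := by
  have h1' : dot g e < 0 := by
    simp only [det, dot] at h1 ⊢
    linarith
  have h2' : dot g f < 0 := by
    simp only [det, dot] at h2 ⊢
    linarith
  have hs : s ∈ B := (hB s).2 ⟨0, 0, Nat.zero_le _, by simp⟩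
  obtain ⟨i, j, hij, rfl⟩ := (hB z).1 hz
  have h3 := hm s hs
  rw [choB_add, choB_add, choB_smul, choB_smul] at h3
  have hi : i = 0 := by
    by_contra hi
    have : (1 : ℤ) ≤ i := by omega
    have : (0 : ℤ) ≤ j := by omega
    nlinarith
  have hj : j = 0 := by
    by_contra hj
    have : (1 : ℤ) ≤ j := by omega
    have : (0 : ℤ) ≤ i := by omega
    nlinarith
  subst hi
  subst hj
  simp

private theorem choB_pl {e f g g' : V} (hd : det e f = 1) :
    det g g' = det g (e.2, -e.1) * det (-f.2, f.1) g' - det (-f.2, f.1) g * det g' (e.2, -e.1) := by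
  obtain ⟨e1, e2⟩ := e
  obtain ⟨f1, f2⟩ := f
  obtain ⟨g1, g2⟩ := g
  obtain ⟨k1, k2⟩ := g'
  simp only [det] at hd ⊢
  linear_combination (-(g1 * k2 - g2 * k1)) * hd

private theorem choB_self (g : V) : det g g = 0 := by simp only [det]; ring

private theorem choB_swap (g g' : V) : det g' g = - det g g' := by simp only [det]; ring

private theorem choB_core (hA : Bt A) (hD : BD A F h A₀ B) {s e f : V} {k : ℕ} (hk : 1 ≤ k) (hd : det e f = 1)
    (hB : ∀ x, x ∈ B ↔ ∃ i j : ℕ, i + j ≤ k ∧ x = s + (i : ℤ) • e + (j : ℤ) • f)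
    (ha : ((-f.2, f.1) : V) ∈ F) (hb : ((e.2, -e.1) : V) ∈ F) {j : V} (hj : j ∈ F)
    (hj1 : 0 < det (-f.2, f.1) j) (hj2 : 0 < det j (e.2, -e.1)) :
    ((-f.2 + e.2, f.1 - e.1) : V) ∈ F := by
  obtain ⟨v₁, hv₁⟩ := hD.fan.next _ ha
  have d1 := hv₁.2.2.1
  have x1 : 0 < det v₁ (e.2, -e.1) := by
    by_contra hx
    rcases le_or_gt 0 (det j v₁) with hc | hc
    · rcases hv₁.2.2.2 j hj hj1.le hc with h1 | h1
      · rw [h1, choB_self] at hj1
        exact lt_irrefl _ hj1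
      · rw [h1] at hj2
        exact hx hj2
    · rw [choB_pl hd, d1] at hc
      nlinarith
  obtain ⟨v₂, hv₂⟩ := hD.fan.next _ hv₁.2.1
  have d2 := hv₂.2.2.1
  by_cases hq : v₂ = (e.2, -e.1)
  · have e1 : v₁ = (-f.2 + e.2, f.1 - e.1) := by
      rw [hq] at d2
      obtain ⟨g1, g2⟩ := v₁
      simp only [det] at d1 d2 hd
      refine Prod.ext ?_ ?_
      · simp only
        linear_combination (-g1) * hd - f.2 * d2 + e.2 * d1
      · simp only
        linear_combination (-g2) * hd + f.1 * d2 - e.1 * d1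
    rw [← e1]
    exact hv₁.2.1
  · exfalso
    have x2 : 0 < det v₂ (e.2, -e.1) := by
      rcases le_or_gt 0 (det (e.2, -e.1) v₂) with hc | hc
      · rcases hv₂.2.2.2 _ hb x1.le hc with h1 | h1
        · rw [← h1, choB_self] at x1
          exact absurd x1 (lt_irrefl _)
        · exact absurd h1.symm hq
      · rw [choB_swap] at hc
        linarith
    have y2 : 0 < det (-f.2, f.1) v₂ := by
      rw [choB_pl hd (g := v₁) (g' := v₂), d1] at d2
      by_contra hc
      nlinarith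
    have y1 : 0 < det (-f.2, f.1) v₁ := by rw [d1]; exact one_pos
    obtain ⟨v₃, hv₃⟩ := hD.fan.next _ hv₂.2.1
    have d3 := hv₃.2.2.1
    obtain ⟨b₀, f₀, V₀, e₀, m₀, M₀⟩ := choB_up hD hv₁
    obtain ⟨b₁, f₁, V₁, e₁, m₁, M₁⟩ := choB_up hD hv₂
    obtain ⟨b₂, f₂, V₂, e₂, m₂, M₂⟩ := choB_up hD hv₃
    have s₀ := choB_max hB x1 y1 m₀ (fun z hz => (M₀ z hz).2)
    have s₁ := choB_max hB x1 y1 m₁ (fun z hz => (M₁ z hz).1)
    have s₂ := choB_max hB x2 y2 m₂ (fun z hz => (M₂ z hz).1)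
    have ne1 : ∀ {v w : V}, det v w = 1 → w ≠ v := by
      intro v w hvw hc
      rw [hc, choB_self] at hvw
      exact absurd hvw (by norm_num)
    have ne2 : ∀ {v w u : V}, det v w = 1 → det w u = 1 → u ≠ v := by
      intro v w u hvw hwu hc
      rw [hc, choB_swap v w, hvw] at hwu
      exact absurd hwu (by norm_num)
    have amp1 : ∀ x, dot (-f.2, f.1) x = h (-f.2, f.1) → dot v₁ x = h v₁ → dot v₂ x ≠ h v₂ :=
      fun x h1 h2 => (hD.amp _ _ hv₁ x h1 h2 v₂ hv₂.2.1 (ne2 d1 d2) (ne1 d2)).ne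
    have amp2 : ∀ x, dot v₁ x = h v₁ → dot v₂ x = h v₂ → dot v₃ x ≠ h v₃ :=
      fun x h1 h2 => (hD.amp _ _ hv₂ x h1 h2 v₃ hv₃.2.1 (ne2 d2 d3) (ne1 d3)).ne
    have n01 : vert (-f.2, f.1) v₁ (h (-f.2, f.1)) (h v₁) ≠ vert v₁ v₂ (h v₁) (h v₂) := by
      intro hc
      refine amp1 _ (dot_vert_left d1 _ _) (dot_vert_right d1 _ _) ?_
      rw [hc]
      exact dot_vert_right d2 _ _
    have n02 : vert (-f.2, f.1) v₁ (h (-f.2, f.1)) (h v₁) ≠ vert v₂ v₃ (h v₂) (h v₃) := by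
      intro hc
      refine amp1 _ (dot_vert_left d1 _ _) (dot_vert_right d1 _ _) ?_
      rw [hc]
      exact dot_vert_left d3 _ _
    have n12 : vert v₁ v₂ (h v₁) (h v₂) ≠ vert v₂ v₃ (h v₂) (h v₃) := by
      intro hc
      refine amp2 _ (dot_vert_left d2 _ _) (dot_vert_right d2 _ _) ?_
      rw [hc]
      exact dot_vert_right d3 _ _
    have hz : s + e ∈ B := (hB _).2 ⟨1, 0, by omega, by simp⟩
    have h3 := choB_three hA V₀ V₁ V₂ e₀ e₁ e₂ s₀ s₁ s₂ n01 n02 n12 ((hD.mem1 _).1 hz)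
    have h4 : e = 0 := by simpa using h3
    rw [h4] at hd
    simp [det] at hd

private theorem choB_rot {s e f : V} {k : ℕ}
    (hB : ∀ x, x ∈ B ↔ ∃ i j : ℕ, i + j ≤ k ∧ x = s + (i : ℤ) • e + (j : ℤ) • f) :
    ∀ x, x ∈ B ↔ ∃ i j : ℕ, i + j ≤ k ∧ x = (s + (k : ℤ) • e) + (i : ℤ) • (f - e) + (j : ℤ) • (-e) := by
  intro x
  rw [hB]
  constructor
  · rintro ⟨i, j, hij, rfl⟩
    refine ⟨j, k - i - j, by omega, ?_⟩
    have h1 : ((k - i - j : ℕ) : ℤ) = k - i - j := by omega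
    rw [h1]
    refine Prod.ext ?_ ?_
    · simp only [Prod.fst_add, Prod.smul_fst, smul_eq_mul, Prod.fst_sub, Prod.fst_neg]
      ring
    · simp only [Prod.snd_add, Prod.smul_snd, smul_eq_mul, Prod.snd_sub, Prod.snd_neg]
      ring
  · rintro ⟨i, j, hij, rfl⟩
    refine ⟨k - i - j, i, by omega, ?_⟩
    have h1 : ((k - i - j : ℕ) : ℤ) = k - i - j := by omega
    rw [h1]
    refine Prod.ext ?_ ?_
    · simp only [Prod.fst_add, Prod.smul_fst, smul_eq_mul, Prod.fst_sub, Prod.fst_neg]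
      ring
    · simp only [Prod.snd_add, Prod.smul_snd, smul_eq_mul, Prod.snd_sub, Prod.snd_neg]
      ring

private theorem choB_rot_det {e f : V} (hd : det e f = 1) : det (f - e) (-e) = 1 := by
  simp only [det, Prod.fst_sub, Prod.snd_sub, Prod.fst_neg, Prod.snd_neg] at hd ⊢
  linarith

private theorem choB_mem (hE : EdgeNorm F B) {s e f : V} {k : ℕ} (hk : 1 ≤ k) (hd : det e f = 1)
    (hB : ∀ x, x ∈ B ↔ ∃ i j : ℕ, i + j ≤ k ∧ x = s + (i : ℤ) • e + (j : ℤ) • f) :
    ((-f.2, f.1) : V) ∈ F := by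
  have hs : s ∈ B := (hB s).2 ⟨0, 0, Nat.zero_le _, by simp⟩
  have hs' : s + f ∈ B := (hB _).2 ⟨0, 1, by omega, by simp⟩
  have hf : dot (-f.2, f.1) f = 0 := by simp only [dot]; ring
  have he : dot (-f.2, f.1) e = -1 := by
    simp only [dot, det] at hd ⊢
    linarith
  refine hE s hs (s + f) hs' ?_ _ ?_ ?_ ?_
  · intro hc
    have : f = 0 := by simpa using hc
    rw [this] at hd
    simp [det] at hd
  · refine ⟨-e.1, -e.2, ?_⟩
    simp only [det] at hd ⊢
    linarith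
  · rw [choB_add, hf, add_zero]
  · intro w hw
    obtain ⟨i, j, -, rfl⟩ := (hB w).1 hw
    rw [choB_add, choB_add, choB_smul, choB_smul, hf, he]
    have : (0 : ℤ) ≤ i := by omega
    linarith

theorem tri_opp (hA : Bt A) (hD : BD A F h A₀ B) {s e f : V} {k : ℕ} (hk : 1 ≤ k) (hd : det e f = 1)
    (hB : ∀ x, x ∈ B ↔ ∃ i j : ℕ, i + j ≤ k ∧ x = s + (i : ℤ) • e + (j : ℤ) • f) {u₀ : V} (hu₀ : u₀ ∈ F)
    (hu₀' : -u₀ ∈ F) : ∃ r ∈ F, -r ∈ F ∧ ((dot r e = -1 ∧ dot r f = 0) ∨ (dot r e = 0 ∧ dot r f = -1) ∨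
      (dot r e = 1 ∧ dot r f = 1)) := by
  have hE := BD.edgeB hA hD
  have hB1 := choB_rot hB
  have hd1 := choB_rot_det hd
  have hB2 := choB_rot hB1
  have hd2 := choB_rot_det hd1
  have ha := choB_mem hE hk hd hB
  have hb := choB_mem hE hk hd1 hB1
  have hc := choB_mem hE hk hd2 hB2
  have hb' : ((-(-e).2, (-e).1) : V) = (e.2, -e.1) := by simp
  have hc' : ((-(-(f - e)).2, (-(f - e)).1) : V) = (f.2 - e.2, e.1 - f.1) := by
    simp
  rw [hb'] at hb
  rw [hc'] at hc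
  have ea : dot (-f.2, f.1) e = -1 := by
    simp only [dot, det] at hd ⊢
    linarith
  have fa : dot (-f.2, f.1) f = 0 := by simp only [dot]; ring
  have eb : dot (e.2, -e.1) e = 0 := by simp only [dot]; ring
  have fb : dot (e.2, -e.1) f = -1 := by
    simp only [dot, det] at hd ⊢
    linarith
  have ec : dot (f.2 - e.2, e.1 - f.1) e = 1 := by
    simp only [dot, det] at hd ⊢
    linarith
  have fc : dot (f.2 - e.2, e.1 - f.1) f = 1 := by
    simp only [dot, det] at hd ⊢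
    linarith
  by_cases na : -((-f.2, f.1) : V) ∈ F
  · exact ⟨_, ha, na, Or.inl ⟨ea, fa⟩⟩
  by_cases nb : -((e.2, -e.1) : V) ∈ F
  · exact ⟨_, hb, nb, Or.inr (Or.inl ⟨eb, fb⟩)⟩
  by_cases nc : -((f.2 - e.2, e.1 - f.1) : V) ∈ F
  · exact ⟨_, hc, nc, Or.inr (Or.inr ⟨ec, fc⟩)⟩
  exfalso
  -- `u₀` is none of the three normals and not parallel to them
  have ne : ∀ n : V, n ∈ F → -n ∉ F → det n u₀ ≠ 0 := by
    intro n hn hn' h0
    rcases parallel hD.fan hu₀ hn h0 with h1 | h1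
    · rw [h1] at hn'
      exact hn' hu₀'
    · rw [h1, neg_neg] at hn'
      exact hn' hu₀
  have ne_a := ne _ ha na
  have ne_b := ne _ hb nb
  have ne_c := ne _ hc nc
  have hsum : det (-f.2, f.1) u₀ + det (e.2, -e.1) u₀ + det (f.2 - e.2, e.1 - f.1) u₀ = 0 := by
    simp only [det]
    ring
  have core0 : 0 < det (-f.2, f.1) u₀ → det (e.2, -e.1) u₀ < 0 → False := by
    intro h1 h2
    rw [choB_swap] at h2
    have := choB_core hA hD hk hd hB ha hb hu₀ h1 (by linarith)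
    apply nc
    convert this using 1
    refine Prod.ext ?_ ?_ <;> simp <;> ring
  have core1 : 0 < det (e.2, -e.1) u₀ → det (f.2 - e.2, e.1 - f.1) u₀ < 0 → False := by
    intro h1 h2
    rw [choB_swap] at h2
    have hb2 : ((-(-e).2, (-e).1) : V) ∈ F := by rw [hb']; exact hb
    have hc2 : (((f - e).2, -(f - e).1) : V) ∈ F := by
      convert hc using 1
      refine Prod.ext ?_ ?_ <;> simp
    have h1' : 0 < det (-(-e).2, (-e).1) u₀ := by rw [hb']; exact h1
    have h2' : 0 < det u₀ ((f - e).2, -(f - e).1) := by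
      have : (((f - e).2, -(f - e).1) : V) = (f.2 - e.2, e.1 - f.1) := by
        refine Prod.ext ?_ ?_ <;> simp
      rw [this]
      linarith
    have := choB_core hA hD hk hd1 hB1 hb2 hc2 hu₀ h1' h2'
    apply na
    convert this using 1
    refine Prod.ext ?_ ?_ <;> simp <;> ring
  have core2 : 0 < det (f.2 - e.2, e.1 - f.1) u₀ → det (-f.2, f.1) u₀ < 0 → False := by
    intro h1 h2
    rw [choB_swap] at h2
    have ha2 : (((-e - (f - e)).2, -(-e - (f - e)).1) : V) ∈ F := by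
      convert ha using 1
      refine Prod.ext ?_ ?_ <;> simp <;> ring
    have hc2 : ((-(-(f - e)).2, (-(f - e)).1) : V) ∈ F := by rw [hc']; exact hc
    have h1' : 0 < det (-(-(f - e)).2, (-(f - e)).1) u₀ := by rw [hc']; exact h1
    have h2' : 0 < det u₀ ((-e - (f - e)).2, -(-e - (f - e)).1) := by
      have : (((-e - (f - e)).2, -(-e - (f - e)).1) : V) = (-f.2, f.1) := by
        refine Prod.ext ?_ ?_ <;> simp <;> ring
      rw [this]
      linarith
    have := choB_core hA hD hk hd2 hB2 hc2 ha2 hu₀ h1' h2'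
    apply nb
    convert this using 1
    refine Prod.ext ?_ ?_ <;> simp <;> ring
  rcases lt_or_gt_of_ne ne_a with h1 | h1 <;> rcases lt_or_gt_of_ne ne_b with h2 | h2 <;>
    rcases lt_or_gt_of_ne ne_c with h3 | h3
  · linarith
  · exact core2 h3 h1
  · exact core1 h2 h3
  · exact core2 h3 h1
  · exact core0 h1 h2
  · exact core0 h1 h2
  · exact core1 h2 h3
  · linarith

end Pool.Agent.SPK
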