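import Pool.Agent.SPK.RuF

/-!
# [SPK-ChoC] path property of a triangle

Path property in the direction `(r.2, -r.1)` (parallel to a side of the triangle): `lift_tri`, `TriD.swap`, `TriD.rot`, `auto_pp` (with `hU` from the heights: `amin_lift`, `Uni` of the lifted set from `UniV`), `PPi.neg` for the sign, `PPi_lift`.
-/

open Finset Pool.Agent.SPB

set_option autoImplicit false

namespace Pool.Agent.SPK

variable {B : Finset V}

private theorem choC_uni {C : Finset V} (h : UniV C) (z : ℤ) : Uni (lift C z) := by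
  intro c h0 h1 x hx
  have hinj : Set.InjOn (fun x : V => pt x z) (C : Set V) := fun a _ b _ hab => (pt_inj.1 hab).1
  unfold lift at h0 h1 hx
  rw [Finset.sum_image hinj] at h0
  have e0 := h1 0
  have e1 := h1 1
  rw [Finset.sum_image hinj] at e0 e1
  simp only [pt_zero, pt_one] at e0 e1
  obtain ⟨y, hy, rfl⟩ := Finset.mem_image.1 hx
  exact h (fun y => c (pt y z)) h0 e0 e1 y hy

private theorem choC_dir {e f r : V} (hd : det e f = 1) :
    ((r.2, -r.1) : V) = dot r f • e - dot r e • f := by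
  unfold det at hd
  unfold dot
  refine Prod.ext ?_ ?_
  · simp only [Prod.fst_sub, Prod.smul_fst, smul_eq_mul]
    linear_combination (-r.2) * hd
  · simp only [Prod.snd_sub, Prod.smul_snd, smul_eq_mul]
    linear_combination r.1 * hd

private theorem choC_ptneg (e : V) : pt (-e) 0 = -pt e 0 := by
  funext i
  fin_cases i <;> simp [pt]

private theorem choC_ptsub (e f : V) : pt (e - f) 0 = pt e 0 - pt f 0 := by
  funext i
  fin_cases i <;> simp [pt]

theorem tri_path {s e f : V} {k : ℕ} (hk : 1 ≤ k) (hd : det e f = 1)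
    (hB : ∀ x, x ∈ B ↔ ∃ i j : ℕ, i + j ≤ k ∧ x = s + (i : ℤ) • e + (j : ℤ) • f) {ω : V → ℝ}
    (hU : ∀ a, UniV (arg B ω a)) {r : V} (hr : (dot r e = -1 ∧ dot r f = 0) ∨ (dot r e = 0 ∧ dot r f = -1) ∨
      (dot r e = 1 ∧ dot r f = 1)) : ∃ α β : ℝ, α < β ∧ PPv B ω (r.2, -r.1) α β := by
  have hT : TriD (lift B 0) (pt s 0) (pt e 0) (pt f 0) k := lift_tri 0 hk hd hB
  obtain ⟨w, hw⟩ : ∃ w : W → ℝ, w = fun x => ω (x 0, x 1) := ⟨_, rfl⟩
  have hw' : (fun x : V => w (pt x 0)) = ω := by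
    rw [hw]
    rfl
  have hU' : ∀ L, Uni (amin (lift B 0) w L) := by
    intro L
    rw [amin_lift, hw']
    exact choC_uni (hU _) 0
  rw [choC_dir hd]
  rcases hr with ⟨h1, h2⟩ | ⟨h1, h2⟩ | ⟨h1, h2⟩
  · rw [h1, h2, zero_smul, zero_sub, neg_smul, one_smul, neg_neg]
    obtain ⟨α, β, hab, h⟩ := auto_pp hT hU'
    refine ⟨α, β, hab, ?_⟩
    rw [PPi_lift, hw'] at h
    exact h
  · rw [h1, h2, zero_smul, sub_zero, neg_smul, one_smul]
    obtain ⟨α, β, hab, h⟩ := auto_pp hT.swap hU'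
    refine ⟨-β, -α, by linarith, ?_⟩
    have h3 := h.neg
    rw [← choC_ptneg, PPi_lift, hw'] at h3
    exact h3
  · rw [h1, h2, one_smul, one_smul]
    obtain ⟨α, β, hab, h⟩ := auto_pp hT.rot hU'
    refine ⟨-β, -α, by linarith, ?_⟩
    have h3 := h.neg
    rw [neg_sub, ← choC_ptsub, PPi_lift, hw'] at h3
    exact h3

end Pool.Agent.SPK
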