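import Pool.Agent.SPK.ChoA
import Pool.Agent.SPK.ChoB
import Pool.Agent.SPK.ChoC

/-!
# [SPK-Cho] choice of the direction

`opp` for `F`. If `F` is not the fan of the plane: `± u₀ ∈ F`. If `B` is collinear: `B = row e s c` (`lat_row`). `c = 0`: `u = u₀`, `pt_pp`. `c ≥ 1`: `row_norm`, `row_pp` with `u = (-e.2, e.1)`, `(u.2, -u.1) = e`. Otherwise `NonCol (lift B 1)` and `hOK`: triangle: `tri_of_lift`, `tri_opp`, `tri_path`; ruling: `rul_edge`, `PPi_lift`, `u = (-e.2, e.1)`.
-/

open Finset Pool.Agent.SPB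

set_option autoImplicit false

namespace Pool.Agent.SPK

variable {A : Finset W} {F : Finset V} {h : V → ℤ} {A₀ B : Finset V}

theorem choose_u (hA : Bt A) (hD : BD A F h A₀ B) {w' : W → ℝ} (hw : RU (up A) w')
    (hOK : NonCol (lift B 1) → OK (lift B 1) w') :
    (∃ v w x : V, F = {v, w, x} ∧ v + w + x = 0 ∧ det v w = 1) ∨
      ∃ u ∈ F, -u ∈ F ∧ ∃ α β : ℝ, α < β ∧ PPv B (fun x => w' (pt x 1)) (u.2, -u.1) α β := by
  have hUB : ∀ a, UniV (arg B (fun x => w' (pt x 1)) a) := uniV_level hw hD.mem1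
  have hE : EdgeNorm F B := hD.edgeB hA
  rcases opp hD.fan with ⟨u₀, hu₀, hu₀'⟩ | h3
  · right
    by_cases hN : NonCol (lift B 1)
    · rcases hOK hN with hT | ⟨e₃, hR, α, β, hαβ, hP⟩
      · obtain ⟨s, e, f, k, hk, hdet, hB⟩ := tri_of_lift hT
        obtain ⟨r, hr, hr', hr2⟩ := tri_opp hA hD hk hdet hB hu₀ hu₀'
        exact ⟨r, hr, hr', tri_path hk hdet hB hUB hr2⟩
      · obtain ⟨e, rfl, h1, h2⟩ := rul_edge hE hR
        have e1 : (-((e.2, -e.1) : V)) = (-e.2, e.1) := by
          ext <;> simp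
        rw [e1] at h2
        refine ⟨(-e.2, e.1), h2, ?_, α, β, hαβ, ?_⟩
        · have e2 : (-((-e.2, e.1) : V)) = (e.2, -e.1) := by
            ext <;> simp
          rw [e2]
          exact h1
        · have e3 : (((-e.2, e.1) : V).2, -((-e.2, e.1) : V).1) = e := by
            ext <;> simp
          rw [e3]
          exact PPi_lift.1 hP
    · have hc : ∀ x ∈ B, ∀ y ∈ B, ∀ z ∈ B, det (y - x) (z - x) = 0 := by
        intro x hx y hy z hz
        by_contra hcon
        exact hN (nonCol_lift.2 ⟨x, hx, y, hy, z, hz, hcon⟩)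
      obtain ⟨e, s, c, he, hBe⟩ := lat_row (hD.latB hA) (hD.B_nonempty hA) hc
      rcases Nat.eq_zero_or_pos c with hc0 | hc1
      · have hB1 : B = {s} := by
          rw [hBe, hc0]
          ext x
          simp [row]
        have hp : Prim ((u₀.2, -u₀.1) : V) := by
          obtain ⟨w, hw1⟩ := hD.fan.next u₀ hu₀
          have h1 := hw1.2.2.1
          refine ⟨-w.1, -w.2, ?_⟩
          simp only [det] at h1
          simp only
          linear_combination h1
        obtain ⟨α, β, h1, h2⟩ := pt_pp hp s (fun x => w' (pt x 1))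
        refine ⟨u₀, hu₀, hu₀', α, β, h1, ?_⟩
        rw [hB1]
        exact h2
      · have hE' := hE
        rw [hBe] at hE'
        obtain ⟨h1, h2⟩ := row_norm he hc1 hE'
        have e1 : (-((e.2, -e.1) : V)) = (-e.2, e.1) := by
          ext <;> simp
        rw [e1] at h2
        obtain ⟨α, β, h3, h4⟩ := row_pp he s c (fun x => w' (pt x 1))
        refine ⟨(-e.2, e.1), h2, ?_, α, β, h3, ?_⟩
        · have e2 : (-((-e.2, e.1) : V)) = (e.2, -e.1) := by
            ext <;> simp
          rw [e2]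
          exact h1
        · have e3 : (((-e.2, e.1) : V).2, -((-e.2, e.1) : V).1) = e := by
            ext <;> simp
          rw [e3, hBe]
          exact h4
  · left
    exact h3

end Pool.Agent.SPK
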