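import Pool.Agent.SPK.Pla2
import Pool.Agent.SPK.RuF

/-!
# [SPK-ChoA] rows

`lat_row`: `B` nonempty, lattice-convex, all points collinear. If `B = {y}`: `c = 0`, `e = (1, 0)`. Otherwise `x ≠ y ∈ B`, `y - x = g e` with `e` primitive, `g ≥ 1`; every `z ∈ B` is `x + t e` for an integer `t` (collinear, `e` primitive); `B` is finite: let `s` be the point with the smallest `t` and `c` the difference of largest and smallest; the points between are in `B` (`LatConv`).
`row_pp`: the points of the row are `s + t e`, `det e` is constant, a tie of `x ≠ y` means `dotR a e = (ω y - ω x) / t`; `avoid` gives an interval without ties: `arg` is a point, `uev1` (needs `Prim e`).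
`row_norm`: `c ≥ 1`: both `n = (e.2, -e.1)` and `-n` attain their maximum on the row at `s` and `s + e`: `EdgeNorm F (row e s c)`.
-/

open Finset Pool.Agent.SPB

set_option autoImplicit false

namespace Pool.Agent.SPK

private theorem choA_mem {e s : V} {c : ℕ} {x : V} :
    x ∈ row e s c ↔ ∃ t : ℕ, t ≤ c ∧ x = s + (t : ℤ) • e := by
  unfold row
  rw [mem_image]
  constructor
  · rintro ⟨t, ht, rfl⟩
    exact ⟨t, by rw [mem_range] at ht; omega, rfl⟩
  · rintro ⟨t, ht, rfl⟩
    exact ⟨t, by rw [mem_range]; omega, rfl⟩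

private theorem choA_dotR (a : ℝ × ℝ) (x e : V) (t : ℤ) : dotR a (x + t • e) = dotR a x + t * dotR a e := by
  unfold dotR
  simp only [Prod.fst_add, Prod.snd_add, Prod.smul_fst, Prod.smul_snd, smul_eq_mul]
  push_cast
  ring

private theorem choA_prim {d : V} (hd : d ≠ 0) : ∃ (e : V) (g : ℤ), Prim e ∧ g ≠ 0 ∧ d = g • e := by
  obtain ⟨d1, d2⟩ := d
  have hg0 : (Int.gcd d1 d2 : ℤ) ≠ 0 := by
    intro h
    have h' : Int.gcd d1 d2 = 0 := by exact_mod_cast h
    rw [Int.gcd_eq_zero_iff] at h'
    exact hd (Prod.ext h'.1 h'.2)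
  obtain ⟨a, ha⟩ := Int.gcd_dvd_left d1 d2
  obtain ⟨b, hb⟩ := Int.gcd_dvd_right d1 d2
  refine ⟨(a, b), Int.gcd d1 d2, ?_, hg0, ?_⟩
  · have h1 : (Int.gcd d1 d2 : ℤ) = d1 * Int.gcdA d1 d2 + d2 * Int.gcdB d1 d2 := Int.gcd_eq_gcd_ab d1 d2
    refine ⟨Int.gcdA d1 d2, Int.gcdB d1 d2, ?_⟩
    have h2 : (Int.gcd d1 d2 : ℤ) * (Int.gcdA d1 d2 * a + Int.gcdB d1 d2 * b) = Int.gcd d1 d2 * 1 := by
      rw [mul_one]
      calc (Int.gcd d1 d2 : ℤ) * (Int.gcdA d1 d2 * a + Int.gcdB d1 d2 * b)
          = (Int.gcd d1 d2 * a) * Int.gcdA d1 d2 + (Int.gcd d1 d2 * b) * Int.gcdB d1 d2 := by ring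
        _ = d1 * Int.gcdA d1 d2 + d2 * Int.gcdB d1 d2 := by rw [← ha, ← hb]
        _ = Int.gcd d1 d2 := h1.symm
    exact mul_left_cancel₀ hg0 h2
  · refine Prod.ext ?_ ?_
    · simp only [Prod.smul_fst, smul_eq_mul]
      exact ha
    · simp only [Prod.smul_snd, smul_eq_mul]
      exact hb

theorem lat_row {B : Finset V} (hL : LatConv B) (hne : B.Nonempty)
    (hc : ∀ x ∈ B, ∀ y ∈ B, ∀ z ∈ B, det (y - x) (z - x) = 0) :
    ∃ (e s : V) (c : ℕ), Prim e ∧ B = row e s c := by
  obtain ⟨x, hx⟩ := hne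
  by_cases hall : ∀ y ∈ B, y = x
  · refine ⟨(1, 0), x, 0, ⟨1, 0, by norm_num⟩, ?_⟩
    ext y
    rw [choA_mem]
    constructor
    · intro hy
      exact ⟨0, le_rfl, by rw [hall y hy]; simp⟩
    · rintro ⟨t, ht, rfl⟩
      have : t = 0 := by omega
      subst this
      simpa using hx
  · push Not at hall
    obtain ⟨y, hy, hyx⟩ := hall
    obtain ⟨e, g, he, hg, hd⟩ := choA_prim (sub_ne_zero.2 hyx)
    have he0 := he
    obtain ⟨a, b, hab⟩ := he
    obtain ⟨T, hT⟩ : ∃ T : V → ℤ, T = fun z => a * (z.1 - x.1) + b * (z.2 - x.2) := ⟨_, rfl⟩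
    have key : ∀ z ∈ B, z = x + T z • e := by
      intro z hz
      have h1 := hc x hx y hy z hz
      rw [hd] at h1
      have h2 : e.1 * (z.2 - x.2) - e.2 * (z.1 - x.1) = 0 := by
        unfold det at h1
        simp only [Prod.smul_fst, Prod.smul_snd, smul_eq_mul, Prod.fst_sub, Prod.snd_sub] at h1
        have h3 : g * (e.1 * (z.2 - x.2) - e.2 * (z.1 - x.1)) = 0 := by linear_combination h1
        exact (mul_eq_zero.1 h3).resolve_left hg
      rw [hT]
      refine Prod.ext ?_ ?_
      · simp only [Prod.fst_add, Prod.smul_fst, smul_eq_mul]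
        linear_combination (-(z.1 - x.1)) * hab - b * h2
      · simp only [Prod.snd_add, Prod.smul_snd, smul_eq_mul]
        linear_combination (-(z.2 - x.2)) * hab + a * h2
    obtain ⟨s, hs, hmin⟩ := B.exists_min_image T ⟨x, hx⟩
    obtain ⟨m, hm, hmax⟩ := B.exists_max_image T ⟨x, hx⟩
    have hsm : T s ≤ T m := hmin m hm
    have hrel : ∀ z ∈ B, z = s + (T z - T s) • e := by
      intro z hz
      have h1 := key z hz
      have h2 := key s hs
      calc z = x + T z • e := h1
        _ = (x + T s • e) + (T z - T s) • e := by rw [sub_smul]; abel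
        _ = s + (T z - T s) • e := by rw [← h2]
    refine ⟨e, s, (T m - T s).toNat, he0, ?_⟩
    ext z
    rw [choA_mem]
    constructor
    · intro hz
      have h1 := hmin z hz
      have h2 := hmax z hz
      refine ⟨(T z - T s).toNat, by omega, ?_⟩
      rw [Int.toNat_of_nonneg (by omega)]
      exact hrel z hz
    · rintro ⟨t, ht, rfl⟩
      have hc0 : ((T m - T s).toNat : ℤ) = T m - T s := Int.toNat_of_nonneg (by omega)
      rcases Nat.eq_zero_or_pos t with h0 | h0
      · subst h0
        simpa using hs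
      · apply hL
        have hcpos : (0 : ℝ) < (T m - T s : ℤ) := by
          have : (0 : ℤ) < T m - T s := by omega
          exact_mod_cast this
        have htle : (t : ℝ) ≤ (T m - T s : ℤ) := by
          have : (t : ℤ) ≤ T m - T s := by omega
          exact_mod_cast this
        have hseg := segment_subset_convexHull (𝕜 := ℝ) (Set.mem_image_of_mem toR (mem_coe.2 hs))
          (Set.mem_image_of_mem toR (mem_coe.2 hm))
        apply hseg
        refine ⟨1 - t / (T m - T s : ℤ), t / (T m - T s : ℤ), ?_, by positivity, by ring, ?_⟩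
        · rw [sub_nonneg, div_le_one hcpos]
          exact htle
        · have h1 := hrel m hm
          have h2 : toR m = (((s.1 : ℝ) + ((T m - T s : ℤ) : ℝ) * (e.1 : ℝ),
              (s.2 : ℝ) + ((T m - T s : ℤ) : ℝ) * (e.2 : ℝ)) : ℝ × ℝ) := by
            have h1' := congrArg toR h1
            rw [h1']
            unfold toR
            simp only [Prod.fst_add, Prod.snd_add, Prod.smul_fst, Prod.smul_snd, smul_eq_mul]
            push_cast
            rfl
          have h3 : toR (s + (t : ℤ) • e) = (((s.1 : ℝ) + (t : ℝ) * (e.1 : ℝ),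
              (s.2 : ℝ) + (t : ℝ) * (e.2 : ℝ)) : ℝ × ℝ) := by
            unfold toR
            simp only [Prod.fst_add, Prod.snd_add, Prod.smul_fst, Prod.smul_snd, smul_eq_mul]
            push_cast
            rfl
          have hne : ((T m - T s : ℤ) : ℝ) ≠ 0 := hcpos.ne'
          rw [h2, h3]
          refine Prod.ext ?_ ?_
          · simp only [toR, Prod.fst_add, Prod.smul_fst, smul_eq_mul]
            field_simp
            ring
          · simp only [toR, Prod.snd_add, Prod.smul_snd, smul_eq_mul]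
            field_simp
            ring

private theorem choA_arg {A : Finset V} {ω : V → ℝ} {a : ℝ × ℝ} {x : V} :
    x ∈ arg A ω a ↔ x ∈ A ∧ ∀ y ∈ A, ω x - dotR a x ≤ ω y - dotR a y := by
  unfold arg
  rw [Finset.mem_filter]

theorem row_pp {e : V} (he : Prim e) (s : V) (c : ℕ) (ω : V → ℝ) : ∃ α β : ℝ, α < β ∧ PPv (row e s c) ω e α β := by
  classical
  obtain ⟨S, hS⟩ : ∃ S : Finset ℝ, S = ((range (c + 1)) ×ˢ (range (c + 1))).image
      (fun p : ℕ × ℕ => (ω (s + (p.2 : ℤ) • e) - ω (s + (p.1 : ℤ) • e)) / ((p.2 : ℝ) - p.1)) := ⟨_, rfl⟩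
  obtain ⟨α, β, -, hαβ, -, hav⟩ := avoid S (zero_lt_one (α := ℝ))
  refine ⟨α, β, hαβ, fun a h1 h2 => ?_⟩
  have hne : (row e s c).Nonempty := ⟨s, choA_mem.2 ⟨0, by omega, by simp⟩⟩
  obtain ⟨x, hx, hmin⟩ := (row e s c).exists_min_image (fun x => ω x - dotR a x) hne
  have hxa : x ∈ arg (row e s c) ω a := choA_arg.2 ⟨hx, hmin⟩
  have : arg (row e s c) ω a = {x} := by
    ext y
    rw [Finset.mem_singleton]
    constructor
    · intro hy
      obtain ⟨hyr, hym⟩ := choA_arg.1 hy
      by_contra hyx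
      have hxy := le_antisymm (hmin y hyr) (hym x hx)
      obtain ⟨i, hi, rfl⟩ := choA_mem.1 hx
      obtain ⟨j, hj, rfl⟩ := choA_mem.1 hyr
      have hij : (j : ℝ) - i ≠ 0 := by
        intro h
        apply hyx
        have : j = i := by
          have h' : (j : ℝ) = i := by linarith
          exact_mod_cast h'
        rw [this]
      have hmem : (ω (s + (j : ℤ) • e) - ω (s + (i : ℤ) • e)) / ((j : ℝ) - i) ∈ S := by
        rw [hS, Finset.mem_image]
        exact ⟨(i, j), by simp only [mem_product, mem_range]; omega, rfl⟩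
      have hval : (ω (s + (j : ℤ) • e) - ω (s + (i : ℤ) • e)) / ((j : ℝ) - i) = dotR a e := by
        rw [div_eq_iff hij]
        rw [choA_dotR, choA_dotR] at hxy
        push_cast at hxy
        linear_combination -hxy
      rw [hval] at hmem
      rcases hav _ hmem with h | h <;> linarith
    · rintro rfl
      exact hxa
  rw [this]
  exact uev1 he

theorem pt_pp {e : V} (he : Prim e) (s : V) (ω : V → ℝ) : ∃ α β : ℝ, α < β ∧ PPv {s} ω e α β := by
  refine ⟨0, 1, one_pos, fun a _ _ => ?_⟩
  have : arg {s} ω a = {s} := by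
    ext x
    rw [choA_arg, Finset.mem_singleton]
    constructor
    · exact fun h => h.1
    · rintro rfl
      refine ⟨rfl, fun y hy => ?_⟩
      rw [Finset.mem_singleton.1 hy]
  rw [this]
  exact uev1 he

theorem row_norm {F : Finset V} {e : V} (he : Prim e) {s : V} {c : ℕ} (hc : 1 ≤ c) (hE : EdgeNorm F (row e s c)) :
    ((e.2, -e.1) : V) ∈ F ∧ -((e.2, -e.1) : V) ∈ F := by
  obtain ⟨a, b, hab⟩ := he
  have hs : s ∈ row e s c := choA_mem.2 ⟨0, by omega, by simp⟩
  have hse : s + e ∈ row e s c := choA_mem.2 ⟨1, hc, by simp⟩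
  have hne : s ≠ s + e := by
    intro h
    have h0 : e = 0 := by
      have := congrArg (fun v => v - s) h
      simpa using this.symm
    rw [h0] at hab
    simp at hab
  constructor
  · refine hE s hs (s + e) hse hne (e.2, -e.1) ⟨b, -a, by linear_combination hab⟩ ?_ ?_
    · simp only [dot, Prod.fst_add, Prod.snd_add]
      ring
    · intro w hw
      obtain ⟨t, -, rfl⟩ := choA_mem.1 hw
      apply le_of_eq
      simp only [dot, Prod.fst_add, Prod.snd_add, Prod.smul_fst, Prod.smul_snd, smul_eq_mul]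
      ring
  · refine hE s hs (s + e) hse hne (-(e.2, -e.1)) ⟨-b, a, ?_⟩ ?_ ?_
    · simp only [Prod.fst_neg, Prod.snd_neg]
      linear_combination hab
    · simp only [dot, Prod.fst_add, Prod.snd_add, Prod.fst_neg, Prod.snd_neg]
      ring
    · intro w hw
      obtain ⟨t, -, rfl⟩ := choA_mem.1 hw
      apply le_of_eq
      simp only [dot, Prod.fst_add, Prod.snd_add, Prod.smul_fst, Prod.smul_snd, smul_eq_mul, Prod.fst_neg,
        Prod.snd_neg]
      ring

end Pool.Agent.SPK
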