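import Pool.Agent.SPB.Smo
import Pool.Agent.SPB.Base
import Pool.Agent.SPB.Fan
import Pool.Agent.SPB.Opp
import Pool.Agent.SPB.Grow
import Pool.Agent.SPB.Order
import Pool.Agent.SPB.Place
import Pool.Agent.SPB.Cover
import Pool.Agent.SPB.Tri

/-!
# SPK: peeling smooth 3-dimensional polytopes (MP_5fef9b_co, helper89)

Goal (Peel.lean): let `P ⊆ ℝ³` be a smooth polytope which can be reduced to a smooth polytope of lattice width at most
one by repeatedly cutting off the layer of lattice width one next to a facet, all intermediate polytopes being smooth.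
Then `P` has a regular unimodular triangulation. (Every smooth 3-polytope with at most 7 facets that was tested by
computer is of this type.)

Overview. `A` is the finite set of the lattice points of `P`. Induction over the number of steps, with the invariant
`GP A w`: the heights `w` define a regular unimodular triangulation, and for every facet `D` (`OK D w`): either `D` is
a multiple of a unimodular triangle (`Tri`) or `D` has two parallel edges in a direction `e` (`Rul D e`) and `w`
has the path property `PP D w e`: for the functionals `L` with `L(e)` in an open interval, the minimal set of `w - L` on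
`D` is a point or an edge which crosses exactly one lattice row of direction `e`.
Step (Sl.lean): coordinates such that the facet is `A ∩ {z = 0}` and `P' = P ∩ {z ≥ 1}`. By smoothness the
level `B = A ∩ {z = 1}` has edge normals among those of `A₀ = A ∩ {z = 0}`. The path property of `B` gives good heights
for (longest row `S` of `A₀` in direction `e`, `B`) (Row.lean), and `S` grows to `A₀` (SPB/Grow, SPB/Place), keeping a
path property (GroP.lean). The heights `w'` on `P'` and `N + ω₀` on `A₀`, `N` large, define a regular unimodular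
triangulation (El.lean), and the facets keep the property `OK` (Fs .. Bet5).
-/

open Finset Pool.Agent.SPB

set_option autoImplicit false

namespace Pool.Agent.SPK

/-- lattice points and integer functionals in dimension three -/
abbrev W := Fin 3 → ℤ

/-- integer functional -/
def d3 (n x : W) : ℤ := ∑ i, n i * x i

/-- real functional -/
def lin (L : Fin 3 → ℝ) (x : W) : ℝ := ∑ i, L i * (x i : ℝ)

/-- the point with planar part `x` and height `z` -/
def pt (x : V) (z : ℤ) : W := ![x.1, x.2, z]

/-- minimal set of `w - L` on `D` -/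
noncomputable def amin (D : Finset W) (w : W → ℝ) (L : Fin 3 → ℝ) : Finset W :=
  open Classical in D.filter (fun x => ∀ y ∈ D, w x - lin L x ≤ w y - lin L y)

/-- the points of `C` together with the direction `e` are unimodular -/
def UniE (C : Finset W) (e : W) : Prop :=
  ∀ (c : W → ℝ) (r : ℝ), IsInt (∑ x ∈ C, c x) → (∀ i, IsInt (∑ x ∈ C, c x * (x i : ℝ) + r * (e i : ℝ))) →
    (∀ x ∈ C, IsInt (c x)) ∧ IsInt r

/-- path property on an interval -/
def PPi (D : Finset W) (w : W → ℝ) (e : W) (α β : ℝ) : Prop :=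
  ∀ L : Fin 3 → ℝ, α < lin L e → lin L e < β → UniE (amin D w L) e

/-- path property -/
def PP (D : Finset W) (w : W → ℝ) (e : W) : Prop := ∃ α β : ℝ, α < β ∧ PPi D w e α β

/-- the points are not collinear -/
def NonCol (D : Finset W) : Prop :=
  ∃ x ∈ D, ∃ y ∈ D, ∃ z ∈ D, ∀ s t : ℤ, s • (y - x) + t • (z - x) = 0 → s = 0 ∧ t = 0

/-- `D` is the set of the points `s + i e + j f`, `i, j ≥ 0`, `i + j ≤ k`, where `e, f` are part of a basis of `ℤ³` -/
structure TriD (D : Finset W) (s e f : W) (k : ℕ) : Prop where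
  k1 : 1 ≤ k
  dual : ∃ u v : W, d3 u e = 1 ∧ d3 u f = 0 ∧ d3 v e = 0 ∧ d3 v f = 1
  mem : ∀ x, x ∈ D ↔ ∃ i j : ℕ, i + j ≤ k ∧ x = s + (i : ℤ) • e + (j : ℤ) • f

/-- multiple of a unimodular triangle -/
def Tri (D : Finset W) : Prop := ∃ (s e f : W) (k : ℕ), TriD D s e f k

/-- two parallel edges in the primitive direction `e`, and no empty row between them -/
def Rul (D : Finset W) (e : W) : Prop :=
  ∃ u v p q : W, d3 v e = 1 ∧ d3 u e = 0 ∧ p ∈ D ∧ p + e ∈ D ∧ q ∈ D ∧ q + e ∈ D ∧ d3 u q < d3 u p ∧
    (∀ x ∈ D, d3 u q ≤ d3 u x ∧ d3 u x ≤ d3 u p) ∧ ∀ k, d3 u q ≤ k → k ≤ d3 u p → ∃ x ∈ D, d3 u x = k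

/-- the invariant of a facet -/
def OK (D : Finset W) (w : W → ℝ) : Prop := Tri D ∨ ∃ e, Rul D e ∧ PP D w e

/-- the points of `A` where `n` has the value `h` -/
def Face (A : Finset W) (n : W) (h : ℤ) : Finset W := A.filter (fun x => d3 n x = h)

/-- `Face A n h` is a facet -/
structure Fac (A : Finset W) (n : W) (h : ℤ) : Prop where
  le : ∀ x ∈ A, d3 n x ≤ h
  lt : ∃ x ∈ A, d3 n x < h
  nc : NonCol (Face A n h)

/-- the invariant of the induction -/
structure GP (A : Finset W) (w : W → ℝ) : Prop where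
  ru : RU A w
  ok : ∀ n h, Fac A n h → OK (Face A n h) w

/-- `x` is a vertex: the unique maximum of an integer functional -/
def IsV (A : Finset W) (x : W) : Prop := x ∈ A ∧ ∃ n : W, ∀ y ∈ A, y ≠ x → d3 n y < d3 n x

/-- `b` is a basis of the lattice which spans the cone of `A` at `x` -/
structure Vtx (A : Finset W) (x : W) (b : Fin 3 → W) : Prop where
  mem : x ∈ A
  gen : ∀ y : W, ∃ c : Fin 3 → ℤ, ∑ i, c i • b i = y
  step : ∀ i, x + b i ∈ A
  cone : ∀ y ∈ A, ∃ t : Fin 3 → ℤ, (∀ i, 0 ≤ t i) ∧ x + ∑ i, t i • b i = y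

/-- smoothness for the set of lattice points -/
def Smo (A : Finset W) : Prop := ∀ x, IsV A x → ∃ b, Vtx A x b

/-- `A` is the set of all lattice points of its convex hull -/
def LatA (A : Finset W) : Prop := ∀ x : W, emb x ∈ hull A → x ∈ A

/-- the points of height at least one -/
def up (A : Finset W) : Finset W := A.filter (fun x => 1 ≤ x 2)

/-- heights `N + ω` at the bottom and `w'` above -/
noncomputable def glue (N : ℝ) (ω : V → ℝ) (w' : W → ℝ) : W → ℝ :=
  fun x => if x 2 = 0 then N + ω (x 0, x 1) else w' x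

/-- the planar set `B` at height `z` -/
def lift (B : Finset V) (z : ℤ) : Finset W := B.image (fun x => pt x z)

/-- standard position of the step: `A ⊆ {z ≥ 0}` and `A ∩ {z = 0}` is a facet -/
structure Bt (A : Finset W) : Prop where
  smo : Smo A
  lat : LatA A
  nn : ∀ x ∈ A, 0 ≤ x 2
  nc : NonCol (A.filter (fun x => x 2 = 0))
  hi : (up A).Nonempty

/-! ### planar versions -/

/-- planar unimodularity -/
def UniV (C : Finset V) : Prop :=
  ∀ c : V → ℝ, IsInt (∑ x ∈ C, c x) → IsInt (∑ x ∈ C, c x * (x.1 : ℝ)) → IsInt (∑ x ∈ C, c x * (x.2 : ℝ)) →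
    ∀ x ∈ C, IsInt (c x)

/-- planar unimodularity with a direction -/
def UniEv (C : Finset V) (e : V) : Prop :=
  ∀ (c : V → ℝ) (r : ℝ), IsInt (∑ x ∈ C, c x) → IsInt (∑ x ∈ C, c x * (x.1 : ℝ) + r * (e.1 : ℝ)) →
    IsInt (∑ x ∈ C, c x * (x.2 : ℝ) + r * (e.2 : ℝ)) → (∀ x ∈ C, IsInt (c x)) ∧ IsInt r

/-- planar path property on an interval -/
def PPv (A : Finset V) (ω : V → ℝ) (e : V) (α β : ℝ) : Prop :=
  ∀ a : ℝ × ℝ, α < dotR a e → dotR a e < β → UniEv (arg A ω a) e

/-- good heights for a pair -/
def Good2 (A B : Finset V) (ω ω' : V → ℝ) : Prop := Good ![A, B] ![ω, ω']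

/-- planar vertex -/
def IsV2 (A : Finset V) (x : V) : Prop := x ∈ A ∧ ∃ n : V, ∀ y ∈ A, y ≠ x → dot n y < dot n x

/-- data at the bottom: `A₀` is the bottom facet, smooth with normal fan `F`; `B` the level `z = 1`; at every vertex of
`A₀` there are two edges of height `0` and one of height `1` -/
structure BD (A : Finset W) (F : Finset V) (h : V → ℤ) (A₀ B : Finset V) : Prop where
  fan : SmoothFan F
  amp : Ample F h
  pts : IsPts F h A₀
  mem0 : ∀ x, x ∈ A₀ ↔ pt x 0 ∈ A
  mem1 : ∀ x, x ∈ B ↔ pt x 1 ∈ A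
  up : ∀ v w, Adj F v w → ∃ e e' f : V, det e e' = 1 ∧
    Vtx A (pt (vert v w (h v) (h w)) 0) ![pt e 0, pt e' 0, pt f 1]

end Pool.Agent.SPK
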