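import Pool.Agent.SPK.Ver

/-!
# [SPK-Edg] edges of smooth polytopes

`edge`: `c` basis at `x`, `b` basis at `y = x + c k`. `x - y = - c k = ∑ t i • b i`, `t ≥ 0`. For every `i`: `y + b i ∈ A`, so `c k + b i = ∑ s j • c j` with `s ≥ 0`, that is `b i = (s k - 1) c k + ∑_{j ≠ k} s j • c j`. Apply the dual functionals of `c` to `- c k = ∑ t i • b i`: for `j ≠ k`: `∑ i, t i * s i j = 0`, so if `t i > 0` then `b i = m i • c k` with `m i = s i k - 1 ≥ -1`; coefficient of `c k`: `∑ t i m i = -1`, so some `i` with `t i > 0` has `m i < 0`, `m i = -1`: `b i = - c k`.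
`meet`: two vertices `x ≠ x'` with cones `b`, `b'` and `x + b k = x' + b' k' =: y`, `b k` and `b' k'` not parallel (`x' - x` is not a multiple of `b k`): then `y` is a vertex. Let `d, d'` be dual bases, `n = - (sum of d i, i ≠ k)`, `n' = - (sum of d' i, i ≠ k')`: `n ≤ d3 n x` on `A` with equality only on the ray `x + ℕ b k`; similarly `n'`; the two rays meet only in `y`: if `x + s b k = x' + t b' k'` then subtract from `y = x + b k = x' + b' k'`: `(s - 1) b k = (t - 1) b' k'`; if `s ≠ 1` then `(t - 1) ≠ 0` and `(t - 1)(x' - x) = (t - 1)(b k - b' k') = (t - 1) b k - (s - 1) b k` is a multiple of `b k`, excluded by `hpar`. So `n + n'` is maximal exactly at `y`.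
`three`: `b` is a basis at `y`, containing three different vectors of negative last coordinate, so all `b i` have negative last coordinate and `A ⊆ {z ≤ y 2}`, `y` the only point with this height.
-/

open Finset Pool.Agent.SPB

set_option autoImplicit false

namespace Pool.Agent.SPK

private theorem edg_term_zero {t s : Fin 3 → ℤ} (ht : ∀ i, 0 ≤ t i) (hs : ∀ i, 0 ≤ s i)
    (h : ∑ i, t i * s i = 0) (i : Fin 3) : t i * s i = 0 :=
  (Finset.sum_eq_zero_iff_of_nonneg (fun j _ => mul_nonneg (ht j) (hs j))).1 h i (Finset.mem_univ i)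

private theorem edg_d3_sum (n : W) (t : Fin 3 → ℤ) (b : Fin 3 → W) :
    d3 n (∑ i, t i • b i) = ∑ i, t i * d3 n (b i) := by
  simp only [Fin.sum_univ_three, d3_add, d3_smul]

private theorem edg_zero (n : W) : d3 n 0 = 0 := by
  simp [d3]

theorem edge {A : Finset W} {x y : W} {b c : Fin 3 → W} (hx : Vtx A x c) (hy : Vtx A y b) {k : Fin 3}
    (h : y = x + c k) : ∃ i, b i = - c k := by
  obtain ⟨d, hd⟩ := gen_dual hx.gen
  obtain ⟨t, ht, htx⟩ := hy.cone x hx.mem
  have hs : ∀ i, ∃ s : Fin 3 → ℤ, (∀ j, 0 ≤ s j) ∧ x + ∑ j, s j • c j = y + b i :=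
    fun i => hx.cone (y + b i) (hy.step i)
  choose s hs0 hs1 using hs
  have hb : ∀ i, b i = ∑ j, s i j • c j - c k := by
    intro i
    have h1 := hs1 i
    rw [h, add_assoc] at h1
    have h2 := add_left_cancel h1
    rw [h2]
    abel
  have hdb : ∀ i j, d3 (d j) (b i) = s i j - (if j = k then 1 else 0) := by
    intro i j
    rw [hb i, d3_sub, edg_d3_sum, hd j k]
    congr 1
    rw [Finset.sum_eq_single j]
    · rw [hd j j, if_pos rfl, mul_one]
    · intro l _ hl
      rw [hd j l, if_neg (Ne.symm hl), mul_zero]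
    · intro hj
      exact absurd (Finset.mem_univ j) hj
  have hsum : ∑ i, t i • b i = - c k := by
    have h1 : x + c k + ∑ i, t i • b i = x := by
      rw [← h]; exact htx
    have h2 : c k + ∑ i, t i • b i = 0 := by
      rw [add_assoc] at h1
      exact add_left_cancel (h1.trans (add_zero x).symm)
    exact (neg_eq_of_add_eq_zero_right h2).symm
  have hj : ∀ j, ∑ i, t i * (s i j - (if j = k then 1 else 0)) = - (if j = k then 1 else 0) := by
    intro j
    have h1 := congrArg (d3 (d j)) hsum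
    rw [edg_d3_sum, d3_neg, hd j k] at h1
    rw [← h1]
    exact Finset.sum_congr rfl fun i _ => by rw [hdb i j]
  have hne : ∀ j, j ≠ k → ∀ i, t i * s i j = 0 := by
    intro j hjk i
    have h1 := hj j
    rw [if_neg hjk] at h1
    simp only [sub_zero, neg_zero] at h1
    exact edg_term_zero ht (fun i => hs0 i j) h1 i
  have hk := hj k
  rw [if_pos rfl] at hk
  have hex : ∃ i, 0 < t i ∧ s i k = 0 := by
    by_contra hcon
    push Not at hcon
    have h1 : ∀ i, 0 ≤ t i * (s i k - 1) := by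
      intro i
      rcases (ht i).lt_or_eq with h2 | h2
      · have h3 := hcon i h2
        have h4 := hs0 i k
        have h5 : 1 ≤ s i k := by omega
        exact mul_nonneg (ht i) (by omega)
      · rw [← h2, zero_mul]
    have h2 : 0 ≤ ∑ i, t i * (s i k - 1) := Finset.sum_nonneg fun i _ => h1 i
    omega
  obtain ⟨i, hi, hik⟩ := hex
  refine ⟨i, ?_⟩
  rw [hb i]
  have hz : ∀ j, s i j = 0 := by
    intro j
    by_cases hjk : j = k
    · rw [hjk]; exact hik
    · rcases mul_eq_zero.1 (hne j hjk i) with h1 | h1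
      · omega
      · exact h1
  have h0 : ∑ j, s i j • c j = 0 := Finset.sum_eq_zero fun j _ => by rw [hz j, zero_smul]
  rw [h0, zero_sub]

/-- the functional which is maximal on `A` exactly on the ray from `x` in the direction `b k` -/
private theorem edg_ray {A : Finset W} {x : W} {b : Fin 3 → W} (hx : Vtx A x b) (k : Fin 3) :
    ∃ n : W, d3 n (b k) = 0 ∧ ∀ z ∈ A, d3 n z ≤ d3 n x ∧ (d3 n z = d3 n x → ∃ s : ℤ, z = x + s • b k) := by
  obtain ⟨d, hd⟩ := gen_dual hx.gen
  -- minus the sum of the dual functionals different from `k`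
  refine ⟨d k - ∑ i, d i, ?_, ?_⟩
  · have h1 : ∀ z, d3 (d k - ∑ i, d i) z = d3 (d k) z - ∑ i, d3 (d i) z := by
      intro z
      simp only [d3, Fin.sum_univ_three, Pi.sub_apply, Pi.add_apply]
      ring
    rw [h1, hd k k, if_pos rfl]
    rw [Finset.sum_eq_single k]
    · rw [hd k k, if_pos rfl]; ring
    · intro l _ hl
      rw [hd l k, if_neg hl]
    · intro hj
      exact absurd (Finset.mem_univ k) hj
  · intro z hz
    have h1 : ∀ z, d3 (d k - ∑ i, d i) z = d3 (d k) z - ∑ i, d3 (d i) z := by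
      intro z
      simp only [d3, Fin.sum_univ_three, Pi.sub_apply, Pi.add_apply]
      ring
    obtain ⟨t, ht, htz⟩ := hx.cone z hz
    have h2 : ∀ i, d3 (d i) z = d3 (d i) x + t i := by
      intro i
      rw [← htz, d3_add, edg_d3_sum]
      congr 1
      rw [Finset.sum_eq_single i]
      · rw [hd i i, if_pos rfl, mul_one]
      · intro l _ hl
        rw [hd i l, if_neg (Ne.symm hl), mul_zero]
      · intro hj
        exact absurd (Finset.mem_univ i) hj
    have h3 : d3 (d k - ∑ i, d i) z = d3 (d k - ∑ i, d i) x + (t k - ∑ i, t i) := by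
      rw [h1, h1, h2 k]
      have : ∑ i, d3 (d i) z = ∑ i, d3 (d i) x + ∑ i, t i := by
        rw [← Finset.sum_add_distrib]
        exact Finset.sum_congr rfl fun i _ => h2 i
      rw [this]; ring
    have h4 : ∑ i, t i = t k + ∑ i ∈ Finset.univ.erase k, t i :=
      (Finset.add_sum_erase Finset.univ t (Finset.mem_univ k)).symm
    have h5 : 0 ≤ ∑ i ∈ Finset.univ.erase k, t i := Finset.sum_nonneg fun i _ => ht i
    refine ⟨by omega, fun heq => ?_⟩
    have h6 : ∑ i ∈ Finset.univ.erase k, t i = 0 := by omega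
    have h7 := (Finset.sum_eq_zero_iff_of_nonneg (fun i _ => ht i)).1 h6
    refine ⟨t k, ?_⟩
    rw [← htz]
    congr 1
    rw [Finset.sum_eq_single k]
    · intro l _ hl
      rw [h7 l (Finset.mem_erase.2 ⟨hl, Finset.mem_univ l⟩), zero_smul]
    · intro hj
      exact absurd (Finset.mem_univ k) hj

theorem meet {A : Finset W} {x x' y : W} {b b' : Fin 3 → W} (hx : Vtx A x b) (hx' : Vtx A x' b') {k k' : Fin 3}
    (h : y = x + b k) (h' : y = x' + b' k') (hpar : ∀ s t : ℤ, s ≠ 0 → s • (x' - x) ≠ t • b k) : IsV A y := by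
  obtain ⟨n, hn0, hn⟩ := edg_ray hx k
  obtain ⟨n', hn0', hn'⟩ := edg_ray hx' k'
  have hadd : ∀ z, d3 (n + n') z = d3 n z + d3 n' z := by
    intro z
    simp only [d3, Fin.sum_univ_three, Pi.add_apply]
    ring
  have hyn : d3 n y = d3 n x := by rw [h, d3_add, hn0, add_zero]
  have hyn' : d3 n' y = d3 n' x' := by rw [h', d3_add, hn0', add_zero]
  refine ⟨?_, n + n', ?_⟩
  · rw [h]; exact hx.step k
  · intro z hz hzy
    rw [hadd, hadd, hyn, hyn']
    obtain ⟨h1, h2⟩ := hn z hz
    obtain ⟨h3, h4⟩ := hn' z hz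
    by_contra hlt
    obtain ⟨s, hs⟩ := h2 (by omega)
    obtain ⟨t, ht⟩ := h4 (by omega)
    have e1 : (s - 1) • b k = z - y := by
      rw [hs, h, sub_smul, one_smul]; abel
    have e2 : (t - 1) • b' k' = z - y := by
      rw [ht, h', sub_smul, one_smul]; abel
    have hs1 : s ≠ 1 := by
      intro hs1
      rw [hs1, sub_self, zero_smul] at e1
      exact hzy (sub_eq_zero.1 e1.symm)
    obtain ⟨d, hd⟩ := gen_dual hx.gen
    have ht1 : t - 1 ≠ 0 := by
      intro ht1
      rw [ht1, zero_smul] at e2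
      rw [← e2] at e1
      have h5 := congrArg (d3 (d k)) e1
      rw [d3_smul, hd k k, if_pos rfl, edg_zero] at h5
      omega
    refine hpar (t - 1) (t - s) ht1 ?_
    have e3 : x' - x = b k - b' k' := by
      have : x' + b' k' = x + b k := by rw [← h, ← h']
      have h6 : x' = x + b k - b' k' := eq_sub_of_add_eq this
      rw [h6]; abel
    rw [e3, smul_sub, e2, ← e1, ← sub_smul]
    congr 1
    ring

theorem three {A : Finset W} {y : W} {b : Fin 3 → W} (hy : Vtx A y b) {i₁ i₂ i₃ : Fin 3} (h12 : b i₁ ≠ b i₂)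
    (h13 : b i₁ ≠ b i₃) (h23 : b i₂ ≠ b i₃) (h1 : b i₁ 2 < 0) (h2 : b i₂ 2 < 0) (h3 : b i₃ 2 < 0) :
    ∀ x ∈ A, x 2 < y 2 ∨ x = y := by
  have hall : ∀ i, b i 2 < 0 := by
    intro i
    have n12 : i₁ ≠ i₂ := fun h => h12 (by rw [h])
    have n13 : i₁ ≠ i₃ := fun h => h13 (by rw [h])
    have n23 : i₂ ≠ i₃ := fun h => h23 (by rw [h])
    have key : ∀ a b c j : Fin 3, a ≠ b → a ≠ c → b ≠ c → j = a ∨ j = b ∨ j = c := by decide
    have : i = i₁ ∨ i = i₂ ∨ i = i₃ := key i₁ i₂ i₃ i n12 n13 n23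
    rcases this with h | h | h <;> rw [h] <;> assumption
  intro x hx
  obtain ⟨t, ht, htx⟩ := hy.cone x hx
  have e : x 2 = y 2 + ∑ i, t i * b i 2 := by
    rw [← htx]
    simp only [Fin.sum_univ_three, Pi.add_apply, Pi.smul_apply, smul_eq_mul]
  by_cases hz : ∀ i, t i = 0
  · right
    rw [← htx]
    have : ∑ i, t i • b i = 0 := Finset.sum_eq_zero fun i _ => by rw [hz i, zero_smul]
    rw [this, add_zero]
  · left
    push Not at hz
    obtain ⟨i, hi⟩ := hz
    have h4 : ∑ i, t i * b i 2 < 0 := by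
      refine Finset.sum_neg' (fun j _ => mul_nonpos_of_nonneg_of_nonpos (ht j) (hall j).le) ⟨i, Finset.mem_univ i, ?_⟩
      exact mul_neg_of_pos_of_neg (lt_of_le_of_ne (ht i) (Ne.symm hi)) (hall i)
    omega

end Pool.Agent.SPK
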