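import Pool.Agent.SPK.Gam
import Pool.Agent.SPK.Bet2
import Pool.Agent.SPK.Bet6
import Pool.Agent.SPK.Bet5

/-!
# [SPK-Facets] the invariant of the facets

`facet_ok`: `D = Face A n c`. No point of height `0`: `D = up D`, `NonCol D`, `glue` is `w'` on `D` (`PPi.congr`). All points have height `0`: `n 0 = n 1 = 0` (noncollinear points of the plane `z = 0` with the same value of `d3 n`), `n 2 < 0` and `D` is the bottom (`hbot`). Otherwise `exists_FS`. `ℓ + κ = 0`: `gam_unit`. `ℓ + κ ≥ 1`, `up D` collinear: `gam_row`. `up D` noncollinear: `hup`: `Tri`: `beta2`. `Rul (up D) e`, `PPi (up D) w' e α β`: `e 2 ≠ 0`: `rul_ext1`, `pp_ext1`; `e 2 = 0`: `rul_ext2` (for `e = -E` use `PPi.neg`), `pp_ext2`.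
`facets`: `A` has finitely many subsets, take the maximum of the bounds.
-/

open Finset Pool.Agent.SPB

set_option autoImplicit false

namespace Pool.Agent.SPK

variable {A : Finset W}

private theorem flat {D : Finset W} {n : W} {c : ℤ} (hN : NonCol D) (h0 : ∀ x ∈ D, x 2 = 0)
    (hc : ∀ x ∈ D, d3 n x = c) : n 0 = 0 ∧ n 1 = 0 := by
  obtain ⟨x, hx, y, hy, z, hz, h⟩ := hN
  have e1 := hc x hx
  have e2 := hc y hy
  have e3 := hc z hz
  have z1 := h0 x hx
  have z2 := h0 y hy
  have z3 := h0 z hz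
  simp only [d3, Fin.sum_univ_three] at e1 e2 e3
  rw [z1] at e1
  rw [z2] at e2
  rw [z3] at e3
  have f1 : n 0 * (y 0 - x 0) + n 1 * (y 1 - x 1) = 0 := by linarith
  have f2 : n 0 * (z 0 - x 0) + n 1 * (z 1 - x 1) = 0 := by linarith
  set Δ := (y 0 - x 0) * (z 1 - x 1) - (y 1 - x 1) * (z 0 - x 0) with hΔ
  have hΔ0 : Δ ≠ 0 := by
    intro hcon
    have g1 := h (z 1 - x 1) (-(y 1 - x 1)) (by
      funext i
      fin_cases i
      · simp; linarith
      · simp; ring
      · simp [z1, z2, z3])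
    have g2 := h (z 0 - x 0) (-(y 0 - x 0)) (by
      funext i
      fin_cases i
      · simp; ring
      · simp; linarith
      · simp [z1, z2, z3])
    have g3 := h 1 0 (by
      funext i
      fin_cases i
      · simp; linarith
      · simp; linarith
      · simp [z1, z2])
    exact one_ne_zero g3.1
  constructor
  · have : n 0 * Δ = 0 := by
      rw [hΔ]
      linear_combination (z 1 - x 1) * f1 - (y 1 - x 1) * f2
    exact (mul_eq_zero.1 this).resolve_right hΔ0
  · have : n 1 * Δ = 0 := by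
      rw [hΔ]
      linear_combination (y 0 - x 0) * f2 - (z 0 - x 0) * f1
    exact (mul_eq_zero.1 this).resolve_right hΔ0

private theorem OK.congr {D : Finset W} {w w' : W → ℝ} (hw : ∀ x ∈ D, w' x = w x) (h : OK D w) : OK D w' := by
  rcases h with h | ⟨e, hR, α, β, hαβ, hP⟩
  · exact Or.inl h
  · exact Or.inr ⟨e, hR, α, β, hαβ, PPi.congr (N := 0) (fun x hx => by rw [hw x hx, add_zero]) hP⟩

theorem facet_ok (hA : Bt A) {w' : W → ℝ} (hw : RU (up A) w') {n : W} {c : ℤ} (hf : Fac A n c)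
    (hup : NonCol (up (Face A n c)) → OK (up (Face A n c)) w') (ω : V → ℝ)
    (hbot : ∀ N, OK (A.filter (fun x => x 2 = 0)) (glue N ω w')) :
    ∃ N₀ : ℝ, ∀ N, N₀ ≤ N → OK (Face A n c) (glue N ω w') := by
  by_cases h0 : ∃ y ∈ A, d3 n y = c ∧ y 2 = 0
  · by_cases h1 : ∃ y ∈ A, d3 n y = c ∧ 1 ≤ y 2
    · obtain ⟨x, E, E', E'', G, ℓ, κ, hFS⟩ := exists_FS hA hf h0 h1
      rcases eq_or_lt_of_le hFS.lk with hk | hk
      · exact ⟨0, fun N _ => Or.inl ⟨x, E, G, 1, gam_unit hA.smo hFS hk.symm⟩⟩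
      · by_cases hc : NonCol (up (Face A n c))
        · rcases hup hc with hT | ⟨e, hR, α, β, hαβ, hP⟩
          · exact beta2 hA hf hFS (by omega) hw hT ω
          · by_cases he : e 2 = 0
            · obtain ⟨he', hRul⟩ := rul_ext2 hFS (by omega) he hR
              have hP' : ∃ α β : ℝ, α < β ∧ PPi (up (Face A n c)) w' E α β := by
                rcases he' with rfl | rfl
                · exact ⟨α, β, hαβ, hP⟩
                · refine ⟨-β, -α, by linarith, ?_⟩
                  have := hP.neg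
                  rwa [neg_neg] at this
              obtain ⟨α₁, β₁, h1, h2⟩ := hP'
              obtain ⟨α', β', N₀, h3, h4⟩ := pp_ext2 hFS (by omega) h1 h2 ω
              exact ⟨N₀, fun N hN => Or.inr ⟨E, hRul, α', β', h3, h4 N hN⟩⟩
            · obtain ⟨hRul, hrow⟩ := rul_ext1 hFS (by omega) he hR
              obtain ⟨N₀, h4⟩ := pp_ext1 (D := Face A n c) (fun y hy => hA.nn y (Finset.mem_filter.1 hy).1)
                hrow hP ω
              exact ⟨N₀, fun N hN => Or.inr ⟨e, hRul, α, β, hαβ, h4 N hN⟩⟩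
        · exact ⟨0, fun N _ => Or.inr ⟨E, gam_row hFS (by omega) hc _⟩⟩
    · -- the bottom
      have hall : ∀ y ∈ Face A n c, y 2 = 0 := by
        intro y hy
        obtain ⟨hyA, hyc⟩ := Finset.mem_filter.1 hy
        by_contra hcon
        exact h1 ⟨y, hyA, hyc, by have := hA.nn y hyA; omega⟩
      obtain ⟨n0, n1⟩ := flat hf.nc hall (fun x hx => (Finset.mem_filter.1 hx).2)
      obtain ⟨y, hyA, hyc, hy0⟩ := h0
      have ev : ∀ x : W, d3 n x = n 2 * x 2 := by
        intro x
        simp only [d3, Fin.sum_univ_three, n0, n1]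
        ring
      have hc0 : c = 0 := by
        rw [← hyc, ev, hy0, mul_zero]
      have hn2 : n 2 ≠ 0 := by
        intro h2
        obtain ⟨z, hz, hzc⟩ := hf.lt
        rw [ev, h2, zero_mul, hc0] at hzc
        exact lt_irrefl _ hzc
      have e : Face A n c = A.filter (fun x => x 2 = 0) := by
        ext x
        simp only [Face, Finset.mem_filter, ev, hc0, mul_eq_zero, hn2, false_or]
      rw [e]
      exact ⟨0, fun N _ => hbot N⟩
  · have hall : ∀ y ∈ Face A n c, 1 ≤ y 2 := by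
      intro y hy
      obtain ⟨hyA, hyc⟩ := Finset.mem_filter.1 hy
      by_contra hcon
      exact h0 ⟨y, hyA, hyc, by have := hA.nn y hyA; omega⟩
    have e : up (Face A n c) = Face A n c := by
      ext x
      simp only [up, Finset.mem_filter]
      constructor
      · rintro ⟨h1, -⟩
        exact h1
      · intro h1
        exact ⟨h1, hall x h1⟩
    rw [e] at hup
    refine ⟨0, fun N _ => OK.congr ?_ (hup hf.nc)⟩
    intro x hx
    have := hall x hx
    simp only [glue]
    rw [if_neg (by omega)]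

theorem facets (hA : Bt A) {w' : W → ℝ} (hw : RU (up A) w')
    (hup : ∀ n c, Fac A n c → NonCol (up (Face A n c)) → OK (up (Face A n c)) w') (ω : V → ℝ)
    (hbot : ∀ N, OK (A.filter (fun x => x 2 = 0)) (glue N ω w')) :
    ∃ N₀ : ℝ, ∀ N, N₀ ≤ N → ∀ n c, Fac A n c → OK (Face A n c) (glue N ω w') := by
  classical
  have h1 : ∀ D : Finset W, ∃ N₀ : ℝ, ∀ N, N₀ ≤ N → ∀ n c, Fac A n c → Face A n c = D → OK D (glue N ω w') := by
    intro D
    by_cases hD : ∃ n c, Fac A n c ∧ Face A n c = D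
    · obtain ⟨n, c, hf, rfl⟩ := hD
      obtain ⟨N₀, hN⟩ := facet_ok hA hw hf (hup n c hf) ω hbot
      exact ⟨N₀, fun N hN' _ _ _ _ => hN N hN'⟩
    · exact ⟨0, fun N _ n c hf e => absurd ⟨n, c, hf, e⟩ hD⟩
  choose N₀ hN₀ using h1
  refine ⟨∑ D ∈ A.powerset, |N₀ D|, fun N hN n c hf => ?_⟩
  refine hN₀ (Face A n c) N ?_ n c hf rfl
  have h2 : |N₀ (Face A n c)| ≤ ∑ D ∈ A.powerset, |N₀ D| :=
    Finset.single_le_sum (f := fun D => |N₀ D|) (fun D _ => abs_nonneg _)
      (Finset.mem_powerset.2 (Finset.filter_subset _ _))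
  exact (le_abs_self _).trans (h2.trans hN)

end Pool.Agent.SPK
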