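import Pool.Agent.SPK.BotV

/-!
# [SPK-Fs] a facet which contains points of height `0` and points of positive height

`exists_FS`: `m = n + (0, 0, -1)` (as a functional) is `≤ c` on `A`, with equality exactly for `d3 n y = c`, `y 2 = 0`. `face_vertex` gives a vertex `x` with `d3 n x = c`, `x 2 = 0`. `bot_vertex`: basis `![pt e 0, pt e' 0, pt f 1]` at `x`. With the point of positive height of the facet (`cone`): `d3 n (pt f 1) = 0`. `facet_vertex`: exactly one of `d3 n (pt e 0)`, `d3 n (pt e' 0)` is `0`; call this vector `E`, the other `E'`, `G = pt f 1` (reorder with `Vtx.perm`). All points of the facet are `x + i E + j G`, `i, j ≥ 0`, `j` = height. `ℓ` = largest with `x + ℓ E ∈ A` (`A` is finite, `ℓ ≥ 1`). `x' = x + ℓ E` is a vertex: `isV_of_face` with the functional `m` and `g` dual to `E`. In the same way at `x'`: vectors `E₁, E₁', G₁`. `-ℓ E = i E₁` with `i ≥ 0` (cone at `x'`, the point `x`); both `E` and `E₁` belong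 to bases, so `E₁ = -E`. `x' + G₁` is a point of the facet of height `1`: `x' + G₁ = x + i E + G`, `κ = i - ℓ`.
`mem`: `y = x + i E + j G` and `y = x' + i' (-E) + j' (G + κ E)` with all coefficients `≥ 0`: `j = j'`, `i = ℓ + κ j - i'`. `lk`: `mem` for `x + G` or directly `κ = i - ℓ`. `row0`, `row1`: `LatA`, convex combinations of the end points.
`FS.mirror`: exchange the two ends.
`FS.dual`: `gen_dual`.
-/

open Finset Pool.Agent.SPB

set_option autoImplicit false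

namespace Pool.Agent.SPK

/-- a facet `Face A n c` with bottom edge `x, x + E, ..., x + ℓ E` and the edges in the directions `G`, `G + κ E` from
its ends -/
structure FS (A : Finset W) (n : W) (c : ℤ) (x E E' E'' G : W) (ℓ κ : ℤ) : Prop where
  vx : Vtx A x ![E, E', G]
  vr : Vtx A (x + ℓ • E) ![-E, E'', G + κ • E]
  hx : x 2 = 0
  hE : E 2 = 0
  hE' : E' 2 = 0
  hE'' : E'' 2 = 0
  hG : G 2 = 1
  nx : d3 n x = c
  nE : d3 n E = 0
  nG : d3 n G = 0
  nE' : d3 n E' < 0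
  nE'' : d3 n E'' < 0
  l1 : 1 ≤ ℓ
  lk : 0 ≤ ℓ + κ
  mem : ∀ y ∈ A, d3 n y = c → ∃ i j : ℤ, 0 ≤ i ∧ 0 ≤ j ∧ i ≤ ℓ + κ * j ∧ y = x + i • E + j • G
  row0 : ∀ i : ℤ, 0 ≤ i → i ≤ ℓ → x + i • E ∈ A
  row1 : ∀ i : ℤ, 0 ≤ i → i ≤ ℓ + κ → x + i • E + G ∈ A

private theorem fs_sum (x : W) (t : Fin 3 → ℤ) (a b g : W) :
    x + ∑ i, t i • (![a, b, g] : Fin 3 → W) i = x + t 0 • a + t 1 • b + t 2 • g := by
  rw [Fin.sum_univ_three]
  simp only [Matrix.cons_val_zero, Matrix.cons_val_one, Matrix.cons_val]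
  abel

/-- the data at a vertex of the bottom edge of the facet -/
private theorem fs_loc {A : Finset W} (hA : Bt A) {n : W} {c : ℤ} (hf : Fac A n c)
    (h1 : ∃ y ∈ A, d3 n y = c ∧ 1 ≤ y 2) {x : W} (hx : IsV A x) (hx0 : x 2 = 0) (hxc : d3 n x = c) :
    ∃ E E' G : W, Vtx A x ![E, E', G] ∧ E 2 = 0 ∧ E' 2 = 0 ∧ G 2 = 1 ∧ d3 n E = 0 ∧ d3 n E' < 0 ∧
      d3 n G = 0 := by
  obtain ⟨e, e', f, -, hV⟩ := bot_vertex hA hx hx0
  have ea : (pt e 0) 2 = 0 := rfl
  have eb : (pt e' 0) 2 = 0 := rfl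
  have eg : (pt f 1) 2 = 1 := rfl
  generalize pt e 0 = a at hV ea
  generalize pt e' 0 = b at hV eb
  generalize pt f 1 = g at hV eg
  have hstep : ∀ i, d3 n ((![a, b, g] : Fin 3 → W) i) ≤ 0 := by
    intro i
    have := hf.le _ (hV.step i)
    rw [d3_add, hxc] at this
    omega
  have na : d3 n a ≤ 0 := hstep 0
  have nb : d3 n b ≤ 0 := hstep 1
  have ng : d3 n g ≤ 0 := hstep 2
  obtain ⟨y, hy, hyc, hy2⟩ := h1
  obtain ⟨t, ht, hty⟩ := hV.cone y hy
  rw [fs_sum] at hty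
  have ht2 : y 2 = t 2 := by
    rw [← hty]
    simp only [Pi.add_apply, Pi.smul_apply, smul_eq_mul, hx0, ea, eb, eg]
    ring
  have ng0 : d3 n g = 0 := by
    have h2 : t 0 * d3 n a + t 1 * d3 n b + t 2 * d3 n g = 0 := by
      have h3 := congrArg (d3 n) hty
      rw [d3_add, d3_add, d3_add, d3_smul, d3_smul, d3_smul, hxc, hyc] at h3
      linarith
    have h3 : t 0 * d3 n a ≤ 0 := mul_nonpos_of_nonneg_of_nonpos (ht 0) na
    have h4 : t 1 * d3 n b ≤ 0 := mul_nonpos_of_nonneg_of_nonpos (ht 1) nb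
    have h5 : 1 ≤ t 2 := by omega
    nlinarith
  obtain ⟨σ, s0, s1, s2, -⟩ := facet_vertex hf hV hxc
  have key : ∀ i : Fin 3, i ≠ σ 2 → d3 n ((![a, b, g] : Fin 3 → W) i) = 0 := by
    intro i hi
    obtain ⟨j, rfl⟩ := σ.surjective i
    have hj : j ≠ 2 := fun h => hi (by rw [h])
    have hj' : j = 0 ∨ j = 1 := by
      clear hi
      revert hj; revert j; decide
    rcases hj' with rfl | rfl
    · exact s0
    · exact s1
  have hσ : σ 2 = 0 ∨ σ 2 = 1 := by
    have h2 : σ 2 ≠ 2 := by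
      intro h
      rw [h] at s2
      have : d3 n g < 0 := s2
      omega
    generalize σ 2 = j at h2
    revert h2; revert j; decide
  rcases hσ with h | h
  · rw [h] at s2 key
    have hb0 : d3 n b = 0 := key 1 (by decide)
    refine ⟨b, a, g, ?_, eb, ea, eg, hb0, s2, ng0⟩
    have h3 := hV.perm (Equiv.swap 0 1)
    have h4 : (![a, b, g] : Fin 3 → W) ∘ (Equiv.swap (0 : Fin 3) 1) = ![b, a, g] := by
      funext i
      fin_cases i <;> rfl
    rw [h4] at h3
    exact h3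
  · rw [h] at s2 key
    have ha0 : d3 n a = 0 := key 0 (by decide)
    exact ⟨a, b, g, hV, ea, eb, eg, ha0, s2, ng0⟩

/-- the points of the facet in the cone at a vertex -/
private theorem fs_cone {A : Finset W} {n : W} {c : ℤ} {x E E' G : W} (hV : Vtx A x ![E, E', G])
    (hx0 : x 2 = 0) (hxc : d3 n x = c) (hE : E 2 = 0) (hE' : E' 2 = 0) (hG : G 2 = 1) (nE : d3 n E = 0)
    (nE' : d3 n E' < 0) (nG : d3 n G = 0) {y : W} (hy : y ∈ A) (hyc : d3 n y = c) :
    ∃ i : ℤ, 0 ≤ i ∧ 0 ≤ y 2 ∧ y = x + i • E + y 2 • G := by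
  obtain ⟨t, ht, hty⟩ := hV.cone y hy
  rw [fs_sum] at hty
  have ht2 : y 2 = t 2 := by
    rw [← hty]
    simp only [Pi.add_apply, Pi.smul_apply, smul_eq_mul, hx0, hE, hE', hG]
    ring
  have h3 := congrArg (d3 n) hty
  rw [d3_add, d3_add, d3_add, d3_smul, d3_smul, d3_smul, hxc, hyc, nE, nG] at h3
  have h4 : t 1 * d3 n E' = 0 := by linarith
  have h5 : t 1 = 0 := by
    rcases mul_eq_zero.1 h4 with h | h
    · exact h
    · omega
  refine ⟨t 0, ht 0, by rw [ht2]; exact ht 2, ?_⟩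
  rw [ht2, ← hty, h5, zero_smul, add_zero]

private theorem fs_seg {A : Finset W} (hA : LatA A) {p E : W} {N : ℤ} (hp : p ∈ A) (hq : p + N • E ∈ A) (i : ℤ)
    (h0 : 0 ≤ i) (hi : i ≤ N) : p + i • E ∈ A := by
  rcases eq_or_lt_of_le (h0.trans hi) with h | h
  · have : i = 0 := by omega
    rw [this, zero_smul, add_zero]
    exact hp
  · apply hA
    have hN : (0 : ℝ) < N := by exact_mod_cast h
    have hi0 : (0 : ℝ) ≤ i := by exact_mod_cast h0
    have hiN : (i : ℝ) ≤ N := by exact_mod_cast hi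
    have h1 : emb (p + i • E) = (1 - (i : ℝ) / N) • emb p + ((i : ℝ) / N) • emb (p + N • E) := by
      funext k
      simp only [emb, Pi.add_apply, Pi.smul_apply, smul_eq_mul, Int.cast_add, Int.cast_mul]
      field_simp
      ring
    rw [h1]
    have hp' : emb p ∈ hull A := subset_convexHull ℝ _ ⟨p, hp, rfl⟩
    have hq' : emb (p + N • E) ∈ hull A := subset_convexHull ℝ _ ⟨_, hq, rfl⟩
    refine convex_convexHull ℝ _ hp' hq' ?_ ?_ ?_
    · rw [sub_nonneg, div_le_one hN]; exact hiN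
    · exact div_nonneg hi0 hN.le
    · ring

theorem exists_FS {A : Finset W} (hA : Bt A) {n : W} {c : ℤ} (hf : Fac A n c) (h0 : ∃ y ∈ A, d3 n y = c ∧ y 2 = 0)
    (h1 : ∃ y ∈ A, d3 n y = c ∧ 1 ≤ y 2) : ∃ (x E E' E'' G : W) (ℓ κ : ℤ), FS A n c x E E' E'' G ℓ κ := by
  obtain ⟨y0, hy0, hy0c, hy02⟩ := h0
  have hm : ∀ y, d3 (n + ![0, 0, -1]) y = d3 n y - y 2 := by
    intro y
    simp only [d3, Fin.sum_univ_three, Pi.add_apply, Matrix.cons_val_zero, Matrix.cons_val_one, Matrix.cons_val]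
    ring
  generalize n + ![0, 0, -1] = m at hm
  have hmle : ∀ y ∈ A, d3 m y ≤ c := by
    intro y hy
    rw [hm]
    have h2 := hf.le y hy
    have h3 := hA.nn y hy
    omega
  obtain ⟨x, hxm, hx⟩ := face_vertex ⟨y0, hy0⟩ m
  have hxA : x ∈ A := hx.1
  have hx1 := hxm y0 hy0
  rw [hm, hm, hy0c, hy02] at hx1
  have hx2 := hf.le x hxA
  have hx3 := hA.nn x hxA
  have hx0 : x 2 = 0 := by omega
  have hxc : d3 n x = c := by omega
  obtain ⟨E, E', G, hV, hE, hE', hG, nE, nE', nG⟩ := fs_loc hA hf h1 hx hx0 hxc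
  obtain ⟨d, hd⟩ := gen_dual hV.gen
  have d0E : d3 (d 0) E = 1 := by have := hd 0 0; simpa using this
  have d0G : d3 (d 0) G = 0 := by have := hd 0 2; simpa using this
  have d2E : d3 (d 2) E = 0 := by have := hd 2 0; simpa using this
  have d2G : d3 (d 2) G = 1 := by have := hd 2 2; simpa using this
  have hface : ∀ y ∈ Face A m c, ∃ i : ℤ, 0 ≤ i ∧ y = x + i • E := by
    intro y hy
    rw [Face, mem_filter, hm] at hy
    have h2 := hf.le y hy.1
    have h3 := hA.nn y hy.1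
    obtain ⟨i, hi, -, hyi⟩ := fs_cone hV hx0 hxc hE hE' hG nE nE' nG hy.1 (by omega)
    have h4 : y 2 = 0 := by omega
    refine ⟨i, hi, ?_⟩
    rw [h4, zero_smul, add_zero] at hyi
    exact hyi
  have hmem : ∀ y ∈ A, d3 n y = c → y 2 = 0 → y ∈ Face A m c := by
    intro y hy hyc hy2
    rw [Face, mem_filter, hm]
    exact ⟨hy, by omega⟩
  have hxE : x + E ∈ Face A m c := by
    refine hmem _ (hV.step 0) ?_ ?_
    · rw [d3_add, hxc, nE, add_zero]
    · rw [Pi.add_apply, hx0, hE, add_zero]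
  obtain ⟨z, hz, hzmax⟩ := Finset.exists_max_image (Face A m c) (fun y => d3 (d 0) y) ⟨_, hxE⟩
  obtain ⟨ℓ, hℓ0, rfl⟩ := hface z hz
  have hℓ1 : 1 ≤ ℓ := by
    have := hzmax _ hxE
    rw [d3_add, d3_add, d3_smul, d0E] at this
    omega
  have hx'A : x + ℓ • E ∈ A := (mem_filter.1 hz).1
  have hx'V : IsV A (x + ℓ • E) := by
    refine isV_of_face hmle hz (g := d 0) ?_
    intro y hy hne
    refine lt_of_le_of_ne (hzmax y hy) fun he => hne ?_
    obtain ⟨i, -, rfl⟩ := hface y hy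
    rw [d3_add, d3_add, d3_smul, d3_smul, d0E] at he
    have : i = ℓ := by omega
    rw [this]
  have hx'0 : (x + ℓ • E) 2 = 0 := by
    rw [Pi.add_apply, Pi.smul_apply, hx0, hE, smul_zero, add_zero]
  have hx'c : d3 n (x + ℓ • E) = c := by
    rw [d3_add, d3_smul, hxc, nE, mul_zero, add_zero]
  obtain ⟨E₁, E'', G₁, hV', hE₁, hE'', hG₁, nE₁, nE'', nG₁⟩ := fs_loc hA hf h1 hx'V hx'0 hx'c
  -- `E₁ = -E`
  have e1 : E₁ = -E := by
    have h2 : x + ℓ • E + E₁ ∈ Face A m c := by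
      refine hmem _ (hV'.step 0) ?_ ?_
      · rw [d3_add, hx'c, nE₁, add_zero]
      · rw [Pi.add_apply, hx'0, hE₁, add_zero]
    obtain ⟨i, hi, hi'⟩ := hface _ h2
    have h3 : E₁ = (i - ℓ) • E := by
      have h4 : x + (ℓ • E + E₁) = x + i • E := by rw [← add_assoc]; exact hi'
      have h5 := add_left_cancel h4
      rw [sub_smul, ← h5]
      abel
    have h4 := hzmax _ h2
    rw [hi', d3_add, d3_add, d3_smul, d3_smul, d0E] at h4
    have h5 : (![E₁, E'', G₁] : Fin 3 → W) 0 = (i - ℓ) • E := h3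
    rcases gen_prim hV'.gen h5 with h6 | h6
    · omega
    · rw [h3, h6, neg_smul, one_smul]
  subst e1
  -- `G₁ = G + κ E`
  obtain ⟨i, hi, -, hiy⟩ := fs_cone hV hx0 hxc hE hE' hG nE nE' nG (hV'.step 2)
    (show d3 n (x + ℓ • E + G₁) = c by rw [d3_add, hx'c, nG₁, add_zero])
  have hiy2 : x + ℓ • E + G₁ = x + i • E + G := by
    have h2 : (x + ℓ • E + G₁) 2 = 1 := by rw [Pi.add_apply, hx'0, hG₁, zero_add]
    have h3 : x + ℓ • E + G₁ = x + i • E + (x + ℓ • E + G₁) 2 • G := hiy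
    rw [h2, one_smul] at h3
    exact h3
  have e2 : G₁ = G + (i - ℓ) • E := by
    have h3 : G₁ = x + i • E + G - (x + ℓ • E) := by
      rw [← hiy2]; abel
    rw [h3, sub_smul]
    abel
  subst e2
  have hrow1 : x + G + i • E ∈ A := by
    have h2 := hV'.step 2
    have h3 : x + ℓ • E + (G + (i - ℓ) • E) = x + G + i • E := by
      rw [sub_smul]; abel
    have h4 : x + ℓ • E + (G + (i - ℓ) • E) ∈ A := h2
    rw [h3] at h4
    exact h4
  refine ⟨x, E, E', E'', G, ℓ, i - ℓ, ⟨hV, hV', hx0, hE, hE', hE'', hG, hxc, nE, nG, nE', nE'', hℓ1, by omega,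
    ?_, ?_, ?_⟩⟩
  · intro y hy hyc
    obtain ⟨i1, hi1, hy2, e3⟩ := fs_cone hV hx0 hxc hE hE' hG nE nE' nG hy hyc
    obtain ⟨i2, hi2, -, e4⟩ := fs_cone hV' hx'0 hx'c hE₁ hE'' hG₁ nE₁ nE'' nG₁ hy hyc
    refine ⟨i1, y 2, hi1, hy2, ?_, e3⟩
    have e5 := congrArg (d3 (d 0)) e3
    have e6 := congrArg (d3 (d 0)) e4
    simp only [d3_add, d3_smul, d3_neg, d0E, d0G] at e5 e6
    nlinarith
  · intro j hj0 hj
    exact fs_seg hA.lat hxA hx'A j hj0 hj
  · intro j hj0 hj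
    have h2 := fs_seg hA.lat (hV.step 2) hrow1 j hj0 (by omega)
    have h3 : x + j • E + G = x + G + j • E := by abel
    rw [h3]
    exact h2

variable {A : Finset W} {n : W} {c : ℤ} {x E E' E'' G : W} {ℓ κ : ℤ}

theorem FS.mirror (h : FS A n c x E E' E'' G ℓ κ) : FS A n c (x + ℓ • E) (-E) E'' E' (G + κ • E) ℓ κ := by
  have e1 : x + ℓ • E + ℓ • (-E) = x := by
    rw [smul_neg]; abel
  have e2 : G + κ • E + κ • (-E) = G := by
    rw [smul_neg]; abel
  refine ⟨h.vr, ?_, ?_, ?_, h.hE'', h.hE', ?_, ?_, ?_, ?_, h.nE'', h.nE', h.l1, h.lk, ?_, ?_, ?_⟩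
  · rw [e1, e2, neg_neg]
    exact h.vx
  · rw [Pi.add_apply, Pi.smul_apply, h.hx, h.hE, smul_zero, add_zero]
  · rw [Pi.neg_apply, h.hE, neg_zero]
  · rw [Pi.add_apply, Pi.smul_apply, h.hG, h.hE, smul_zero, add_zero]
  · rw [d3_add, d3_smul, h.nx, h.nE, mul_zero, add_zero]
  · rw [d3_neg, h.nE, neg_zero]
  · rw [d3_add, d3_smul, h.nG, h.nE, mul_zero, add_zero]
  · intro y hy hyc
    obtain ⟨i, j, hi, hj, hij, e⟩ := h.mem y hy hyc
    refine ⟨ℓ + κ * j - i, j, by omega, hj, by omega, ?_⟩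
    rw [e]
    simp only [smul_neg, smul_add, sub_smul, add_smul, smul_smul]
    rw [mul_comm κ j]
    abel
  · intro i hi hiℓ
    have h2 := h.row0 (ℓ - i) (by omega) (by omega)
    have e3 : x + ℓ • E + i • (-E) = x + (ℓ - i) • E := by
      rw [smul_neg, sub_smul]; abel
    rw [e3]
    exact h2
  · intro i hi hiℓ
    have h2 := h.row1 (ℓ + κ - i) (by omega) (by omega)
    have e3 : x + ℓ • E + i • (-E) + (G + κ • E) = x + (ℓ + κ - i) • E + G := by
      rw [smul_neg, sub_smul, add_smul]; abel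
    rw [e3]
    exact h2

theorem FS.dual (h : FS A n c x E E' E'' G ℓ κ) :
    ∃ u v : W, d3 u E = 1 ∧ d3 u G = 0 ∧ d3 v E = 0 ∧ d3 v G = 1 := by
  obtain ⟨d, hd⟩ := gen_dual h.vx.gen
  refine ⟨d 0, d 2, ?_, ?_, ?_, ?_⟩
  · have := hd 0 0; simpa using this
  · have := hd 0 2; simpa using this
  · have := hd 2 0; simpa using this
  · have := hd 2 2; simpa using this

end Pool.Agent.SPK
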