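import Pool.Agent.SPK.Fs
import Pool.Agent.SPK.UE

/-!
# [SPK-Gam] facets whose upper part is collinear

`D = Face A n c`. The height of `x + i E + j G` is `j`.
`gam_unit`: `ℓ + κ = 0`: `x + G = x' + (G + κ E)` with `x' = x + ℓ E`. `y = x + G` is a vertex by `meet` (`hpar`: `s ℓ E = t G` gives `t = 0` by the height, then `s ℓ E = 0`, `s = 0` as `E ≠ 0`). Basis `b` at `y`; `edge` twice: `-G` and `-(G + κ E)` are among the `b i` (`b i = -G`, `b j = -G - κ E`, `i ≠ j` as `κ ≠ 0`), `b j - b i = ℓ E` so `ℓ = 1` (`gen_diff`), `κ = -1`. By `mem`: `i + j ≤ 1`. All three points are in `A` (`row0`, `row1`). `dual`: `FS.dual`.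
`gam_row`: row `1` contains `x + G` and `x + E + G`. If `y ∈ D` has height `≥ 2` then `x + G, x + E + G, y` are noncollinear points of `up D`, excluded. So `D` has heights `0` and `1` only. `Rul D E`: `u = ![0, 0, 1]` (`d3 u` = height), `v` from `FS.dual`, `q = x`, `p = x + G`. `PP`: `tworow` with `k₀ = 0` and any interval; two points of the same height differ by a multiple of `E` (`mem`).
-/

open Finset Pool.Agent.SPB

set_option autoImplicit false

namespace Pool.Agent.SPK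

variable {A : Finset W} {n : W} {c : ℤ} {x E E' E'' G : W} {ℓ κ : ℤ}

private theorem gam_mem_face {y : W} : y ∈ Face A n c ↔ y ∈ A ∧ d3 n y = c := by
  simp only [Face, Finset.mem_filter]

private theorem gam_d3z (y : W) : d3 ![0, 0, 1] y = y 2 := by
  simp [d3, Fin.sum_univ_three]

private theorem gam_face (h : FS A n c x E E' E'' G ℓ κ) (i j : ℤ) : d3 n (x + i • E + j • G) = c := by
  rw [d3_add, d3_add, d3_smul, d3_smul, h.nx, h.nE, h.nG]; ring

private theorem gam_height (h : FS A n c x E E' E'' G ℓ κ) (i j : ℤ) : (x + i • E + j • G) 2 = j := by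
  simp [h.hx, h.hE, h.hG]

theorem gam_unit (hA : Smo A) (h : FS A n c x E E' E'' G ℓ κ) (hk : ℓ + κ = 0) :
    TriD (Face A n c) x E G 1 := by
  obtain ⟨u, v, huE, huG, hvE, hvG⟩ := h.dual
  have hl := h.l1
  have hκ : κ = -ℓ := by omega
  -- `x + G` is a vertex
  have h1 : x + G = x + (![E, E', G] : Fin 3 → W) 2 := by simp
  have h2 : x + G = (x + ℓ • E) + (![-E, E'', G + κ • E] : Fin 3 → W) 2 := by
    simp only [Matrix.cons_val]
    rw [hκ, neg_smul]; abel
  have hpar : ∀ s t : ℤ, s ≠ 0 → s • ((x + ℓ • E) - x) ≠ t • (![E, E', G] : Fin 3 → W) 2 := by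
    intro s t hs heq
    have h3 : d3 u (s • ((x + ℓ • E) - x)) = d3 u (t • (![E, E', G] : Fin 3 → W) 2) := by rw [heq]
    have h4 : (x + ℓ • E) - x = ℓ • E := by abel
    rw [h4, d3_smul, d3_smul, d3_smul, huE] at h3
    simp only [Matrix.cons_val] at h3
    rw [huG] at h3
    have h5 : s * ℓ = 0 := by linarith
    rcases mul_eq_zero.1 h5 with h6 | h6
    · exact hs h6
    · omega
  have hV : IsV A (x + G) := meet h.vx h.vr h1 h2 hpar
  obtain ⟨b, hb⟩ := hA _ hV
  obtain ⟨i, hi⟩ := edge h.vx hb h1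
  obtain ⟨j, hj⟩ := edge h.vr hb h2
  simp only [Matrix.cons_val] at hi hj
  have hE0 : ∀ m : ℤ, m • E = 0 → m = 0 := by
    intro m hm
    have : d3 u (m • E) = d3 u 0 := by rw [hm]
    rw [d3_smul, huE] at this
    simpa [d3] using this
  have hdiff : b i - b j = κ • E := by
    rw [hi, hj]; abel
  have hij : i ≠ j := by
    intro hij
    rw [hij, sub_self] at hdiff
    have := hE0 κ hdiff.symm
    omega
  have hκ1 := gen_diff hb.gen hij hdiff
  have hℓ1 : ℓ = 1 := by omega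
  have hκ2 : κ = -1 := by omega
  subst hℓ1
  subst hκ2
  refine ⟨le_refl _, ⟨u, v, huE, huG, hvE, hvG⟩, fun y => ⟨fun hy => ?_, ?_⟩⟩
  · obtain ⟨hyA, hyc⟩ := gam_mem_face.1 hy
    obtain ⟨i', j', hi', hj', hle, hyeq⟩ := h.mem y hyA hyc
    refine ⟨i'.toNat, j'.toNat, by omega, ?_⟩
    rw [Int.toNat_of_nonneg hi', Int.toNat_of_nonneg hj']
    exact hyeq
  · rintro ⟨i', j', hle, rfl⟩
    refine gam_mem_face.2 ⟨?_, gam_face h _ _⟩
    have hc : (i' = 0 ∧ j' = 0) ∨ (i' = 1 ∧ j' = 0) ∨ (i' = 0 ∧ j' = 1) := by omega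
    rcases hc with ⟨rfl, rfl⟩ | ⟨rfl, rfl⟩ | ⟨rfl, rfl⟩
    · have := h.row0 0 le_rfl (by omega)
      simpa using this
    · have := h.row0 1 (by omega) (by omega)
      simpa using this
    · have := h.row1 0 le_rfl (by omega)
      simpa using this

theorem gam_row (h : FS A n c x E E' E'' G ℓ κ) (hk : 1 ≤ ℓ + κ) (hc : ¬ NonCol (up (Face A n c))) (w : W → ℝ) :
    Rul (Face A n c) E ∧ PP (Face A n c) w E := by
  obtain ⟨u, v, huE, huG, hvE, hvG⟩ := h.dual
  have hl := h.l1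
  have hx0 : x ∈ A := by simpa using h.row0 0 le_rfl (by omega)
  have hx1 : x + E ∈ A := by simpa using h.row0 1 (by omega) (by omega)
  have hG0 : x + G ∈ A := by simpa using h.row1 0 le_rfl (by omega)
  have hG1 : x + E + G ∈ A := by simpa using h.row1 1 (by omega) (by omega)
  have fx0 : x ∈ Face A n c := gam_mem_face.2 ⟨hx0, h.nx⟩
  have fx1 : x + E ∈ Face A n c := gam_mem_face.2 ⟨hx1, by rw [d3_add, h.nx, h.nE, add_zero]⟩
  have fG0 : x + G ∈ Face A n c := gam_mem_face.2 ⟨hG0, by rw [d3_add, h.nx, h.nG, add_zero]⟩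
  have fG1 : x + G + E ∈ Face A n c := by
    refine gam_mem_face.2 ⟨?_, by rw [d3_add, d3_add, h.nx, h.nG, h.nE, add_zero, add_zero]⟩
    rw [add_right_comm]; exact hG1
  -- heights at most one
  have hht : ∀ y ∈ Face A n c, ∃ i j : ℤ, 0 ≤ i ∧ (j = 0 ∨ j = 1) ∧ y = x + i • E + j • G := by
    intro y hy
    obtain ⟨hyA, hyc⟩ := gam_mem_face.1 hy
    obtain ⟨i, j, hi, hj, hle, hyeq⟩ := h.mem y hyA hyc
    refine ⟨i, j, hi, ?_, hyeq⟩
    by_contra hj2
    have hj2' : 2 ≤ j := by omega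
    apply hc
    have hup : ∀ z : W, z ∈ up (Face A n c) ↔ z ∈ Face A n c ∧ 1 ≤ z 2 := by
      intro z; simp only [up, Finset.mem_filter]
    have hy2 : y 2 = j := by rw [hyeq]; exact gam_height h i j
    have hG02 : (x + G) 2 = 1 := by simp [h.hx, h.hG]
    have hG12 : (x + G + E) 2 = 1 := by simp [h.hx, h.hG, h.hE]
    refine ⟨x + G, (hup _).2 ⟨fG0, by omega⟩, x + G + E, (hup _).2 ⟨fG1, by omega⟩, y,
      (hup _).2 ⟨hy, by omega⟩, ?_⟩
    intro s t hst
    have e1 : x + G + E - (x + G) = E := by abel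
    have e2 : y - (x + G) = i • E + (j - 1) • G := by
      rw [hyeq, sub_smul, one_smul]; abel
    rw [e1, e2] at hst
    have hv : d3 v (s • E + t • (i • E + (j - 1) • G)) = d3 v 0 := by rw [hst]
    have hu : d3 u (s • E + t • (i • E + (j - 1) • G)) = d3 u 0 := by rw [hst]
    rw [d3_add, d3_smul, d3_smul, d3_add, d3_smul, d3_smul, hvE, hvG] at hv
    rw [d3_add, d3_smul, d3_smul, d3_add, d3_smul, d3_smul, huE, huG] at hu
    have z1 : d3 v 0 = 0 := by simp [d3]
    have z2 : d3 u 0 = 0 := by simp [d3]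
    rw [z1] at hv
    rw [z2] at hu
    have ht : t * (j - 1) = 0 := by linarith
    have ht0 : t = 0 := by
      rcases mul_eq_zero.1 ht with h6 | h6
      · exact h6
      · omega
    subst ht0
    exact ⟨by linarith, rfl⟩
  have hx2 : x 2 = 0 := h.hx
  have hG02 : (x + G) 2 = 1 := by simp [h.hx, h.hG]
  have hheight : ∀ y ∈ Face A n c, y 2 = 0 ∨ y 2 = 1 := by
    intro y hy
    obtain ⟨i, j, hi, hj, hyeq⟩ := hht y hy
    rw [hyeq, gam_height h i j]; exact hj
  constructor
  · refine ⟨![0, 0, 1], u, x + G, x, huE, ?_, fG0, fG1, fx0, fx1, ?_, ?_, ?_⟩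
    · rw [gam_d3z]; exact h.hE
    · rw [gam_d3z, gam_d3z]; omega
    · intro y hy
      rw [gam_d3z, gam_d3z, gam_d3z]
      have := hheight y hy
      omega
    · intro k hk1 hk2
      rw [gam_d3z] at hk1 hk2
      have hk3 : k = 0 ∨ k = 1 := by omega
      rcases hk3 with rfl | rfl
      · exact ⟨x, fx0, by rw [gam_d3z]; exact hx2⟩
      · exact ⟨x + G, fG0, by rw [gam_d3z]; exact hG02⟩
  · obtain ⟨α, β, -, h2, -, h4⟩ := tworow (D := Face A n c) ⟨x, fx0⟩ w (e := E) (u := ![0, 0, 1]) (v := u) huE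
      (by rw [gam_d3z]; exact h.hE) (k₀ := 0)
      (fun y hy => by rw [gam_d3z]; simpa using hheight y hy)
      (fun y hy z hz hyz => by
        rw [gam_d3z, gam_d3z] at hyz
        obtain ⟨i, j, -, -, hy'⟩ := hht y hy
        obtain ⟨i', j', -, -, hz'⟩ := hht z hz
        have e1 : y 2 = j := by rw [hy']; exact gam_height h i j
        have e2 : z 2 = j' := by rw [hz']; exact gam_height h i' j'
        have e3 : j' = j := by omega
        refine ⟨i' - i, ?_⟩
        rw [hy', hz', e3, sub_smul]; abel) (α := 0) (β := 1) one_pos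
    exact ⟨α, β, h2, h4⟩

end Pool.Agent.SPK
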