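import Pool.Agent.SPK.Pla2

/-!
# [SPK-Stp] adding a point with a large height keeps the path property

`e` primitive, `u x = det e x` (rows of direction `e`; points of the same row differ by a multiple of `e`). `Q` has no empty row between its lowest and its highest row (`hrows`), and the row of `z` is at most one beyond them (`hadj`). For `M` large:
let `α < τ = dotR a e < β`, `C = arg (insert z Q) (update ω z M) a`. If `z ∉ C` then `C = arg Q ω a`. Let `z ∈ C`. If there is `q ∈ Q` in the row of `z`, `q = z + j e`, then `M - dotR a z ≤ ω q - dotR a q = ω q - dotR a z - j τ`, impossible for `M > max |ω| + |j| max (|α|, |β|)`. So the row of `z` is new, say `det e z = k + 1`, `k` the highest row of `Q` (the other case is symmetric), and there is `q ∈ Q` in row `k`. Let `x ∈ C ∩ Q`; suppose `det e x ≤ k - 1`. Choose `g : V` with `det e g = 1` (Bezout); every `y` is `ε(y) e + (det e y) g` with an integer `ε(y)` (`det y g`), `dotR a y = ε(y) τ + det e y * θ`, `θ = dotR a g`. `M - dotR a z = ω x - dotR a x` gives `θ (k + 1 - det e x) =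 M - ω x - τ (ε z - ε x)`, so `θ` is large (`≥ (M - const) / (number of rows + 1)`); `ω x - dotR a x ≤ ω q - dotR a q` gives `θ (k - det e x) ≤ const`, `k - det e x ≥ 1`: contradiction for large `M`. So all `x ∈ C ∩ Q` are in row `k`; two of them would be in `arg Q ω a` (which equals `C ∩ Q` when this is nonempty): `uev_unique`. So `C` is `{z}` or `{z, x}` with `det e (z - x) = ± 1`: `uev1`, `uev2`.
-/

open Finset Pool.Agent.SPB

set_option autoImplicit false

namespace Pool.Agent.SPK

/-- the rows of direction `e` between two points of `Q` are not empty -/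
def RowsOK (Q : Finset V) (e : V) : Prop :=
  ∀ x ∈ Q, ∀ y ∈ Q, ∀ k, det e x ≤ k → k ≤ det e y → ∃ q ∈ Q, det e q = k

private theorem stp_decomp {e g : V} (hg : det e g = 1) (a : ℝ × ℝ) (y : V) :
    dotR a y = (det y g : ℝ) * dotR a e + (det e y : ℝ) * dotR a g := by
  have h : (e.1 : ℝ) * g.2 - e.2 * g.1 = 1 := by
    have := hg
    unfold det at this
    exact_mod_cast this
  unfold dotR det
  push_cast
  linear_combination (-(a.1 * y.1 + a.2 * y.2)) * h

private theorem stp_same {e g : V} (hg : det e g = 1) {x y : V} (h : det e x = det e y) :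
    y = x + (det y g - det x g) • e := by
  unfold det at *
  ext
  · simp only [Prod.fst_add, Prod.smul_fst, smul_eq_mul]
    linear_combination (-(y.1 - x.1)) * hg + (-g.1) * h
  · simp only [Prod.snd_add, Prod.smul_snd, smul_eq_mul]
    linear_combination (-(y.2 - x.2)) * hg + (-g.2) * h

private theorem stp_mem {A : Finset V} {ω : V → ℝ} {a : ℝ × ℝ} {x : V} :
    x ∈ arg A ω a ↔ x ∈ A ∧ ∀ y ∈ A, ω x - dotR a x ≤ ω y - dotR a y := by
  classical
  unfold arg
  rw [Finset.mem_filter]

private theorem stp_abs {x y T E : ℝ} (hx : |x| ≤ E) (hy : |y| ≤ T) (hT : 0 ≤ T) : |x * y| ≤ E * T := by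
  rw [abs_mul]
  exact mul_le_mul hx hy (abs_nonneg _) (le_trans (abs_nonneg _) hx)

private theorem stp_arith {M W K D d s θ ωx ωq r r' : ℝ} (hs : s * s = 1) (hW : 0 ≤ W) (hK : 0 ≤ K)
    (hx : |ωx| ≤ W) (hq : |ωq| ≤ W) (hr : |r| ≤ K) (hr' : |r'| ≤ K) (hd : 2 ≤ d) (hD : d ≤ D)
    (h1 : r + s * d * θ = M - ωx) (h2 : r' + s * (d - 1) * θ ≤ ωq - ωx)
    (hM : W + K + (D + 1) * (2 * W + K) + 1 ≤ M) : False := by
  have hx' := abs_le.1 hx
  have hq' := abs_le.1 hq
  have hr1 := abs_le.1 hr
  have hr2 := abs_le.1 hr'
  have h3 : M - W - K ≤ d * (s * θ) := by nlinarith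
  have h4 : (d - 1) * (s * θ) ≤ 2 * W + K := by nlinarith
  have hD0 : 0 ≤ D + 1 := by linarith
  have h0 : 0 ≤ (D + 1) * (2 * W + K) := mul_nonneg hD0 (by linarith)
  have h5 : 0 < d * (s * θ) := by linarith
  have h6 : 0 < s * θ := by
    by_contra hc
    have hc' : s * θ ≤ 0 := not_lt.1 hc
    nlinarith
  have h7 : s * θ ≤ 2 * W + K := by nlinarith
  have h8 : d * (s * θ) ≤ D * (2 * W + K) := by
    calc d * (s * θ) ≤ D * (s * θ) := mul_le_mul_of_nonneg_right hD h6.le
      _ ≤ D * (2 * W + K) := mul_le_mul_of_nonneg_left h7 (by linarith)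
  nlinarith

theorem step_pp {e : V} (he : Prim e) {Q : Finset V} (hQ : Q.Nonempty) (hrows : RowsOK Q e) {z : V} (hz : z ∉ Q)
    (hadj : ∃ q ∈ Q, det e z ≤ det e q + 1) (hadj' : ∃ q ∈ Q, det e q - 1 ≤ det e z) {ω : V → ℝ} {α β : ℝ}
    (hPP : PPv Q ω e α β) : ∃ M₀ : ℝ, ∀ M, M₀ ≤ M → PPv (insert z Q) (Function.update ω z M) e α β := by
  classical
  obtain ⟨u, v, huv⟩ := he
  -- Bezout
  have hg : det e (-v, u) = 1 := by
    unfold det
    simp only
    linarith
  have hPrim : Prim e := ⟨u, v, huv⟩
  have he0 : e ≠ 0 := by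
    rintro rfl
    simp at huv
  generalize hgg : ((-v, u) : V) = g at hg
  -- the constants
  let W : ℝ := ∑ x ∈ Q, |ω x|
  let E : ℝ := ∑ x ∈ insert z Q, |(det x g : ℝ)|
  let D : ℝ := ∑ x ∈ Q, |(det e z : ℝ) - (det e x : ℝ)|
  let T : ℝ := |α| + |β|
  let K : ℝ := (2 * E) * T
  have hW : ∀ x ∈ Q, |ω x| ≤ W := fun x hx =>
    Finset.single_le_sum (f := fun x => |ω x|) (fun _ _ => abs_nonneg _) hx
  have hE : ∀ x ∈ insert z Q, |(det x g : ℝ)| ≤ E := fun x hx =>
    Finset.single_le_sum (f := fun x => |(det x g : ℝ)|) (fun _ _ => abs_nonneg _) hx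
  have hD : ∀ x ∈ Q, |(det e z : ℝ) - (det e x : ℝ)| ≤ D := fun x hx =>
    Finset.single_le_sum (f := fun x => |(det e z : ℝ) - (det e x : ℝ)|) (fun _ _ => abs_nonneg _) hx
  have hW0 : 0 ≤ W := Finset.sum_nonneg fun _ _ => abs_nonneg _
  have hE0 : 0 ≤ E := Finset.sum_nonneg fun _ _ => abs_nonneg _
  have hD0 : 0 ≤ D := Finset.sum_nonneg fun _ _ => abs_nonneg _
  have hT0 : 0 ≤ T := add_nonneg (abs_nonneg _) (abs_nonneg _)
  have hK0 : 0 ≤ K := mul_nonneg (by linarith) hT0
  refine ⟨W + K + (D + 1) * (2 * W + K) + 1, fun M hM a ha1 ha2 => ?_⟩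
  have hτ : |dotR a e| ≤ T := by
    rw [abs_le]
    have := neg_abs_le α
    have := le_abs_self β
    have := abs_nonneg α
    have := abs_nonneg β
    constructor <;> simp only [T] <;> linarith
  have hr : ∀ x ∈ insert z Q, ∀ y ∈ insert z Q,
      |((det x g : ℝ) - (det y g : ℝ)) * dotR a e| ≤ K := by
    intro x hx y hy
    refine stp_abs ?_ hτ hT0
    have h1 := abs_le.1 (hE x hx)
    have h2 := abs_le.1 (hE y hy)
    rw [abs_le]
    constructor <;> linarith
  have hzI : z ∈ insert z Q := Finset.mem_insert_self _ _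
  have hQI : ∀ x ∈ Q, x ∈ insert z Q := fun x hx => Finset.mem_insert_of_mem hx
  have hne : ∀ x ∈ Q, x ≠ z := fun x hx h => hz (h ▸ hx)
  have hup : ∀ x ∈ Q, Function.update ω z M x = ω x := fun x hx =>
    Function.update_of_ne (hne x hx) _ _
  have hupz : Function.update ω z M z = M := Function.update_self _ _ _
  have hMW : W + K < M := by
    have : 0 ≤ (D + 1) * (2 * W + K) := mul_nonneg (by linarith) (by linarith)
    linarith
  by_cases hzC : z ∈ arg (insert z Q) (Function.update ω z M) a
  · have hz' := (stp_mem.1 hzC).2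
    rw [hupz] at hz'
    have hzy : ∀ y ∈ Q, M - dotR a z ≤ ω y - dotR a y := fun y hy => by
      have := hz' y (hQI y hy)
      rwa [hup y hy] at this
    -- the row of z is new
    have hrow : ∀ q ∈ Q, det e q ≠ det e z := by
      intro q hq h
      have h1 := hzy q hq
      rw [stp_decomp hg a z, stp_decomp hg a q, h] at h1
      have h2 := abs_le.1 (hr z hzI q (hQI q hq))
      have h3 := abs_le.1 (hW q hq)
      nlinarith
    -- one side
    obtain ⟨s, hs, hside, q, hq, hsq⟩ : ∃ s : ℤ, (s = 1 ∨ s = -1) ∧
        (∀ x ∈ Q, 1 ≤ s * (det e z - det e x)) ∧ ∃ q ∈ Q, s * (det e z - det e q) = 1 := by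
      by_cases hlow : ∃ x ∈ Q, det e x < det e z
      · obtain ⟨x, hx, hxl⟩ := hlow
        have hall : ∀ y ∈ Q, det e y < det e z := by
          intro y hy
          by_contra hc
          have h1 : det e z < det e y := lt_of_le_of_ne (not_lt.1 hc) (hrow y hy).symm
          obtain ⟨q, hq, hqe⟩ := hrows x hx y hy (det e z) hxl.le h1.le
          exact hrow q hq hqe
        obtain ⟨q, hq, hq1⟩ := hadj
        refine ⟨1, Or.inl rfl, fun y hy => ?_, q, hq, ?_⟩
        · have := hall y hy
          omega
        · have := hall q hq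
          omega
      · push Not at hlow
        have hall : ∀ y ∈ Q, det e z < det e y := fun y hy =>
          lt_of_le_of_ne (hlow y hy) (hrow y hy).symm
        obtain ⟨q, hq, hq1⟩ := hadj'
        refine ⟨-1, Or.inr rfl, fun y hy => ?_, q, hq, ?_⟩
        · have := hall y hy
          omega
        · have := hall q hq
          omega
    have hssq : (s : ℝ) * s = 1 := by
      rcases hs with rfl | rfl <;> norm_num
    -- elements of C in Q
    have hCQ : ∀ x ∈ arg (insert z Q) (Function.update ω z M) a, x ∈ Q →
        s * (det e z - det e x) = 1 ∧ x ∈ arg Q ω a := by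
      intro x hx hxQ
      have hx' := (stp_mem.1 hx).2
      rw [hup x hxQ] at hx'
      have hxa : x ∈ arg Q ω a := stp_mem.2 ⟨hxQ, fun y hy => by
        have := hx' y (hQI y hy)
        rwa [hup y hy] at this⟩
      refine ⟨?_, hxa⟩
      by_contra hc
      have h1 := hside x hxQ
      have h2 : 2 ≤ s * (det e z - det e x) := by omega
      have h3 : M - dotR a z = ω x - dotR a x := by
        refine le_antisymm (hzy x hxQ) ?_
        have := hx' z hzI
        rwa [hupz] at this
      have h4 := (stp_mem.1 hxa).2 q hq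
      rw [stp_decomp hg a z, stp_decomp hg a x] at h3
      rw [stp_decomp hg a x, stp_decomp hg a q] at h4
      have hd : (2 : ℝ) ≤ (s : ℝ) * ((det e z : ℝ) - det e x) := by exact_mod_cast h2
      have hsq' : (s : ℝ) * ((det e z : ℝ) - det e q) = 1 := by exact_mod_cast hsq
      have hDx : (s : ℝ) * ((det e z : ℝ) - det e x) ≤ D := by
        refine le_trans ?_ (hD x hxQ)
        rcases hs with rfl | rfl
        · have := le_abs_self ((det e z : ℝ) - det e x)
          push_cast
          linarith
        · have := neg_le_abs ((det e z : ℝ) - det e x)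
          push_cast
          linarith
      have k1 : (det e z : ℝ) - det e x = s * (s * ((det e z : ℝ) - det e x)) := by
        rw [← mul_assoc, hssq, one_mul]
      have k2 : (det e z : ℝ) - det e q = s := by
        have : (s : ℝ) * (s * ((det e z : ℝ) - det e q)) = s * 1 := by rw [hsq']
        rw [← mul_assoc, hssq, one_mul, mul_one] at this
        exact this
      refine stp_arith (M := M) (W := W) (K := K) (D := D)
        (d := s * ((det e z : ℝ) - det e x)) (s := s) (θ := dotR a g) (ωx := ω x) (ωq := ω q)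
        (r := ((det z g : ℝ) - (det x g : ℝ)) * dotR a e)
        (r' := ((det q g : ℝ) - (det x g : ℝ)) * dotR a e) hssq hW0 hK0 (hW x hxQ) (hW q hq)
        (hr z hzI x (hQI x hxQ)) (hr q (hQI q hq) x (hQI x hxQ)) hd hDx ?_ ?_ hM
      · rw [k1.symm]
        linear_combination (-1 : ℝ) * h3
      · have k3 : (s : ℝ) * (s * ((det e z : ℝ) - det e x) - 1) =
            (det e q : ℝ) - det e x := by
          rw [mul_sub, ← k1, mul_one]
          linarith
        rw [k3]
        linarith
    by_cases hex : ∃ x ∈ arg (insert z Q) (Function.update ω z M) a, x ∈ Q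
    · obtain ⟨x, hx, hxQ⟩ := hex
      obtain ⟨hx1, hx2⟩ := hCQ x hx hxQ
      have hC : arg (insert z Q) (Function.update ω z M) a = {z, x} := by
        ext y
        rw [Finset.mem_insert, Finset.mem_singleton]
        constructor
        · intro hy
          rcases Finset.mem_insert.1 (stp_mem.1 hy).1 with h | h
          · exact Or.inl h
          · right
            obtain ⟨hy1, hy2⟩ := hCQ y hy h
            have h5 : det e x = det e y := by
              rcases hs with rfl | rfl <;> omega
            have h6 := stp_same hg h5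
            have h7 : x + (det y g - det x g) • e ∈ arg Q ω a := by
              rw [← h6]; exact hy2
            have h8 := uev_unique (hPP a ha1 ha2) he0 hx2 h7
            rw [h8] at h6
            simpa using h6
        · rintro (rfl | rfl)
          · exact hzC
          · exact hx
      rw [hC]
      refine uev2 hPrim ?_
      have h9 : det e (x - z) = det e x - det e z := by
        unfold det
        simp only [Prod.fst_sub, Prod.snd_sub]
        ring
      rw [h9]
      rcases hs with rfl | rfl
      · right; omega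
      · left; omega
    · have hC : arg (insert z Q) (Function.update ω z M) a = {z} := by
        ext y
        rw [Finset.mem_singleton]
        constructor
        · intro hy
          rcases Finset.mem_insert.1 (stp_mem.1 hy).1 with h | h
          · exact h
          · exact absurd ⟨y, hy, h⟩ hex
        · rintro rfl
          exact hzC
      rw [hC]
      exact uev1 hPrim
  · have hC : arg (insert z Q) (Function.update ω z M) a = arg Q ω a := by
      ext x
      constructor
      · intro hx
        have h1 := stp_mem.1 hx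
        have hxQ : x ∈ Q := by
          rcases Finset.mem_insert.1 h1.1 with h | h
          · exact absurd (h ▸ hx) hzC
          · exact h
        refine stp_mem.2 ⟨hxQ, fun y hy => ?_⟩
        have := h1.2 y (hQI y hy)
        rwa [hup y hy, hup x hxQ] at this
      · intro hx
        obtain ⟨hxQ, h1⟩ := stp_mem.1 hx
        have h2 : ∃ y ∈ Q, ω y - dotR a y < M - dotR a z := by
          by_contra hc
          push Not at hc
          apply hzC
          refine stp_mem.2 ⟨hzI, fun y hy => ?_⟩
          rw [hupz]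
          rcases Finset.mem_insert.1 hy with h | h
          · rw [h, hupz]
          · rw [hup y h]
            exact hc y h
        obtain ⟨y, hy, hlt⟩ := h2
        refine stp_mem.2 ⟨hQI x hxQ, fun w hw => ?_⟩
        rw [hup x hxQ]
        rcases Finset.mem_insert.1 hw with h | h
        · rw [h, hupz]
          exact (h1 y hy).trans hlt.le
        · rw [hup w h]
          exact h1 w h
    rw [hC]
    exact hPP a ha1 ha2

theorem step_rows {e : V} {Q : Finset V} (hQ : Q.Nonempty) (hrows : RowsOK Q e) {z : V}
    (hadj : ∃ q ∈ Q, det e z ≤ det e q + 1) (hadj' : ∃ q ∈ Q, det e q - 1 ≤ det e z) :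
    RowsOK (insert z Q) e := by
  classical
  have lift : ∀ {k : ℤ}, (∃ q ∈ Q, det e q = k) → ∃ q ∈ insert z Q, det e q = k := by
    rintro k ⟨q, hq, hk⟩
    exact ⟨q, Finset.mem_insert_of_mem hq, hk⟩
  intro x hx y hy k h1 h2
  rcases eq_or_ne k (det e z) with hk | hk
  · exact ⟨z, Finset.mem_insert_self _ _, hk.symm⟩
  obtain ⟨q, hq, hq1⟩ := hadj
  obtain ⟨q', hq', hq1'⟩ := hadj'
  rcases Finset.mem_insert.1 hx with hxz | hxQ
  · subst hxz
    rcases Finset.mem_insert.1 hy with hyz | hyQ
    · subst hyz
      omega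
    · exact lift (hrows q' hq' y hyQ k (by omega) h2)
  · rcases Finset.mem_insert.1 hy with hyz | hyQ
    · subst hyz
      exact lift (hrows x hxQ q hq k h1 (by omega))
    · exact lift (hrows x hxQ y hyQ k h1 h2)

end Pool.Agent.SPK
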