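import Pool.Agent.SPK.Row
import Pool.Agent.SPK.Stp

/-!
# [SPK-GroP] growing a smooth polygon, keeping the path property; the case of the fan of the plane

`grow_pp`: as in SPB/Fam: `e = (u.2, -u.1)`, `dot n e = det n u`, `det e x = dot u x`. `S = row e s c ⊆ A₀` a longest row (`SPB.Fam` has private lemmas `fam_row_mem`, `fam_row_sub`, `fam_long`, copy them). `base_pp` gives `ω, μ`. Apply `grow_induct` with
`P Q := S ⊆ Q ∧ RowsOK Q e ∧ ∃ ω, Good2 Q B ω ω' ∧ PPv Q ω e α μ`; `hgrow` from `grow_row`; step: `place2` and `step_pp`, `step_rows` (`Addable F Q z` for `± u ∈ F` gives `hadj, hadj'`), take `M` the maximum of the two bounds. `S` itself: `row_latConv` (SPB/Base).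
`grow_tri`: start with `{s}` (`good_pt`), `grow_three`, `place2`.
-/

open Finset Pool.Agent.SPB

set_option autoImplicit false

namespace Pool.Agent.SPK

private theorem groP_row_mem {e s : V} {c : ℕ} {x : V} :
    x ∈ row e s c ↔ ∃ t : ℕ, t ≤ c ∧ x = s + (t : ℤ) • e := by
  unfold row
  rw [mem_image]
  constructor
  · rintro ⟨t, ht, rfl⟩
    exact ⟨t, by rw [mem_range] at ht; omega, rfl⟩
  · rintro ⟨t, ht, rfl⟩
    exact ⟨t, by rw [mem_range]; omega, rfl⟩

private theorem groP_row_sub {F : Finset V} {h : V → ℤ} {A : Finset V} (hA : IsPts F h A) {e s : V} {c : ℕ}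
    (hs : s ∈ A) (hs' : s + (c : ℤ) • e ∈ A) : row e s c ⊆ A := by
  intro x hx
  obtain ⟨t, ht, rfl⟩ := groP_row_mem.1 hx
  rw [hA] at hs hs' ⊢
  intro v hv
  have h1 := hs v hv
  have h2 := hs' v hv
  have e1 : ∀ t : ℤ, dot v (s + t • e) = dot v s + t * dot v e := by
    intro t
    simp only [dot, Prod.fst_add, Prod.snd_add, Prod.smul_fst, Prod.smul_snd, smul_eq_mul]
    ring
  rw [e1] at h2 ⊢
  have ht' : (t : ℤ) ≤ c := by exact_mod_cast ht
  have ht0 : (0 : ℤ) ≤ t := by positivity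
  rcases le_total 0 (dot v e) with h3 | h3
  · nlinarith
  · nlinarith

private theorem groP_long {A : Finset V} (hne : A.Nonempty) {e : V} (he : e ≠ 0) :
    ∃ (c : ℕ) (s : V), s ∈ A ∧ s + (c : ℤ) • e ∈ A ∧ ∀ x ∈ A, x + ((c : ℤ) + 1) • e ∉ A := by
  classical
  by_contra hcon
  push Not at hcon
  have key : ∀ c : ℕ, ∃ s ∈ A, s + (c : ℤ) • e ∈ A := by
    intro c
    induction c with
    | zero =>
      obtain ⟨s, hs⟩ := hne
      exact ⟨s, hs, by simpa using hs⟩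
    | succ c ih =>
      obtain ⟨s, hs, hs'⟩ := ih
      obtain ⟨x, hx, hx'⟩ := hcon c s hs hs'
      exact ⟨x, hx, by push_cast; exact hx'⟩
  choose f hf hf' using key
  have hinj : Function.Injective (fun c : ℕ => ((f c, f c + (c : ℤ) • e) : V × V)) := by
    intro c d hcd
    simp only [Prod.mk.injEq] at hcd
    obtain ⟨h1, h2⟩ := hcd
    rw [h1] at h2
    have h3 : (c : ℤ) • e = (d : ℤ) • e := add_left_cancel h2
    have h4 : ((c : ℤ) - d) • e = 0 := by rw [sub_smul, h3, sub_self]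
    rcases smul_eq_zero.1 h4 with h5 | h5
    · have : (c : ℤ) = d := by omega
      exact_mod_cast this
    · exact absurd h5 he
  have hfin : (Set.range (fun c : ℕ => ((f c, f c + (c : ℤ) • e) : V × V))).Finite := by
    refine Set.Finite.subset (A ×ˢ A).finite_toSet ?_
    rintro _ ⟨c, rfl⟩
    simp only [coe_product, Set.mem_prod, mem_coe]
    exact ⟨hf c, hf' c⟩
  exact Set.infinite_range_of_injective hinj hfin

private theorem groP_det (u x : V) : det ((u.2, -u.1) : V) x = dot u x := by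
  simp only [det, dot]; ring

theorem grow_pp {F : Finset V} (hF : SmoothFan F) {u : V} (hu : u ∈ F) (hu' : -u ∈ F) {h : V → ℤ} (ha : Ample F h)
    {A₀ : Finset V} (hA : IsPts F h A₀) {B : Finset V} (hE : EdgeNorm F B) {ω' : V → ℝ}
    (hB : ∀ a, UniV (arg B ω' a)) {α β : ℝ} (hαβ : α < β) (hPP : PPv B ω' (u.2, -u.1) α β) :
    ∃ (ω : V → ℝ) (μ : ℝ), α < μ ∧ Good2 A₀ B ω ω' ∧ PPv A₀ ω (u.2, -u.1) α μ := by
  classical
  have hpu : Prim u := by
    obtain ⟨w, hw⟩ := hF.next u hu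
    have h1 := hw.2.2.1
    refine ⟨w.2, -w.1, ?_⟩
    unfold det at h1
    linear_combination h1
  have hpe : Prim ((u.2, -u.1) : V) := by
    obtain ⟨a, b, hab⟩ := hpu
    exact ⟨b, -a, by simp only; linear_combination hab⟩
  have he : ((u.2, -u.1) : V) ≠ 0 := by
    intro h0
    obtain ⟨a, b, hab⟩ := hpe
    have h1 : ((u.2, -u.1) : V).1 = 0 := by rw [h0]; rfl
    have h2 : ((u.2, -u.1) : V).2 = 0 := by rw [h0]; rfl
    rw [h1, h2] at hab
    simp at hab
  have hne : A₀.Nonempty := by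
    obtain ⟨v, hv⟩ := hF.nonempty
    obtain ⟨w, hw⟩ := hF.next v hv
    exact ⟨_, vert_mem hF ha hA hw⟩
  obtain ⟨c, s, hs, hs', hlong⟩ := groP_long hne he
  obtain ⟨ω₀, μ, hμ, hG₀, hP₀⟩ := base_pp hpe hB hαβ hPP s c
  have hsS : s ∈ row ((u.2, -u.1) : V) s c := groP_row_mem.2 ⟨0, by omega, by simp⟩
  have hsS' : s + (c : ℤ) • ((u.2, -u.1) : V) ∈ row ((u.2, -u.1) : V) s c :=
    groP_row_mem.2 ⟨c, le_rfl, rfl⟩
  have hmain : RowsOK A₀ ((u.2, -u.1) : V) ∧
      ∃ ω, Good2 A₀ B ω ω' ∧ PPv A₀ ω (u.2, -u.1) α μ := by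
    refine grow_induct hA (groP_row_sub hA hs hs') ⟨s, hsS⟩ (row_latConv hpe s c) ?_
      (fun Q => RowsOK Q ((u.2, -u.1) : V) ∧ ∃ ω, Good2 Q B ω ω' ∧ PPv Q ω (u.2, -u.1) α μ) ?_ ?_
    · intro Q hSQ hQA hQne
      exact grow_row hF hu hu' ha hA hlong hQA hQne (hSQ hsS) (hSQ hsS')
    · refine ⟨?_, ω₀, hG₀, hP₀⟩
      intro x hx y hy k hk1 hk2
      refine ⟨x, hx, ?_⟩
      have hrow : ∀ z ∈ row ((u.2, -u.1) : V) s c, det ((u.2, -u.1) : V) z = dot u s := by
        intro z hz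
        obtain ⟨t, _, rfl⟩ := groP_row_mem.1 hz
        simp only [det, dot, Prod.fst_add, Prod.snd_add, Prod.smul_fst, Prod.smul_snd, smul_eq_mul]
        ring
      rw [hrow x hx] at hk1 ⊢
      rw [hrow y hy] at hk2
      omega
    · rintro Q z hQ hz _ hL hadd ⟨hrows, ω, hG, hP⟩
      have hadj : ∃ q ∈ Q, det ((u.2, -u.1) : V) z ≤ det ((u.2, -u.1) : V) q + 1 := by
        obtain ⟨q, hq, h1⟩ := hadd u hu
        exact ⟨q, hq, by rw [groP_det, groP_det]; exact h1⟩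
      have hadj' : ∃ q ∈ Q, det ((u.2, -u.1) : V) q - 1 ≤ det ((u.2, -u.1) : V) z := by
        obtain ⟨q, hq, h1⟩ := hadd (-u) hu'
        refine ⟨q, hq, ?_⟩
        rw [groP_det, groP_det]
        simp only [dot, Prod.fst_neg, Prod.snd_neg] at h1 ⊢
        linarith
      obtain ⟨M₁, hM₁⟩ := place2 hG hQ hz hL hE hadd
      obtain ⟨M₂, hM₂⟩ := step_pp hpe hQ hrows hz hadj hadj' hP
      exact ⟨step_rows hQ hrows hadj hadj', Function.update ω z (max M₁ M₂),
        hM₁ _ (le_max_left _ _), hM₂ _ (le_max_right _ _)⟩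
  obtain ⟨_, ω, h1, h2⟩ := hmain
  exact ⟨ω, μ, hμ, h1, h2⟩

theorem grow_tri {F : Finset V} (hF : SmoothFan F) {v w x : V} (hF3 : F = {v, w, x}) (hsum : v + w + x = 0)
    {h : V → ℤ} (ha : Ample F h) {A₀ : Finset V} (hA : IsPts F h A₀) {B : Finset V} (hE : EdgeNorm F B)
    {ω' : V → ℝ} (hB : ∀ a, UniV (arg B ω' a)) : ∃ ω : V → ℝ, Good2 A₀ B ω ω' := by
  classical
  obtain ⟨s, hs⟩ : A₀.Nonempty := by
    obtain ⟨v, hv⟩ := hF.nonempty
    obtain ⟨w, hw⟩ := hF.next v hv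
    exact ⟨_, vert_mem hF ha hA hw⟩
  have hpe : Prim ((1, 0) : V) := ⟨1, 0, by simp⟩
  have hrow : row ((1, 0) : V) s 0 = {s} := by
    ext y
    rw [groP_row_mem, mem_singleton]
    constructor
    · rintro ⟨t, ht, rfl⟩
      have : t = 0 := by omega
      subst this
      simp
    · rintro rfl
      exact ⟨0, le_rfl, by simp⟩
  have hSL : LatConv ({s} : Finset V) := by
    have := row_latConv hpe s 0
    rwa [hrow] at this
  refine grow_induct hA (S := {s}) (by simpa using hs) ⟨s, by simp⟩ hSL ?_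
    (fun Q => ∃ ω, Good2 Q B ω ω') ⟨fun _ => 0, good_pt hB s _⟩ ?_
  · intro Q hSQ hQA hQne
    exact grow_three hF hF3 hsum ha hA hQA hQne ⟨s, hSQ (by simp)⟩
  · rintro Q z hQ hz _ hL hadd ⟨ω, hG⟩
    obtain ⟨M₁, hM₁⟩ := place2 hG hQ hz hL hE hadd
    exact ⟨_, hM₁ M₁ le_rfl⟩

end Pool.Agent.SPK
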