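import Pool.Agent.SPK.Bas

/-!
# [SPK-Ver] vertices

`face_vertex`: let `x` be the lexicographically largest point (coordinates `0, 1, 2`) among the points of `A` with maximal `d3 m`. It is the unique maximum of `n = K³ m + (K², K, 1)` (as functionals) for `K` large (larger than all differences of coordinates of points of `A`, plus 1). (Alternatively: repeatedly maximize.)
`isV_of_face`: `m = K • n + g` (as a functional) with `K` large: a point outside of the face has `d3 n y ≤ c - 1`.
`isV_ext`: `emb x ∈ hull A`; if `emb x` is a proper convex combination of points of `hull A`, apply the functional `n`: on `hull A` it is at most `d3 n x` with equality only at `emb x` (`mem_hull`: a convex combination with a positive weight at a point `≠ x` has a smaller value).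
`smooth_pts`: `IsV A x` gives an extreme point, so the `b` of `IsSmooth`; the points `emb x + emb (b i) = emb (x + b i)` lie in `P`, so `x + b i ∈ A`; for `y ∈ A` the real coefficients `t` are the integers `d3 (d i) (y - x)` by `expandR`.
-/

open Finset Pool.Agent.SPB

set_option autoImplicit false

namespace Pool.Agent.SPK

private theorem ver_lin (K : ℤ) (n g y : W) : d3 (K • n + g) y = K * d3 n y + d3 g y := by
  simp only [d3, Pi.add_apply, Pi.smul_apply, smul_eq_mul, add_mul, Finset.sum_add_distrib, Finset.mul_sum]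
  congr 1
  exact Finset.sum_congr rfl fun i _ => by ring

private theorem ver_face {A : Finset W} {n g : W} {c : ℤ} (hle : ∀ y ∈ A, d3 n y ≤ c) {x : W} (hx : x ∈ Face A n c)
    (hg : ∀ y ∈ Face A n c, y ≠ x → d3 g y < d3 g x) : IsV A x := by
  classical
  have hx' := Finset.mem_filter.1 hx
  refine ⟨hx'.1, ((1 + ∑ y ∈ A, |d3 g y - d3 g x|) : ℤ) • n + g, ?_⟩
  intro y hy hyx
  rw [ver_lin, ver_lin, hx'.2]
  have hK : |d3 g y - d3 g x| ≤ ∑ y ∈ A, |d3 g y - d3 g x| :=
    Finset.single_le_sum (f := fun y => |d3 g y - d3 g x|) (fun _ _ => abs_nonneg _) hy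
  have h1 := le_abs_self (d3 g y - d3 g x)
  have hK0 : 0 ≤ ∑ y ∈ A, |d3 g y - d3 g x| := Finset.sum_nonneg fun _ _ => abs_nonneg _
  rcases (hle y hy).lt_or_eq with h | h
  · have h2 : d3 n y ≤ c - 1 := by omega
    have h3 : (1 + ∑ y ∈ A, |d3 g y - d3 g x|) * d3 n y ≤ (1 + ∑ y ∈ A, |d3 g y - d3 g x|) * (c - 1) :=
      mul_le_mul_of_nonneg_left h2 (by omega)
    nlinarith
  · have h2 := hg y (Finset.mem_filter.2 ⟨hy, h⟩) hyx
    rw [h]
    omega

private theorem ver_step {A : Finset W} {n : W} {c : ℤ} (hle : ∀ y ∈ A, d3 n y ≤ c) {x : W}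
    (h : IsV (Face A n c) x) : IsV A x := by
  obtain ⟨hx, g, hg⟩ := h
  exact ver_face hle hx hg

private theorem ver_single (i : Fin 3) (y : W) : d3 (Pi.single i 1) y = y i := by
  unfold d3
  rw [Finset.sum_eq_single i]
  · rw [Pi.single_eq_same, one_mul]
  · intro j _ hj
    rw [Pi.single_eq_of_ne hj, zero_mul]
  · intro h
    exact absurd (Finset.mem_univ i) h

theorem face_vertex {A : Finset W} (hA : A.Nonempty) (m : W) :
    ∃ x, (∀ y ∈ A, d3 m y ≤ d3 m x) ∧ IsV A x := by
  classical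
  obtain ⟨x1, hx1, h1⟩ := Finset.exists_max_image A (d3 m) hA
  have hA1 : (Face A m (d3 m x1)).Nonempty := ⟨x1, Finset.mem_filter.2 ⟨hx1, rfl⟩⟩
  obtain ⟨x2, hx2, h2⟩ := Finset.exists_max_image _ (d3 (Pi.single 0 1)) hA1
  have hA2 : (Face (Face A m (d3 m x1)) (Pi.single 0 1) (d3 (Pi.single 0 1) x2)).Nonempty :=
    ⟨x2, Finset.mem_filter.2 ⟨hx2, rfl⟩⟩
  obtain ⟨x3, hx3, h3⟩ := Finset.exists_max_image _ (d3 (Pi.single 1 1)) hA2
  have hA3 : (Face (Face (Face A m (d3 m x1)) (Pi.single 0 1) (d3 (Pi.single 0 1) x2)) (Pi.single 1 1)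
      (d3 (Pi.single 1 1) x3)).Nonempty := ⟨x3, Finset.mem_filter.2 ⟨hx3, rfl⟩⟩
  obtain ⟨x, hx, h4⟩ := Finset.exists_max_image _ (d3 (Pi.single 2 1)) hA3
  have hV3 : IsV (Face (Face (Face A m (d3 m x1)) (Pi.single 0 1) (d3 (Pi.single 0 1) x2)) (Pi.single 1 1)
      (d3 (Pi.single 1 1) x3)) x := by
    refine ⟨hx, Pi.single 2 1, ?_⟩
    intro y hy hyx
    apply lt_of_le_of_ne (h4 y hy)
    intro heq
    apply hyx
    have a1 := (Finset.mem_filter.1 hy)
    have b1 := (Finset.mem_filter.1 hx)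
    have a2 := (Finset.mem_filter.1 a1.1)
    have b2 := (Finset.mem_filter.1 b1.1)
    have c1 := a1.2.trans b1.2.symm
    have c2 := a2.2.trans b2.2.symm
    rw [ver_single, ver_single] at c1 c2 heq
    funext i
    fin_cases i
    · exact c2
    · exact c1
    · exact heq
  have hV2 := ver_step h3 hV3
  have hV1 := ver_step h2 hV2
  have hV := ver_step h1 hV1
  refine ⟨x, ?_, hV⟩
  intro y hy
  have e := (Finset.mem_filter.1 hV1.1).2
  rw [e]
  exact h1 y hy

theorem isV_of_face {A : Finset W} {n g : W} {c : ℤ} (hle : ∀ y ∈ A, d3 n y ≤ c) {x : W} (hx : x ∈ Face A n c)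
    (hg : ∀ y ∈ Face A n c, y ≠ x → d3 g y < d3 g x) : IsV A x := ver_face hle hx hg

theorem isV_ext {A : Finset W} {x : W} (h : IsV A x) : emb x ∈ (hull A).extremePoints ℝ := by
  classical
  obtain ⟨hx, n, hn⟩ := h
  have key : ∀ z ∈ hull A, ∑ i, (n i : ℝ) * z i ≤ (d3 n x : ℝ) ∧
      ((d3 n x : ℝ) ≤ ∑ i, (n i : ℝ) * z i → z = emb x) := by
    intro z hz
    obtain ⟨l, hl0, hl1, hl⟩ := mem_hull.1 hz
    have e1 : ∑ i, (n i : ℝ) * z i = ∑ y ∈ A, l y * (d3 n y : ℝ) := by
      simp only [← hl, Finset.mul_sum]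
      rw [Finset.sum_comm]
      apply Finset.sum_congr rfl
      intro y _
      rw [d3, Int.cast_sum, Finset.mul_sum]
      apply Finset.sum_congr rfl
      intro i _
      push_cast
      ring
    have e2 : (d3 n x : ℝ) = ∑ y ∈ A, l y * (d3 n x : ℝ) := by
      rw [← Finset.sum_mul, hl1, one_mul]
    have hle : ∀ y ∈ A, l y * (d3 n y : ℝ) ≤ l y * (d3 n x : ℝ) := by
      intro y hy
      apply mul_le_mul_of_nonneg_left _ (hl0 y hy)
      by_cases hyx : y = x
      · rw [hyx]
      · exact_mod_cast (hn y hy hyx).le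
    constructor
    · rw [e1, e2]
      exact Finset.sum_le_sum hle
    · intro h2
      have h0 : ∀ y ∈ A, y ≠ x → l y = 0 := by
        intro y hy hyx
        by_contra hne
        have hpos : 0 < l y := lt_of_le_of_ne (hl0 y hy) (Ne.symm hne)
        have hlt : ∑ y ∈ A, l y * (d3 n y : ℝ) < ∑ y ∈ A, l y * (d3 n x : ℝ) := by
          apply Finset.sum_lt_sum hle
          refine ⟨y, hy, ?_⟩
          apply mul_lt_mul_of_pos_left _ hpos
          exact_mod_cast hn y hy hyx
        rw [← e2, ← e1] at hlt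
        linarith
      have hlx : l x = 1 := by
        rw [← hl1]
        symm
        exact Finset.sum_eq_single x h0 (fun h => absurd hx h)
      funext i
      rw [← hl i, Finset.sum_eq_single x (fun y hy hyx => by rw [h0 y hy hyx, zero_mul])
        (fun h => absurd hx h), hlx, one_mul]
      rfl
  have hex : ∑ i, (n i : ℝ) * (emb x) i = (d3 n x : ℝ) := by
    rw [d3, Int.cast_sum]
    apply Finset.sum_congr rfl
    intro i _
    push_cast
    rfl
  have main : ∀ z ∈ hull A, ∀ z' ∈ hull A, emb x ∈ openSegment ℝ z z' → z = emb x := by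
    intro z hz z' hz' hseg
    obtain ⟨a, b, ha, hb, hab, hz2⟩ := hseg
    have e3 : (d3 n x : ℝ) = a * ∑ i, (n i : ℝ) * z i + b * ∑ i, (n i : ℝ) * z' i := by
      rw [← hex, ← hz2, Finset.mul_sum, Finset.mul_sum, ← Finset.sum_add_distrib]
      apply Finset.sum_congr rfl
      intro i _
      simp only [Pi.add_apply, Pi.smul_apply, smul_eq_mul]
      ring
    apply (key z hz).2
    by_contra hcon
    push Not at hcon
    have h1 : a * ∑ i, (n i : ℝ) * z i < a * (d3 n x : ℝ) := mul_lt_mul_of_pos_left hcon ha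
    have h2 : b * ∑ i, (n i : ℝ) * z' i ≤ b * (d3 n x : ℝ) := mul_le_mul_of_nonneg_left (key z' hz').1 hb.le
    have h3 : a * (d3 n x : ℝ) + b * (d3 n x : ℝ) = d3 n x := by
      rw [← add_mul, hab, one_mul]
    linarith
  have hxm : emb x ∈ hull A := subset_convexHull ℝ _ ⟨x, hx, rfl⟩
  rw [mem_extremePoints]
  refine ⟨hxm, ?_⟩
  intro z hz z' hz' hseg
  exact ⟨main z hz z' hz' hseg, main z' hz' z hz (by rwa [openSegment_symm])⟩

theorem smooth_pts {P : Set (Fin 3 → ℝ)} (hP : IsSmooth P) {A : Finset W} (hA : ∀ x, x ∈ A ↔ emb x ∈ P) :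
    Smo A ∧ LatA A ∧ P = hull A ∧ A.Nonempty := by
  classical
  obtain ⟨AQ, hne, hPQ, hmem⟩ := hP.pts
  have hAA : A = AQ := by
    ext x
    rw [hA, hmem]
  subst hAA
  refine ⟨?_, ?_, hPQ, hne⟩
  · intro x hx
    have hext := isV_ext hx
    rw [← hPQ] at hext
    obtain ⟨b, hb1, hb2, hb3⟩ := hP.2 (emb x) hext
    refine ⟨b, hx.1, hb1, ?_, ?_⟩
    · intro i
      rw [hA]
      have e : emb (x + b i) = emb x + emb (b i) := by
        funext j
        simp [emb]
      rw [e]
      exact hb2 i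
    · intro y hy
      obtain ⟨t, ht0, ht⟩ := hb3 (emb y) ((hA y).1 hy)
      obtain ⟨d, hd⟩ := gen_dual hb1
      have hc : ∀ k, ∑ i, t i * (b i k : ℝ) = ((y - x) k : ℤ) := by
        intro k
        have h1 := congrFun ht k
        simp only [Pi.add_apply, Finset.sum_apply, Pi.smul_apply, smul_eq_mul, emb] at h1
        rw [Pi.sub_apply, Int.cast_sub]
        linarith
      refine ⟨fun i => d3 (d i) (y - x), ?_, ?_⟩
      · intro i
        have h2 := expandR hd hc i
        have h3 := ht0 i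
        rw [h2] at h3
        exact_mod_cast h3
      · rw [expand hb1 hd (y - x)]
        abel
  · intro x hx
    rw [hA, hPQ]
    exact hx

end Pool.Agent.SPK

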