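import Pool.Agent.SPK.Aff
import Pool.Agent.SPK.Ver

/-!
# [SPK-Red] standard position

`basis_equiv`: `d` from `gen_dual`; `φ y = fun i => d3 (d i) y`, inverse `z ↦ ∑ z i • b i` (`expand`).
`red_step`: `face_vertex` for `-u` gives a vertex `x` of `A` which minimizes `u`; `u x = c` (the three points). `Smo`: basis `b`; `u (b i) ≥ 0` (`x + b i ∈ A`). The points `p, q, r` of the facet are `x + ∑ t i • b i` with `t i = 0` whenever `u (b i) > 0`; as they are not collinear, at least two of the `u (b i)` are `0`; not all (`u` takes the value `1`, `gen`). Permute (`Vtx.perm`): `u (b 0) = u (b 1) = 0`, `u (b 2) = m > 0`, and `1 = u y = c₂ m` gives `m = 1`. `φ` from `basis_equiv`: `(φ y) 2 = u y` (write `y = ∑ c i • b i`), `a = x`: `(tr φ x y) 2 = u y - c`.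
`red_thin`: `u x` minimal at the vertex `x`, `u (b i) ≥ 0`, not all `0` (`u ≠ 0`, `gen`), permute: `u (b 2) ≥ 1`. For `y ∈ A`: `y = x + ∑ t i • b i`, `t i ≥ 0`, `t 2 ≤ t 2 * u (b 2) ≤ u y - u x ≤ 1`. With `φ`: `(tr φ x y) 2 = t 2`. `0, e₁, e₂` are in the image (`x, x + b 0, x + b 1`), `e₃` too.
-/

open Finset Pool.Agent.SPB

set_option autoImplicit false

namespace Pool.Agent.SPK

private theorem rd_sum (n : W) (c : Fin 3 → ℤ) (b : Fin 3 → W) :
    d3 n (∑ i, c i • b i) = ∑ i, c i * d3 n (b i) := by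
  simp only [Fin.sum_univ_three, d3_add, d3_smul]

private theorem rd_neg (n x : W) : d3 (-n) x = - d3 n x := by
  simp only [d3, Pi.neg_apply, neg_mul, Finset.sum_neg_distrib]

theorem basis_equiv {b : Fin 3 → W} (hb : ∀ y : W, ∃ c : Fin 3 → ℤ, ∑ i, c i • b i = y) :
    ∃ φ : W ≃+ W, ∀ c : Fin 3 → ℤ, φ (∑ i, c i • b i) = c := by
  obtain ⟨d, hd⟩ := gen_dual hb
  have hr : ∀ z : Fin 3 → ℤ, (fun i => d3 (d i) (∑ j, z j • b j)) = z := by
    intro z
    funext i
    rw [rd_sum, Finset.sum_eq_single i]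
    · rw [hd, if_pos rfl, mul_one]
    · intro j _ hj
      rw [hd, if_neg (Ne.symm hj), mul_zero]
    · intro h
      exact absurd (Finset.mem_univ i) h
  exact ⟨{ toFun := fun y i => d3 (d i) y
           invFun := fun z => ∑ i, z i • b i
           left_inv := fun y => expand hb hd y
           right_inv := hr
           map_add' := fun y z => funext fun i => d3_add _ _ _ }, hr⟩

private theorem rd_phi {b : Fin 3 → W} {φ : W ≃+ W}
    (hφ : ∀ c : Fin 3 → ℤ, φ (∑ i, c i • b i) = c) (j : Fin 3) :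
    φ (b j) = Pi.single j 1 := by
  have h : ∑ i, (Pi.single j 1 : Fin 3 → ℤ) i • b i = b j := by
    rw [Finset.sum_eq_single j]
    · rw [Pi.single_eq_same, one_smul]
    · intro i _ hi
      rw [Pi.single_eq_of_ne hi, zero_smul]
    · intro h
      exact absurd (Finset.mem_univ j) h
  have h2 := hφ (Pi.single j 1)
  rw [h] at h2
  exact h2

private theorem rd_min {A : Finset W} (hne : A.Nonempty) (hS : Smo A) (u : W) :
    ∃ x b, Vtx A x b ∧ (∀ y ∈ A, d3 u x ≤ d3 u y) ∧ ∀ i, 0 ≤ d3 u (b i) := by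
  obtain ⟨x, hx, hv⟩ := face_vertex hne (-u)
  obtain ⟨b, hb⟩ := hS x hv
  have h1 : ∀ y ∈ A, d3 u x ≤ d3 u y := fun y hy => by
    have := hx y hy
    rw [rd_neg, rd_neg] at this
    omega
  refine ⟨x, b, hb, h1, fun i => ?_⟩
  have := h1 _ (hb.step i)
  rw [d3_add] at this
  omega

private theorem rd_swap {k i : Fin 3} (hi : i ≠ 2) : Equiv.swap k 2 i ≠ k := by
  intro h
  exact hi ((Equiv.swap k 2).injective (h.trans (Equiv.swap_apply_right k 2).symm))

theorem red_step {A : Finset W} (hS : Smo A) (hL : LatA A) {u : W} {c : ℤ} (hprim : ∃ y, d3 u y = 1)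
    (hc : ∀ x ∈ A, c ≤ d3 u x) (hN : NonCol (A.filter (fun x => d3 u x = c)))
    (hup : ∃ x ∈ A, c + 1 ≤ d3 u x) :
    ∃ (φ : W ≃+ W) (a : W), Bt (trA φ a A) ∧ ∀ y, tr φ a y 2 = d3 u y - c := by
  obtain ⟨p, hp, q, hq, r, hr, hpqr⟩ := id hN
  rw [Finset.mem_filter] at hp hq hr
  obtain ⟨x, b, hb, hmin, hnn⟩ := rd_min ⟨p, hp.1⟩ hS u
  have hxc : d3 u x = c := le_antisymm (by rw [← hp.2]; exact hmin p hp.1) (hc x hb.mem)
  obtain ⟨y1, hy1⟩ := hprim
  obtain ⟨c1, hc1⟩ := hb.gen y1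
  have hk : ∃ k, d3 u (b k) ≠ 0 := by
    by_contra hcon
    push Not at hcon
    rw [← hc1, rd_sum] at hy1
    simp [hcon] at hy1
  obtain ⟨k, hk⟩ := hk
  have hkpos : 0 < d3 u (b k) := lt_of_le_of_ne (hnn k) (Ne.symm hk)
  have hface : ∀ y ∈ A, d3 u y = c → ∃ t : Fin 3 → ℤ, (∀ i, d3 u (b i) ≠ 0 → t i = 0) ∧
      x + ∑ i, t i • b i = y := by
    intro y hy hyc
    obtain ⟨t, ht0, ht⟩ := hb.cone y hy
    refine ⟨t, fun i hi => ?_, ht⟩
    rw [← ht, d3_add, rd_sum, hxc] at hyc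
    have h2 : ∑ i, t i * d3 u (b i) = 0 := by omega
    rw [Finset.sum_eq_zero_iff_of_nonneg (fun i _ => mul_nonneg (ht0 i) (hnn i))] at h2
    exact (mul_eq_zero.1 (h2 i (Finset.mem_univ i))).resolve_right hi
  have hthird : ∀ j k : Fin 3, j ≠ k → ∃ l : Fin 3, ∀ i, i ≠ j → i ≠ k → i = l := by decide
  have hz : ∀ j, j ≠ k → d3 u (b j) = 0 := by
    intro j hj
    by_contra hcon
    obtain ⟨l, hl⟩ := hthird j k hj
    have hline : ∀ y ∈ A, d3 u y = c → ∃ m : ℤ, y = x + m • b l := by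
      intro y hy hyc
      obtain ⟨t, ht0, ht⟩ := hface y hy hyc
      refine ⟨t l, ?_⟩
      rw [← ht, Finset.sum_eq_single l]
      · intro i _ hil
        have h3 : i = j ∨ i = k := by
          by_contra h
          rw [not_or] at h
          exact hil (hl i h.1 h.2)
        rcases h3 with h3 | h3
        · rw [h3, ht0 _ hcon, zero_smul]
        · rw [h3, ht0 _ hk, zero_smul]
      · intro h
        exact absurd (Finset.mem_univ l) h
    obtain ⟨m0, hm0⟩ := hline p hp.1 hp.2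
    obtain ⟨m1, hm1⟩ := hline q hq.1 hq.2
    obtain ⟨m2, hm2⟩ := hline r hr.1 hr.2
    have e1 : q - p = (m1 - m0) • b l := by
      rw [hm0, hm1, sub_smul]
      abel
    have e2 : r - p = (m2 - m0) • b l := by
      rw [hm0, hm2, sub_smul]
      abel
    have h4 := hpqr (m2 - m0) (-(m1 - m0)) (by
      rw [e1, e2, smul_smul, smul_smul, ← add_smul]
      have h5 : (m2 - m0) * (m1 - m0) + -(m1 - m0) * (m2 - m0) = 0 := by ring
      rw [h5, zero_smul])
    have h5 : m1 - m0 = 0 := by omega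
    have h6 := hpqr 1 0 (by rw [e1, h5, zero_smul, smul_zero, zero_smul, add_zero])
    exact one_ne_zero h6.1
  have hk1 : d3 u (b k) = 1 := by
    rw [← hc1, rd_sum, Finset.sum_eq_single k] at hy1
    · rw [mul_comm] at hy1
      rcases Int.eq_one_or_neg_one_of_mul_eq_one hy1 with h | h
      · exact h
      · omega
    · intro i _ hi
      rw [hz i hi, mul_zero]
    · intro h
      exact absurd (Finset.mem_univ k) h
  obtain ⟨φ, hφ⟩ := basis_equiv (hb.perm (Equiv.swap k 2)).gen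
  have hφ2 : ∀ y, φ y 2 = d3 u y := by
    intro y
    obtain ⟨t, ht⟩ := (hb.perm (Equiv.swap k 2)).gen y
    rw [← ht, hφ, rd_sum, Finset.sum_eq_single 2]
    · rw [Function.comp_apply, Equiv.swap_apply_right, hk1, mul_one]
    · intro i _ hi
      rw [Function.comp_apply, hz _ (rd_swap hi), mul_zero]
    · intro h
      exact absurd (Finset.mem_univ _) h
  have htr : ∀ y, tr φ x y 2 = d3 u y - c := by
    intro y
    unfold tr
    rw [hφ2, d3_sub, hxc]
  refine ⟨φ, x, ⟨tr_smo hS, tr_lat hL, ?_, ?_, ?_⟩, htr⟩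
  · intro z hz
    obtain ⟨y, hy, rfl⟩ := Finset.mem_image.1 hz
    rw [htr]
    have := hc y hy
    omega
  · have e : (trA φ x A).filter (fun z => z 2 = 0) =
        trA φ x (A.filter (fun y => d3 u y = c)) := by
      ext z
      simp only [trA, Finset.mem_filter, Finset.mem_image]
      constructor
      · rintro ⟨⟨y, hy, rfl⟩, h⟩
        rw [htr] at h
        exact ⟨y, ⟨hy, by omega⟩, rfl⟩
      · rintro ⟨y, ⟨hy, h⟩, rfl⟩
        exact ⟨⟨y, hy, rfl⟩, by rw [htr]; omega⟩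
    rw [e]
    exact tr_nonCol.2 hN
  · obtain ⟨y, hy, hyc⟩ := hup
    refine ⟨tr φ x y, ?_⟩
    unfold up
    rw [Finset.mem_filter]
    exact ⟨Finset.mem_image_of_mem _ hy, by rw [htr]; omega⟩

theorem red_thin {A : Finset W} (hne : A.Nonempty) (hS : Smo A) (hL : LatA A) {u : W} (hu : u ≠ 0) {c : ℤ}
    (hc : ∀ x ∈ A, c ≤ d3 u x ∧ d3 u x ≤ c + 1) :
    ∃ (φ : W ≃+ W) (a : W), Bt (trA φ a A) ∧ ∀ y ∈ trA φ a A, y 2 ≤ 1 := by
  obtain ⟨x, b, hb, hmin, hnn⟩ := rd_min hne hS u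
  have hk : ∃ k, d3 u (b k) ≠ 0 := by
    by_contra hcon
    push Not at hcon
    apply hu
    funext i
    obtain ⟨t, ht⟩ := hb.gen (Pi.single i 1)
    have h1 : d3 u (Pi.single i 1) = u i := by
      unfold d3
      rw [Finset.sum_eq_single i]
      · rw [Pi.single_eq_same, mul_one]
      · intro j _ hj
        rw [Pi.single_eq_of_ne hj, mul_zero]
      · intro h
        exact absurd (Finset.mem_univ i) h
    rw [← h1, ← ht, rd_sum]
    simp [hcon]
  obtain ⟨k, hk⟩ := hk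
  have hkpos : 0 < d3 u (b k) := lt_of_le_of_ne (hnn k) (Ne.symm hk)
  have hb' := hb.perm (Equiv.swap k 2)
  have hb2 : (b ∘ Equiv.swap k 2) 2 = b k := by
    rw [Function.comp_apply, Equiv.swap_apply_right]
  have hnn' : ∀ i, 0 ≤ d3 u ((b ∘ Equiv.swap k 2) i) := fun i => hnn _
  generalize b ∘ Equiv.swap k 2 = b' at hb' hb2 hnn'
  obtain ⟨φ, hφ⟩ := basis_equiv hb'.gen
  have hcoord : ∀ y ∈ A, 0 ≤ tr φ x y 2 ∧ tr φ x y 2 ≤ 1 := by
    intro y hy
    obtain ⟨t, ht0, ht⟩ := hb'.cone y hy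
    have e : tr φ x y = t := by
      unfold tr
      rw [← ht, add_sub_cancel_left]
      exact hφ t
    rw [e]
    refine ⟨ht0 2, ?_⟩
    have h1 := (hc y hy).2
    have h2 := (hc x hb.mem).1
    rw [← ht, d3_add, rd_sum, Fin.sum_univ_three, hb2] at h1
    have h3 := mul_nonneg (ht0 0) (hnn' 0)
    have h4 := mul_nonneg (ht0 1) (hnn' 1)
    have h5 : t 2 * 1 ≤ t 2 * d3 u (b k) := mul_le_mul_of_nonneg_left (by omega) (ht0 2)
    omega
  have hstep : ∀ j, tr φ x (x + b' j) = Pi.single j 1 := by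
    intro j
    unfold tr
    rw [add_sub_cancel_left]
    exact rd_phi hφ j
  have h0 : tr φ x x = 0 := by
    unfold tr
    rw [sub_self, map_zero]
  have hmem0 : (0 : W) ∈ trA φ x A := by
    rw [← h0]
    exact Finset.mem_image_of_mem _ hb.mem
  have hmem : ∀ j, (Pi.single j 1 : W) ∈ trA φ x A := by
    intro j
    rw [← hstep j]
    exact Finset.mem_image_of_mem _ (hb'.step j)
  refine ⟨φ, x, ⟨tr_smo hS, tr_lat hL, ?_, ?_, ?_⟩, ?_⟩
  · intro z hz
    obtain ⟨y, hy, rfl⟩ := Finset.mem_image.1 hz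
    exact (hcoord y hy).1
  · refine ⟨0, ?_, Pi.single 0 1, ?_, Pi.single 1 1, ?_, ?_⟩
    · rw [Finset.mem_filter]
      exact ⟨hmem0, rfl⟩
    · rw [Finset.mem_filter]
      exact ⟨hmem 0, rfl⟩
    · rw [Finset.mem_filter]
      exact ⟨hmem 1, rfl⟩
    · intro s t h
      have e0 := congrFun h 0
      have e1 := congrFun h 1
      simpa using And.intro e0 e1
  · refine ⟨Pi.single 2 1, ?_⟩
    unfold up
    rw [Finset.mem_filter]
    exact ⟨hmem 2, le_of_eq rfl⟩
  · intro z hz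
    obtain ⟨y, hy, rfl⟩ := Finset.mem_image.1 hz
    exact (hcoord y hy).2

end Pool.Agent.SPK
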