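import Pool.Agent.SPK.Aff
import Pool.Agent.SPK.Bot
import Pool.Agent.SPK.BotF
import Pool.Agent.SPK.BotG
import Pool.Agent.SPK.GroP
import Pool.Agent.SPK.ChoA

/-!
# [SPK-Thin] polytopes of lattice width one

`A` has levels `0` and `1`, `T` the planar set of the level `1`, `up A = lift T 1`. `w' x = ω (x 0, x 1)`; `RU (up A) w'` iff `UniV (arg T ω a)` for all `a` (`ru_lift`).
`T` collinear: `T = row e s c` (`lat_row`; `LatConv T` from `LatA`, `T` nonempty), `base_pp` with `B = {0}` (`uev1`, `good_pt`..., `pt_pp`), `Good2.left`.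
`T` noncollinear: `A' = {(x, y, 1 - z)}` (image under `tr φ a` with `φ (x, y, z) = (x, y, -z)`, `a = (0, 0, 1)`) satisfies `Bt`, so `exists_BD` gives `F, h` with `IsPts F h T` (`pt x 0 ∈ A'` iff `pt x 1 ∈ A`). `opp`: `u, -u ∈ F`: `pt_pp`, `grow_pp` with `B = {0}`; `OK (lift T 1)` by `smooth_rul`, `PPi_lift`. Fan of the plane: `grow_tri`, `smooth_tri`.
`EdgeNorm F {0}` is trivial. Facets of `A` with noncollinear upper part: `n 0 = n 1 = 0` and (`Fac.lt`) `n 2 ≠ 0`, so the facet is `{z = 1}`.
-/

open Finset Pool.Agent.SPB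

set_option autoImplicit false

namespace Pool.Agent.SPK

private theorem thin_uni_lift {C : Finset V} (h : UniV C) (z : ℤ) : Uni (lift C z) := by
  intro c h1 h2
  have hinj : ∀ (g : W → ℝ), ∑ x ∈ lift C z, g x = ∑ x ∈ C, g (pt x z) := by
    intro g
    unfold lift
    rw [Finset.sum_image]
    intro x _ y _ hxy
    exact (pt_inj.1 hxy).1
  rw [hinj] at h1
  have h20 := h2 0
  have h21 := h2 1
  rw [hinj] at h20 h21
  have := h (fun x => c (pt x z)) h1 (by simpa using h20) (by simpa using h21)
  intro x hx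
  rw [mem_lift] at hx
  have h3 := this _ hx.2
  have h4 := pt_eta x
  rw [hx.1] at h4
  rw [← h4]
  exact h3

theorem ru_lift {T : Finset V} {ω : V → ℝ} (h : ∀ a, UniV (arg T ω a)) {w' : W → ℝ}
    (hw : ∀ x, w' x = ω (x 0, x 1)) (z : ℤ) : RU (lift T z) w' := by
  classical
  intro a b hab
  rcases (contact (lift T z) w' a b).eq_empty_or_nonempty with he | ⟨x₀, hx₀⟩
  · rw [he]
    intro c _ _ x hx
    exact absurd hx (Finset.notMem_empty x)
  · have hx₀' : x₀ ∈ lift T z ∧ ∑ i, a i * (x₀ i : ℝ) + b = w' x₀ := by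
      simpa [contact] using hx₀
    have key : contact (lift T z) w' a b = lift (arg T ω (a 0, a 1)) z := by
      ext x
      have hc : x ∈ contact (lift T z) w' a b ↔
          x ∈ lift T z ∧ ∑ i, a i * (x i : ℝ) + b = w' x := by
        simp [contact]
      rw [hc, mem_lift, mem_lift]
      simp only [arg, Finset.mem_filter]
      constructor
      · rintro ⟨⟨h1, h2⟩, h3⟩
        refine ⟨h1, h2, ?_⟩
        intro y hy
        have h4 := hab (pt y z) (by rw [mem_lift]; exact ⟨rfl, hy⟩)
        rw [hw] at h3 h4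
        simp only [Fin.sum_univ_three, pt_zero, pt_one, pt_two] at h3 h4
        rw [h1] at h3
        simp only [dotR]
        have h6 : ω (y.1, y.2) = ω y := rfl
        rw [h6] at h4
        linarith
      · rintro ⟨h1, h2, h3⟩
        refine ⟨⟨h1, h2⟩, ?_⟩
        have h4 := hab x (by rw [mem_lift]; exact ⟨h1, h2⟩)
        obtain ⟨hm, h5⟩ := hx₀'
        rw [mem_lift] at hm
        have h6 := h3 _ hm.2
        rw [hw] at h4 h5 ⊢
        simp only [Fin.sum_univ_three, dotR] at h4 h5 h6 ⊢
        rw [h1] at h4 ⊢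
        rw [hm.1] at h5
        linarith
    rw [key]
    exact thin_uni_lift (h _) z

private def thinPhi : W ≃+ W where
  toFun x := ![x 0, x 1, - x 2]
  invFun x := ![x 0, x 1, - x 2]
  left_inv x := by
    funext i
    fin_cases i <;> simp
  right_inv x := by
    funext i
    fin_cases i <;> simp
  map_add' x y := by
    funext i
    fin_cases i <;> simp [add_comm]

private theorem thin_rt (y : W) : rt thinPhi ![0, 0, 1] y = ![y 0, y 1, - y 2 + 1] := by
  unfold rt
  have h : thinPhi.symm y = ![y 0, y 1, - y 2] := rfl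
  rw [h]
  funext i
  fin_cases i <;> simp

private theorem thin_det_of_nonCol {T : Finset V} {z z' : ℤ} (h : NonCol (lift T z)) :
    NonCol (lift T z') := nonCol_lift.2 (nonCol_lift.1 h)

private theorem thin_prim {F : Finset V} (hF : SmoothFan F) {u : V} (hu : u ∈ F) :
    Prim (u.2, -u.1) := by
  obtain ⟨w, hw⟩ := hF.next u hu
  have hd := hw.2.2.1
  unfold det at hd
  exact ⟨-w.1, -w.2, by simp only; linarith⟩

private theorem thin_arg0 (a : ℝ × ℝ) : UniV (arg {0} (fun _ => (0 : ℝ)) a) :=
  Good2.right (A := {0}) (ω := fun _ => 0) (B := {0}) (ω' := fun _ => 0)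
    (good_pt (by
      intro a
      intro c h1 _ _ x hx
      have hx0 : x = 0 := by
        simp only [arg, Finset.mem_filter, Finset.mem_singleton] at hx
        exact hx.1
      have harg : arg {0} (fun _ => (0 : ℝ)) a = ({0} : Finset V) := by
        ext y
        simp only [arg, Finset.mem_filter, Finset.mem_singleton]
        constructor
        · exact fun h => h.1
        · rintro rfl
          exact ⟨rfl, fun y hy => by rw [hy]⟩
      rw [harg, Finset.sum_singleton] at h1
      rw [hx0]; exact h1) 0 _) a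

private theorem thin_edgeNorm (F : Finset V) : EdgeNorm F ({0} : Finset V) := by
  intro x hx y hy hxy
  rw [Finset.mem_singleton] at hx hy
  exact absurd (hx.trans hy.symm) hxy

theorem thin {A : Finset W} (hA : Bt A) (h1 : ∀ x ∈ A, x 2 ≤ 1) : ∃ w' : W → ℝ, RU (up A) w' ∧
    (NonCol (A.filter (fun x => x 2 = 1)) → OK (A.filter (fun x => x 2 = 1)) w') ∧
    ∀ n c, Fac A n c → NonCol (up (Face A n c)) → OK (up (Face A n c)) w' := by
  classical
  obtain ⟨T, hT⟩ : ∃ T : Finset V, ∀ x, x ∈ T ↔ pt x 1 ∈ A := by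
    refine ⟨(A.filter (fun x => x 2 = 1)).image (fun x => (x 0, x 1)), fun x => ?_⟩
    simp only [Finset.mem_image, Finset.mem_filter]
    constructor
    · rintro ⟨y, ⟨hy, hy2⟩, rfl⟩
      rw [← hy2, pt_eta]
      exact hy
    · intro hx
      exact ⟨pt x 1, ⟨hx, rfl⟩, rfl⟩
  have hlev : A.filter (fun x => x 2 = 1) = lift T 1 := by
    ext x
    rw [Finset.mem_filter, mem_lift, hT]
    constructor
    · rintro ⟨hx, hx2⟩
      refine ⟨hx2, ?_⟩
      rw [← hx2, pt_eta]
      exact hx
    · rintro ⟨hx2, hx⟩
      rw [← hx2, pt_eta] at hx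
      exact ⟨hx, hx2⟩
  have hup : up A = lift T 1 := by
    rw [← hlev]
    ext x
    simp only [up, Finset.mem_filter]
    constructor
    · rintro ⟨hx, hx2⟩
      exact ⟨hx, le_antisymm (h1 x hx) hx2⟩
    · rintro ⟨hx, hx2⟩
      exact ⟨hx, hx2.ge⟩
  -- facets with a noncollinear upper part
  have hfac : ∀ n c, Fac A n c → NonCol (up (Face A n c)) →
      up (Face A n c) = lift T 1 ∧ NonCol (lift T 1) := by
    intro n c hf hnc
    have hsub : up (Face A n c) ⊆ lift T 1 := by
      rw [← hup]
      intro x hx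
      simp only [up, Face, Finset.mem_filter] at hx ⊢
      exact ⟨hx.1.1, hx.2⟩
    obtain ⟨x, hx, y, hy, z, hz, hind⟩ := hnc
    have hx1 := (mem_lift.1 (hsub hx)).1
    have hy1 := (mem_lift.1 (hsub hy)).1
    have hz1 := (mem_lift.1 (hsub hz)).1
    have hval : ∀ t ∈ up (Face A n c), d3 n t = c := by
      intro t ht
      simp only [up, Face, Finset.mem_filter] at ht
      exact ht.1.2
    have ex := hval x hx
    have ey := hval y hy
    have ez := hval z hz
    have e3 : ∀ t : W, d3 n t = n 0 * t 0 + n 1 * t 1 + n 2 * t 2 := by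
      intro t
      simp only [d3, Fin.sum_univ_three]
    rw [e3] at ex ey ez
    rw [hx1] at ex
    rw [hy1] at ey
    rw [hz1] at ez
    have hdet : (y 0 - x 0) * (z 1 - x 1) - (y 1 - x 1) * (z 0 - x 0) ≠ 0 := by
      intro hd
      -- a nontrivial relation
      have r1 := hind (z 1 - x 1) (-(y 1 - x 1)) (by
        funext i
        fin_cases i
        · simp only [Pi.add_apply, Pi.smul_apply, Pi.sub_apply, smul_eq_mul, Pi.zero_apply,
            Fin.zero_eta]
          linarith
        · simp only [Pi.add_apply, Pi.smul_apply, Pi.sub_apply, smul_eq_mul, Pi.zero_apply,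
            Fin.mk_one]
          ring
        · simp only [Pi.add_apply, Pi.smul_apply, Pi.sub_apply, smul_eq_mul, Pi.zero_apply,
            Fin.reduceFinMk, hx1, hy1, hz1]
          ring)
      have r2 := hind (z 0 - x 0) (-(y 0 - x 0)) (by
        funext i
        fin_cases i
        · simp only [Pi.add_apply, Pi.smul_apply, Pi.sub_apply, smul_eq_mul, Pi.zero_apply,
            Fin.zero_eta]
          ring
        · simp only [Pi.add_apply, Pi.smul_apply, Pi.sub_apply, smul_eq_mul, Pi.zero_apply,
            Fin.mk_one]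
          linarith
        · simp only [Pi.add_apply, Pi.smul_apply, Pi.sub_apply, smul_eq_mul, Pi.zero_apply,
            Fin.reduceFinMk, hx1, hy1, hz1]
          ring)
      have r3 := hind 1 0 (by
        funext i
        fin_cases i
        · simp only [Pi.add_apply, Pi.smul_apply, Pi.sub_apply, smul_eq_mul, Pi.zero_apply,
            Fin.zero_eta]
          linarith [r2.2]
        · simp only [Pi.add_apply, Pi.smul_apply, Pi.sub_apply, smul_eq_mul, Pi.zero_apply,
            Fin.mk_one]
          linarith [r1.2]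
        · simp only [Pi.add_apply, Pi.smul_apply, Pi.sub_apply, smul_eq_mul, Pi.zero_apply,
            Fin.reduceFinMk, hx1, hy1, hz1]
          ring)
      exact absurd r3.1 one_ne_zero
    have g1 : n 0 * (y 0 - x 0) + n 1 * (y 1 - x 1) = 0 := by linarith
    have g2 : n 0 * (z 0 - x 0) + n 1 * (z 1 - x 1) = 0 := by linarith
    have hn0 : n 0 = 0 := by
      have : n 0 * ((y 0 - x 0) * (z 1 - x 1) - (y 1 - x 1) * (z 0 - x 0)) = 0 := by
        linear_combination (z 1 - x 1) * g1 - (y 1 - x 1) * g2
      exact (mul_eq_zero.1 this).resolve_right hdet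
    have hn1 : n 1 = 0 := by
      have : n 1 * ((y 0 - x 0) * (z 1 - x 1) - (y 1 - x 1) * (z 0 - x 0)) = 0 := by
        linear_combination (y 0 - x 0) * g2 - (z 0 - x 0) * g1
      exact (mul_eq_zero.1 this).resolve_right hdet
    have hn2 : n 2 = c := by
      rw [hn0, hn1] at ex
      linarith
    have heq : up (Face A n c) = lift T 1 := by
      apply Finset.Subset.antisymm hsub
      rw [← hup]
      intro t ht
      have ht' := ht
      rw [hup, mem_lift] at ht'
      simp only [up, Face, Finset.mem_filter] at ht ⊢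
      refine ⟨⟨ht.1, ?_⟩, ht.2⟩
      rw [e3, hn0, hn1, hn2, ht'.1]
      ring
    exact ⟨heq, heq ▸ ⟨x, hx, y, hy, z, hz, hind⟩⟩
  have hred : ∀ w' : W → ℝ, (NonCol (lift T 1) → OK (lift T 1) w') →
      (NonCol (A.filter (fun x => x 2 = 1)) → OK (A.filter (fun x => x 2 = 1)) w') ∧
      ∀ n c, Fac A n c → NonCol (up (Face A n c)) → OK (up (Face A n c)) w' := by
    intro w' hw'
    rw [hlev]
    refine ⟨hw', fun n c hf hnc => ?_⟩
    obtain ⟨h2, h3⟩ := hfac n c hf hnc
    rw [h2]
    exact hw' h3
  by_cases hcol : NonCol (lift T 1)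
  · -- the upper level is a polygon
    have hmem : ∀ y : W, y ∈ trA thinPhi ![0, 0, 1] A ↔ (![y 0, y 1, - y 2 + 1] : W) ∈ A := by
      intro y
      rw [mem_trA, thin_rt]
    have hpt0 : ∀ x : V, pt x 0 ∈ trA thinPhi ![0, 0, 1] A ↔ pt x 1 ∈ A := by
      intro x
      rw [hmem]
      have : (![(pt x 0) 0, (pt x 0) 1, - (pt x 0) 2 + 1] : W) = pt x 1 := by
        funext i
        fin_cases i <;> simp [pt]
      rw [this]
    have hBt : Bt (trA thinPhi ![0, 0, 1] A) := by
      refine ⟨tr_smo hA.smo, tr_lat hA.lat, ?_, ?_, ?_⟩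
      · intro y hy
        rw [hmem] at hy
        have := h1 _ hy
        simp only [Matrix.cons_val] at this
        linarith
      · have : (trA thinPhi ![0, 0, 1] A).filter (fun x => x 2 = 0) = lift T 0 := by
          ext x
          rw [Finset.mem_filter, mem_lift, hT, ← hpt0]
          constructor
          · rintro ⟨hx, hx2⟩
            refine ⟨hx2, ?_⟩
            have h4 := pt_eta x
            rw [hx2] at h4
            rw [h4]
            exact hx
          · rintro ⟨hx2, hx⟩
            have h4 := pt_eta x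
            rw [hx2] at h4
            rw [h4] at hx
            exact ⟨hx, hx2⟩
        rw [this]
        exact thin_det_of_nonCol hcol
      · obtain ⟨x, hx, -⟩ := hA.nc
        rw [Finset.mem_filter] at hx
        refine ⟨![x 0, x 1, 1], ?_⟩
        simp only [up, Finset.mem_filter]
        refine ⟨?_, by simp⟩
        rw [hmem]
        have : (![(![x 0, x 1, 1] : W) 0, (![x 0, x 1, 1] : W) 1,
            - (![x 0, x 1, 1] : W) 2 + 1] : W) = x := by
          funext i
          fin_cases i
          · simp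
          · simp
          · simp [hx.2]
        rw [this]
        exact hx.1
    obtain ⟨F, h, A₀, B, hBD⟩ := exists_BD hBt
    have hA₀ : A₀ = T := by
      ext x
      rw [hBD.mem0, hpt0, hT]
    have hpts := hBD.pts
    rw [hA₀] at hpts
    rcases opp hBD.fan with ⟨u, hu, hu'⟩ | ⟨v, w, x, hF3, hsum, hd⟩
    · obtain ⟨α, β, hαβ, hPP⟩ := pt_pp (thin_prim hBD.fan hu) 0 (fun _ => (0 : ℝ))
      obtain ⟨ω, μ, hμ, hG, hP⟩ := grow_pp hBD.fan hu hu' hBD.amp hpts (thin_edgeNorm F) thin_arg0
        hαβ hPP
      refine ⟨fun x => ω (x 0, x 1), ?_, hred _ ?_⟩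
      · rw [hup]
        exact ru_lift hG.left (fun _ => rfl) 1
      · intro _
        right
        exact ⟨pt (u.2, -u.1) 0, smooth_rul hBD.fan hu hu' hBD.amp hpts 1, α, μ, hμ,
          PPi_lift.2 hP⟩
    · obtain ⟨ω, hG⟩ := grow_tri hBD.fan hF3 hsum hBD.amp hpts (thin_edgeNorm F) thin_arg0
      refine ⟨fun x => ω (x 0, x 1), ?_, hred _ ?_⟩
      · rw [hup]
        exact ru_lift hG.left (fun _ => rfl) 1
      · intro _
        left
        exact smooth_tri hBD.fan hF3 hsum hd hBD.amp hpts 1
  · -- the upper level is a row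
    have hTne : T.Nonempty := by
      obtain ⟨x, hx⟩ := hA.hi
      rw [hup, mem_lift] at hx
      exact ⟨_, hx.2⟩
    have hTL : LatConv T := by
      intro x hx
      rw [hT]
      apply hA.lat
      -- the affine map
      let g : ℝ × ℝ →ᵃ[ℝ] (Fin 3 → ℝ) :=
        { toFun := fun p => ![p.1, p.2, 1]
          linear :=
            { toFun := fun p => ![p.1, p.2, 0]
              map_add' := by
                intro p q
                funext i
                fin_cases i <;> simp
              map_smul' := by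
                intro r p
                funext i
                fin_cases i <;> simp }
          map_vadd' := by
            intro p q
            funext i
            fin_cases i <;> simp }
      have hg : ∀ y : V, g (toR y) = emb (pt y 1) := by
        intro y
        show (![(toR y).1, (toR y).2, 1] : Fin 3 → ℝ) = emb (pt y 1)
        funext i
        fin_cases i <;> simp [toR, emb, pt]
      have himg : g (toR x) ∈ g '' (convexHull ℝ (toR '' (T : Set V))) := ⟨_, hx, rfl⟩
      rw [AffineMap.image_convexHull, hg] at himg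
      refine convexHull_mono ?_ himg
      rintro _ ⟨_, ⟨y, hy, rfl⟩, rfl⟩
      rw [hg]
      exact ⟨pt y 1, (hT y).1 hy, rfl⟩
    have hTc : ∀ x ∈ T, ∀ y ∈ T, ∀ z ∈ T, det (y - x) (z - x) = 0 := by
      intro x hx y hy z hz
      by_contra hd
      exact hcol (nonCol_lift.2 ⟨x, hx, y, hy, z, hz, hd⟩)
    obtain ⟨e, s, c, he, hTe⟩ := lat_row hTL hTne hTc
    obtain ⟨α, β, hαβ, hPP⟩ := pt_pp he 0 (fun _ => (0 : ℝ))
    obtain ⟨ω, μ, hμ, hG, hP⟩ := base_pp he thin_arg0 hαβ hPP s c
    rw [← hTe] at hG
    refine ⟨fun x => ω (x 0, x 1), ?_, hred _ (fun h => absurd h hcol)⟩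
    rw [hup]
    exact ru_lift hG.left (fun _ => rfl) 1

end Pool.Agent.SPK
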