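import Pool.Agent.SPK.Sl
import Pool.Agent.SPK.Red
import Pool.Agent.SPK.AffB
import Pool.Agent.SPK.Thin

/-!
# [SPK-Peel] the main theorem
-/

open Finset Pool.Agent.SPB

set_option autoImplicit false

namespace Pool.Agent.SPK

/-- value of an integer functional at a real point -/
def ev (u : W) (y : Fin 3 → ℝ) : ℝ := ∑ i, (u i : ℝ) * y i

/-- The class of the smooth `3`-dimensional polytopes `P` which can be reduced to a smooth polytope of lattice width at most one
by repeatedly cutting off the layer of lattice width one next to a facet, all intermediate polytopes being smooth -/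
inductive Peel : Set (Fin 3 → ℝ) → Prop
  | thin {P : Set (Fin 3 → ℝ)} (hP : IsSmooth P) (u : W) (hu : u ≠ 0) (c : ℤ)
      (h : ∀ y ∈ P, (c : ℝ) ≤ ev u y ∧ ev u y ≤ c + 1) : Peel P
  | step {P : Set (Fin 3 → ℝ)} (hP : IsSmooth P) (u : W) (hu : ∃ y : W, ∑ i, u i * y i = 1) (c : ℤ)
      (h : ∀ y ∈ P, (c : ℝ) ≤ ev u y)
      (hf : ∃ p q r : W, emb p ∈ P ∧ emb q ∈ P ∧ emb r ∈ P ∧ ∑ i, u i * p i = c ∧ ∑ i, u i * q i = c ∧
        ∑ i, u i * r i = c ∧ ∀ s t : ℤ, s • (q - p) + t • (r - p) = 0 → s = 0 ∧ t = 0)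
      (hQ : Peel {y ∈ P | (c : ℝ) + 1 ≤ ev u y}) : Peel P

theorem Peel.smooth {P : Set (Fin 3 → ℝ)} (h : Peel P) : IsSmooth P := by
  cases h with
  | thin hP => exact hP
  | step hP => exact hP

private theorem ev_emb (u x : W) : ev u (emb x) = ((d3 u x : ℤ) : ℝ) := by
  simp only [ev, d3, emb]
  push_cast
  rfl

private theorem full {A : Finset W} (hne : A.Nonempty) (hS : Smo A) {n : W} {c : ℤ} (h : ∀ x ∈ A, d3 n x = c) :
    n = 0 := by
  obtain ⟨x, -, hx⟩ := face_vertex hne 0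
  obtain ⟨b, hb⟩ := hS x hx
  have h0 : ∀ i, d3 n (b i) = 0 := by
    intro i
    have h1 := h _ (hb.step i)
    have h2 := h _ hb.mem
    rw [d3_add] at h1
    omega
  have h1 : ∀ y : W, d3 n y = 0 := by
    intro y
    obtain ⟨t, rfl⟩ := hb.gen y
    rw [Fin.sum_univ_three, d3_add, d3_add, d3_smul, d3_smul, d3_smul, h0, h0, h0]
    ring
  funext i
  have h2 := h1 (Pi.single i 1)
  simp only [d3, Fin.sum_univ_three] at h2
  fin_cases i <;> simpa using h2

private theorem face_up (A : Finset W) (n : W) (c : ℤ) : Face (up A) n c = up (Face A n c) := by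
  ext x
  simp only [Face, up, Finset.mem_filter]
  tauto

private theorem face_one (A : Finset W) : Face (up A) ![0, 0, -1] (-1) = A.filter (fun x => x 2 = 1) := by
  ext x
  have e : d3 ![0, 0, -1] x = - x 2 := by
    simp only [d3, Fin.sum_univ_three]
    simp
  simp only [Face, up, Finset.mem_filter, e]
  constructor
  · rintro ⟨⟨h1, h2⟩, h3⟩
    exact ⟨h1, by omega⟩
  · rintro ⟨h1, h2⟩
    exact ⟨⟨h1, by omega⟩, by omega⟩

theorem peel_GP {P : Set (Fin 3 → ℝ)} (h : Peel P) : ∃ (A : Finset W) (w : W → ℝ), (∀ x, x ∈ A ↔ emb x ∈ P) ∧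
    GP A w := by
  induction h with
  | @thin P hP u hu c h =>
    obtain ⟨A, -, -, hA⟩ := hP.pts
    obtain ⟨hS, hL, -, hne⟩ := smooth_pts hP hA
    obtain ⟨φ, a, hBt, h1⟩ := red_thin hne hS hL hu (c := c) (by
      intro x hx
      have h2 := h _ ((hA x).1 hx)
      rw [ev_emb] at h2
      exact ⟨by exact_mod_cast h2.1, by exact_mod_cast h2.2⟩)
    obtain ⟨w', hw, hB, hup⟩ := thin hBt h1
    obtain ⟨w, hw⟩ := sl hBt hw hB hup
    exact ⟨A, _, hA, tr_gp' hw⟩
  | @step P hP u hu c h hf hQ ih =>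
    obtain ⟨A', w', hA', hg⟩ := ih
    obtain ⟨A, -, -, hA⟩ := hP.pts
    obtain ⟨hS, hL, -, hne⟩ := smooth_pts hP hA
    obtain ⟨hS', -, -, hne'⟩ := smooth_pts hQ.smooth hA'
    have hAA : ∀ x, x ∈ A' ↔ x ∈ A ∧ c + 1 ≤ d3 u x := by
      intro x
      rw [hA', hA]
      simp only [Set.mem_ofPred_eq, ev_emb]
      constructor
      · rintro ⟨h1, h2⟩
        exact ⟨h1, by exact_mod_cast h2⟩
      · rintro ⟨h1, h2⟩
        exact ⟨h1, by exact_mod_cast h2⟩
    obtain ⟨φ, a, hBt, hz⟩ := red_step hS hL (u := u) (c := c) hu (by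
      intro x hx
      have h2 := h _ ((hA x).1 hx)
      rw [ev_emb] at h2
      exact_mod_cast h2) (by
      obtain ⟨p, q, r, hp, hq, hr, h1, h2, h3, h4⟩ := hf
      exact ⟨p, Finset.mem_filter.2 ⟨(hA p).2 hp, h1⟩, q, Finset.mem_filter.2 ⟨(hA q).2 hq, h2⟩,
        r, Finset.mem_filter.2 ⟨(hA r).2 hr, h3⟩, h4⟩) (by
      obtain ⟨x, hx⟩ := hne'
      exact ⟨x, (hAA x).1 hx⟩)
    have hinv : ∀ y, tr φ a (rt φ a y) = y := by
      intro y
      simp [tr, rt]
    have e : up (trA φ a A) = trA φ a A' := by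
      ext y
      simp only [up, Finset.mem_filter]
      rw [mem_trA, mem_trA, hAA]
      have h1 := hz (rt φ a y)
      rw [hinv] at h1
      rw [h1]
      constructor
      · rintro ⟨h2, h3⟩
        exact ⟨h2, by omega⟩
      · rintro ⟨h2, h3⟩
        exact ⟨h2, by omega⟩
    have hg' := tr_gp (φ := φ) (a := a) hg
    have hS1 := tr_smo (φ := φ) (a := a) hS'
    rw [← e] at hg' hS1
    have hne1 : (up (trA φ a A)).Nonempty := hBt.hi
    have hfac : ∀ n c, (∀ x ∈ up (trA φ a A), d3 n x ≤ c) → n ≠ 0 → NonCol (Face (up (trA φ a A)) n c) →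
        Fac (up (trA φ a A)) n c := by
      intro n c h1 h2 h3
      refine ⟨h1, ?_, h3⟩
      by_contra hcon
      push Not at hcon
      exact h2 (full hne1 hS1 (c := c) fun x hx => le_antisymm (h1 x hx) (hcon x hx))
    obtain ⟨w, hw⟩ := sl hBt hg'.ru (by
      intro h1
      rw [← face_one] at h1 ⊢
      refine hg'.ok _ _ (hfac _ _ ?_ ?_ h1)
      · intro x hx
        have e : d3 ![0, 0, -1] x = - x 2 := by
          simp only [d3, Fin.sum_univ_three]
          simp
        rw [e]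
        have := (Finset.mem_filter.1 hx).2
        omega
      · intro h2
        have := congrFun h2 2
        simp at this) (by
      intro n c hf h1
      rw [← face_up] at h1 ⊢
      refine hg'.ok _ _ (hfac _ _ ?_ ?_ h1)
      · intro x hx
        exact hf.le x (Finset.mem_filter.1 hx).1
      · rintro rfl
        obtain ⟨x, hx, h2⟩ := hf.lt
        obtain ⟨y, hy, -⟩ := hf.nc
        have h3 := (Finset.mem_filter.1 hy).2
        have h4 : ∀ z : W, d3 0 z = 0 := by
          intro z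
          simp [d3]
        rw [h4] at h2 h3
        omega)
    exact ⟨A, _, hA, tr_gp' hw⟩

theorem peel {P : Set (Fin 3 → ℝ)} (h : Peel P) : IsSmooth P ∧ HasRUT P := by
  refine ⟨h.smooth, ?_⟩
  obtain ⟨A, w, hA, hw⟩ := peel_GP h
  obtain ⟨-, -, e, -⟩ := smooth_pts h.smooth hA
  have hint := h.smooth.interior
  rw [e] at hint ⊢
  exact hasRUT_of_RU hw.ru (covers hint w)

end Pool.Agent.SPK
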