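import Pool.Agent.SPK.Defs

/-!
# [SPK-Pla2] placing with explicit heights, planar unimodularity

`place2`: the proof of `place` (SPB/Place) with `M ≥ M₀`, `M₀` from `bounds`: the hypothesis `∀ q ∈ A i0, M - dotR a z ≤ ω i0 q - dotR a q` for `M` implies it for `M₀`. Specialise to `κ = Fin 2`, `i0 = 0`: `Function.update ![Q, B] 0 (insert z Q) = ![insert z Q, B]`.
`good_pt`: `arg {s} _ a = {s}`; `UniFam ![{s}, C]` from `UniV C`. `Good2.right`: put `c 0 = 0`.
`uev1`: `{x}` with a primitive direction: `r • e ∈ ℤ²` and `e` primitive (Bezout). `uev2`: `{x, y}` with `det e (y - x) = ± 1`.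
`uev_unique`: as in UE.lean (`c x = 1/2`, `c (x + t e) = - 1/2`, `r = t / 2`).
-/

open Finset Pool.Agent.SPB

set_option autoImplicit false

namespace Pool.Agent.SPK

private theorem pla2_mem_arg {A : Finset V} {ω : V → ℝ} {a : ℝ × ℝ} {x : V} :
    x ∈ arg A ω a ↔ x ∈ A ∧ ∀ y ∈ A, ω x - dotR a x ≤ ω y - dotR a y := by
  unfold arg
  rw [Finset.mem_filter]

private theorem pla2_arg_skip {A : Finset V} {ω : V → ℝ} {a : ℝ × ℝ} {z : V} {M : ℝ} (hz : z ∉ A)
    {q : V} (hq : q ∈ A) (hlt : ω q - dotR a q < M - dotR a z) :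
    arg (insert z A) (Function.update ω z M) a = arg A ω a := by
  ext x
  rw [pla2_mem_arg, pla2_mem_arg]
  constructor
  · rintro ⟨hx, hm⟩
    have hxz : x ≠ z := by
      rintro rfl
      have h1 := hm q (Finset.mem_insert_of_mem hq)
      have hqz : q ≠ x := fun h => hz (h ▸ hq)
      rw [Function.update_self, Function.update_of_ne hqz] at h1
      linarith
    have hxA : x ∈ A := (Finset.mem_insert.mp hx).resolve_left hxz
    refine ⟨hxA, fun y hy => ?_⟩
    have hyz : y ≠ z := fun h => hz (h ▸ hy)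
    have h1 := hm y (Finset.mem_insert_of_mem hy)
    rwa [Function.update_of_ne hxz, Function.update_of_ne hyz] at h1
  · rintro ⟨hx, hm⟩
    have hxz : x ≠ z := fun h => hz (h ▸ hx)
    refine ⟨Finset.mem_insert_of_mem hx, fun y hy => ?_⟩
    rw [Function.update_of_ne hxz]
    by_cases hyz : y = z
    · subst hyz
      rw [Function.update_self]
      have h1 := hm q hq
      linarith
    · rw [Function.update_of_ne hyz]
      exact hm y ((Finset.mem_insert.mp hy).resolve_left hyz)

private theorem pla2_arg_single {A : Finset V} {ω : V → ℝ} {a : ℝ × ℝ} {z : V} {M : ℝ} (hz : z ∉ A)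
    (hlt : ∀ q ∈ A, M - dotR a z < ω q - dotR a q) :
    arg (insert z A) (Function.update ω z M) a = {z} := by
  ext x
  rw [pla2_mem_arg, Finset.mem_singleton]
  constructor
  · rintro ⟨hx, hm⟩
    by_contra hxz
    have hxA : x ∈ A := (Finset.mem_insert.mp hx).resolve_left hxz
    have h1 := hm z (Finset.mem_insert_self _ _)
    rw [Function.update_self, Function.update_of_ne hxz] at h1
    have h2 := hlt x hxA
    linarith
  · rintro rfl
    refine ⟨Finset.mem_insert_self _ _, fun y hy => ?_⟩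
    by_cases hyz : y = x
    · rw [hyz]
    · rw [Function.update_self, Function.update_of_ne hyz]
      exact (hlt y ((Finset.mem_insert.mp hy).resolve_left hyz)).le

private theorem pla2_arg_insert {A : Finset V} {ω : V → ℝ} {a : ℝ × ℝ} {z : V} {M : ℝ} (hz : z ∉ A)
    (hle : ∀ q ∈ A, M - dotR a z ≤ ω q - dotR a q)
    {q : V} (hq : q ∈ A) (heq : ω q - dotR a q = M - dotR a z) :
    arg (insert z A) (Function.update ω z M) a = insert z (arg A ω a) := by
  ext x
  rw [pla2_mem_arg, Finset.mem_insert (s := arg A ω a), pla2_mem_arg]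
  constructor
  · rintro ⟨hx, hm⟩
    by_cases hxz : x = z
    · exact Or.inl hxz
    · refine Or.inr ⟨(Finset.mem_insert.mp hx).resolve_left hxz, fun y hy => ?_⟩
      have hyz : y ≠ z := fun h => hz (h ▸ hy)
      have h1 := hm y (Finset.mem_insert_of_mem hy)
      rwa [Function.update_of_ne hxz, Function.update_of_ne hyz] at h1
  · rintro (rfl | ⟨hx, hm⟩)
    · refine ⟨Finset.mem_insert_self _ _, fun y hy => ?_⟩
      by_cases hyz : y = x
      · rw [hyz]
      · rw [Function.update_self, Function.update_of_ne hyz]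
        exact hle y ((Finset.mem_insert.mp hy).resolve_left hyz)
    · have hxz : x ≠ z := fun h => hz (h ▸ hx)
      refine ⟨Finset.mem_insert_of_mem hx, fun y hy => ?_⟩
      rw [Function.update_of_ne hxz]
      by_cases hyz : y = z
      · subst hyz
        rw [Function.update_self]
        have h1 := hm q hq
        linarith
      · rw [Function.update_of_ne hyz]
        exact hm y ((Finset.mem_insert.mp hy).resolve_left hyz)

private theorem pla2_dot_sub (n x y : V) : dot n (x - y) = dot n x - dot n y := by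
  unfold dot
  simp only [Prod.fst_sub, Prod.snd_sub]
  ring

private theorem pla2_normal {κ : Type} [Fintype κ] [DecidableEq κ] {F : Finset V} {A : κ → Finset V}
    {C : κ → Finset V} (hU : UniFam C) (hCA : ∀ i, C i ⊆ A i)
    (i0 : κ) {z : V} (hz : z ∉ A i0) (hL : LatConv (insert z (A i0)))
    (hE : ∀ j, j ≠ i0 → EdgeNorm F (A j)) (hadd : Addable F (A i0) z)
    (P1 : ∀ i, ∀ x ∈ C i, ∀ y ∈ C i, ∀ j, ∀ x' ∈ C j, ∀ y' ∈ C j, det (y - x) (y' - x') = 0)
    (P2 : ∀ i, ∀ x ∈ C i, ∀ y ∈ C i, x ≠ y → ∀ c₀ ∈ C i0, det (y - x) (z - c₀) ≠ 0)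
    (P3 : ∀ i, ∀ x ∈ C i, ∀ y ∈ C i, x ≠ y → ∀ c₀ ∈ C i0, ∀ j, ∀ c ∈ C j, ∀ w ∈ A j,
      det (y - x) (w - c) * det (y - x) (z - c₀) ≤ 0)
    (P4 : ∀ c₀ ∈ C i0, ∀ p ∈ A i0, ∀ g : ℕ, z - c₀ ≠ (g : ℤ) • (p - c₀))
    {c₀ : V} (hc₀ : c₀ ∈ C i0) :
    ∃ n : V, (∀ i, ∀ x ∈ C i, ∀ y ∈ C i, dot n x = dot n y) ∧ dot n z = dot n c₀ + 1 := by
  have hzc : z ≠ c₀ := fun h => hz (h ▸ hCA i0 hc₀)
  by_cases hall : ∀ i, ∀ x ∈ C i, ∀ y ∈ C i, x = y
  · -- Case A
    have hprim : Prim (z - c₀) := by
      by_contra hnp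
      obtain ⟨p, g, hg, hgp, hpz, hpc, hpseg⟩ := seg_pt hzc.symm hnp
      have hpin : p ∈ insert z (A i0) := by
        apply hL
        refine convexHull_mono ?_ hpseg
        rintro v hv
        rcases hv with hv | hv
        · rw [hv]
          exact ⟨c₀, by simpa using Or.inr (hCA i0 hc₀), rfl⟩
        · rw [Set.mem_singleton_iff] at hv
          rw [hv]
          exact ⟨z, by simp, rfl⟩
      have hpA : p ∈ A i0 := (Finset.mem_insert.mp hpin).resolve_left hpz
      exact P4 c₀ hc₀ p hpA g hgp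
    obtain ⟨u, v, huv⟩ := hprim
    refine ⟨(u, v), fun i x hx y hy => by rw [hall i x hx y hy], ?_⟩
    have h1 : dot (u, v) (z - c₀) = 1 := huv
    rw [pla2_dot_sub] at h1
    linarith
  · push Not at hall
    obtain ⟨i, x, hx, y, hy, hxy⟩ := hall
    have hprim : Prim (y - x) := uni_prim hU hx hy hxy
    have hD0 : det (y - x) (z - c₀) ≠ 0 := P2 i x hx y hy hxy c₀ hc₀
    -- the normal with a sign
    obtain ⟨ε, hε, hεD⟩ : ∃ ε : ℤ, (ε = 1 ∨ ε = -1) ∧ 0 < ε * det (y - x) (z - c₀) := by
      rcases lt_or_gt_of_ne hD0 with h | h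
      · exact ⟨-1, Or.inr rfl, by linarith⟩
      · exact ⟨1, Or.inl rfl, by linarith⟩
    have hε2 : ε * ε = 1 := by rcases hε with h | h <;> rw [h] <;> norm_num
    set n : V := (-(ε * (y - x).2), ε * (y - x).1) with hn
    have hdot : ∀ v : V, dot n v = ε * det (y - x) v := by
      intro v
      rw [hn]
      unfold dot det
      ring
    have h2 : ∀ j, ∀ x' ∈ C j, ∀ y' ∈ C j, dot n x' = dot n y' := by
      intro j x' hx' y' hy'
      have h := P1 i x hx y hy j x' hx' y' hy'
      have h3 : dot n (y' - x') = 0 := by rw [hdot, h, mul_zero]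
      rw [pla2_dot_sub] at h3
      linarith
    have h3 : ∀ j, ∀ c ∈ C j, ∀ w ∈ A j, dot n w ≤ dot n c := by
      intro j c hc w hw
      have h := P3 i x hx y hy hxy c₀ hc₀ j c hc w hw
      have h4 : dot n (w - c) * (ε * det (y - x) (z - c₀)) ≤ 0 := by
        rw [hdot]
        calc ε * det (y - x) (w - c) * (ε * det (y - x) (z - c₀))
            = (ε * ε) * (det (y - x) (w - c) * det (y - x) (z - c₀)) := by ring
          _ = det (y - x) (w - c) * det (y - x) (z - c₀) := by rw [hε2, one_mul]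
          _ ≤ 0 := h
      have h5 : dot n (w - c) ≤ 0 := by
        by_contra hcon
        push Not at hcon
        have := mul_pos hcon hεD
        linarith
      rw [pla2_dot_sub] at h5
      linarith
    have hpos : 0 < dot n (z - c₀) := by rw [hdot]; exact hεD
    refine ⟨n, h2, ?_⟩
    suffices hle : dot n (z - c₀) ≤ 1 by
      have h6 : dot n (z - c₀) = 1 := le_antisymm hle hpos
      rw [pla2_dot_sub] at h6
      linarith
    by_cases hi : i = i0
    · -- Case B2
      subst hi
      by_contra hcon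
      push Not at hcon
      have hzx : det (y - x) (z - x) = det (y - x) (z - c₀) := by
        have h7 := P1 i x hx y hy i x hx c₀ hc₀
        have h8 : det (y - x) (z - x) = det (y - x) (z - c₀) + det (y - x) (c₀ - x) := by
          unfold det
          simp only [Prod.fst_sub, Prod.snd_sub]
          ring
        rw [h8, h7, add_zero]
      have habs : 2 ≤ |det (y - x) (z - x)| := by
        rw [hzx]
        have h9 : dot n (z - c₀) = ε * det (y - x) (z - c₀) := hdot _
        have h10 : ε * det (y - x) (z - c₀) ≤ |det (y - x) (z - c₀)| := by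
          calc ε * det (y - x) (z - c₀) ≤ |ε * det (y - x) (z - c₀)| := le_abs_self _
            _ = |ε| * |det (y - x) (z - c₀)| := abs_mul _ _
            _ = |det (y - x) (z - c₀)| := by
                have : |ε| = 1 := by rcases hε with h | h <;> rw [h] <;> norm_num
                rw [this, one_mul]
        omega
      obtain ⟨p, hptri, hpz, hppos⟩ := tri_pt hprim habs
      have hpin : p ∈ insert z (A i) := by
        apply hL
        refine convexHull_mono ?_ hptri
        rintro v hv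
        rcases hv with hv | hv | hv
        · rw [hv]
          exact ⟨x, by simpa using Or.inr (hCA i hx), rfl⟩
        · rw [hv]
          exact ⟨y, by simpa using Or.inr (hCA i hy), rfl⟩
        · rw [Set.mem_singleton_iff] at hv
          rw [hv]
          exact ⟨z, by simp, rfl⟩
      have hpA : p ∈ A i := (Finset.mem_insert.mp hpin).resolve_left hpz
      have h11 := P3 i x hx y hy hxy x hx i x hx p hpA
      linarith
    · -- Case B1
      have hnprim : Prim n := by
        obtain ⟨u, v, huv⟩ := hprim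
        refine ⟨-(ε * v), ε * u, ?_⟩
        rw [hn]
        have : -(ε * v) * -(ε * (y - x).2) + ε * u * (ε * (y - x).1)
            = (ε * ε) * (u * (y - x).1 + v * (y - x).2) := by ring
        rw [this, huv, hε2, one_mul]
      have hnF : n ∈ F := hE i hi x (hCA i hx) y (hCA i hy) hxy n hnprim (h2 i x hx y hy)
        (fun w hw => h3 i x hx w hw)
      obtain ⟨q, hq, hqz⟩ := hadd n hnF
      have h12 := h3 i0 c₀ hc₀ q hq
      rw [pla2_dot_sub]
      linarith

private theorem pla2_gen {κ : Type} [Fintype κ] [DecidableEq κ] {F : Finset V} {A : κ → Finset V} {ω : κ → V → ℝ}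
    (hG : Good A ω) (i0 : κ) {z : V} (hne : (A i0).Nonempty) (hz : z ∉ A i0) (hL : LatConv (insert z (A i0)))
    (hE : ∀ j, j ≠ i0 → EdgeNorm F (A j)) (hadd : Addable F (A i0) z) :
    ∃ M₀ : ℝ, ∀ M, M₀ ≤ M → Good (Function.update A i0 (insert z (A i0)))
      (Function.update ω i0 (Function.update (ω i0) z M)) := by
  obtain ⟨M₀, hM⟩ := bounds A ω i0 z hne hz
  refine ⟨M₀, fun M hMM => ?_⟩
  intro a
  have hU : UniFam (fun i => arg (A i) (ω i) a) := hG a
  have hCA : ∀ i, arg (A i) (ω i) a ⊆ A i := fun i x hx => (pla2_mem_arg.mp hx).1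
  have hfam : (fun i => arg (Function.update A i0 (insert z (A i0)) i)
      (Function.update ω i0 (Function.update (ω i0) z M) i) a)
      = Function.update (fun i => arg (A i) (ω i) a) i0
        (arg (insert z (A i0)) (Function.update (ω i0) z M) a) := by
    funext i
    by_cases hi : i = i0
    · subst hi
      simp only [Function.update_self]
    · simp only [Function.update_of_ne hi]
  rw [hfam]
  by_cases hlt : ∃ q ∈ A i0, ω i0 q - dotR a q < M - dotR a z
  · obtain ⟨q, hq, hq1⟩ := hlt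
    rw [pla2_arg_skip hz hq hq1]
    have : Function.update (fun i => arg (A i) (ω i) a) i0 (arg (A i0) (ω i0) a)
        = (fun i => arg (A i) (ω i) a) := Function.update_eq_self i0 _
    rw [this]
    exact hU
  · push Not at hlt
    by_cases heq : ∃ q ∈ A i0, ω i0 q - dotR a q = M - dotR a z
    · obtain ⟨q, hq, hq1⟩ := heq
      rw [pla2_arg_insert hz hlt hq hq1]
      obtain ⟨P1, P2, P3, P4⟩ := hM a (fun q hq => by have := hlt q hq; linarith)
      have hqC : q ∈ arg (A i0) (ω i0) a :=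
        pla2_mem_arg.mpr ⟨hq, fun y hy => by rw [hq1]; exact hlt y hy⟩
      obtain ⟨n, hn2, hn3⟩ := pla2_normal hU hCA i0 hz hL hE hadd P1 P2 P3 P4 hqC
      exact uni_insert hU i0 (fun h => hz (hCA i0 h)) hn2
        ⟨dot n q, fun x hx => hn2 i0 x hx q hqC, hn3⟩
    · push Not at heq
      have hlt2 : ∀ q ∈ A i0, M - dotR a z < ω i0 q - dotR a q :=
        fun q hq => lt_of_le_of_ne (hlt q hq) (Ne.symm (heq q hq))
      rw [pla2_arg_single hz hlt2]
      exact uni_single hU i0 z

private theorem pJ_add {x y : ℝ} (hx : IsInt x) (hy : IsInt y) : IsInt (x + y) := by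
  obtain ⟨a, rfl⟩ := hx
  obtain ⟨b, rfl⟩ := hy
  exact ⟨a + b, by push_cast; ring⟩

private theorem pJ_sub {x y : ℝ} (hx : IsInt x) (hy : IsInt y) : IsInt (x - y) := by
  obtain ⟨a, rfl⟩ := hx
  obtain ⟨b, rfl⟩ := hy
  exact ⟨a - b, by push_cast; ring⟩

private theorem pJ_mul {x : ℝ} (hx : IsInt x) (n : ℤ) : IsInt (x * (n : ℝ)) := by
  obtain ⟨a, rfl⟩ := hx
  exact ⟨a * n, by push_cast; ring⟩

private theorem pJ_of_prim {e : V} (he : Prim e) {r : ℝ} (h1 : IsInt (r * (e.1 : ℝ)))
    (h2 : IsInt (r * (e.2 : ℝ))) : IsInt r := by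
  obtain ⟨u, v, huv⟩ := he
  have h3 := pJ_add (pJ_mul h1 u) (pJ_mul h2 v)
  have h4 : r * (e.1 : ℝ) * (u : ℝ) + r * (e.2 : ℝ) * (v : ℝ) = r := by
    have : ((u * e.1 + v * e.2 : ℤ) : ℝ) = 1 := by rw [huv]; norm_num
    push_cast at this
    linear_combination r * this
  rwa [h4] at h3

theorem place2 {F Q B : Finset V} {ω ω' : V → ℝ} (hG : Good2 Q B ω ω') {z : V} (hne : Q.Nonempty) (hz : z ∉ Q)
    (hL : LatConv (insert z Q)) (hE : EdgeNorm F B) (hadd : Addable F Q z) :
    ∃ M₀ : ℝ, ∀ M, M₀ ≤ M → Good2 (insert z Q) B (Function.update ω z M) ω' := by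
  have hE' : ∀ j : Fin 2, j ≠ 0 → EdgeNorm F (![Q, B] j) := by
    intro j hj
    have : j = 1 := by omega
    subst this
    exact hE
  obtain ⟨M₀, hM⟩ := pla2_gen (A := ![Q, B]) (ω := ![ω, ω']) hG 0 hne hz hL hE' hadd
  refine ⟨M₀, fun M hMM => ?_⟩
  have h := hM M hMM
  have e1 : Function.update ![Q, B] 0 (insert z (![Q, B] 0)) = ![insert z Q, B] := by
    funext j
    fin_cases j <;> rfl
  have e2 : Function.update ![ω, ω'] 0 (Function.update (![ω, ω'] 0) z M)
      = ![Function.update ω z M, ω'] := by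
    funext j
    fin_cases j <;> rfl
  rw [e1, e2] at h
  exact h

theorem good_pt {B : Finset V} {ω' : V → ℝ} (hB : ∀ a, UniV (arg B ω' a)) (s : V) (ω : V → ℝ) :
    Good2 {s} B ω ω' := by
  intro a c h1 h2 h3
  have hs : arg {s} ω a = {s} := by
    ext x
    rw [pla2_mem_arg, Finset.mem_singleton]
    constructor
    · exact fun h => h.1
    · rintro rfl
      exact ⟨rfl, fun y hy => by rw [Finset.mem_singleton.1 hy]⟩
  have e0 : arg (![({s} : Finset V), B] 0) (![ω, ω'] 0) a = {s} := hs
  have e1 : arg (![({s} : Finset V), B] 1) (![ω, ω'] 1) a = arg B ω' a := rfl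
  have h10 : IsInt (∑ x ∈ arg (![({s} : Finset V), B] 0) (![ω, ω'] 0) a, c 0 x) := h1 0
  have h11 : IsInt (∑ x ∈ arg (![({s} : Finset V), B] 1) (![ω, ω'] 1) a, c 1 x) := h1 1
  simp only [Fin.sum_univ_two] at h2 h3
  rw [e0, Finset.sum_singleton] at h10 h2 h3
  rw [e1] at h11 h2 h3
  have k1 : IsInt (∑ x ∈ arg B ω' a, c 1 x * (x.1 : ℝ)) := by
    have := pJ_sub h2 (pJ_mul h10 s.1)
    rwa [add_sub_cancel_left] at this
  have k2 : IsInt (∑ x ∈ arg B ω' a, c 1 x * (x.2 : ℝ)) := by
    have := pJ_sub h3 (pJ_mul h10 s.2)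
    rwa [add_sub_cancel_left] at this
  have k3 := hB a (c 1) h11 k1 k2
  intro i
  fin_cases i
  · intro x hx
    have hx' : x ∈ arg (![({s} : Finset V), B] 0) (![ω, ω'] 0) a := hx
    rw [e0, Finset.mem_singleton] at hx'
    subst hx'
    exact h10
  · exact k3

theorem Good2.left {A B : Finset V} {ω ω' : V → ℝ} (hG : Good2 A B ω ω') (a : ℝ × ℝ) : UniV (arg A ω a) := by
  intro c h1 h2 h3
  have h := hG a ![c, fun _ => 0]
  have := h (by
    intro i
    fin_cases i
    · exact h1
    · exact ⟨0, by simp⟩) (by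
    simp only [Fin.sum_univ_two]
    obtain ⟨n, hn⟩ := h2
    refine ⟨n, ?_⟩
    rw [← hn]
    simp) (by
    simp only [Fin.sum_univ_two]
    obtain ⟨n, hn⟩ := h3
    refine ⟨n, ?_⟩
    rw [← hn]
    simp) 0
  exact this

theorem Good2.right {A B : Finset V} {ω ω' : V → ℝ} (hG : Good2 A B ω ω') (a : ℝ × ℝ) : UniV (arg B ω' a) := by
  intro c h1 h2 h3
  have h := hG a ![fun _ => 0, c]
  have := h (by
    intro i
    fin_cases i
    · exact ⟨0, by simp⟩
    · exact h1) (by
    simp only [Fin.sum_univ_two]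
    obtain ⟨n, hn⟩ := h2
    refine ⟨n, ?_⟩
    rw [← hn]
    simp) (by
    simp only [Fin.sum_univ_two]
    obtain ⟨n, hn⟩ := h3
    refine ⟨n, ?_⟩
    rw [← hn]
    simp) 1
  exact this

theorem uev1 {x e : V} (he : Prim e) : UniEv {x} e := by
  intro c r h1 h2 h3
  rw [Finset.sum_singleton] at h1 h2 h3
  refine ⟨fun y hy => by rw [Finset.mem_singleton.1 hy]; exact h1, pJ_of_prim he ?_ ?_⟩
  · have := pJ_sub h2 (pJ_mul h1 x.1)
    rwa [add_sub_cancel_left] at this
  · have := pJ_sub h3 (pJ_mul h1 x.2)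
    rwa [add_sub_cancel_left] at this

theorem uev2 {x y e : V} (he : Prim e) (h : det e (y - x) = 1 ∨ det e (y - x) = -1) : UniEv {x, y} e := by
  have hxy : x ≠ y := by
    rintro rfl
    unfold det at h
    simp at h
  intro c r h1 h2 h3
  rw [Finset.sum_pair hxy] at h1 h2 h3
  have k1 : IsInt (c y * ((y - x).1 : ℝ) + r * (e.1 : ℝ)) := by
    have := pJ_sub h2 (pJ_mul h1 x.1)
    have e1 : c x * (x.1 : ℝ) + c y * (y.1 : ℝ) + r * (e.1 : ℝ) - (c x + c y) * (x.1 : ℝ)
        = c y * (((y - x).1 : ℤ) : ℝ) + r * (e.1 : ℝ) := by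
      rw [Prod.fst_sub]
      push_cast
      ring
    rwa [e1] at this
  have k2 : IsInt (c y * ((y - x).2 : ℝ) + r * (e.2 : ℝ)) := by
    have := pJ_sub h3 (pJ_mul h1 x.2)
    have e1 : c x * (x.2 : ℝ) + c y * (y.2 : ℝ) + r * (e.2 : ℝ) - (c x + c y) * (x.2 : ℝ)
        = c y * (((y - x).2 : ℤ) : ℝ) + r * (e.2 : ℝ) := by
      rw [Prod.snd_sub]
      push_cast
      ring
    rwa [e1] at this
  have k3 : IsInt (c y * (det e (y - x) : ℝ)) := by
    have := pJ_sub (pJ_mul k2 e.1) (pJ_mul k1 e.2)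
    have e1 : (c y * (((y - x).2 : ℤ) : ℝ) + r * (e.2 : ℝ)) * (e.1 : ℝ)
        - (c y * (((y - x).1 : ℤ) : ℝ) + r * (e.1 : ℝ)) * (e.2 : ℝ)
        = c y * (det e (y - x) : ℝ) := by
      unfold det
      push_cast
      ring
    rwa [e1] at this
  have hcy : IsInt (c y) := by
    rcases h with h | h
    · rw [h] at k3
      simpa using k3
    · rw [h] at k3
      obtain ⟨n, hn⟩ := k3
      refine ⟨-n, ?_⟩
      push_cast at hn ⊢
      linarith
  have hcx : IsInt (c x) := by
    have := pJ_sub h1 hcy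
    rwa [add_sub_cancel_right] at this
  refine ⟨?_, pJ_of_prim he ?_ ?_⟩
  · intro t ht
    rw [Finset.mem_insert, Finset.mem_singleton] at ht
    rcases ht with rfl | rfl
    · exact hcx
    · exact hcy
  · have := pJ_sub k1 (pJ_mul hcy (y - x).1)
    rwa [add_sub_cancel_left] at this
  · have := pJ_sub k2 (pJ_mul hcy (y - x).2)
    rwa [add_sub_cancel_left] at this

theorem uev_unique {C : Finset V} {e : V} (h : UniEv C e) (he : e ≠ 0) {x : V} {t : ℤ} (hx : x ∈ C)
    (hy : x + t • e ∈ C) : t = 0 := by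
  classical
  by_contra ht
  set y := x + t • e with hydef
  have hxy : x ≠ y := by
    intro hc
    have h0 : t • e = 0 := by
      have : x + t • e = x + 0 := by rw [← hydef, ← hc, add_zero]
      exact add_left_cancel this
    rcases smul_eq_zero.1 h0 with h1 | h1
    · exact ht h1
    · exact he h1
  let c : V → ℝ := fun v => if v = x then 1 / 2 else if v = y then -(1 / 2) else 0
  have hcx : c x = 1 / 2 := by simp [c]
  have hcy : c y = -(1 / 2) := by
    show (if y = x then (1 / 2 : ℝ) else if y = y then -(1 / 2) else 0) = -(1 / 2)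
    rw [if_neg hxy.symm, if_pos rfl]
  have hsum : ∀ g : V → ℝ, ∑ v ∈ C, c v * g v = 1 / 2 * g x - 1 / 2 * g y := by
    intro g
    have h1 : ∑ v ∈ C, c v * g v = ∑ v ∈ ({x, y} : Finset V), c v * g v := by
      symm
      apply Finset.sum_subset
      · intro v hv
        rw [Finset.mem_insert, Finset.mem_singleton] at hv
        rcases hv with rfl | rfl
        · exact hx
        · exact hy
      · intro v _ hv
        rw [Finset.mem_insert, Finset.mem_singleton, not_or] at hv
        simp only [c]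
        rw [if_neg hv.1, if_neg hv.2, zero_mul]
    rw [h1, Finset.sum_pair hxy, hcx, hcy]
    ring
  have hres := h c (t / 2) (by
    have := hsum (fun _ => 1)
    simp only [mul_one] at this
    rw [this]
    exact ⟨0, by norm_num⟩) (by
    rw [hsum (fun v => (v.1 : ℝ))]
    refine ⟨0, ?_⟩
    have : (y.1 : ℝ) = x.1 + t * e.1 := by
      rw [hydef]
      simp
    rw [this]
    push_cast
    ring) (by
    rw [hsum (fun v => (v.2 : ℝ))]
    refine ⟨0, ?_⟩
    have : (y.2 : ℝ) = x.2 + t * e.2 := by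
      rw [hydef]
      simp
    rw [this]
    push_cast
    ring)
  obtain ⟨n, hn⟩ := hres.1 x hx
  rw [hcx] at hn
  have h2 : (1 : ℝ) = 2 * n := by linarith
  have h3 : (1 : ℤ) = 2 * n := by exact_mod_cast h2
  omega

end Pool.Agent.SPK
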