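import Pool.Agent.SPK.Pla2

/-!
# [SPK-Row] good heights for a row and a polygon with the path property

Slopes `σ t = μ + (β - μ) t / (c + 1)` for `1 ≤ t ≤ c`, `μ = (α + β) / 2`; `ω (s + t e) = ∑_{i=1}^t σ i` (`= t μ + (β - μ) t (t + 1) / (2 (c + 1))`). For `τ = dotR a e`: `ω (s + t e) - dotR a (s + t e) = const + ∑_{i ≤ t} (σ i - τ)`, strictly convex in `t`. So `arg` is one point, or two consecutive points `s + (t-1) e, s + t e` with `τ = σ t ∈ (α, β)`. In the second case `UniFam`: with coefficients `c₁, c₂` on the two points the sum is `(c₁ + c₂) (s + (t-1) e) + c₂ e`, so `UniEv (arg B ω' a) e` with `r = c₂` applies. In the first case `UniV (arg B ω' a)`.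
Path property of the row on `(α, μ)`: `τ < σ t` for all `t ≥ 1`, so `arg = {s}`: `uev1`.
-/

open Finset Pool.Agent.SPB

set_option autoImplicit false

namespace Pool.Agent.SPK

/-! ### integers -/

private theorem rI_int (n : ℤ) : IsInt n := ⟨n, rfl⟩

private theorem rI_add {x y : ℝ} (hx : IsInt x) (hy : IsInt y) : IsInt (x + y) := by
  obtain ⟨n, rfl⟩ := hx
  obtain ⟨m, rfl⟩ := hy
  exact ⟨n + m, by push_cast; ring⟩

private theorem rI_sub {x y : ℝ} (hx : IsInt x) (hy : IsInt y) : IsInt (x - y) := by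
  obtain ⟨n, rfl⟩ := hx
  obtain ⟨m, rfl⟩ := hy
  exact ⟨n - m, by push_cast; ring⟩

private theorem rI_mul {x y : ℝ} (hx : IsInt x) (hy : IsInt y) : IsInt (x * y) := by
  obtain ⟨n, rfl⟩ := hx
  obtain ⟨m, rfl⟩ := hy
  exact ⟨n * m, by push_cast; ring⟩

private theorem rI_sum {ι : Type} (s : Finset ι) {f : ι → ℝ} (h : ∀ i ∈ s, IsInt (f i)) :
    IsInt (∑ i ∈ s, f i) := by
  classical
  induction s using Finset.induction_on with
  | empty => exact ⟨0, by simp⟩
  | insert a s ha ih =>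
    rw [Finset.sum_insert ha]
    exact rI_add (h a (Finset.mem_insert_self a s)) (ih fun i hi => h i (Finset.mem_insert_of_mem hi))

private theorem rmem {e s : V} {c : ℕ} {x : V} :
    x ∈ row e s c ↔ ∃ t : ℕ, t ≤ c ∧ x = s + (t : ℤ) • e := by
  unfold row
  rw [mem_image]
  constructor
  · rintro ⟨t, ht, rfl⟩
    exact ⟨t, by rw [mem_range] at ht; omega, rfl⟩
  · rintro ⟨t, ht, rfl⟩
    exact ⟨t, by rw [mem_range]; omega, rfl⟩

/-- the height -/
private noncomputable def rhgt (a b : ℤ) (s : V) (μ κ : ℝ) (x : V) : ℝ :=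
  μ * ((a * (x.1 - s.1) + b * (x.2 - s.2) : ℤ) : ℝ) +
    κ * (((a * (x.1 - s.1) + b * (x.2 - s.2) : ℤ) : ℝ) *
      (((a * (x.1 - s.1) + b * (x.2 - s.2) : ℤ) : ℝ) + 1))

private theorem rhgt_eq {a b : ℤ} {e : V} (hab : a * e.1 + b * e.2 = 1) (s : V) (μ κ : ℝ) (t : ℕ) :
    rhgt a b s μ κ (s + (t : ℤ) • e) = μ * t + κ * (t * (t + 1)) := by
  unfold rhgt
  have h1 : a * ((s + (t : ℤ) • e).1 - s.1) + b * ((s + (t : ℤ) • e).2 - s.2) = t := by
    simp only [Prod.fst_add, Prod.snd_add, Prod.smul_fst, Prod.smul_snd, smul_eq_mul]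
    linear_combination (t : ℤ) * hab
  rw [h1]
  push_cast
  ring

private theorem rdotR_row (A : ℝ × ℝ) (e s : V) (t : ℕ) :
    dotR A (s + (t : ℤ) • e) = dotR A s + t * dotR A e := by
  unfold dotR
  simp only [Prod.fst_add, Prod.snd_add, Prod.smul_fst, Prod.smul_snd, smul_eq_mul]
  push_cast
  ring

private theorem rarg_key {a b : ℤ} {e : V} (hab : a * e.1 + b * e.2 = 1) (s : V) {μ κ : ℝ} (hκ : 0 < κ)
    (c : ℕ) (A : ℝ × ℝ) {t t' : ℕ} (htt : t < t') (ht' : t' ≤ c)
    (hp : s + (t : ℤ) • e ∈ arg (row e s c) (rhgt a b s μ κ) A)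
    (hq : s + (t' : ℤ) • e ∈ arg (row e s c) (rhgt a b s μ κ) A) :
    t' = t + 1 ∧ dotR A e = μ + κ * (2 * (t + 1)) := by
  unfold arg at hp hq
  rw [mem_filter] at hp hq
  have h1 := hp.2 _ hq.1
  have h2 := hq.2 _ hp.1
  have h3 := hp.2 (s + ((t + 1 : ℕ) : ℤ) • e) (rmem.2 ⟨t + 1, by omega, rfl⟩)
  rw [rhgt_eq hab, rhgt_eq hab, rdotR_row, rdotR_row] at h1 h2 h3
  push_cast at h3
  have hlt : (t : ℝ) < t' := by exact_mod_cast htt
  have h4 : ((t' : ℝ) - t) * (μ + κ * (t + t' + 1) - dotR A e) = 0 := by linarith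
  have h5 : μ + κ * (t + t' + 1) - dotR A e = 0 := by
    rcases mul_eq_zero.1 h4 with h | h
    · linarith
    · exact h
  have h6 : t' = t + 1 := by
    by_contra hne
    have h7 : t + 2 ≤ t' := by omega
    have h8 : (t : ℝ) + 2 ≤ t' := by exact_mod_cast h7
    nlinarith
  refine ⟨h6, ?_⟩
  rw [h6] at h5
  push_cast at h5
  linarith

/-- the argument set has at most two elements -/
private theorem rarg_two {a b : ℤ} {e : V} (hab : a * e.1 + b * e.2 = 1) (s : V) {μ κ : ℝ} (hκ : 0 < κ)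
    (c : ℕ) (A : ℝ × ℝ) {x y : V} (hx : x ∈ arg (row e s c) (rhgt a b s μ κ) A)
    (hy : y ∈ arg (row e s c) (rhgt a b s μ κ) A) (hxy : x ≠ y) :
    ∃ t : ℕ, t + 1 ≤ c ∧ dotR A e = μ + κ * (2 * (t + 1)) ∧
      arg (row e s c) (rhgt a b s μ κ) A = {s + (t : ℤ) • e, s + (t : ℤ) • e + e} := by
  have hmem : ∀ z, z ∈ arg (row e s c) (rhgt a b s μ κ) A → ∃ t : ℕ, t ≤ c ∧ z = s + (t : ℤ) • e := by
    intro z hz
    unfold arg at hz
    exact rmem.1 (mem_filter.1 hz).1
  have main : ∀ t t' : ℕ, t < t' → t' ≤ c → s + (t : ℤ) • e ∈ arg (row e s c) (rhgt a b s μ κ) A →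
      s + (t' : ℤ) • e ∈ arg (row e s c) (rhgt a b s μ κ) A →
      ∃ t : ℕ, t + 1 ≤ c ∧ dotR A e = μ + κ * (2 * (t + 1)) ∧
      arg (row e s c) (rhgt a b s μ κ) A = {s + (t : ℤ) • e, s + (t : ℤ) • e + e} := by
    intro t t' htt ht' h1 h2
    obtain ⟨h3, h4⟩ := rarg_key hab s hκ c A htt ht' h1 h2
    refine ⟨t, by omega, h4, ?_⟩
    have h5 : s + (t : ℤ) • e + e = s + ((t + 1 : ℕ) : ℤ) • e := by
      push_cast
      rw [add_smul, one_smul, add_assoc]
    ext z
    rw [mem_insert, mem_singleton]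
    constructor
    · intro hz
      obtain ⟨t'', ht'', rfl⟩ := hmem z hz
      rcases lt_trichotomy t'' t with h6 | h6 | h6
      · exfalso
        have h7 := rarg_key hab s hκ c A h6 (by omega) hz h1
        have h8 : (t'' : ℝ) < t := by exact_mod_cast h6
        have h9 : κ * (2 * ((t'' : ℝ) + 1)) = κ * (2 * (t + 1)) := by linarith [h7.2]
        have h10 := mul_left_cancel₀ hκ.ne' h9
        linarith
      · left; rw [h6]
      · right
        have h7 := rarg_key hab s hκ c A h6 ht'' h1 hz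
        rw [h5, h7.1]
    · rintro (rfl | rfl)
      · exact h1
      · rw [h5, ← h3]
        exact h2
  obtain ⟨t, ht, rfl⟩ := hmem x hx
  obtain ⟨t', ht', rfl⟩ := hmem y hy
  rcases lt_trichotomy t t' with h | h | h
  · exact main t t' h ht' hx hy
  · exact absurd (by rw [h]) hxy
  · exact main t' t h ht hy hx

theorem base_pp {e : V} (he : Prim e) {B : Finset V} {ω' : V → ℝ} (hB : ∀ a, UniV (arg B ω' a)) {α β : ℝ}
    (hαβ : α < β) (hPP : PPv B ω' e α β) (s : V) (c : ℕ) :
    ∃ (ω : V → ℝ) (μ : ℝ), α < μ ∧ Good2 (row e s c) B ω ω' ∧ PPv (row e s c) ω e α μ := by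
  classical
  have he' := he
  obtain ⟨a, b, hab⟩ := he
  obtain ⟨μ, hμ⟩ : ∃ μ : ℝ, μ = (α + β) / 2 := ⟨_, rfl⟩
  have hαμ : α < μ := by linarith
  have hμβ : μ < β := by linarith
  obtain ⟨κ, hκ⟩ : ∃ κ : ℝ, κ = (β - μ) / (2 * ((c : ℝ) + 1)) := ⟨_, rfl⟩
  have hc : (0 : ℝ) < (c : ℝ) + 1 := by positivity
  have hκ0 : 0 < κ := by
    rw [hκ]
    exact div_pos (by linarith) (by linarith)
  have hκβ : κ * (2 * ((c : ℝ) + 1)) = β - μ := by
    rw [hκ]
    exact div_mul_cancel₀ _ (by linarith)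
  refine ⟨rhgt a b s μ κ, μ, hαμ, ?_, ?_⟩
  · intro A d h0 h1 h2
    have h00 : IsInt (∑ x ∈ arg (row e s c) (rhgt a b s μ κ) A, d 0 x) := h0 0
    have h01 : IsInt (∑ x ∈ arg B ω' A, d 1 x) := h0 1
    have h1' : IsInt (∑ x ∈ arg (row e s c) (rhgt a b s μ κ) A, d 0 x * (x.1 : ℝ) +
        ∑ x ∈ arg B ω' A, d 1 x * (x.1 : ℝ)) := by
      rw [Fin.sum_univ_two] at h1
      exact h1
    have h2' : IsInt (∑ x ∈ arg (row e s c) (rhgt a b s μ κ) A, d 0 x * (x.2 : ℝ) +
        ∑ x ∈ arg B ω' A, d 1 x * (x.2 : ℝ)) := by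
      rw [Fin.sum_univ_two] at h2
      exact h2
    have key : (∀ x ∈ arg (row e s c) (rhgt a b s μ κ) A, IsInt (d 0 x)) ∧
        ∀ x ∈ arg B ω' A, IsInt (d 1 x) := by
      by_cases hi : ∃ x ∈ arg (row e s c) (rhgt a b s μ κ) A,
        ∃ y ∈ arg (row e s c) (rhgt a b s μ κ) A, x ≠ y
      · obtain ⟨x, hx, y, hy, hxy⟩ := hi
        obtain ⟨t, htc, ht, hC⟩ := rarg_two hab s hκ0 c A hx hy hxy
        have he0 : (s + (t : ℤ) • e) ≠ s + (t : ℤ) • e + e := by
          intro h
          have h3 : e = 0 := by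
            have := congrArg (fun z => z - (s + (t : ℤ) • e)) h
            simpa using this.symm
          rw [h3] at hab
          simp at hab
        obtain ⟨p, hp⟩ : ∃ p, p = s + (t : ℤ) • e := ⟨_, rfl⟩
        rw [← hp] at hC he0
        rw [hC, sum_pair he0] at h00 h1' h2'
        simp only [Prod.fst_add, Prod.snd_add] at h1' h2'
        push_cast at h1' h2'
        have htc' : (t : ℝ) + 1 ≤ c := by exact_mod_cast htc
        have hτ1 : α < dotR A e := by
          rw [ht]
          have : 0 < κ * (2 * ((t : ℝ) + 1)) := by positivity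
          linarith
        have hτ2 : dotR A e < β := by
          rw [ht]
          have : κ * (2 * ((t : ℝ) + 1)) < κ * (2 * ((c : ℝ) + 1)) :=
            mul_lt_mul_of_pos_left (by linarith) hκ0
          linarith
        have hU := hPP A hτ1 hτ2 (d 1) (d 0 (p + e)) h01
          (by
            have h3 := rI_sub h1' (rI_mul h00 (rI_int p.1))
            have h4 : d 0 p * (p.1 : ℝ) + d 0 (p + e) * ((p.1 : ℝ) + (e.1 : ℝ)) +
                ∑ x ∈ arg B ω' A, d 1 x * (x.1 : ℝ) - (d 0 p + d 0 (p + e)) * (p.1 : ℝ) =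
                ∑ x ∈ arg B ω' A, d 1 x * (x.1 : ℝ) + d 0 (p + e) * (e.1 : ℝ) := by ring
            rwa [h4] at h3)
          (by
            have h3 := rI_sub h2' (rI_mul h00 (rI_int p.2))
            have h4 : d 0 p * (p.2 : ℝ) + d 0 (p + e) * ((p.2 : ℝ) + (e.2 : ℝ)) +
                ∑ x ∈ arg B ω' A, d 1 x * (x.2 : ℝ) - (d 0 p + d 0 (p + e)) * (p.2 : ℝ) =
                ∑ x ∈ arg B ω' A, d 1 x * (x.2 : ℝ) + d 0 (p + e) * (e.2 : ℝ) := by ring
            rwa [h4] at h3)
        refine ⟨?_, hU.1⟩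
        have m4 : IsInt (d 0 p) := by
          have := rI_sub h00 hU.2
          rwa [add_sub_cancel_right] at this
        intro x hx
        rw [hC, mem_insert, mem_singleton] at hx
        rcases hx with rfl | rfl
        · exact m4
        · exact hU.2
      · have hone : ∀ x ∈ arg (row e s c) (rhgt a b s μ κ) A, IsInt (d 0 x) := by
          intro x hx
          have h3 : arg (row e s c) (rhgt a b s μ κ) A = {x} := by
            ext y
            rw [mem_singleton]
            constructor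
            · intro hy
              by_contra hne
              exact hi ⟨y, hy, x, hx, hne⟩
            · rintro rfl
              exact hx
          rw [h3, sum_singleton] at h00
          exact h00
        refine ⟨hone, ?_⟩
        refine hB A (d 1) h01 ?_ ?_
        · have h3 := rI_sub h1' (rI_sum _ fun x hx => rI_mul (hone x hx) (rI_int x.1))
          rwa [add_sub_cancel_left] at h3
        · have h3 := rI_sub h2' (rI_sum _ fun x hx => rI_mul (hone x hx) (rI_int x.2))
          rwa [add_sub_cancel_left] at h3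
    intro i
    fin_cases i
    · exact key.1
    · exact key.2
  · intro A h1 h2
    have hs : s ∈ row e s c := rmem.2 ⟨0, Nat.zero_le _, by simp⟩
    have h0 : rhgt a b s μ κ s - dotR A s = - dotR A s := by
      have h3 := rhgt_eq hab s μ κ 0
      simp only [Nat.cast_zero, zero_smul, add_zero, mul_zero, zero_mul] at h3
      rw [h3]
      ring
    have hval : ∀ t : ℕ, 0 < t → rhgt a b s μ κ s - dotR A s <
        rhgt a b s μ κ (s + (t : ℤ) • e) - dotR A (s + (t : ℤ) • e) := by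
      intro t ht
      rw [h0, rhgt_eq hab, rdotR_row]
      have ht' : (0 : ℝ) < t := by exact_mod_cast ht
      have h3 : 0 < t * (μ - dotR A e) := mul_pos ht' (by linarith)
      have h4 : 0 < κ * (t * ((t : ℝ) + 1)) := by positivity
      nlinarith
    have hC : arg (row e s c) (rhgt a b s μ κ) A = {s} := by
      ext y
      rw [mem_singleton]
      constructor
      · intro hy
        unfold arg at hy
        rw [mem_filter] at hy
        obtain ⟨t, htc, rfl⟩ := rmem.1 hy.1
        rcases Nat.eq_zero_or_pos t with h3 | h3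
        · rw [h3]; simp
        · exact absurd (hy.2 s hs) (not_le.2 (hval t h3))
      · rintro rfl
        unfold arg
        rw [mem_filter]
        refine ⟨hs, fun z hz => ?_⟩
        obtain ⟨t, htc, rfl⟩ := rmem.1 hz
        rcases Nat.eq_zero_or_pos t with h3 | h3
        · rw [h3]; simp
        · exact (hval t h3).le
    rw [hC]
    exact uev1 he'

end Pool.Agent.SPK
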