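import Pool.Agent.SPK.Facets
import Pool.Agent.SPK.GroP
import Pool.Agent.SPK.BotF
import Pool.Agent.SPK.BotG
import Pool.Agent.SPK.Bot
import Pool.Agent.SPK.BotC
import Pool.Agent.SPK.Cho
import Pool.Agent.SPK.El

/-!
# [SPK-Sl] the step
-/

open Finset Pool.Agent.SPB

set_option autoImplicit false

namespace Pool.Agent.SPK

variable {A : Finset W}

private theorem level_lift {z : ℤ} {B : Finset V} (hB : ∀ x, x ∈ B ↔ pt x z ∈ A) :
    A.filter (fun x => x 2 = z) = lift B z := by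
  ext x
  rw [Finset.mem_filter, mem_lift, hB]
  constructor
  · rintro ⟨h1, h2⟩
    exact ⟨h2, by rw [← h2, pt_eta]; exact h1⟩
  · rintro ⟨h1, h2⟩
    rw [← h1, pt_eta] at h2
    exact ⟨h2, h1⟩

private theorem glue_pp {A₀ : Finset V} {e : V} {ω : V → ℝ} {α β : ℝ} (h : PPv A₀ ω e α β) (N : ℝ)
    (w' : W → ℝ) : PPi (lift A₀ 0) (glue N ω w') (pt e 0) α β := by
  have h1 : PPi (lift A₀ 0) (fun x => ω (x 0, x 1)) (pt e 0) α β := PPi_lift.2 h
  refine PPi.congr (N := N) ?_ h1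
  intro x hx
  have h2 := (mem_lift.1 hx).1
  simp only [glue, h2, if_true]
  ring

theorem sl (hA : Bt A) {w' : W → ℝ} (hw : RU (up A) w')
    (hB : NonCol (A.filter (fun x => x 2 = 1)) → OK (A.filter (fun x => x 2 = 1)) w')
    (hup : ∀ n c, Fac A n c → NonCol (up (Face A n c)) → OK (up (Face A n c)) w') : ∃ w, GP A w := by
  obtain ⟨F, h, A₀, B, hD⟩ := exists_BD hA
  have hE : EdgeNorm F B := hD.edgeB hA
  have hUB : ∀ a, UniV (arg B (fun x => w' (pt x 1)) a) := uniV_level hw hD.mem1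
  rw [level_lift hD.mem1] at hB
  have key : ∃ ω : V → ℝ, Good2 A₀ B ω (fun x => w' (pt x 1)) ∧
      ∀ N, OK (lift A₀ 0) (glue N ω w') := by
    rcases choose_u hA hD hw hB with ⟨v, v', x, hF3, hsum, hdet⟩ | ⟨u, hu, hu', α, β, hαβ, hPP⟩
    · obtain ⟨ω, hω⟩ := grow_tri hD.fan hF3 hsum hD.amp hD.pts hE hUB
      exact ⟨ω, hω, fun N => Or.inl (smooth_tri hD.fan hF3 hsum hdet hD.amp hD.pts 0)⟩
    · obtain ⟨ω, μ, hμ, hω, hPω⟩ := grow_pp hD.fan hu hu' hD.amp hD.pts hE hUB hαβ hPP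
      exact ⟨ω, hω, fun N => Or.inr ⟨_, smooth_rul hD.fan hu hu' hD.amp hD.pts 0, α, μ, hμ,
        glue_pp hPω N w'⟩⟩
  obtain ⟨ω, hω, hbot⟩ := key
  rw [← level_lift hD.mem0] at hbot
  obtain ⟨N₁, h1⟩ := el hA hD hw hω
  obtain ⟨N₂, h2⟩ := facets hA hw hup ω hbot
  exact ⟨glue (max N₁ N₂) ω w', h1 _ (le_max_left _ _), h2 _ (le_max_right _ _)⟩

end Pool.Agent.SPK
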